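import Mathlib

set_option autoImplicit false

open Complex Filter Topology Real

namespace Pool.Agent.P.MP_27a476_gt

theorem ofReal_mul_cpow {x : ℝ} (hx : 0 < x) {z : ℂ} (hz : z ≠ 0) (w : ℂ) :
    ((x : ℂ) * z) ^ w = (x : ℂ) ^ w * z ^ w := by
  have hx' : (x : ℂ) ≠ 0 := ofReal_ne_zero.mpr hx.ne'
  rw [cpow_def_of_ne_zero (mul_ne_zero hx' hz), log_ofReal_mul hx hz, ofReal_log hx.le,
    add_mul, Complex.exp_add, ← cpow_def_of_ne_zero hx', ← cpow_def_of_ne_zero hz]

theorem ofReal_cpow_half {x : ℝ} (hx : 0 ≤ x) : (x : ℂ) ^ (1 / 2 : ℂ) = (√x : ℝ) := by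
  rw [Real.sqrt_eq_rpow, ofReal_cpow hx]
  push_cast
  rfl

/-- Gaussian sums over one residue class. -/
theorem tendsto_class {ι : Type*} {l : Filter ι} {s : ι → ℂ} (hs : ∀ t, 0 < (s t).re)
    (hlim : Tendsto (fun t => ((s t)⁻¹).re) l atTop) (N : ℕ) (hN : 0 < N) (δ : ℝ) :
    Tendsto (fun t => (s t) ^ (1 / 2 : ℂ) * ∑' m : ℤ, cexp (-π * s t * (N * m + δ) ^ 2)) l
      (𝓝 (1 / N)) := by
  have hN' : (N : ℂ) ≠ 0 := by exact_mod_cast hN.ne'
  have hNr : (0:ℝ) < N := by exact_mod_cast hN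
  have key : ∀ t, (s t) ^ (1 / 2 : ℂ) * ∑' m : ℤ, cexp (-π * s t * (N * m + δ) ^ 2) =
      1 / N * ∑' k : ℤ, cexp (-π * ((s t)⁻¹ / N ^ 2) * k ^ 2 + 2 * π * I * k * δ / N) := by
    intro t
    have hs0 : s t ≠ 0 := by
      intro h
      have := hs t
      simp [h] at this
    have ha : 0 < (s t * N ^ 2).re := by
      have : (s t * N ^ 2).re = (s t).re * N ^ 2 := by
        rw [show ((N : ℂ) ^ 2) = ((N ^ 2 : ℝ) : ℂ) by push_cast; rfl, re_mul_ofReal]
      rw [this]
      have := hs t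
      positivity
    have h1 := Complex.tsum_exp_neg_quadratic ha (-(s t * N * δ))
    have h2 : ∀ m : ℤ, cexp (-π * s t * (N * m + δ) ^ 2) =
        cexp (-π * s t * δ ^ 2) *
          cexp (-π * (s t * N ^ 2) * m ^ 2 + 2 * π * (-(s t * N * δ)) * m) := by
      intro m
      rw [← Complex.exp_add]
      congr 1
      ring
    simp_rw [h2]
    rw [tsum_mul_left, h1]
    have h3 : (s t * N ^ 2) ^ (1 / 2 : ℂ) = (s t) ^ (1 / 2 : ℂ) * N := by
      rw [mul_comm, show ((N : ℂ) ^ 2) = ((N ^ 2 : ℝ) : ℂ) by push_cast; rfl,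
        ofReal_mul_cpow (by positivity) hs0, ofReal_cpow_half (by positivity),
        Real.sqrt_sq hNr.le, mul_comm]
      simp
    have h4 : (s t) ^ (1 / 2 : ℂ) ≠ 0 := by
      rw [Ne, cpow_eq_zero_iff]
      simp [hs0]
    rw [h3]
    have h5 : ∀ k : ℤ, cexp (-π * ((s t)⁻¹ / N ^ 2) * k ^ 2 + 2 * π * I * k * δ / N) =
        cexp (-π * s t * δ ^ 2) * cexp (-π / (s t * N ^ 2) * (k + I * -(s t * N * δ)) ^ 2) := by
      intro k
      rw [← Complex.exp_add]
      congr 1
      field_simp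
      linear_combination (s t ^ 2 * N ^ 2 * δ ^ 2) * I_mul_I
    simp_rw [h5]
    rw [tsum_mul_left]
    field_simp
  simp_rw [key]
  have h6 : Tendsto (fun t => ∑' k : ℤ,
      cexp (-π * ((s t)⁻¹ / N ^ 2) * k ^ 2 + 2 * π * I * k * δ / N)) l
      (𝓝 (∑' k : ℤ, if k = 0 then (1:ℂ) else 0)) := by
    have hnorm : ∀ t (k : ℤ), ‖cexp (-π * ((s t)⁻¹ / N ^ 2) * k ^ 2 + 2 * π * I * k * δ / N)‖ =
        rexp (-π * (((s t)⁻¹).re / N ^ 2) * k ^ 2) := by
      intro t k
      rw [Complex.norm_exp]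
      congr 1
      have e1 : -π * ((s t)⁻¹ / N ^ 2) * k ^ 2 + 2 * π * I * k * δ / N =
          ((-π / N ^ 2 * k ^ 2 : ℝ) : ℂ) * (s t)⁻¹ + ((2 * π * k * δ / N : ℝ) : ℂ) * I := by
        push_cast
        ring
      rw [e1, add_re, re_ofReal_mul, re_ofReal_mul, I_re]
      ring
    apply tendsto_tsum_of_dominated_convergence (bound := fun k : ℤ => rexp (-π * 1 * k ^ 2))
    · have := summable_pow_mul_jacobiTheta₂_term_bound 0 one_pos 0
      simpa using this
    · intro k
      by_cases hk : k = 0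
      · simpa [hk] using tendsto_const_nhds
      · rw [if_neg hk, tendsto_zero_iff_norm_tendsto_zero]
        simp_rw [hnorm]
        apply Real.tendsto_exp_atBot.comp
        have hk2 : (0:ℝ) < k ^ 2 := by positivity
        have : (fun t => -π * (((s t)⁻¹).re / N ^ 2) * k ^ 2) =
            fun t => ((s t)⁻¹).re * (-(π / N ^ 2 * k ^ 2)) := by
          funext t
          ring
        rw [this]
        apply hlim.atTop_mul_const_of_neg
        have := pi_pos
        rw [neg_lt_zero]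
        positivity
    · filter_upwards [hlim.eventually_ge_atTop ((N:ℝ) ^ 2)] with t ht k
      rw [hnorm]
      apply Real.exp_le_exp.mpr
      have h7 : 1 ≤ ((s t)⁻¹).re / N ^ 2 := by rwa [one_le_div (by positivity)]
      have := pi_pos
      have h8 : 0 ≤ (k:ℝ) ^ 2 := sq_nonneg _
      nlinarith [mul_nonneg this.le h8]
  rw [tsum_ite_eq] at h6
  simpa using h6.const_mul (1 / (N:ℂ))

theorem summable_class {s : ℂ} (hs : 0 < s.re) (N : ℕ) (hN : 0 < N) (δ : ℝ) :
    Summable fun m : ℤ => cexp (-π * s * (N * m + δ) ^ 2) := by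
  have hNr : (0:ℝ) < N := by exact_mod_cast hN
  have h1 : 0 < (I * (s * N ^ 2)).im := by
    rw [show ((N : ℂ) ^ 2) = ((N ^ 2 : ℝ) : ℂ) by push_cast; rfl, I_mul_im, re_mul_ofReal]
    positivity
  have h2 := ((summable_jacobiTheta₂_term_iff (I * (s * N * δ)) _).mpr h1).mul_left
    (cexp (-π * s * δ ^ 2))
  refine h2.congr fun m => ?_
  rw [jacobiTheta₂_term, ← Complex.exp_add]
  congr 1
  linear_combination (2 * π * m * s * N * δ + π * m ^ 2 * s * N ^ 2) * I_mul_I

/-- Abel-type mean of a periodic sequence. -/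
theorem tendsto_periodic {ι : Type*} {l : Filter ι} {s : ι → ℂ} (hs : ∀ t, 0 < (s t).re)
    (hlim : Tendsto (fun t => ((s t)⁻¹).re) l atTop) (N : ℕ) (hN : 0 < N) (γ : ℝ)
    {φ : ℤ → ℂ} (hφ : ∀ n m : ℤ, φ (N * m + n) = φ n) :
    Tendsto (fun t => (s t) ^ (1 / 2 : ℂ) * ∑' n : ℤ, φ n * cexp (-π * s t * (n - γ) ^ 2)) l
      (𝓝 (1 / N * ∑ j ∈ Finset.range N, φ j)) := by
  have hNz : (0:ℤ) < N := by exact_mod_cast hN
  have key : ∀ t, ∑' n : ℤ, φ n * cexp (-π * s t * (n - γ) ^ 2) =
      ∑ j ∈ Finset.range N, φ j * ∑' m : ℤ, cexp (-π * s t * (N * m + (j - γ : ℝ)) ^ 2) := by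
    intro t
    apply HasSum.tsum_eq
    have h1 : ∀ j ∈ Finset.range N, HasSum
        (fun n : ℤ => if n % N = j then φ n * cexp (-π * s t * (n - γ) ^ 2) else 0)
        (φ j * ∑' m : ℤ, cexp (-π * s t * (N * m + (j - γ : ℝ)) ^ 2)) := by
      intro j hj
      have hj' : (j:ℤ) < N := by exact_mod_cast Finset.mem_range.mp hj
      have hinj : Function.Injective fun m : ℤ => (N:ℤ) * m + j := by
        intro a b hab
        simpa [hN.ne'] using hab
      rw [← hinj.hasSum_iff]
      · have := ((summable_class (hs t) N hN (j - γ)).hasSum).mul_left (φ j)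
        refine Eq.mpr (congrArg (fun g => HasSum g _) (funext fun m => ?_)) this
        simp only [Function.comp_apply]
        rw [if_pos, hφ]
        · congr 2
          push_cast
          ring
        · rw [add_comm, Int.add_mul_emod_self_left, Int.emod_eq_of_lt (by positivity) hj']
      · intro n hn
        rw [if_neg]
        intro h
        apply hn
        exact ⟨n / N, by simp only; rw [← h]; exact Int.mul_ediv_add_emod n N⟩
    convert hasSum_sum h1 using 2 with n
    rw [Finset.sum_eq_single (n % N).toNat]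
    · rw [if_pos]
      rw [Int.toNat_of_nonneg (Int.emod_nonneg _ hNz.ne')]
    · intro j _ hj
      rw [if_neg]
      intro h
      apply hj
      rw [h]
      simp
    · intro h
      exfalso
      apply h
      rw [Finset.mem_range]
      have := Int.emod_lt_of_pos n hNz
      have := Int.emod_nonneg n hNz.ne'
      omega
  simp_rw [key, Finset.mul_sum]
  apply tendsto_finsetSum
  intro j _
  have := (tendsto_class hs hlim N hN (j - γ)).const_mul (φ j)
  rw [mul_comm] at this
  refine this.congr fun t => ?_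
  ring

/-- Reciprocity for quadratic Gauss sums. -/
theorem gauss_reciprocity (N : ℕ) (hN : 0 < N) (a : ℤ) (ha : a ≠ 0) (b : ℤ)
    (hab : Even (a * N + b)) :
    (-I * a / N) ^ (1 / 2 : ℂ) * ∑ j ∈ Finset.range N, cexp (π * I * (a * j ^ 2 + b * j) / N) =
      cexp (-π * I * b ^ 2 / (4 * a * N)) *
        ∑ n ∈ Finset.range a.natAbs, cexp (-π * I * (N * n ^ 2 - b * n) / a) := by
  have hN' : (N : ℂ) ≠ 0 := by exact_mod_cast hN.ne'
  have hNr : (0:ℝ) < N := by exact_mod_cast hN
  have ha' : (a : ℂ) ≠ 0 := by exact_mod_cast ha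
  have har : (a : ℝ) ≠ 0 := by exact_mod_cast ha
  have hA : 0 < a.natAbs := Int.natAbs_pos.mpr ha
  obtain ⟨c, hc⟩ := hab
  have hc' : (b : ℂ) = 2 * c - a * N := by
    have : b = 2 * c - a * N := by linarith
    exact_mod_cast this
  set φ : ℤ → ℂ := fun n => cexp (π * I * (a * n ^ 2 + b * n) / N) with hφ
  set ψ : ℤ → ℂ := fun n => cexp (-π * I * b ^ 2 / (4 * a * N)) *
    cexp (-π * I * (N * n ^ 2 - b * n) / a) with hψ
  have hφp : ∀ n m : ℤ, φ (N * m + n) = φ n := by
    intro n m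
    obtain ⟨e, he⟩ := Int.even_mul_pred_self m
    have he' : (m : ℂ) * (m - 1) = e + e := by exact_mod_cast he
    simp only [hφ]
    rw [exp_eq_exp_iff_exists_int]
    refine ⟨a * m * n + c * m + a * N * e, ?_⟩
    push_cast
    rw [hc']
    field_simp
    linear_combination (a * N ^ 2) * he'
  have hψp : ∀ n m : ℤ, ψ (a.natAbs * m + n) = ψ n := by
    have aux : ∀ n m : ℤ, ψ (a * m + n) = ψ n := by
      intro n m
      obtain ⟨e, he⟩ := Int.even_mul_succ_self m
      have he' : (m : ℂ) * (m + 1) = e + e := by exact_mod_cast he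
      simp only [hψ]
      congr 1
      rw [exp_eq_exp_iff_exists_int]
      refine ⟨-(N * m * n) + c * m - a * N * e, ?_⟩
      push_cast
      rw [hc']
      field_simp
      linear_combination (-(a ^ 2 * N)) * he'
    intro n m
    rcases Int.natAbs_eq a with h | h
    · rw [← h]
      exact aux n m
    · have : (a.natAbs : ℤ) * m = a * (-m) := by
        conv_rhs => rw [h]
        ring
      rw [this]
      exact aux n (-m)
  let T := {t : ℝ // 0 < t}
  let l : Filter T := comap Subtype.val (𝓝[>] 0)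
  have hl0 : Tendsto (fun t : T => (t : ℝ)) l (𝓝[>] 0) := tendsto_comap
  have : l.NeBot := by
    apply comap_neBot
    intro U hU
    obtain ⟨t, ht1, ht2⟩ := (Filter.inter_mem hU self_mem_nhdsWithin : U ∩ Set.Ioi 0 ∈ 𝓝[>] (0:ℝ))
      |> Filter.nonempty_of_mem
    exact ⟨⟨t, ht2⟩, ht1⟩
  have hlinv : Tendsto (fun t : T => (t : ℝ)⁻¹) l atTop := tendsto_inv_nhdsGT_zero.comp hl0
  have hl0' : Tendsto (fun t : T => ((t : ℝ) : ℂ)) l (𝓝 0) := by
    have := (continuous_ofReal.tendsto 0).comp (hl0.mono_right nhdsWithin_le_nhds)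
    simpa [Function.comp_def] using this
  -- left side
  have L1 := tendsto_periodic (l := l) (s := fun t : T => ((t : ℝ) : ℂ)) (fun t => by simpa using t.2)
    (by simpa using hlinv) N hN 0 hφp
  -- right side
  set u : T → ℂ := fun t => I * a / N + a ^ 2 / (N ^ 2 * (t : ℝ)) with hu
  have hure : ∀ t : T, (u t).re = (a:ℝ) ^ 2 / N ^ 2 * (t : ℝ)⁻¹ := by
    intro t
    have : u t = ((a / N : ℝ) : ℂ) * I + (((a:ℝ) ^ 2 / N ^ 2 * (t : ℝ)⁻¹ : ℝ) : ℂ) := by
      simp only [hu]
      push_cast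
      ring
    rw [this, add_re, re_ofReal_mul, I_re, ofReal_re]
    ring
  have hupos : ∀ t : T, 0 < (u t).re := by
    intro t
    rw [hure]
    have := t.2
    positivity
  have hu0 : ∀ t : T, u t ≠ 0 := by
    intro t h
    have := hupos t
    simp [h] at this
  have hspos : ∀ t : T, 0 < ((u t)⁻¹).re := by
    intro t
    rw [inv_re]
    exact div_pos (hupos t) (normSq_pos.mpr (hu0 t))
  have L2 := tendsto_periodic (l := l) (s := fun t : T => (u t)⁻¹) hspos
    (by
      simp only [inv_inv, hure]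
      exact hlinv.const_mul_atTop (by positivity)) a.natAbs hA (b / (2 * N)) hψp
  have L3 : Tendsto (fun t : T => (((t : ℝ) : ℂ) * u t) ^ (1 / 2 : ℂ)) l
      (𝓝 ((a.natAbs : ℂ) / N)) := by
    have h1 : Tendsto (fun t : T => ((t : ℝ) : ℂ) * u t) l (𝓝 (((a ^ 2 / N ^ 2 : ℝ) : ℂ))) := by
      have h2 := (hl0'.mul_const (I * a / N)).add_const (((a ^ 2 / N ^ 2 : ℝ) : ℂ))
      rw [zero_mul, zero_add] at h2
      refine h2.congr fun t => ?_
      have : ((t : ℝ) : ℂ) ≠ 0 := ofReal_ne_zero.mpr t.2.ne'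
      simp only [hu]
      push_cast
      field_simp
    have h3 := h1.cpow (tendsto_const_nhds (x := (1 / 2 : ℂ)))
      (ofReal_mem_slitPlane.mpr (by positivity))
    rw [ofReal_cpow_half (by positivity), ← div_pow, Real.sqrt_sq_eq_abs, abs_div,
      abs_of_pos hNr] at h3
    convert h3 using 2
    rw [← Int.cast_abs, Int.abs_eq_natAbs, Int.cast_natCast]
    push_cast
    rfl
  have L4 : Tendsto (fun t : T => (((t : ℝ) : ℂ) + -I * a / N) ^ (1 / 2 : ℂ)) l
      (𝓝 ((-I * a / N) ^ (1 / 2 : ℂ))) := by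
    have h1 := hl0'.add_const (-I * a / N)
    rw [zero_add] at h1
    apply h1.cpow tendsto_const_nhds
    right
    have : (-I * a / N) = ((-a / N : ℝ) : ℂ) * I := by
      push_cast
      ring
    rw [this, im_ofReal_mul, I_im, mul_one]
    exact div_ne_zero (neg_ne_zero.mpr har) hNr.ne'
  have E : ∀ t : T, (((t : ℝ) : ℂ) + -I * a / N) ^ (1 / 2 : ℂ) *
      (((t : ℝ) : ℂ) ^ (1 / 2 : ℂ) * ∑' n : ℤ, φ n * cexp (-π * (t : ℝ) * (n - (0:ℝ)) ^ 2)) =
      (((t : ℝ) : ℂ) * u t) ^ (1 / 2 : ℂ) * (((u t)⁻¹) ^ (1 / 2 : ℂ) *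
        ∑' n : ℤ, ψ n * cexp (-π * (u t)⁻¹ * (n - (b / (2 * N) : ℝ)) ^ 2)) := by
    intro t
    have ht0 : ((t : ℝ) : ℂ) ≠ 0 := ofReal_ne_zero.mpr t.2.ne'
    set α : ℂ := ((t : ℝ) : ℂ) + -I * a / N with hα
    have hαre : 0 < α.re := by
      have : α = ((t : ℝ) : ℂ) + ((-a / N : ℝ) : ℂ) * I := by
        simp only [hα]
        push_cast
        ring
      rw [this, add_re, re_ofReal_mul, I_re, ofReal_re]
      simpa using t.2
    have hα0 : α ≠ 0 := by
      intro h
      simp [h] at hαre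
    have h1 := Complex.tsum_exp_neg_quadratic hαre (I * b / (2 * N))
    have h2 : ∀ n : ℤ, φ n * cexp (-π * (t : ℝ) * (n - (0:ℝ)) ^ 2) =
        cexp (-π * α * n ^ 2 + 2 * π * (I * b / (2 * N)) * n) := by
      intro n
      simp only [hφ, hα]
      rw [← Complex.exp_add]
      congr 1
      push_cast
      field_simp
      ring
    have huα : u t = I * a * α / (N * (t : ℝ)) := by
      simp only [hu, hα]
      field_simp
      linear_combination (a : ℂ) * I_mul_I
    have hinv : (u t)⁻¹ = α⁻¹ - I * N / a := by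
      rw [huα]
      have hαN : (N : ℂ) * α = N * (t : ℝ) - I * a := by
        simp only [hα]
        field_simp
        ring
      field_simp
      linear_combination (N * α) * I_mul_I - hαN
    have h3 : ∀ n : ℤ, ψ n * cexp (-π * (u t)⁻¹ * (n - (b / (2 * N) : ℝ)) ^ 2) =
        cexp (-π / α * (n + I * (I * b / (2 * N))) ^ 2) := by
      intro n
      simp only [hψ]
      rw [← Complex.exp_add, ← Complex.exp_add, hinv]
      congr 1
      have : I * (I * b / (2 * N)) = -(b / (2 * N)) := by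
        linear_combination (b / (2 * N) : ℂ) * I_mul_I
      rw [this]
      push_cast
      field_simp
      ring
    simp_rw [h2, h3]
    rw [h1, ofReal_mul_cpow t.2 (hu0 t), inv_cpow]
    · have h4 : α ^ (1 / 2 : ℂ) ≠ 0 := by
        rw [Ne, cpow_eq_zero_iff]
        simp [hα0]
      have h5 : (u t) ^ (1 / 2 : ℂ) ≠ 0 := by
        rw [Ne, cpow_eq_zero_iff]
        simp [hu0 t]
      generalize (∑' n : ℤ, cexp (-π / α * (n + I * (I * b / (2 * N))) ^ 2)) = S
      field_simp
    · intro h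
      have := (arg_eq_pi_iff.mp h).1
      linarith [hupos t]
  have F := tendsto_nhds_unique ((L4.mul L1).congr E) (L3.mul L2)
  have hA' : (a.natAbs : ℂ) ≠ 0 := by exact_mod_cast hA.ne'
  simp only [hφ, hψ, Int.cast_natCast] at F
  rw [← Finset.mul_sum] at F
  field_simp at F
  field_simp
  linear_combination F

end Pool.Agent.P.MP_27a476_gt
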