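import Pool.Agent.P.MP_27a476_gt.Lens

set_option autoImplicit false

open MeasureTheory FreeAbelianGroup
open scoped Quaternion Real

namespace Pool.Agent.P.MP_27a476_gt

/-- Homogeneous chains. -/
abbrev Ch : Type := FreeAbelianGroup (List (unitary ℍ[ℝ]))

/-- The cone operator. -/
noncomputable def cone (y : unitary ℍ[ℝ]) : Ch →+ Ch := FreeAbelianGroup.map (y :: ·)

/-- The translation operator. -/
noncomputable def act (g : unitary ℍ[ℝ]) : Ch →+ Ch := FreeAbelianGroup.map (List.map (g * ·))

/-- The boundary of a simplex. -/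
noncomputable def dd : List (unitary ℍ[ℝ]) → Ch
  | [] => 0
  | y :: x => of x - cone y (dd x)

/-- The boundary operator. -/
noncomputable def bd : Ch →+ Ch := FreeAbelianGroup.lift dd

theorem cone_of (y : unitary ℍ[ℝ]) (l : List (unitary ℍ[ℝ])) : cone y (of l) = of (y :: l) := rfl

theorem act_of (g : unitary ℍ[ℝ]) (l : List (unitary ℍ[ℝ])) :
    act g (of l) = of (l.map (g * ·)) := rfl

theorem bd_of (l : List (unitary ℍ[ℝ])) : bd (of l) = dd l := lift_apply_of _ _

theorem bd_cone (y : unitary ℍ[ℝ]) (c : Ch) : bd (cone y c) = c - cone y (bd c) := by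
  have : bd.comp (cone y) = AddMonoidHom.id _ - (cone y).comp bd := by
    ext l
    simp [cone_of, bd_of, dd]
  exact DFunLike.congr_fun this c

theorem bd_dd (l : List (unitary ℍ[ℝ])) : bd (dd l) = 0 := by
  induction l with
  | nil => simp [dd]
  | cons y x ih => simp [dd, bd_cone, bd_of, ih]

theorem act_cone (g y : unitary ℍ[ℝ]) (c : Ch) : act g (cone y c) = cone (g * y) (act g c) := by
  have : (act g).comp (cone y) = (cone (g * y)).comp (act g) := by
    ext l
    simp [cone_of, act_of]
  exact DFunLike.congr_fun this c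

theorem act_act (g h : unitary ℍ[ℝ]) (c : Ch) : act g (act h c) = act (g * h) c := by
  have : (act g).comp (act h) = act (g * h) := by
    ext l
    simp [act_of, Function.comp_def, mul_assoc]
  exact DFunLike.congr_fun this c

theorem act_dd (g : unitary ℍ[ℝ]) (l : List (unitary ℍ[ℝ])) :
    act g (dd l) = dd (l.map (g * ·)) := by
  induction l with
  | nil => simp [dd]
  | cons y x ih => simp [dd, act_cone, act_of, ih]

theorem act_bd (g : unitary ℍ[ℝ]) (c : Ch) : act g (bd c) = bd (act g c) := by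
  have : (act g).comp bd = bd.comp (act g) := by
    ext l
    simp [bd_of, act_of, act_dd]
  exact DFunLike.congr_fun this c

/-- The set of vertices of a list. -/
def vs (l : List (unitary ℍ[ℝ])) : Set ℍ[ℝ] := {q | ∃ x ∈ l, (x : ℍ[ℝ]) = q}

/-- Linear independence of a list. -/
def Gen : List (unitary ℍ[ℝ]) → Prop
  | [] => True
  | y :: l => Gen l ∧ (y : ℍ[ℝ]) ∉ Submodule.span ℝ (vs l)

theorem Gen.sublist {l l' : List (unitary ℍ[ℝ])} (h : l'.Sublist l) (hl : Gen l) : Gen l' := by
  induction h with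
  | slnil => trivial
  | cons a _ ih => exact ih hl.1
  | cons_cons a h ih =>
    refine ⟨ih hl.1, fun h2 => hl.2 (Submodule.span_mono ?_ h2)⟩
    rintro q ⟨x, hx, rfl⟩
    exact ⟨x, h.subset hx, rfl⟩

theorem gen_map (g : unitary ℍ[ℝ]) (l : List (unitary ℍ[ℝ])) : Gen (l.map (g * ·)) ↔ Gen l := by
  induction l with
  | nil => rfl
  | cons y x ih =>
    refine and_congr ih (not_congr ?_)
    have h1 : vs (x.map (g * ·)) = (lmul g).toLinearEquiv.toLinearMap '' vs x := by
      ext q
      simp only [vs, List.mem_map, Set.mem_ofPred_eq, Set.mem_image]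
      constructor
      · rintro ⟨_, ⟨a, ha, rfl⟩, rfl⟩
        exact ⟨a, ⟨a, ha, rfl⟩, rfl⟩
      · rintro ⟨_, ⟨a, ha, rfl⟩, rfl⟩
        exact ⟨_, ⟨a, ha, rfl⟩, rfl⟩
    rw [h1]
    exact Submodule.apply_mem_span_image_iff_mem_span (f := (lmul g).toLinearEquiv.toLinearMap)
      (x := (y : ℍ[ℝ])) (lmul g).injective

theorem gen_ofFn {n : ℕ} (v : Fin n → unitary ℍ[ℝ]) :
    Gen (List.ofFn v) ↔ LinearIndependent ℝ fun i => (v i : ℍ[ℝ]) := by
  induction n with
  | zero => simp [Gen]
  | succ n ih =>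
    rw [List.ofFn_succ, linearIndependent_finSucc]
    refine and_congr (ih _) (not_congr ?_)
    have : vs (List.ofFn fun i => v (Fin.succ i)) =
        Set.range (Fin.tail fun i => (v i : ℍ[ℝ])) := by
      ext q
      simp [vs, Fin.tail]
    rw [this]

theorem gen_four (a b c d : unitary ℍ[ℝ]) :
    Gen [a, b, c, d] ↔ LinearIndependent ℝ ![(a : ℍ[ℝ]), b, c, d] := by
  have h1 := gen_ofFn ![a, b, c, d]
  have h2 : (fun i => (![a, b, c, d] i : ℍ[ℝ])) = ![(a : ℍ[ℝ]), b, c, d] := by
    funext i
    fin_cases i <;> rfl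
  rw [h2] at h1
  exact h1

/-- The filter of generic points. -/
noncomputable def gen : Filter (unitary ℍ[ℝ]) :=
  (ae (volume : Measure (EuclideanSpace ℝ (Fin 4)))).map
    fun p => nrm (Quaternion.linearIsometryEquivTuple.symm p)

instance : gen.NeBot := Filter.map_neBot

theorem ev_gen {l : List (unitary ℍ[ℝ])} (hl : Gen l) (h : l.length ≤ 3) :
    ∀ᶠ y in gen, Gen (y :: l) := by
  classical
  have h1 := vol_span (l.toFinset.image fun x : unitary ℍ[ℝ] =>
    Quaternion.linearIsometryEquivTuple x) (Finset.card_image_le.trans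
      ((List.toFinset_card_le l).trans h))
  rw [gen, Filter.eventually_map]
  filter_upwards [measure_eq_zero_iff_ae_notMem.mp h1] with p hp
  refine ⟨hl, fun h2 => hp ?_⟩
  by_cases h0 : Quaternion.linearIsometryEquivTuple.symm p = 0
  · rw [LinearIsometryEquiv.map_eq_zero_iff] at h0
    rw [h0]
    exact Submodule.zero_mem _
  · rw [coe_nrm h0, Submodule.smul_mem_iff _ (inv_ne_zero (norm_ne_zero_iff.mpr h0))] at h2
    have h3 := Submodule.apply_mem_span_image_of_mem_span
      Quaternion.linearIsometryEquivTuple.toLinearEquiv.toLinearMap h2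
    have h4 : Quaternion.linearIsometryEquivTuple.toLinearEquiv.toLinearMap
      (Quaternion.linearIsometryEquivTuple.symm p) = p :=
      Quaternion.linearIsometryEquivTuple.apply_symm_apply p
    rw [h4] at h3
    refine Submodule.span_mono ?_ h3
    rintro _ ⟨_, ⟨x, hx, rfl⟩, rfl⟩
    simp only [Finset.coe_image, Set.mem_image]
    exact ⟨x, by simpa using hx, rfl⟩

/-- Chains supported on lists with a given property. -/
def Sp (P : List (unitary ℍ[ℝ]) → Prop) : AddSubgroup Ch := AddSubgroup.closure (of '' {l | P l})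

theorem of_mem {P : List (unitary ℍ[ℝ]) → Prop} {l : List (unitary ℍ[ℝ])} (h : P l) :
    of l ∈ Sp P := AddSubgroup.subset_closure ⟨l, h, rfl⟩

theorem Sp_map {P : List (unitary ℍ[ℝ]) → Prop} (f : Ch →+ Ch) (H : AddSubgroup Ch)
    (h : ∀ l, P l → f (of l) ∈ H) {c : Ch} (hc : c ∈ Sp P) : f c ∈ H := by
  have : Sp P ≤ H.comap f := by
    rw [Sp, AddSubgroup.closure_le]
    rintro _ ⟨l, hl, rfl⟩
    exact h l hl
  exact this hc

theorem Sp_eq {A : Type*} [AddCommGroup A] {P : List (unitary ℍ[ℝ]) → Prop} (f g : Ch →+ A)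
    (h : ∀ l, P l → f (of l) = g (of l)) {c : Ch} (hc : c ∈ Sp P) : f c = g c := by
  refine AddMonoidHom.eqOn_closure (f := f) (g := g) ?_ hc
  rintro _ ⟨l, hl, rfl⟩
  exact h l hl

theorem Sp_ev {A : Type*} [AddCommGroup A] {P : List (unitary ℍ[ℝ]) → Prop}
    (f : unitary ℍ[ℝ] → Ch →+ A) (H : AddSubgroup A)
    (h : ∀ l, P l → ∀ᶠ y in gen, f y (of l) ∈ H) {c : Ch} (hc : c ∈ Sp P) :
    ∀ᶠ y in gen, f y c ∈ H := by
  induction hc using AddSubgroup.closure_induction with
  | mem x hx =>
    obtain ⟨l, hl, rfl⟩ := hx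
    exact h l hl
  | zero => simp
  | add x y _ _ hx hy =>
    filter_upwards [hx, hy] with z h1 h2
    rw [map_add]
    exact H.add_mem h1 h2
  | neg x _ hx =>
    filter_upwards [hx] with z h1
    rw [map_neg]
    exact H.neg_mem h1

theorem dd_mem (l : List (unitary ℍ[ℝ])) :
    dd l ∈ Sp fun l' => l'.Sublist l ∧ l'.length + 1 = l.length := by
  induction l with
  | nil => exact AddSubgroup.zero_mem _
  | cons y x ih =>
    refine AddSubgroup.sub_mem _ (of_mem ⟨List.sublist_cons_self _ _, rfl⟩)
      (Sp_map (cone y) _ (fun l hl => of_mem ⟨hl.1.cons_cons _, ?_⟩) ih)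
    simp [hl.2]

theorem exists_phi (n : ℕ) (hn : n ≤ 4) : ∃ φ : List (unitary ℍ[ℝ]) → Ch,
    (∀ g l, φ (l.map (g * ·)) = act g (φ l)) ∧ ∀ l, l.length ≤ n →
      (Gen l → φ l = of l) ∧ bd (φ l) = FreeAbelianGroup.lift φ (dd l) ∧
        φ l ∈ Sp fun l' => Gen l' ∧ l'.length = l.length := by
  induction n with
  | zero =>
    refine ⟨of, fun _ _ => rfl, fun l hl => ⟨fun _ => rfl, ?_, ?_⟩⟩
    · obtain rfl := List.length_eq_zero_iff.mp (Nat.le_zero.mp hl)
      simp [bd_of, dd]
    · obtain rfl := List.length_eq_zero_iff.mp (Nat.le_zero.mp hl)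
      exact of_mem ⟨trivial, rfl⟩
  | succ n ih =>
    obtain ⟨φ, h1, h2⟩ := ih (by omega)
    classical
    have hlift : ∀ g c, FreeAbelianGroup.lift φ (act g c) = act g (FreeAbelianGroup.lift φ c) := by
      intro g c
      have : (FreeAbelianGroup.lift φ).comp (act g) = (act g).comp (FreeAbelianGroup.lift φ) := by
        ext l
        simp [act_of, h1]
      exact DFunLike.congr_fun this c
    have hy : ∀ l : List (unitary ℍ[ℝ]), ∃ y, l.length = n + 1 →
        cone y (FreeAbelianGroup.lift φ (dd l)) ∈ Sp fun l' => Gen l' ∧ l'.length = n + 1 := by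
      intro l
      by_cases hl : l.length = n + 1
      · have h3 : FreeAbelianGroup.lift φ (dd l) ∈ Sp fun l' => Gen l' ∧ l'.length = n := by
          refine Sp_map _ _ (fun l' hl' => ?_) (dd_mem l)
          have h4 : l'.length = n := by omega
          rw [lift_apply_of, ← h4]
          exact (h2 l' h4.le).2.2
        obtain ⟨y, hy⟩ := (Sp_ev cone (Sp fun l' => Gen l' ∧ l'.length = n + 1)
          (fun l' hl' => by
            filter_upwards [ev_gen hl'.1 (by omega)] with y hy
            exact of_mem ⟨hy, by simp [hl'.2]⟩) h3).exists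
        exact ⟨y, fun _ => hy⟩
      · exact ⟨1, fun h => absurd h hl⟩
    choose y hy using hy
    set ψ : List (unitary ℍ[ℝ]) → Ch := fun l => cone (y l) (FreeAbelianGroup.lift φ (dd l))
      with hψ
    set φ' : List (unitary ℍ[ℝ]) → Ch := fun l => if l.length ≤ n then φ l else
      if Gen l then of l else act (l.headD 1) (ψ (l.map ((l.headD 1)⁻¹ * ·))) with hφ'
    have hlow : ∀ l : List (unitary ℍ[ℝ]), l.length ≤ n + 1 →
        FreeAbelianGroup.lift φ' (dd l) = FreeAbelianGroup.lift φ (dd l) := by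
      intro l hl
      refine Sp_eq _ _ (fun l' hl' => ?_) (dd_mem l)
      rw [lift_apply_of, lift_apply_of, hφ']
      exact if_pos (by omega)
    refine ⟨φ', fun g l => ?_, fun l hl => ?_⟩
    · simp only [hφ', List.length_map, gen_map]
      split_ifs with a1 a2
      · exact h1 g l
      · rfl
      · cases l with
        | nil => simp at a1
        | cons x t => simp [act_act, Function.comp_def, mul_assoc]
    · rw [hlow l hl]
      by_cases a1 : l.length ≤ n
      · have : φ' l = φ l := if_pos a1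
        rw [this]
        exact h2 l a1
      · have a2 : l.length = n + 1 := by omega
        by_cases a3 : Gen l
        · have : φ' l = of l := (if_neg a1).trans (if_pos a3)
          rw [this]
          refine ⟨fun _ => rfl, ?_, of_mem ⟨a3, rfl⟩⟩
          rw [bd_of]
          refine Sp_eq (AddMonoidHom.id _) _ (fun l' hl' => ?_) (dd_mem l)
          rw [lift_apply_of, (h2 l' (by omega)).1 (a3.sublist hl'.1)]
          rfl
        · have : φ' l = act (l.headD 1) (ψ (l.map ((l.headD 1)⁻¹ * ·))) :=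
            (if_neg a1).trans (if_neg a3)
          rw [this]
          generalize l.headD 1 = x
          refine ⟨fun h => absurd h a3, ?_, ?_⟩
          · have b1 : bd (FreeAbelianGroup.lift φ (dd (l.map (x⁻¹ * ·)))) = 0 := by
              have := Sp_eq (bd.comp (FreeAbelianGroup.lift φ))
                ((FreeAbelianGroup.lift φ).comp bd) (fun l' hl' => ?_)
                (dd_mem (l.map (x⁻¹ * ·)))
              · simpa [bd_dd] using this
              · rw [List.length_map] at hl'
                simpa [bd_of] using (h2 l' (by omega)).2.1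
            rw [← act_bd, hψ]
            simp only
            rw [bd_cone, b1, map_zero, sub_zero, ← hlift, act_dd]
            simp [Function.comp_def]
          · refine Sp_map _ _ (fun l' hl' => of_mem ⟨(gen_map _ _).mpr hl'.1, ?_⟩)
              (hy (l.map (x⁻¹ * ·)) (by simpa using a2))
            simp [hl'.2, a2]

/-- The signed volume of a list. -/
noncomputable def svl : List (unitary ℍ[ℝ]) → UnitAddCircle
  | [a, b, c, d] => (svol ![a, b, c, d] : ℝ)
  | _ => 0

/-- The signed volume of a chain. -/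
noncomputable def SV : Ch →+ UnitAddCircle := FreeAbelianGroup.lift svl

theorem len_four {l : List (unitary ℍ[ℝ])} (h : l.length = 4) : ∃ a b c d, l = [a, b, c, d] := by
  match l, h with
  | [a, b, c, d], _ => exact ⟨a, b, c, d, rfl⟩

theorem SV_act (g : unitary ℍ[ℝ]) {c : Ch} (hc : c ∈ Sp fun l => Gen l ∧ l.length = 4) :
    SV (act g c) = SV c := by
  refine Sp_eq (SV.comp (act g)) SV (fun l hl => ?_) hc
  obtain ⟨a, b, c, d, rfl⟩ := len_four hl.2
  simp only [SV, AddMonoidHom.comp_apply, act_of, lift_apply_of, List.map, svl]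
  rw [← svol_mul g ![a, b, c, d]]
  congr 2
  funext i
  fin_cases i <;> rfl

theorem dd_four (a b c d : unitary ℍ[ℝ]) :
    dd [a, b, c, d] = of [b, c, d] - of [a, c, d] + of [a, b, d] - of [a, b, c] := by
  simp only [dd, map_sub, cone_of, map_zero]
  abel

theorem dd_five (a b c d e : unitary ℍ[ℝ]) :
    dd [a, b, c, d, e] =
      of [b, c, d, e] - of [a, c, d, e] + of [a, b, d, e] - of [a, b, c, e] + of [a, b, c, d] := by
  simp only [dd, map_sub, cone_of, map_zero]
  abel

theorem SV_cycle {c : Ch} (hc : c ∈ Sp fun l => Gen l ∧ l.length = 4) (h : bd c = 0) :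
    SV c = 0 := by
  suffices key : ∀ l, Gen l ∧ l.length = 4 →
      ∀ᶠ y in gen, (SV - SV.comp ((cone y).comp bd)) (of l) ∈ (⊥ : AddSubgroup UnitAddCircle) by
    obtain ⟨y, hy⟩ := (Sp_ev (fun y => SV - SV.comp ((cone y).comp bd)) ⊥ key hc).exists
    simpa [h] using hy
  · intro l hl
    obtain ⟨a, b, c, d, rfl⟩ := len_four hl.2
    filter_upwards [ev_gen (l := [b, c, d]) (hl.1.sublist (by simp)) le_rfl,
      ev_gen (l := [a, c, d]) (hl.1.sublist (by simp)) le_rfl,
      ev_gen (l := [a, b, d]) (hl.1.sublist (by simp)) le_rfl,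
      ev_gen (l := [a, b, c]) (hl.1.sublist (by simp)) le_rfl] with y h1 h2 h3 h4
    have hf : ∀ i : Fin 5, (fun j => ![(y : ℍ[ℝ]), a, b, c, d] (i.succAbove j)) =
        ![![(a : ℍ[ℝ]), b, c, d], ![(y : ℍ[ℝ]), b, c, d], ![(y : ℍ[ℝ]), a, c, d],
          ![(y : ℍ[ℝ]), a, b, d], ![(y : ℍ[ℝ]), a, b, c]] i := by
      intro i
      funext j
      fin_cases i <;> fin_cases j <;> rfl
    obtain ⟨n, hn⟩ := svol_cocycle ![(y : ℍ[ℝ]), a, b, c, d] fun i => by
      rw [hf]
      fin_cases i
      exacts [(gen_four _ _ _ _).mp hl.1, (gen_four _ _ _ _).mp h1, (gen_four _ _ _ _).mp h2,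
        (gen_four _ _ _ _).mp h3, (gen_four _ _ _ _).mp h4]
    simp only [hf, Fin.sum_univ_five, Matrix.cons_val] at hn
    have h5 : ((n : ℝ) : UnitAddCircle) = 0 := by
      rw [AddCircle.coe_eq_zero_iff]
      exact ⟨n, by simp⟩
    simp only [AddSubgroup.mem_bot, AddMonoidHom.sub_apply, AddMonoidHom.comp_apply, bd_of,
      dd_four, map_sub, map_add, cone_of, SV, lift_apply_of, svl]
    rw [← h5, ← hn, ← AddCircle.coe_sub, ← AddCircle.coe_add, ← AddCircle.coe_sub,
      ← AddCircle.coe_sub]
    congr 1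
    norm_num
    ring

theorem exists_ccs : ∃ w, IsCCS w := by
  obtain ⟨φ, h1, h2⟩ := exists_phi 4 le_rfl
  refine ⟨fun a b c => SV (φ [1, a, a * b, a * b * c]), fun a b c d => ?_, fun a b c h => ?_⟩
  · have h3 : FreeAbelianGroup.lift φ (dd [1, a, a * b, a * b * c, a * b * c * d]) ∈
        Sp fun l => Gen l ∧ l.length = 4 := by
      refine Sp_map _ _ (fun l hl => ?_) (dd_mem _)
      have h4 : l.length = 4 := by simpa using hl.2
      rw [lift_apply_of, ← h4]
      exact (h2 l h4.le).2.2
    have h4 : bd (FreeAbelianGroup.lift φ (dd [1, a, a * b, a * b * c, a * b * c * d])) = 0 := by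
      have := Sp_eq (bd.comp (FreeAbelianGroup.lift φ))
        ((FreeAbelianGroup.lift φ).comp bd) (fun l' hl' => ?_)
        (dd_mem [1, a, a * b, a * b * c, a * b * c * d])
      · simpa [bd_dd] using this
      · have h4 : l'.length = 4 := by simpa using hl'.2
        simpa [bd_of] using (h2 l' h4.le).2.1
    have h5 := SV_cycle h3 h4
    have h6 := h1 a [1, b, b * c, b * c * d]
    have h7 := SV_act a (h2 [1, b, b * c, b * c * d] le_rfl).2.2
    rw [← h6] at h7
    simp only [dd_five, map_sub, map_add, lift_apply_of] at h5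
    simp only [List.map, mul_one] at h7
    simp only [mul_assoc] at h5 h7 ⊢
    rw [← h7]
    exact h5
  · have h3 : Gen [1, a, a * b, a * b * c] := (gen_four 1 a (a * b) (a * b * c)).mpr h
    simp only
    rw [(h2 [1, a, a * b, a * b * c] le_rfl).1 h3, SV, lift_apply_of]
    rfl

end Pool.Agent.P.MP_27a476_gt
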