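import Pool.Agent.P.MP_27a476_gt.Cocycle

set_option autoImplicit false

open FreeAbelianGroup
open scoped Quaternion Real

namespace Pool.Agent.P.MP_27a476_gt

theorem ck_homotopy (φ : List (unitary ℍ[ℝ]) → Ch) (h0 : φ [] = of [])
    (h1 : ∀ g l, φ (l.map (g * ·)) = act g (φ l))
    (h2 : ∀ l, l.length ≤ 4 → bd (φ l) = FreeAbelianGroup.lift φ (dd l)) (n : ℕ) (hn : n ≤ 3) :
    ∃ s : List (unitary ℍ[ℝ]) → Ch, (∀ g l, l.length = n → s (l.map (g * ·)) = act g (s l)) ∧
      ∀ l, l.length = n + 1 → bd (of l - φ l - FreeAbelianGroup.lift s (dd l)) = 0 := by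
  induction n with
  | zero =>
    refine ⟨fun _ => 0, fun _ _ _ => (map_zero _).symm, fun l hl => ?_⟩
    obtain ⟨x, rfl⟩ := List.length_eq_one_iff.1 hl
    rw [map_sub, map_sub, h2 _ (by simp), bd_of]
    simp [dd, h0]
  | succ n ih =>
    obtain ⟨s, a1, a2⟩ := ih (by omega)
    refine ⟨fun l => cone (l.headD 1) (of l - φ l - FreeAbelianGroup.lift s (dd l)),
      fun g l hl => ?_, fun l hl => ?_⟩
    · have b1 := Sp_eq ((FreeAbelianGroup.lift s).comp (act g))
        ((act g).comp (FreeAbelianGroup.lift s)) (fun l' hl' => by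
          simpa [act_of] using a1 g l' (by omega)) (dd_mem l)
      simp only [AddMonoidHom.comp_apply] at b1
      simp only [act_cone, map_sub, act_of, ← b1, act_dd, h1]
      cases l with
      | nil => simp at hl
      | cons x t => simp
    · have b1 := Sp_eq (bd.comp (FreeAbelianGroup.lift fun l =>
          cone (l.headD 1) (of l - φ l - FreeAbelianGroup.lift s (dd l))))
        (AddMonoidHom.id _ - FreeAbelianGroup.lift φ - (FreeAbelianGroup.lift s).comp bd)
        (fun l' hl' => by
          rw [AddMonoidHom.comp_apply, lift_apply_of, bd_cone, a2 l' (by omega)]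
          simp [bd_of]) (dd_mem l)
      rw [AddMonoidHom.comp_apply] at b1
      rw [map_sub, map_sub, b1, h2 l (by omega), bd_of]
      simp [bd_dd]

variable {w w' : unitary ℍ[ℝ] → unitary ℍ[ℝ] → unitary ℍ[ℝ] → UnitAddCircle}

/-- The value of a cochain on a list. -/
noncomputable def ckl (w : unitary ℍ[ℝ] → unitary ℍ[ℝ] → unitary ℍ[ℝ] → UnitAddCircle) :
    List (unitary ℍ[ℝ]) → UnitAddCircle
  | [a, b, c, d] => WW w a b c d
  | _ => 0

theorem ckl_ne {l : List (unitary ℍ[ℝ])} (h : l.length ≠ 4) : ckl w l = 0 := by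
  unfold ckl
  split
  · simp at h
  · rfl

theorem ck_act (g : unitary ℍ[ℝ]) (c : Ch) :
    FreeAbelianGroup.lift (ckl w) (act g c) = FreeAbelianGroup.lift (ckl w) c := by
  have : (FreeAbelianGroup.lift (ckl w)).comp (act g) = FreeAbelianGroup.lift (ckl w) := by
    ext l
    rw [AddMonoidHom.comp_apply, act_of, lift_apply_of, lift_apply_of]
    by_cases h : l.length = 4
    · obtain ⟨a, b, c, d, rfl⟩ := len_four h
      exact WW_mul g a b c d
    · rw [ckl_ne h, ckl_ne (by simpa using h)]
  exact DFunLike.congr_fun this c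

theorem ck_bd (hw : IsCCS w) (c : Ch) : FreeAbelianGroup.lift (ckl w) (bd c) = 0 := by
  have : (FreeAbelianGroup.lift (ckl w)).comp bd = 0 := by
    ext l
    rw [AddMonoidHom.comp_apply, bd_of, AddMonoidHom.zero_apply]
    by_cases h : l.length = 5
    · match l, h with
      | [a, b, c, d, e], _ =>
        simp only [dd_five, map_sub, map_add, lift_apply_of]
        exact WW_coc hw a b c d e
    · exact Sp_eq _ 0 (fun l' hl' => by
        rw [lift_apply_of, ckl_ne (by omega)]
        rfl) (dd_mem l)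
  exact DFunLike.congr_fun this c

theorem ct_class (hw : IsCCS w) (hw' : IsCCS w') :
    ∃ K : unitary ℍ[ℝ] → unitary ℍ[ℝ] → UnitAddCircle, ∀ a b c,
      w a b c = w' a b c + (K b c - K (a * b) c + K a (b * c) - K a b) := by
  obtain ⟨φ, h1, h2⟩ := exists_phi 4 le_rfl
  obtain ⟨s, a1, a2⟩ := ck_homotopy φ ((h2 [] (by simp)).1 trivial) h1
    (fun l hl => (h2 l hl).2.1) 3 le_rfl
  set D := FreeAbelianGroup.lift (ckl w) - FreeAbelianGroup.lift (ckl w') with hD
  refine ⟨fun a b => D (s [1, a, a * b]), fun a b c => ?_⟩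
  have b1 : ∀ c, bd c = 0 → D c = 0 := fun c hc => by
    have := bd_cone 1 c
    rw [hc, map_zero, sub_zero] at this
    rw [← this, hD, AddMonoidHom.sub_apply, ck_bd hw, ck_bd hw', sub_self]
  have b2 : D (φ [1, a, a * b, a * b * c]) = 0 := by
    refine Sp_eq D 0 (fun l hl => ?_) (h2 _ le_rfl).2.2
    obtain ⟨a, b, c, d, rfl⟩ := len_four hl.2
    have := (gen_four a b c d).1 hl.1
    simp only [hD, AddMonoidHom.sub_apply, lift_apply_of, ckl, WW_svol hw _ _ _ _ this,
      WW_svol hw' _ _ _ _ this, sub_self, AddMonoidHom.zero_apply]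
  have b3 : D (s [a, a * b, a * b * c]) = D (s [1, b, b * c]) := by
    have := a1 a [1, b, b * c] rfl
    simp only [List.map, mul_one, ← mul_assoc] at this
    rw [this, hD, AddMonoidHom.sub_apply, ck_act, ck_act, AddMonoidHom.sub_apply]
  have b4 : D (of [1, a, a * b, a * b * c]) = w a b c - w' a b c := by
    simp [hD, ckl, WW, mul_assoc]
  have b5 := b1 _ (a2 [1, a, a * b, a * b * c] rfl)
  simp only [dd_four, map_sub, map_add, lift_apply_of, b2, b3, b4] at b5
  simp only [← mul_assoc]
  linear_combination (norm := abel1) b5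

end Pool.Agent.P.MP_27a476_gt
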