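import Pool.Agent.P.MP_27a476_gt.PrCyc

set_option autoImplicit false

open scoped Quaternion Real

namespace Pool.Agent.P.MP_27a476_gt

variable {w : unitary ℍ[ℝ] → unitary ℍ[ℝ] → unitary ℍ[ℝ] → UnitAddCircle}

theorem cc_cyc {n : ℕ} (f : Fin n → ℤ) (ρ : PiS f →* unitary ℍ[ℝ]) :
    csS w f ρ = cyc w f (ρ (PresentedGroup.of none)) fun i => ρ (PresentedGroup.of (some i)) :=
  rfl

theorem ct_cobS (K : unitary ℍ[ℝ] → unitary ℍ[ℝ] → UnitAddCircle) {n : ℕ} (f : Fin n → ℤ)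
    (ρ : PiS f →* unitary ℍ[ℝ]) :
    csS (fun a b c => K b c - K (a * b) c + K a (b * c) - K a b) f ρ = 0 :=
  cyc_cob K f _ _ (relS f ρ).1 (relS f ρ).2.1 (relS f ρ).2.2

theorem ct_conjS (hw : IsCCS w) {n : ℕ} (f : Fin n → ℤ) (ρ : PiS f →* unitary ℍ[ℝ])
    (u : unitary ℍ[ℝ]) : csS w f ((MulAut.conj u).toMonoidHom.comp ρ) = csS w f ρ := by
  set φ := (MulAut.conj u).toMonoidHom with hφ
  have h0 : ∀ a, φ a * u = u * a := fun a => by simp [hφ]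
  have h1 := ct_cobS (fun a b => w u a b - w (φ a) u b + w (φ a) (φ b) u) f ρ
  rw [cc_cyc] at h1
  rw [cc_cyc, cc_cyc]
  simp only [MonoidHom.comp_apply]
  rw [← cyc_map w φ, ← add_zero (cyc _ _ _ _), ← h1, ← cyc_add]
  congr 1
  funext a b c
  have e1 := hw.1 u a b c
  have e2 := hw.1 (φ a) u b c
  have e3 := hw.1 (φ a) (φ b) u c
  have e4 := hw.1 (φ a) (φ b) (φ c) u
  simp only [h0, map_mul] at e2 e3 e4 ⊢
  linear_combination (norm := abel1) e2 - e1 - e3 + e4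

end Pool.Agent.P.MP_27a476_gt
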