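import Pool.Agent.P.MP_27a476_gt.CtClass
import Pool.Agent.P.MP_27a476_gt.CtCycS

set_option autoImplicit false

open scoped Quaternion Real

namespace Pool.Agent.P.MP_27a476_gt

theorem ct_indepS {w w' : unitary ℍ[ℝ] → unitary ℍ[ℝ] → unitary ℍ[ℝ] → UnitAddCircle}
    (hw : IsCCS w) (hw' : IsCCS w') {n : ℕ} (f : Fin n → ℤ) (ρ : PiS f →* unitary ℍ[ℝ]) :
    csS w f ρ = csS w' f ρ := by
  obtain ⟨K, hK⟩ := ct_class hw hw'
  have h : w = fun a b c => w' a b c + (K b c - K (a * b) c + K a (b * c) - K a b) := by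
    funext a b c
    exact hK a b c
  have h1 := ct_cobS K f ρ
  rw [cc_cyc] at h1
  rw [h, cc_cyc, cyc_add, h1, add_zero, cc_cyc]

end Pool.Agent.P.MP_27a476_gt
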