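import Pool.Agent.P.MP_27a476_gt.Main

set_option autoImplicit false

open scoped Quaternion Real

namespace Pool.Agent.P.MP_27a476_gt

variable {w w' : unitary ℍ[ℝ] → unitary ℍ[ℝ] → unitary ℍ[ℝ] → UnitAddCircle}

theorem cc_rel {n : ℕ} (f : Fin n → ℤ) (ρ : Pi1 f →* unitary ℍ[ℝ]) (i : Fin n) :
    ρ (PresentedGroup.of i) ^ (f i).natAbs = 1 :=
  pow_natAbs_eq_one.2 (rel_pow f ρ i)

theorem ct_cob (K : unitary ℍ[ℝ] → unitary ℍ[ℝ] → UnitAddCircle) {n : ℕ} (f : Fin n → ℤ)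
    (ρ : Pi1 f →* unitary ℍ[ℝ]) :
    cs (fun a b c => K b c - K (a * b) c + K a (b * c) - K a b) f ρ = 0 := by
  refine Finset.sum_eq_zero fun i _ => ?_
  have h := cc_rel f ρ i
  generalize ρ (PresentedGroup.of i) = x at *
  have h1 := shift_sum x _ h fun u => K u x
  have h2 := shift_sum x _ h fun u => K x u
  simp only [Finset.sum_sub_distrib, Finset.sum_add_distrib, ← pow_succ, pow_succ', h1, h2,
    sub_self, zero_add, smul_zero]

theorem cc_LL (hw : IsCCS w) (u x : unitary ℍ[ℝ]) (p : ℕ) (hx : x ^ p = 1) :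
    LL w (u * x * u⁻¹) p = LL w x p := by
  have h : (u * x * u⁻¹) ^ p = 1 := by rw [conj_pow, hx, mul_one, mul_inv_cancel]
  rw [LL, LL, lens_eq _ p h, lens_eq _ p hx, FF_left _ (WW_coc hw) WW_mul _ p h 1 (u * 1),
    FF_right _ (WW_coc hw) WW_mul _ p h _ 1 (u * 1), FF_conj _ WW_mul]

theorem ct_conj (hw : IsCCS w) {n : ℕ} (f : Fin n → ℤ) (ρ : Pi1 f →* unitary ℍ[ℝ])
    (u : unitary ℍ[ℝ]) : cs w f ((MulAut.conj u).toMonoidHom.comp ρ) = cs w f ρ :=
  Finset.sum_congr rfl fun i _ => congrArg _ (cc_LL hw u _ _ (cc_rel f ρ i))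

theorem ct_indep (hw : IsCCS w) (hw' : IsCCS w') {n : ℕ} (f : Fin n → ℤ)
    (ρ : Pi1 f →* unitary ℍ[ℝ]) : cs w f ρ = cs w' f ρ := by
  refine Finset.sum_congr rfl fun i _ => congrArg _ ?_
  have h := cc_rel f ρ i
  generalize ρ (PresentedGroup.of i) = x at *
  generalize (f i).natAbs = p at *
  rcases p.eq_zero_or_pos with rfl | hp
  · rfl
  · obtain ⟨k, hk, ⟨u, rfl⟩, -⟩ := lens_value hw x p hp h
    have h1 := eu_pow_one p k hp
    exact ((cc_LL hw u _ p h1).trans (LL_eu hw p k hk)).trans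
      ((cc_LL hw' u _ p h1).trans (LL_eu hw' p k hk)).symm

end Pool.Agent.P.MP_27a476_gt
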