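import Pool.Agent.P.MP_27a476_gt.NilQuantum

set_option autoImplicit false

open Complex Real

namespace Pool.Agent.P.MP_27a476_gt

theorem ck_cos_sum (θ : ℝ) (n : ℕ) :
    2 * Real.sin (θ / 2) * ∑ m ∈ Finset.range n, Real.cos (m * θ) =
      Real.sin (n * θ - θ / 2) + Real.sin (θ / 2) := by
  induction n with
  | zero => simp
  | succ n ih =>
    rw [Finset.sum_range_succ, mul_add, ih]
    have e : ((n + 1 : ℕ) : ℝ) * θ - θ / 2 = n * θ + θ / 2 := by
      push_cast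
      ring
    rw [e, Real.sin_add, Real.sin_sub]
    ring

theorem ck_cos_val {r : ℕ} (l : ℤ) (h0 : l ≠ 0) (h1 : |l| < 2 * r) :
    2 * ∑ m ∈ Finset.range r, Real.cos (m * (π * l / r)) = 1 - Real.cos (l * π) := by
  have hr : (0 : ℝ) < r := by
    have : (0 : ℤ) < r := by
      have := abs_nonneg l
      omega
    exact_mod_cast this
  have h := ck_cos_sum (π * l / r) r
  have e : (r : ℝ) * (π * l / r) = l * π := by field_simp
  rw [e, Real.sin_sub, Real.sin_int_mul_pi] at h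
  have hs : Real.sin (π * l / r / 2) ≠ 0 := by
    rw [Ne, Real.sin_eq_zero_iff]
    rintro ⟨k, hk⟩
    have hπ := Real.pi_pos
    have h2 : (l : ℝ) = 2 * r * k := by
      field_simp at hk
      linarith
    have h3 : l = 2 * r * k := by exact_mod_cast h2
    have h4 : k ≠ 0 := by
      rintro rfl
      simp at h3
      exact h0 h3
    have h5 : 1 ≤ |k| := Int.one_le_abs h4
    rw [h3, abs_mul, abs_of_nonneg (by positivity : (0 : ℤ) ≤ 2 * r)] at h1
    have : (0 : ℤ) ≤ 2 * r := by positivity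
    nlinarith
  apply mul_left_cancel₀ hs
  linarith

theorem ck_orth {r j k : ℕ} (hj : j ∈ Finset.Ioo 0 r) (hk : k ∈ Finset.Ioo 0 r) :
    ∑ m ∈ Finset.Ioo 0 r, Real.sin (π * (m * j : ℕ) / r) * Real.sin (π * (m * k : ℕ) / r) =
      if j = k then (r : ℝ) / 2 else 0 := by
  obtain ⟨j0, j1⟩ := Finset.mem_Ioo.mp hj
  obtain ⟨k0, k1⟩ := Finset.mem_Ioo.mp hk
  have h1 : ∑ m ∈ Finset.Ioo 0 r, Real.sin (π * (m * j : ℕ) / r) * Real.sin (π * (m * k : ℕ) / r) =
      ∑ m ∈ Finset.range r, (Real.cos (m * (π * ((j : ℤ) - k : ℤ) / r)) -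
        Real.cos (m * (π * ((j : ℤ) + k : ℤ) / r))) / 2 := by
    rw [range_eq_insert (by omega), Finset.sum_insert (by simp)]
    simp only [Nat.cast_zero, zero_mul, Real.cos_zero, sub_self, zero_div, zero_add]
    refine Finset.sum_congr rfl fun m _ => ?_
    have e1 : (m : ℝ) * (π * ((j : ℤ) - k : ℤ) / r) = π * (m * j : ℕ) / r - π * (m * k : ℕ) / r := by
      push_cast
      ring
    have e2 : (m : ℝ) * (π * ((j : ℤ) + k : ℤ) / r) = π * (m * j : ℕ) / r + π * (m * k : ℕ) / r := by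
      push_cast
      ring
    rw [e1, e2, Real.cos_sub, Real.cos_add]
    ring
  have h2 := ck_cos_val (r := r) ((j : ℤ) + k) (by omega) (by rw [abs_lt]; omega)
  rw [h1, ← Finset.sum_div, Finset.sum_sub_distrib]
  split_ifs with h
  · subst h
    have e : (((j : ℤ) + j : ℤ) : ℝ) * π = (j : ℕ) * (2 * π) := by
      push_cast
      ring
    rw [e, Real.cos_nat_mul_two_pi] at h2
    simp only [sub_self, Int.cast_zero, mul_zero, zero_div, Real.cos_zero, Finset.sum_const,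
      Finset.card_range, nsmul_eq_mul, mul_one]
    linarith
  · have h3 := ck_cos_val (r := r) ((j : ℤ) - k) (by omega) (by rw [abs_lt]; omega)
    have e : (((j : ℤ) + k : ℤ) : ℝ) * π = (((j : ℤ) - k : ℤ) : ℝ) * π + (k : ℕ) * (2 * π) := by
      push_cast
      ring
    rw [e, Real.cos_add_nat_mul_two_pi] at h2
    linarith

theorem ck_sin_ne {r : ℕ} (hr : 2 ≤ r) : Real.sin (π / r) ≠ 0 := by
  have := sin_pi_div_ne hr
  intro h
  apply this
  exact_mod_cast congrArg (fun x : ℝ => (x : ℂ)) h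

theorem ck_qi_ne {r k : ℕ} (hk : k ∈ Finset.Ioo 0 r) : qi r k ≠ 0 := by
  obtain ⟨k0, k1⟩ := Finset.mem_Ioo.mp hk
  have h1 := sin_ne_of_Ioo hk
  have h2 := sin_pi_div_ne (r := r) (by omega)
  rw [qi]
  push_cast
  exact div_ne_zero h1 h2

theorem ck_qi_one {r : ℕ} (hr : 2 ≤ r) : qi r 1 = 1 := by
  have := ck_sin_ne hr
  simp only [qi, Nat.cast_one, mul_one]
  rw [div_self this]
  simp

theorem ck_orth_qi {r j k : ℕ} (hj : j ∈ Finset.Ioo 0 r) (hk : k ∈ Finset.Ioo 0 r) :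
    ((√(2 / r) * Real.sin (π / r) : ℝ) : ℂ) ^ 2 *
      ∑ m ∈ Finset.Ioo 0 r, qi r (m * j) * qi r (m * k) = if j = k then 1 else 0 := by
  obtain ⟨j0, j1⟩ := Finset.mem_Ioo.mp hj
  have hr : (0 : ℝ) < r := by exact_mod_cast (by omega : 0 < r)
  have hs := ck_sin_ne (r := r) (by omega)
  have h := ck_orth hj hk
  have h2 : (√(2 / r) * Real.sin (π / r)) ^ 2 * ∑ m ∈ Finset.Ioo 0 r,
      Real.sin (π * (m * j : ℕ) / r) / Real.sin (π / r) *
        (Real.sin (π * (m * k : ℕ) / r) / Real.sin (π / r)) = if j = k then 1 else 0 := by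
    simp only [div_mul_div_comm]
    rw [← Finset.sum_div, h, mul_pow, Real.sq_sqrt (by positivity)]
    split_ifs
    · field_simp
    · simp
  simp only [qi]
  split_ifs at h2 ⊢ <;> exact_mod_cast h2

theorem ck_zpow_sum {ι : Type*} {c : ℂ} (hc : c ≠ 0) (s : Finset ι) (g : ι → ℤ) :
    c ^ (∑ i ∈ s, g i) = ∏ i ∈ s, c ^ g i := by
  classical
  induction s using Finset.induction_on with
  | empty => simp
  | insert a s ha ih => rw [Finset.sum_insert ha, Finset.prod_insert ha, zpow_add₀ hc, ih]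

/-- Surgery on an unlink is the connected sum of the surgeries on its components. -/
theorem ck_prod {n : ℕ} (f : Fin n → ℤ) {r : ℕ} (hr : 2 ≤ r) :
    tau f r = ∏ i, tau ![f i] r := by
  simp only [tau_eq _ hr, Fin.sum_univ_one, Fin.prod_univ_one, Matrix.cons_val_zero, pow_one]
  rw [Finset.prod_mul_distrib, Finset.prod_mul_distrib, ck_zpow_sum (Complex.exp_ne_zero _),
    Finset.prod_const, Finset.card_univ, Fintype.card_fin]

/-- The normalised contribution of one meridian circle with framing `a`. -/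
noncomputable def ckLeg (a : ℤ) (m r : ℕ) : ℂ :=
  ((√(2 / r) * Real.sin (π / r) : ℝ) : ℂ) *
    cexp (-(2 * π * I) * (3 * (r - 2) / (8 * r))) ^ a.sign *
    ∑ k ∈ Finset.Ioo 0 r, qi r k * (qi r (m * k) / qi r m) *
      cexp (2 * π * I / (4 * r)) ^ (a * ((k : ℤ) ^ 2 - 1))

theorem ck_tauS {n : ℕ} (f : Fin n → ℤ) (r : ℕ) :
    tauS f r = ((√(2 / r) * Real.sin (π / r) : ℝ) : ℂ) *
      cexp (-(2 * π * I) * (3 * (r - 2) / (8 * r))) ^ (SignType.sign (-∑ i, (f i : ℚ)⁻¹) : ℤ) *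
      ∑ m ∈ Finset.Ioo 0 r, qi r m ^ 2 * ∏ i, ckLeg (f i) m r := by
  simp only [ckLeg, Finset.prod_mul_distrib, Finset.prod_const, Finset.card_univ,
    Fintype.card_fin, ← ck_zpow_sum (Complex.exp_ne_zero _)]
  simp only [Finset.prod_univ_sum (fun _ : Fin n => Finset.Ioo 0 r) (fun i (k : ℕ) =>
    qi r k * (qi r (_ * k) / qi r _) * cexp (2 * π * I / (4 * r)) ^ (f i * ((k : ℤ) ^ 2 - 1)))]
  rw [tauS, zpow_add₀ (Complex.exp_ne_zero _), Finset.mul_sum, Finset.mul_sum]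
  refine Finset.sum_congr rfl fun m _ => ?_
  rw [← Finset.mul_sum]
  ring

theorem ck_TS_unit (a : ℤ) (ha : a = 1 ∨ a = -1) (m : ℕ) {r : ℕ} (hr : 0 < r) :
    2 * (-I * a / (2 * r : ℕ)) ^ (1 / 2 : ℂ) * TS a m r =
      a * I * Complex.sin (π * m / r) * cexp (-(π * I * a * (m ^ 2 + 1) / (2 * r))) := by
  have hr' : (r : ℂ) ≠ 0 := by exact_mod_cast hr.ne'
  have h0 : a ≠ 0 := by omega
  have h1 : a.natAbs = 1 := by omega
  have key : ∀ l : ℤ, (-I * a / (2 * r : ℕ)) ^ (1 / 2 : ℂ) * GG a (2 * l) r =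
      cexp (-(π * I * a * l ^ 2 / (2 * r))) := by
    intro l
    rw [recip a h0 l hr, h1]
    rcases ha with rfl | rfl
    · simp
    · simp
      congr 1
      field_simp
  have h := TS_eq a m hr
  have k1 := key (m - 1)
  have k2 := key (-(m - 1))
  have k3 := key (m + 1)
  have k4 := key (-(m + 1))
  have e1 : ∀ l : ℤ, (l : ℂ) ^ 2 = (m - 1) ^ 2 → cexp (-(π * I * a * l ^ 2 / (2 * r))) =
      cexp (-(π * I * a * (m ^ 2 + 1) / (2 * r))) * cexp (a * (π * m / r) * I) := by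
    intro l hl
    rw [← Complex.exp_add, hl]
    congr 1
    field_simp
    ring
  have e2 : ∀ l : ℤ, (l : ℂ) ^ 2 = (m + 1) ^ 2 → cexp (-(π * I * a * l ^ 2 / (2 * r))) =
      cexp (-(π * I * a * (m ^ 2 + 1) / (2 * r))) * cexp (-(a * (π * m / r)) * I) := by
    intro l hl
    rw [← Complex.exp_add, hl]
    congr 1
    field_simp
    ring
  rw [e1 _ (by push_cast; ring)] at k1 k2
  rw [e2 _ (by push_cast; ring)] at k3 k4
  have hs : Complex.sin (a * (π * m / r)) = a * Complex.sin (π * m / r) := by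
    rcases ha with rfl | rfl <;> simp
  rw [mul_comm (a : ℂ) I, mul_assoc I, ← hs, Complex.sin]
  generalize (-I * a / (2 * r : ℕ)) ^ (1 / 2 : ℂ) = κ at *
  generalize cexp (-(π * I * a * (m ^ 2 + 1) / (2 * r))) = E at *
  linear_combination (κ / 4) * h + k1 / 4 + k2 / 4 - k3 / 4 - k4 / 4 -
    (E * (cexp (-(a * (π * m / r)) * I) - cexp (a * (π * m / r) * I)) / 2) * I_mul_I

/-- A meridian circle with framing `a = ± 1` changes the framing of the central circle by `-a`. -/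
theorem ck_leg_unit (a : ℤ) (ha : a = 1 ∨ a = -1) {m r : ℕ} (hm : m ∈ Finset.Ioo 0 r) :
    ckLeg a m r = cexp (2 * π * I / (4 * r)) ^ (-a * ((m : ℤ) ^ 2 - 1)) := by
  obtain ⟨m0, m1⟩ := Finset.mem_Ioo.mp hm
  have hr : (0 : ℝ) < r := by exact_mod_cast (by omega : 0 < r)
  have hr' : (r : ℂ) ≠ 0 := by exact_mod_cast (by omega : r ≠ 0)
  have hs := sin_pi_div_ne (r := r) (by omega)
  have hsm := sin_ne_of_Ioo hm
  have h := ck_TS_unit a ha m (r := r) (by omega)
  have hq : (√(2 / r) : ℝ) = 2 * √(1 / (2 * r)) := by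
    rw [show (2 / r : ℝ) = 2 ^ 2 * (1 / (2 * r)) by field_simp, Real.sqrt_mul (by norm_num),
      Real.sqrt_sq (by norm_num)]
  have hx : (0 : ℝ) < 1 / (2 * r) := by positivity
  have hI : I = cexp (π * I / 2) := by
    rw [show π * I / 2 = π / 2 * I by ring, Complex.exp_mul_I]
    simp
  have hI' : -I = cexp (-(π * I / 2)) := by
    rw [Complex.exp_neg, ← hI, Complex.inv_I]
  rw [ckLeg, leg_eq a m (by omega), ← Complex.exp_int_mul, ← Complex.exp_int_mul, hq]
  rcases ha with rfl | rfl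
  · rw [show (-I * ((1 : ℤ) : ℂ) / (2 * r : ℕ)) = ((1 / (2 * r) : ℝ) : ℂ) * -I by
      push_cast; ring, kap_pos hx] at h
    have e : cexp (((1 : ℤ).sign : ℤ) * (-(2 * π * I) * (3 * (r - 2) / (8 * r)))) *
        cexp (-(π * I * (1 : ℤ) / (2 * r))) * cexp (π * I / 2) *
        cexp (-(π * I * (1 : ℤ) * (m ^ 2 + 1) / (2 * r))) =
        cexp ((-(1 : ℤ) * ((m : ℤ) ^ 2 - 1) : ℤ) * (2 * π * I / (4 * r))) * cexp (-(π * I / 4)) := by
      simp only [← Complex.exp_add]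
      congr 1
      simp only [Int.sign_one]
      push_cast
      field_simp
      ring
    rw [← hI] at e
    apply mul_right_cancel₀ (Complex.exp_ne_zero (-(π * I / 4)))
    rw [← e]
    push_cast at h ⊢
    field_simp
    field_simp at h
    linear_combination h
  · rw [show (-I * ((-1 : ℤ) : ℂ) / (2 * r : ℕ)) = ((1 / (2 * r) : ℝ) : ℂ) * I by
      push_cast; ring, kap_neg hx] at h
    have e : cexp (((-1 : ℤ).sign : ℤ) * (-(2 * π * I) * (3 * (r - 2) / (8 * r)))) *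
        cexp (-(π * I * (-1 : ℤ) / (2 * r))) * cexp (-(π * I / 2)) *
        cexp (-(π * I * (-1 : ℤ) * (m ^ 2 + 1) / (2 * r))) =
        cexp ((-(-1 : ℤ) * ((m : ℤ) ^ 2 - 1) : ℤ) * (2 * π * I / (4 * r))) * cexp (π * I / 4) := by
      simp only [← Complex.exp_add]
      congr 1
      simp only [Int.sign_neg, Int.sign_one]
      push_cast
      field_simp
      ring
    rw [← hI'] at e
    apply mul_right_cancel₀ (Complex.exp_ne_zero (π * I / 4))
    rw [← e]
    push_cast at h ⊢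
    field_simp
    field_simp at h
    linear_combination h

theorem ck_tau_one (a : ℤ) (r : ℕ) :
    tau ![a] r = ((√(2 / r) * Real.sin (π / r) : ℝ) : ℂ) *
      cexp (-(2 * π * I) * (3 * (r - 2) / (8 * r))) ^ a.sign *
      ∑ k ∈ Finset.Ioo 0 r, qi r k ^ 2 * cexp (2 * π * I / (4 * r)) ^ (a * ((k : ℤ) ^ 2 - 1)) := by
  rw [tau, ← Finset.prod_univ_sum (fun _ : Fin 1 => Finset.Ioo 0 r) (fun i (k : ℕ) =>
    ((Real.sin (π * k / r) / Real.sin (π / r) : ℝ) : ℂ) ^ 2 *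
      cexp (2 * π * I / (4 * r)) ^ ((![a] : Fin 1 → ℤ) i * ((k : ℤ) ^ 2 - 1)))]
  simp only [Fin.sum_univ_one, Fin.prod_univ_one, Matrix.cons_val_zero, pow_one, qi]

theorem ck_leg_one (a : ℤ) {r : ℕ} (hr : 2 ≤ r) : ckLeg a 1 r = tau ![a] r := by
  rw [ck_tau_one, ckLeg, ck_qi_one hr]
  simp only [one_mul, div_one, sq]

/-- Surgery with framing `± 1` on the unknot gives the sphere. -/
theorem ck_unit (a : ℤ) (ha : a = 1 ∨ a = -1) {r : ℕ} (hr : 2 ≤ r) : tau ![a] r = 1 := by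
  rw [← ck_leg_one a hr, ck_leg_unit a ha (Finset.mem_Ioo.mpr ⟨one_pos, hr⟩)]
  simp

theorem ck_empty (r : ℕ) : tau ![] r = 1 := by
  simp [tau]

theorem ck_append {n m : ℕ} (f : Fin n → ℤ) (g : Fin m → ℤ) {r : ℕ} (hr : 2 ≤ r) :
    tau (Fin.append f g) r = tau f r * tau g r := by
  rw [ck_prod _ hr, ck_prod f hr, ck_prod g hr, Fin.prod_univ_add]
  simp only [Fin.append_left, Fin.append_right]

theorem ck_nil (r : ℕ) : tauS ![] r = tau ![0] r := by
  rw [ck_tauS, ck_tau_one]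
  simp

theorem ck_sign (a : ℤ) : (SignType.sign (-(a : ℚ)⁻¹) : ℤ) = -a.sign := by
  rcases lt_trichotomy a 0 with h | rfl | h
  · have : (a : ℚ) < 0 := by exact_mod_cast h
    rw [sign_pos (neg_pos.mpr (inv_lt_zero.mpr this)), Int.sign_eq_neg_one_of_neg h]
    simp
  · simp
  · have : (0 : ℚ) < a := by exact_mod_cast h
    rw [sign_neg (neg_lt_zero.mpr (inv_pos.mpr this)), Int.sign_eq_one_of_pos h]
    simp

theorem ck_two (F G : ℕ → ℂ) {r : ℕ} :
    ((√(2 / r) * Real.sin (π / r) : ℝ) : ℂ) ^ 2 * ∑ m ∈ Finset.Ioo 0 r,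
      (∑ j ∈ Finset.Ioo 0 r, F j * qi r (m * j)) * ∑ k ∈ Finset.Ioo 0 r, G k * qi r (m * k) =
      ∑ k ∈ Finset.Ioo 0 r, F k * G k := by
  simp only [Finset.sum_mul_sum]
  rw [Finset.sum_comm, Finset.mul_sum]
  refine Finset.sum_congr rfl fun j hj => ?_
  rw [Finset.sum_comm, Finset.mul_sum, Finset.sum_congr rfl
    (g := fun k => if j = k then F j * G k else 0), Finset.sum_ite_eq, if_pos hj]
  intro k hk
  have h := ck_orth_qi hj hk
  have e : ∑ m ∈ Finset.Ioo 0 r, F j * qi r (m * j) * (G k * qi r (m * k)) =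
      F j * G k * ∑ m ∈ Finset.Ioo 0 r, qi r (m * j) * qi r (m * k) := by
    rw [Finset.mul_sum]
    exact Finset.sum_congr rfl fun m _ => by ring
  rw [e, mul_left_comm, h]
  split_ifs <;> simp

theorem ck_leg_mul (a : ℤ) {m r : ℕ} (hm : m ∈ Finset.Ioo 0 r) :
    qi r m * ckLeg a m r = ((√(2 / r) * Real.sin (π / r) : ℝ) : ℂ) *
      cexp (-(2 * π * I) * (3 * (r - 2) / (8 * r))) ^ a.sign *
      ∑ k ∈ Finset.Ioo 0 r, qi r k * cexp (2 * π * I / (4 * r)) ^ (a * ((k : ℤ) ^ 2 - 1)) *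
        qi r (m * k) := by
  have h := ck_qi_ne hm
  rw [ckLeg, mul_left_comm, Finset.mul_sum]
  congr 1
  refine Finset.sum_congr rfl fun k _ => ?_
  field_simp

/-- Surgery on the Hopf link with framings `0`, `a` gives the sphere. -/
theorem ck_hopf (a : ℤ) {r : ℕ} (hr : 2 ≤ r) : tauS ![a] r = 1 := by
  have h1 : (1 : ℕ) ∈ Finset.Ioo 0 r := Finset.mem_Ioo.mpr ⟨one_pos, hr⟩
  have h := ck_two (r := r) (fun k => qi r k * cexp (2 * π * I / (4 * r)) ^ (a * ((k : ℤ) ^ 2 - 1)))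
    (fun k => if 1 = k then 1 else 0)
  simp only [ite_mul, one_mul, zero_mul, Finset.sum_ite_eq, if_pos h1, mul_one, mul_ite,
    mul_zero, ck_qi_one hr, Nat.cast_one, one_pow, sub_self, zpow_zero] at h
  rw [ck_tauS]
  simp only [Fin.sum_univ_one, Fin.prod_univ_one, Matrix.cons_val_zero, ck_sign]
  rw [Finset.sum_congr rfl (g := fun m => ((√(2 / r) * Real.sin (π / r) : ℝ) : ℂ) *
      cexp (-(2 * π * I) * (3 * (r - 2) / (8 * r))) ^ a.sign *
      ((∑ k ∈ Finset.Ioo 0 r, qi r k * cexp (2 * π * I / (4 * r)) ^ (a * ((k : ℤ) ^ 2 - 1)) *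
        qi r (m * k)) * qi r m)), ← Finset.mul_sum, ← h, zpow_neg]
  · have := zpow_ne_zero a.sign (Complex.exp_ne_zero (-(2 * π * I) * (3 * (r - 2) / (8 * r))))
    field_simp
  · intro m hm
    rw [sq, mul_assoc, ck_leg_mul a hm]
    ring

theorem ck_sign_two {a b : ℤ} (ha : a ≠ 0) (hb : b ≠ 0) :
    (SignType.sign (-((a : ℚ)⁻¹ + (b : ℚ)⁻¹)) : ℤ) + a.sign + b.sign = (a + b).sign := by
  have ha' : (a : ℚ) ≠ 0 := by exact_mod_cast ha
  have hb' : (b : ℚ) ≠ 0 := by exact_mod_cast hb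
  have e : -((a : ℚ)⁻¹ + (b : ℚ)⁻¹) = (-(a : ℚ)⁻¹) * (-(b : ℚ)⁻¹) * -((a + b : ℤ) : ℚ) := by
    push_cast
    field_simp
    ring
  have e2 : (SignType.sign (-((a + b : ℤ) : ℚ)) : ℤ) = -(a + b).sign := by
    rw [← ck_sign, ← inv_neg]
    rcases lt_trichotomy (-((a + b : ℤ) : ℚ)) 0 with h | h | h
    · rw [sign_neg h, sign_neg (inv_lt_zero.mpr h)]
    · rw [h, inv_zero]
    · rw [sign_pos h, sign_pos (inv_pos.mpr h)]
  rw [e, sign_mul, sign_mul, SignType.coe_mul, SignType.coe_mul, ck_sign, ck_sign, e2]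
  rcases lt_or_gt_of_ne ha with h1 | h1 <;> rcases lt_or_gt_of_ne hb with h2 | h2
  · rw [Int.sign_eq_neg_one_of_neg h1, Int.sign_eq_neg_one_of_neg h2,
      Int.sign_eq_neg_one_of_neg (add_neg h1 h2)]
    rfl
  · rw [Int.sign_eq_neg_one_of_neg h1, Int.sign_eq_one_of_pos h2]
    ring
  · rw [Int.sign_eq_neg_one_of_neg h2, Int.sign_eq_one_of_pos h1]
    ring
  · rw [Int.sign_eq_one_of_pos h1, Int.sign_eq_one_of_pos h2,
      Int.sign_eq_one_of_pos (add_pos h1 h2)]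
    rfl

/-- The chain with framings `a`, `0`, `b` presents the same manifold as the unknot with framing
`a + b`. -/
theorem ck_slide {a b : ℤ} (ha : a ≠ 0) (hb : b ≠ 0) (r : ℕ) :
    tauS ![a, b] r = tau ![a + b] r := by
  have h := ck_two (r := r) (fun k => qi r k * cexp (2 * π * I / (4 * r)) ^ (a * ((k : ℤ) ^ 2 - 1)))
    (fun k => qi r k * cexp (2 * π * I / (4 * r)) ^ (b * ((k : ℤ) ^ 2 - 1)))
  have hc := Complex.exp_ne_zero (-(2 * π * I) * (3 * (r - 2) / (8 * r)))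
  rw [ck_tauS, ck_tau_one, ← ck_sign_two ha hb, zpow_add₀ hc, zpow_add₀ hc]
  simp only [Fin.sum_univ_two, Fin.prod_univ_two, Matrix.cons_val_zero, Matrix.cons_val_one]
  rw [Finset.sum_congr rfl (g := fun m => ((√(2 / r) * Real.sin (π / r) : ℝ) : ℂ) ^ 2 *
      cexp (-(2 * π * I) * (3 * (r - 2) / (8 * r))) ^ a.sign *
      cexp (-(2 * π * I) * (3 * (r - 2) / (8 * r))) ^ b.sign *
      ((∑ k ∈ Finset.Ioo 0 r, qi r k * cexp (2 * π * I / (4 * r)) ^ (a * ((k : ℤ) ^ 2 - 1)) *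
        qi r (m * k)) * ∑ k ∈ Finset.Ioo 0 r, qi r k *
          cexp (2 * π * I / (4 * r)) ^ (b * ((k : ℤ) ^ 2 - 1)) * qi r (m * k))), ← Finset.mul_sum,
    Finset.sum_congr rfl (s₂ := Finset.Ioo 0 r) (f := fun k : ℕ => qi r k ^ 2 *
      cexp (2 * π * I / (4 * r)) ^ ((a + b) * ((k : ℤ) ^ 2 - 1)))
      (g := fun k : ℕ => qi r k * cexp (2 * π * I / (4 * r)) ^ (a * ((k : ℤ) ^ 2 - 1)) *
        (qi r k * cexp (2 * π * I / (4 * r)) ^ (b * ((k : ℤ) ^ 2 - 1)))), ← h]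
  · ring
  · intro k _
    rw [add_mul, zpow_add₀ (Complex.exp_ne_zero _)]
    ring
  · intro m hm
    have e : qi r m ^ 2 * (ckLeg a m r * ckLeg b m r) =
        qi r m * ckLeg a m r * (qi r m * ckLeg b m r) := by ring
    rw [e, ck_leg_mul a hm, ck_leg_mul b hm]
    ring

/-- A pair of meridian circles with framings `1`, `-1` cancels. -/
theorem ck_cancel' {n : ℕ} (f : Fin n → ℤ) (g : Fin (n + 2) → ℤ) (h : ∀ i, g i.succ.succ = f i)
    (h0 : g 0 = 1) (h1 : g 1 = -1) (r : ℕ) : tauS g r = tauS f r := by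
  rw [ck_tauS, ck_tauS]
  simp only [Fin.sum_univ_succ (n := n + 1), Fin.prod_univ_succ (n := n + 1),
    Fin.sum_univ_succ (n := n), Fin.prod_univ_succ (n := n), Fin.succ_zero_eq_one, h, h0, h1]
  congr 1
  · norm_num
  · refine Finset.sum_congr rfl fun m hm => ?_
    rw [ck_leg_unit 1 (Or.inl rfl) hm, ck_leg_unit (-1) (Or.inr rfl) hm, ← mul_assoc (cexp _ ^ _),
      ← zpow_add₀ (Complex.exp_ne_zero _)]
    simp

/-- The order of the meridian circles does not matter. -/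
theorem ck_perm {n : ℕ} (f : Fin n → ℤ) (e : Equiv.Perm (Fin n)) (r : ℕ) :
    tauS (f ∘ e) r = tauS f r := by
  rw [ck_tauS, ck_tauS]
  simp only [Function.comp_apply]
  rw [Equiv.sum_comp e fun i => (f i : ℚ)⁻¹]
  congr 1
  refine Finset.sum_congr rfl fun m _ => ?_
  rw [Equiv.prod_comp e fun i => ckLeg (f i) m r]

/-- Blowing down `n` meridian circles of framing `1` leaves the unknot with framing `-n`. -/
theorem ck_blow (n r : ℕ) : tauS (fun _ : Fin n => 1) r = tau ![-n] r := by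
  rw [ck_tauS, ck_tau_one]
  congr 1
  · congr 2
    rcases Nat.eq_zero_or_pos n with rfl | h
    · simp
    · rw [sign_neg (by simpa using h), Int.sign_eq_neg_one_of_neg (by omega)]
      rfl
  · refine Finset.sum_congr rfl fun m hm => ?_
    rw [ck_leg_unit 1 (Or.inl rfl) hm, Finset.prod_const, Finset.card_univ, Fintype.card_fin,
      ← zpow_natCast (cexp _ ^ _), ← zpow_mul]
    congr 2
    ring

end Pool.Agent.P.MP_27a476_gt
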