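import Pool.Agent.P.MP_27a476_gt.Main

set_option autoImplicit false

open Complex Metric Real groupCohomology
open scoped Quaternion

namespace Pool.Agent.P.MP_27a476_gt

variable {w : unitary ℍ[ℝ] → unitary ℍ[ℝ] → unitary ℍ[ℝ] → UnitAddCircle}

/-- The exponential that appears for the framing `p`. -/
noncomputable def clQ (p : ℕ) (x : ℂ) : ℂ := cexp (-(2 * π * I / p) * x)

/-- The prefactor for the framing `p`. -/
noncomputable def clP (p : ℕ) (x : ℂ) : ℂ :=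
  -I / (4 * (√(p / 2) : ℝ)) * cexp ((3 - p) * π * I / 2 * x)

theorem cl_GG {p r : ℕ} (hp : 0 < p) (hr : 2 ≤ r) (β : ℤ) :
    (√(p / (2 * r)) : ℝ) * cexp (-(π * I / 4)) * GG p (4 * β) r =
      clQ p (1 / r) ^ (β ^ 2) * ∑ n ∈ Finset.range p,
        cexp (2 * π * I * (r * (-(n ^ 2 : ℝ) / p : ℝ))) * cexp (β * (4 * π * n / p * I)) := by
  have hr' : (0:ℝ) < r := by exact_mod_cast (by omega : 0 < r)
  have hp' : (0:ℝ) < p := by exact_mod_cast hp
  have hrc : (r : ℂ) ≠ 0 := by exact_mod_cast (by omega : r ≠ 0)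
  have hpc : (p : ℂ) ≠ 0 := by exact_mod_cast hp.ne'
  have h := gauss_reciprocity (2 * r) (by omega) p (by exact_mod_cast hp.ne') (4 * β)
    ⟨p * r + 2 * β, by push_cast; ring⟩
  have e : (-I * (p : ℤ) / (2 * r : ℕ)) = ((p / (2 * r) : ℝ) : ℂ) * (-I) := by
    push_cast
    ring
  rw [e, ofReal_mul_cpow (by positivity) (neg_ne_zero.mpr I_ne_zero),
    ofReal_cpow_half (by positivity), cpow_def_of_ne_zero (neg_ne_zero.mpr I_ne_zero), log_neg_I,
    show -(π / 2 : ℂ) * I * (1 / 2) = -(π * I / 4) by ring] at h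
  rw [GG, h, Int.natAbs_natCast]
  congr 1
  · rw [clQ, ← Complex.exp_int_mul]
    congr 1
    push_cast
    field_simp
    ring
  · refine Finset.sum_congr rfl fun n _ => ?_
    rw [← Complex.exp_add]
    congr 1
    push_cast
    field_simp
    ring

theorem cl_Z {p r : ℕ} (hp : 0 < p) (hr : 2 ≤ r) :
    tau ![(p : ℤ)] r / tau ![0] r = clP p (1 / r) / (√r : ℝ) * ∑ n ∈ Finset.range p,
      cexp (2 * π * I * (r * (-(n ^ 2 : ℝ) / p : ℝ))) *
        (2 - 2 * clQ p (1 / r) * (Real.cos (4 * π * n / p) : ℝ)) := by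
  have hr' : (0:ℝ) < r := by exact_mod_cast (by omega : 0 < r)
  have hp' : (0:ℝ) < p := by exact_mod_cast hp
  have hrc : (r : ℂ) ≠ 0 := by exact_mod_cast (by omega : r ≠ 0)
  have k0 := cl_GG hp hr 0
  have k1 := cl_GG hp hr 1
  have k2 := cl_GG hp hr (-1)
  have h8 := TT_eq p (by omega : 0 < r)
  have hS : ∑ n ∈ Finset.range p, cexp (2 * π * I * (r * (-(n ^ 2 : ℝ) / p : ℝ))) *
        (2 - 2 * clQ p (1 / r) * (Real.cos (4 * π * n / p) : ℝ)) =
      (√(p / (2 * r)) : ℝ) * cexp (-(π * I / 4)) * (8 * TT p r) := by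
    rw [h8, mul_sub, mul_sub, mul_left_comm, show (0 : ℤ) = 4 * 0 from rfl, k0,
      show (-4 : ℤ) = 4 * -1 from rfl, k2]
    rw [mul_one] at k1
    rw [k1]
    simp only [Finset.mul_sum, ← Finset.sum_sub_distrib]
    refine Finset.sum_congr rfl fun n _ => ?_
    have := Complex.two_cos (4 * π * n / p)
    rw [neg_mul] at this
    push_cast
    norm_num
    linear_combination (-cexp (2 * π * I * (r * (-n ^ 2 / p))) * clQ p (r : ℂ)⁻¹) * this
  rw [hS, tau_eq _ hr, tau_eq _ hr]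
  have hs := sin_pi_div_ne hr
  have e1 : (∑ i, (![(p : ℤ)] i : ℤ).sign) = 1 := by
    simp [Int.sign_eq_one_of_pos (by exact_mod_cast hp : (0 : ℤ) < p)]
  have e2 : (∑ i, (![0] i : ℤ).sign) = 0 := by decide
  rw [e1, e2, Fin.prod_univ_one, Fin.prod_univ_one]
  simp only [Matrix.cons_val_zero, TT_zero hr, zpow_one, zpow_zero]
  have a2 : cexp (-(π * I * (0:ℤ) / (2 * r))) = 1 := by simp
  have a3 : cexp (-(2 * π * I) * (3 * (r - 2) / (8 * r))) * cexp (-(π * I * (p : ℤ) / (2 * r))) =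
      cexp (-(π * I / 4)) ^ 2 * cexp (-(π * I / 4)) * cexp ((3 - p) * π * I / 2 * (1 / r)) := by
    rw [← Complex.exp_nat_mul, ← Complex.exp_add, ← Complex.exp_add, ← Complex.exp_add]
    congr 1
    push_cast
    field_simp
    ring
  rw [exp_neg_pi_quarter_sq] at a3
  have b3 : ((√(p / (2 * r)) : ℝ) : ℂ) = (√(p / 2) : ℝ) / (√r : ℝ) := by
    rw [← div_div, Real.sqrt_div (by positivity)]
    push_cast
    rfl
  have b4 : ((√r : ℝ) : ℂ) ^ 2 = r := by
    rw [← ofReal_pow, Real.sq_sqrt hr'.le]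
    simp
  have b5 : ((√r : ℝ) : ℂ) ≠ 0 := ofReal_ne_zero.2 (Real.sqrt_pos.2 hr').ne'
  have b6 : ((√(p / 2) : ℝ) : ℂ) ≠ 0 := ofReal_ne_zero.2 (Real.sqrt_pos.2 (by positivity)).ne'
  have b7 : ((√(2 / r) : ℝ) : ℂ) ≠ 0 := ofReal_ne_zero.2 (Real.sqrt_pos.2 (by positivity)).ne'
  rw [a2, b3, clP]
  generalize ((√(2 / r) : ℝ) : ℂ) = s2 at *
  generalize ((√r : ℝ) : ℂ) = sr at *
  generalize ((√(p / 2) : ℝ) : ℂ) = s3 at *
  generalize cexp (-(π * I * (p : ℤ) / (2 * r))) = E3 at *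
  generalize cexp (-(2 * π * I) * (3 * (r - 2) / (8 * r))) = E6 at *
  generalize cexp (-(π * I / 4)) = E4 at *
  generalize cexp ((3 - p) * π * I / 2 * (1 / r)) = E at *
  generalize Complex.sin (π / r) = S at *
  generalize TT p r = T3 at *
  rw [← b4]
  field_simp
  linear_combination (8 * T3) * a3

theorem cl_phase {p : ℕ} (hp : 0 < p) (r n : ℕ) :
    cexp (2 * π * I * (r * (-(n ^ 2 : ℝ) / p : ℝ))) =
      cexp (2 * π * I * (r * (-((n ^ 2 % p : ℕ) : ℝ) / p : ℝ))) := by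
  have hpc : (p : ℂ) ≠ 0 := by exact_mod_cast hp.ne'
  rw [exp_eq_exp_iff_exists_int]
  refine ⟨-(r * (n ^ 2 / p : ℕ)), ?_⟩
  have h : (n : ℂ) ^ 2 = p * (n ^ 2 / p : ℕ) + (n ^ 2 % p : ℕ) := by
    exact_mod_cast (Nat.div_add_mod (n ^ 2) p).symm
  generalize n ^ 2 / p = a at *
  generalize n ^ 2 % p = b at *
  push_cast
  rw [h]
  field_simp
  ring

theorem cl_coe {p : ℕ} (hp : 0 < p) (a b : ℕ) :
    ((-(a : ℝ) / p : ℝ) : UnitAddCircle) = ((-(b : ℝ) / p : ℝ) : UnitAddCircle) ↔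
      a % p = b % p := by
  have hp' : (p : ℝ) ≠ 0 := by exact_mod_cast hp.ne'
  rw [← sub_eq_zero, ← AddCircle.coe_sub, AddCircle.coe_eq_zero_iff]
  change _ ↔ a ≡ b [MOD p]
  rw [Nat.modEq_iff_dvd]
  constructor
  · rintro ⟨n, hn⟩
    refine ⟨n, ?_⟩
    have : (b : ℝ) - a = p * n := by
      rw [zsmul_eq_mul, mul_one] at hn
      rw [hn]
      field_simp
      ring
    exact_mod_cast this
  · rintro ⟨n, hn⟩
    refine ⟨n, ?_⟩
    have : (b : ℝ) - a = p * n := by exact_mod_cast hn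
    rw [zsmul_eq_mul, mul_one]
    field_simp
    linarith

theorem cl_expansion {p m : ℕ} (hp : 0 < p) (σ : Fin (m + 1) → ℕ) (hσ : Function.Injective σ)
    (h1 : ∀ n < p, ∃ j, σ j = n ^ 2 % p) (h2 : ∀ j, ∃ n < p, n ^ 2 % p = σ j)
    (d : Fin (m + 1) → ℚ)
    (hd : ∀ j, (d j = -1 / 2 ∧ ∃ n < p, n ^ 2 % p = σ j ∧ Real.sin (2 * π * n / p) ≠ 0) ∨
      (d j = -3 / 2 ∧ ∀ n < p, n ^ 2 % p = σ j → Real.sin (2 * π * n / p) = 0)) :
    HasExpansion (fun r => tau ![(p : ℤ)] r / tau ![0] r) (fun j => -(σ j : ℝ) / p) d := by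
  classical
  have hp' : (0:ℝ) < p := by exact_mod_cast hp
  have hpc : (p : ℂ) ≠ 0 := by exact_mod_cast hp.ne'
  have hπ := pi_pos
  have hsq : 0 < √((p : ℝ) / 2) := Real.sqrt_pos.2 (by positivity)
  have b6 : ((√(p / 2) : ℝ) : ℂ) ≠ 0 := ofReal_ne_zero.2 hsq.ne'
  set T : Fin (m + 1) → Finset ℕ := fun j => (Finset.range p).filter fun n => n ^ 2 % p = σ j
    with hT
  have hQ : Differentiable ℂ (clQ p) := by
    unfold clQ
    fun_prop
  have hP : Differentiable ℂ (clP p) := by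
    unfold clP
    fun_prop
  have hQ0 : clQ p 0 = 1 := by simp [clQ]
  have hP0 : clP p 0 = -I / (4 * (√(p / 2) : ℝ)) := by simp [clP]
  have hD : DifferentiableOn ℂ (dslope (clQ p) 0) (ball 0 1) :=
    (Complex.differentiableOn_dslope (ball_mem_nhds 0 one_pos)).mpr hQ.differentiableOn
  have hD0 : dslope (clQ p) 0 0 = -(2 * π * I / p) := by
    rw [dslope_same]
    have : HasDerivAt (clQ p) (cexp (-(2 * π * I / p) * 0) * (-(2 * π * I / p) * 1)) 0 :=
      ((hasDerivAt_id (0:ℂ)).const_mul (-(2 * π * I / p) : ℂ)).cexp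
    rw [this.deriv]
    simp
  have hDx : ∀ x, clQ p x = 1 + x * dslope (clQ p) 0 x := fun x => by
    have := sub_smul_dslope (clQ p) 0 x
    rw [hQ0, sub_zero, smul_eq_mul] at this
    rw [this]
    ring
  have hcos : ∀ n : ℕ, Real.cos (4 * π * n / p) = 1 - 2 * Real.sin (2 * π * n / p) ^ 2 := by
    intro n
    rw [show 4 * π * n / p = 2 * (2 * π * n / p) by ring, Real.cos_two_mul, Real.cos_sq']
    ring
  have hne : (-1 / 2 : ℚ) ≠ -3 / 2 := by norm_num
  refine hasExpansion_of_analytic _ _ _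
    (fun j x => if d j = -1 / 2 then
      clP p x * ∑ n ∈ T j, (2 - 2 * clQ p x * (Real.cos (4 * π * n / p) : ℝ))
      else clP p x * (-2 * (T j).card * dslope (clQ p) 0 x)) ?_
    (fun j => if d j = -1 / 2 then -2 else 0)
    (fun j => if d j = -1 / 2 then (∑ n ∈ T j, Real.sin (2 * π * n / p) ^ 2) / √(p / 2)
      else π * (T j).card / (p * √(p / 2))) ?_ ?_ ?_
  · intro j
    by_cases h : d j = -1 / 2
    · simp only [if_pos h]
      refine (hP.mul (Differentiable.fun_sum fun n _ => ?_)).differentiableOn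
      exact (differentiable_const _).sub ((hQ.const_mul _).mul_const _)
    · simp only [if_neg h]
      exact hP.differentiableOn.mul (hD.const_mul _)
  · intro j
    rcases hd j with ⟨h, n, hn, hn1, hn2⟩ | ⟨h, -⟩
    · simp only [if_pos h]
      refine div_pos (Finset.sum_pos' (fun _ _ => sq_nonneg _) ⟨n, ?_, by positivity⟩) hsq
      exact Finset.mem_filter.2 ⟨Finset.mem_range.2 hn, hn1⟩
    · simp only [if_neg (h ▸ hne.symm : ¬ d j = -1 / 2)]
      obtain ⟨n, hn, hn1⟩ := h2 j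
      have : (0 : ℝ) < (T j).card := by
        exact_mod_cast Finset.card_pos.2 ⟨n, Finset.mem_filter.2 ⟨Finset.mem_range.2 hn, hn1⟩⟩
      positivity
  · intro j
    by_cases h : d j = -1 / 2
    · simp only [if_pos h]
      have : (2 * π * I * (((-2 : ℚ) : ℂ) / 8)) = -(π / 2 * I) := by
        push_cast
        ring
      rw [this, Complex.exp_neg, exp_pi_div_two_mul_I, inv_I, hP0, hQ0]
      have e : ∑ n ∈ T j, (2 - 2 * (1 : ℂ) * (Real.cos (4 * π * n / p) : ℝ)) =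
          4 * ((∑ n ∈ T j, Real.sin (2 * π * n / p) ^ 2 : ℝ) : ℂ) := by
        rw [ofReal_sum, Finset.mul_sum]
        refine Finset.sum_congr rfl fun n _ => ?_
        rw [hcos]
        generalize Real.sin (2 * π * n / p) = s
        push_cast
        ring
      rw [e, ofReal_div]
      field_simp
    · simp only [if_neg h]
      rw [hP0, hD0]
      simp only [Rat.cast_zero, zero_div, mul_zero, Complex.exp_zero, ofReal_div, ofReal_mul,
        ofReal_natCast]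
      field_simp
      linear_combination (-4 * ((T j).card : ℂ)) * I_sq
  · intro r hr
    have hr' : (0:ℝ) < r := by exact_mod_cast (by omega : 0 < r)
    have hrc : (r : ℂ) ≠ 0 := by exact_mod_cast (by omega : r ≠ 0)
    have b4 : ((√r : ℝ) : ℂ) ^ 2 = r := by
      rw [← ofReal_pow, Real.sq_sqrt hr'.le]
      simp
    have b5 : ((√r : ℝ) : ℂ) ≠ 0 := ofReal_ne_zero.2 (Real.sqrt_pos.2 hr').ne'
    have p1 : (((r : ℝ) ^ (((-1 / 2 : ℚ)) : ℝ) : ℝ) : ℂ) = ((√r : ℝ) : ℂ)⁻¹ := by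
      rw [Real.sqrt_eq_rpow, ← ofReal_inv, ← Real.rpow_neg hr'.le]
      norm_num
    have p3 : (((r : ℝ) ^ (((-3 / 2 : ℚ)) : ℝ) : ℝ) : ℂ) = (((√r : ℝ) : ℂ) ^ 3)⁻¹ := by
      rw [Real.sqrt_eq_rpow, ← ofReal_pow, ← Real.rpow_natCast, ← Real.rpow_mul hr'.le,
        ← ofReal_inv, ← Real.rpow_neg hr'.le]
      norm_num
    choose! ι hι using h1
    rw [cl_Z hp hr, ← Finset.sum_fiberwise_of_maps_to (g := ι) (t := Finset.univ)
      fun _ _ => Finset.mem_univ _, Finset.mul_sum]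
    refine Finset.sum_congr rfl fun j _ => ?_
    have e : (Finset.range p).filter (fun n => ι n = j) = T j := by
      ext n
      simp only [hT, Finset.mem_filter, Finset.mem_range]
      refine and_congr_right fun hn => ⟨fun h => ?_, fun h => hσ ?_⟩
      · rw [← h, hι n hn]
      · rw [hι n hn, h]
    rw [e, Finset.sum_congr rfl (g := fun n : ℕ =>
      cexp (2 * π * I * (r * (-(σ j : ℝ) / p : ℝ))) *
        (2 - 2 * clQ p (1 / r) * (Real.cos (4 * π * n / p) : ℝ))) fun n hn => by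
          rw [cl_phase hp, (Finset.mem_filter.1 hn).2], ← Finset.mul_sum]
    rcases hd j with ⟨h, -⟩ | ⟨h, h3⟩
    · simp only [if_pos h]
      rw [h, p1]
      ring
    · simp only [if_neg (h ▸ hne.symm : ¬ d j = -1 / 2)]
      rw [h, p3, Finset.sum_congr rfl (g := fun _ : ℕ => 2 - 2 * clQ p (1 / r)) fun n hn => by
        rw [hcos, h3 n (Finset.mem_range.1 (Finset.mem_filter.1 hn).1) (Finset.mem_filter.1 hn).2]
        simp, Finset.sum_const, nsmul_eq_mul]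
      have := hDx (1 / r)
      generalize dslope (clQ p) 0 (1 / r) = D at *
      rw [this]
      generalize clP p (1 / r) = P
      generalize cexp (2 * π * I * (r * (-(σ j : ℝ) / p : ℝ))) = E
      generalize ((√r : ℝ) : ℂ) = sr at *
      rw [← b4]
      field_simp
      ring

theorem cl_gen (p : ℕ) (g : Pi1 ![(p : ℤ)]) :
    g ∈ Subgroup.zpowers (PresentedGroup.of 0 : Pi1 ![(p : ℤ)]) :=
  PresentedGroup.generated_by _ _
    (fun j => by rw [Subsingleton.elim j 0]; exact Subgroup.mem_zpowers _) g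

theorem cl_rel (p : ℕ) : (PresentedGroup.of 0 : Pi1 ![(p : ℤ)]) ^ p = 1 := by
  have : (PresentedGroup.of 0 : Pi1 ![(p : ℤ)]) ^ (p : ℤ) = 1 :=
    PresentedGroup.one_of_mem (x := FreeGroup.of 0 ^ (p : ℤ)) ⟨0, rfl⟩
  exact_mod_cast this

theorem cl_finite {p : ℕ} (hp : 0 < p) : Finite (Pi1 ![(p : ℤ)]) :=
  Set.finite_univ_iff.1 ((finite_zpowers.2
    (isOfFinOrder_iff_pow_eq_one.2 ⟨p, hp, cl_rel p⟩)).subset fun g _ => cl_gen p g)

theorem cl_cs {p : ℕ} (hp : 0 < p) (ρ : Pi1 ![(p : ℤ)] →* unitary ℍ[ℝ]) :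
    cs w ![(p : ℤ)] ρ = LL w (ρ (PresentedGroup.of 0)) p := by
  rw [cs, Fin.sum_univ_one, LL, Matrix.cons_val_zero,
    Int.sign_eq_one_of_pos (by exact_mod_cast hp), one_smul, Int.natAbs_natCast]

theorem cl_neg {p : ℕ} (hp : 0 < p) (n : ℕ) :
    -((n ^ 2 / p : ℝ) : UnitAddCircle) = ((-((n ^ 2 % p : ℕ) : ℝ) / p : ℝ) : UnitAddCircle) := by
  rw [← (cl_coe hp (n ^ 2) (n ^ 2 % p)).2 (Nat.mod_mod _ _).symm, ← AddCircle.coe_neg]
  congr 1
  push_cast
  ring

theorem cl_val {p : ℕ} (hp : 0 < p) (hw : IsCCS w) (ρ : Pi1 ![(p : ℤ)] →* unitary ℍ[ℝ]) :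
    ∃ n < p, (∃ u, ρ (PresentedGroup.of 0) = u * eu (2 * π * n / p) * u⁻¹) ∧
      -cs w ![(p : ℤ)] ρ = ((-((n ^ 2 % p : ℕ) : ℝ) / p : ℝ) : UnitAddCircle) := by
  obtain ⟨n, hn, hu, h⟩ := lens_value hw (ρ (PresentedGroup.of 0)) p hp
    (by rw [← map_pow, cl_rel, map_one])
  exact ⟨n, hn, hu, by rw [cl_cs hp, LL, h, cl_neg hp]⟩

theorem cl_rep {p : ℕ} (hw : IsCCS w) {n : ℕ} (hn : n < p) :
    ∃ ρ : Pi1 ![(p : ℤ)] →* unitary ℍ[ℝ],
      ρ (PresentedGroup.of 0) = 1 * eu (2 * π * n / p) * 1⁻¹ ∧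
      -cs w ![(p : ℤ)] ρ = ((-((n ^ 2 % p : ℕ) : ℝ) / p : ℝ) : UnitAddCircle) := by
  have hp : 0 < p := by omega
  refine ⟨PresentedGroup.toGroup (f := fun _ => eu (2 * π * n / p)) ?_, ?_, ?_⟩
  · rintro _ ⟨i, rfl⟩
    rw [map_zpow, FreeGroup.lift_apply_of, Subsingleton.elim i 0, Matrix.cons_val_zero]
    exact_mod_cast eu_pow_one p n hp
  · rw [PresentedGroup.toGroup.of, inv_one, mul_one, one_mul]
  · rw [cl_cs hp, PresentedGroup.toGroup.of, LL_eu hw p n hn, cl_neg hp]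

theorem cl_h1 {Γ : Type} [Group Γ] [Finite Γ] (A : Rep ℝ Γ) :
    Module.finrank ℝ (groupCohomology A 1) = 0 := by
  have := Fintype.ofFinite Γ
  suffices Subsingleton (groupCohomology A 1) from Module.finrank_zero_of_subsingleton
  refine subsingleton_of_forall_eq 0 fun c => ?_
  obtain ⟨z, rfl⟩ := (ModuleCat.epi_iff_surjective (H1π A)).mp inferInstance c
  rw [H1π_eq_zero_iff]
  have hc : (Fintype.card Γ : ℝ) ≠ 0 := by exact_mod_cast Fintype.card_ne_zero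
  refine ⟨-((Fintype.card Γ : ℝ)⁻¹ • ∑ h, z h), funext fun g => ?_⟩
  have h1 : ∑ h, z h = A.ρ g (∑ h, z h) + (Fintype.card Γ : ℝ) • z g := by
    nth_rewrite 1 [← (Group.mulLeft_bijective g).sum_comp (fun h => z h)]
    rw [map_sum]
    simp only [(mem_cocycles₁_iff z).1 z.2]
    rw [Finset.sum_add_distrib, Finset.sum_const, Finset.card_univ, Nat.cast_smul_eq_nsmul]
  change A.ρ g _ - _ = z g
  rw [map_neg, map_smul, sub_neg_eq_add]
  nth_rewrite 2 [h1]
  rw [smul_add, inv_smul_smul₀ hc]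
  abel

/-- The adjoint action of the unit quaternions. -/
noncomputable def clAD : unitary ℍ[ℝ] →* Module.End ℝ (ℝ ∙ (1 : ℍ[ℝ]))ᗮ :=
  (adRep (MonoidHom.id (unitary ℍ[ℝ]))).ρ

theorem clAD_apply (u : unitary ℍ[ℝ]) (v : (ℝ ∙ (1 : ℍ[ℝ]))ᗮ) :
    (clAD u v : ℍ[ℝ]) = u * v * star (u : ℍ[ℝ]) := rfl

/-- The quaternion `i` as an imaginary quaternion. -/
noncomputable def clI : (ℝ ∙ (1 : ℍ[ℝ]))ᗮ := ⟨⟨0, 1, 0, 0⟩, by
  rw [Submodule.mem_orthogonal_singleton_iff_inner_left, Quaternion.inner_def]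
  simp⟩

theorem clAD_I (θ : ℝ) : clAD (eu θ) clI = clI := by
  have := Real.sin_sq_add_cos_sq θ
  apply Subtype.ext
  rw [clAD_apply]
  ext <;> simp [eu, ee, clI] <;> linarith

theorem cl_fix {θ : ℝ} (hs : Real.sin θ ≠ 0) (v : (ℝ ∙ (1 : ℍ[ℝ]))ᗮ) (h : clAD (eu θ) v = v) :
    ∃ b : ℝ, b • clI = v := by
  have h0 := Real.sin_sq_add_cos_sq θ
  obtain ⟨⟨a, b, c, d⟩, hv⟩ := v
  have ha : a = 0 := by
    rw [Submodule.mem_orthogonal_singleton_iff_inner_left, Quaternion.inner_def] at hv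
    simpa using hv
  have h1 := congrArg (fun v : (ℝ ∙ (1 : ℍ[ℝ]))ᗮ => (v : ℍ[ℝ]).imJ) h
  have h2 := congrArg (fun v : (ℝ ∙ (1 : ℍ[ℝ]))ᗮ => (v : ℍ[ℝ]).imK) h
  simp only [clAD_apply] at h1 h2
  simp [eu, ee] at h1 h2
  have h3 : Real.sin θ * c + Real.cos θ * d = 0 := by
    apply mul_left_cancel₀ hs
    linear_combination (-1 / 2) * h1 + (c / 2) * h0
  have h4 : Real.cos θ * c - Real.sin θ * d = 0 := by
    apply mul_left_cancel₀ hs
    linear_combination (1 / 2) * h2 - (d / 2) * h0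
  have hc : c = 0 := by linear_combination Real.sin θ * h3 + Real.cos θ * h4 - c * h0
  have hd : d = 0 := by linear_combination Real.cos θ * h3 - Real.sin θ * h4 - d * h0
  refine ⟨b, Subtype.ext ?_⟩
  ext <;> simp [clI, ha, hc, hd]

theorem cl_inv {p : ℕ} (ρ : Pi1 ![(p : ℤ)] →* unitary ℍ[ℝ]) (v : (ℝ ∙ (1 : ℍ[ℝ]))ᗮ)
    (hv : clAD (ρ (PresentedGroup.of 0)) v = v) : v ∈ (adRep ρ).ρ.invariants := by
  let H : Subgroup (Pi1 ![(p : ℤ)]) :=
    { carrier := {g | clAD (ρ g) v = v}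
      one_mem' := by simp
      mul_mem' := fun {a b} ha hb => by
        simp only [Set.mem_ofPred_eq] at ha hb ⊢
        rw [map_mul, map_mul, Module.End.mul_apply, hb, ha]
      inv_mem' := fun {a} ha => by
        simp only [Set.mem_ofPred_eq] at ha ⊢
        nth_rewrite 1 [← ha]
        rw [← Module.End.mul_apply, ← map_mul, ← map_mul, inv_mul_cancel, map_one, map_one,
          Module.End.one_apply] }
  exact PresentedGroup.generated_by _ H fun j => by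
    rw [Subsingleton.elim j 0]
    exact hv

theorem cl_h0 {p : ℕ} (ρ : Pi1 ![(p : ℤ)] →* unitary ℍ[ℝ]) {u : unitary ℍ[ℝ]} {θ : ℝ}
    (h : ρ (PresentedGroup.of 0) = u * eu θ * u⁻¹) :
    Module.finrank ℝ (groupCohomology (adRep ρ) 0) = if Real.sin θ = 0 then 3 else 1 := by
  have hu : ∀ v, clAD u (clAD u⁻¹ v) = v := fun v => by
    rw [← Module.End.mul_apply, ← map_mul, mul_inv_cancel, map_one, Module.End.one_apply]
  have hu' : ∀ v, clAD u⁻¹ (clAD u v) = v := fun v => by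
    rw [← Module.End.mul_apply, ← map_mul, inv_mul_cancel, map_one, Module.End.one_apply]
  have hx : ∀ v, clAD (ρ (PresentedGroup.of 0)) v = clAD u (clAD (eu θ) (clAD u⁻¹ v)) :=
    fun v => by rw [h, map_mul, map_mul, Module.End.mul_apply, Module.End.mul_apply]
  rw [(H0Iso (adRep ρ)).toLinearEquiv.finrank_eq]
  split_ifs with hs
  · have h0 := Real.sin_sq_add_cos_sq θ
    have h1 : ∀ v, clAD (eu θ) v = v := fun v => by
      apply Subtype.ext
      rw [clAD_apply]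
      have h2 : ∀ t, Real.cos θ * t * Real.cos θ = t := fun t => by
        rw [hs] at h0
        linear_combination t * h0
      ext <;> simp [eu, ee, hs, h2]
    have h2 : (adRep ρ).ρ.invariants = ⊤ :=
      eq_top_iff.2 fun v _ => cl_inv ρ v (by rw [hx, h1, hu])
    change Module.finrank ℝ (adRep ρ).ρ.invariants = 3
    rw [h2, finrank_top]
    exact finrank_im
  · have hi : clI ≠ 0 := fun h0 => by
      simpa [clI] using congrArg (fun v : (ℝ ∙ (1 : ℍ[ℝ]))ᗮ => (v : ℍ[ℝ]).imI) h0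
    refine (finrank_eq_one_iff_of_nonzero' (⟨clAD u clI, cl_inv ρ _ (by rw [hx, hu', clAD_I])⟩ :
      (adRep ρ).ρ.invariants) ?_).mpr ?_
    · intro h0
      have : clAD u clI = 0 := congrArg Subtype.val h0
      apply hi
      rw [← hu' clI, this, map_zero]
    · rintro ⟨v, hv⟩
      have b1 : clAD (ρ (PresentedGroup.of 0)) v = v := hv _
      rw [hx] at b1
      obtain ⟨b, hb⟩ := cl_fix hs (clAD u⁻¹ v) (by
        have := congrArg (clAD u⁻¹) b1
        rwa [hu'] at this)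
      refine ⟨b, Subtype.ext ?_⟩
      change b • clAD u clI = v
      rw [← map_smul, hb, hu]

theorem ct_lens (p : ℕ) (hp : 0 < p) (hw : IsCCS w) :
    ∃ (m : ℕ) (c : Fin (m + 1) → ℝ) (d : Fin (m + 1) → ℚ), c 0 = 0 ∧
      Function.Injective (fun j => (c j : UnitAddCircle)) ∧
      Set.range (fun ρ => -cs w ![(p : ℤ)] ρ) = Set.range (fun j => (c j : UnitAddCircle)) ∧
      HasExpansion (fun r => tau ![(p : ℤ)] r / tau ![0] r) c d ∧
      ∀ j, IsGreatest {x : ℚ | ∃ ρ : Pi1 ![(p : ℤ)] →* unitary ℍ[ℝ],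
        -cs w ![(p : ℤ)] ρ = c j ∧ x = ((Module.finrank ℝ (groupCohomology (adRep ρ) 1) : ℚ) -
          Module.finrank ℝ (groupCohomology (adRep ρ) 0)) / 2} (d j) := by
  classical
  have := cl_finite hp
  set S := (Finset.range p).image fun n => n ^ 2 % p with hS
  obtain ⟨m, hm⟩ : ∃ m, S.card = m + 1 := Nat.exists_eq_succ_of_ne_zero
    (Finset.card_pos.2 (Finset.Nonempty.image ⟨0, Finset.mem_range.2 hp⟩ _)).ne'
  obtain ⟨σ, hσ, hr⟩ : ∃ σ : Fin (m + 1) → ℕ, StrictMono σ ∧ Set.range σ = S :=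
    ⟨S.orderEmbOfFin hm, (S.orderEmbOfFin hm).strictMono, S.range_orderEmbOfFin hm⟩
  have h1 : ∀ n < p, ∃ j, σ j = n ^ 2 % p := fun n hn => by
    change _ ∈ Set.range σ
    rw [hr]
    exact Finset.mem_image_of_mem _ (Finset.mem_range.2 hn)
  have h2 : ∀ j, ∃ n < p, n ^ 2 % p = σ j := fun j => by
    have : σ j ∈ (S : Set ℕ) := hr ▸ Set.mem_range_self j
    obtain ⟨n, hn, h⟩ := Finset.mem_image.1 this
    exact ⟨n, Finset.mem_range.1 hn, h⟩
  have h3 : ∀ j, σ j % p = σ j := fun j => by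
    obtain ⟨n, -, h⟩ := h2 j
    rw [← h, Nat.mod_mod]
  refine ⟨m, fun j => -(σ j : ℝ) / p, fun j =>
    if ∃ n < p, n ^ 2 % p = σ j ∧ Real.sin (2 * π * n / p) ≠ 0 then -1 / 2 else -3 / 2,
    ?_, fun i j h => ?_, ?_, cl_expansion hp σ hσ.injective h1 h2 _ fun j => ?_, fun j => ?_⟩
  · obtain ⟨j, hj⟩ := h1 0 hp
    have : σ 0 = 0 := Nat.le_zero.1 ((hσ.monotone (Fin.zero_le j)).trans (by rw [hj]; simp))
    simp [this]
  · have := (cl_coe hp _ _).1 h
    rw [h3, h3] at this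
    exact hσ.injective this
  · ext z
    constructor
    · rintro ⟨ρ, rfl⟩
      obtain ⟨n, hn, -, h⟩ := cl_val hp hw ρ
      obtain ⟨j, hj⟩ := h1 n hn
      exact ⟨j, by simp only [h, hj]⟩
    · rintro ⟨j, rfl⟩
      obtain ⟨n, hn, h⟩ := h2 j
      obtain ⟨ρ, -, hρ⟩ := cl_rep hw hn
      exact ⟨ρ, by simp only [hρ, h]⟩
  · split_ifs with h
    · exact Or.inl ⟨rfl, h⟩
    · refine Or.inr ⟨rfl, fun n hn h' => ?_⟩
      by_contra h''
      exact h ⟨n, hn, h', h''⟩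
  · constructor
    · simp only [Set.mem_ofPred_eq]
      split_ifs with h
      · obtain ⟨n, hn, h', hs⟩ := h
        obtain ⟨ρ, hu, hρ⟩ := cl_rep hw hn
        refine ⟨ρ, by rw [hρ, h'], ?_⟩
        rw [cl_h1, cl_h0 ρ hu, if_neg hs]
        norm_num
      · obtain ⟨n, hn, h'⟩ := h2 j
        obtain ⟨ρ, hu, hρ⟩ := cl_rep hw hn
        refine ⟨ρ, by rw [hρ, h'], ?_⟩
        rw [cl_h1, cl_h0 ρ hu, if_pos (by_contra fun hs => h ⟨n, hn, h', hs⟩)]
        norm_num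
    · rintro x ⟨ρ, hρ, rfl⟩
      obtain ⟨n, hn, ⟨u, hu⟩, h⟩ := cl_val hp hw ρ
      have h' := (cl_coe hp _ _).1 (h.symm.trans hρ)
      rw [h3, Nat.mod_mod] at h'
      rw [cl_h1, cl_h0 ρ hu]
      by_cases hs : Real.sin (2 * π * n / p) = 0
      · rw [if_pos hs]
        simp only
        split_ifs <;> norm_num
      · simp only
        rw [if_neg hs, if_pos ⟨n, hn, h', hs⟩]
        norm_num

end Pool.Agent.P.MP_27a476_gt
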