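import Pool.Agent.P.MP_27a476_gt.PrGrp

set_option autoImplicit false

open scoped Quaternion Real
open QuaternionGroup

namespace Pool.Agent.P.MP_27a476_gt

section

variable {G : Type*} [Group G]

theorem conj55 (x y z : G) (h1 : x * z ^ 7 = z ^ 7 * x) (h2 : x * x * z ^ 7 = 1)
    (h3 : y * y * z ^ 7 = 1) (h4 : x * y = z ^ 20) : x⁻¹ * z * x = z ^ 55 := by
  have a1 : y = x⁻¹ * z ^ 20 := by rw [← h4, inv_mul_cancel_left]
  have a2 : x⁻¹ = x * z ^ 7 := inv_eq_of_mul_eq_one_right (by rw [← mul_assoc, h2])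
  have a3 : (x⁻¹ * z * x) ^ 7 = z ^ 7 := by
    rw [← inv_inv x, inv_inv x, show x⁻¹ * z * x = x⁻¹ * z * x⁻¹⁻¹ by rw [inv_inv], conj_pow,
      inv_inv, mul_assoc, ← h1, inv_mul_cancel_left]
  have a4 : (x⁻¹ * z * x) ^ 20 * z ^ 34 = 1 := by
    rw [show x⁻¹ * z * x = x⁻¹ * z * x⁻¹⁻¹ by rw [inv_inv], conj_pow, inv_inv, ← h3, a1]
    nth_rewrite 3 [a2]
    group
  calc x⁻¹ * z * x = ((x⁻¹ * z * x) ^ 7) ^ 3 * ((x⁻¹ * z * x) ^ 20)⁻¹ := by
        generalize x⁻¹ * z * x = c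
        group
    _ = z ^ 55 := by
        rw [a3, eq_inv_of_mul_eq_one_left a4]
        group

theorem ab_pow (x y z : G) (h2 : x * x * z ^ 7 = 1) (h3 : y * y * z ^ 7 = 1)
    (h4 : x * y = z ^ 20) (hxy : x * y = y * x) :
    x ^ 108 = 1 ∧ y = x ^ (55 : ℤ) ∧ z = x ^ (46 : ℤ) ∧ z ^ 7 = x ^ (-2 : ℤ) := by
  obtain ⟨d, rfl⟩ : ∃ d, y = d * x := ⟨y * x⁻¹, by simp⟩
  have e2 : Commute x d := by
    rw [← mul_assoc] at hxy
    exact mul_right_cancel hxy
  have e0 : z ^ 7 = x ^ (-2 : ℤ) := by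
    rw [eq_inv_of_mul_eq_one_right h2]
    group
  have e3 : d * d = 1 := by
    rw [e0, mul_assoc d x, ← mul_assoc x d, e2.eq] at h3
    rw [← h3]
    group
  have e4 : z = x ^ (-8 : ℤ) * d := by
    calc z = (z ^ 7) ^ 3 * (z ^ 20)⁻¹ := by group
      _ = x ^ (-8 : ℤ) * d⁻¹ := by
        rw [e0, ← h4, ← mul_assoc x d, e2.eq]
        group
      _ = _ := by rw [inv_eq_of_mul_eq_one_right e3]
  have e5 : d = x ^ (54 : ℤ) := by
    have a1 : d ^ 7 = d := by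
      calc d ^ 7 = (d * d) * (d * d) * (d * d) * d := by simp only [pow_succ, pow_zero, one_mul, mul_assoc]
        _ = d := by simp [e3]
    rw [e4, (e2.zpow_left _).mul_pow, a1] at e0
    rw [eq_inv_mul_of_mul_eq e0]
    group
  refine ⟨?_, ?_, ?_, e0⟩
  · rw [← e3, e5]
    group
  · rw [e5]
    group
  · rw [e4, e5]
    group

theorem exists_rep_of_rel {n : ℕ} (f : Fin n → ℤ) (h : G) (x : Fin n → G)
    (r1 : ∀ i, x i * h = h * x i) (r2 : ∀ i, x i ^ f i * h = 1) (r3 : (List.ofFn x).prod = 1) :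
    ∃ ρ : PiS f →* G, ρ (PresentedGroup.of none) = h ∧
      ∀ i, ρ (PresentedGroup.of (some i)) = x i := by
  refine ⟨PresentedGroup.toGroup (f := fun o => o.elim h x) ?_, PresentedGroup.toGroup.of _,
    fun i => PresentedGroup.toGroup.of _⟩
  rintro _ ((⟨k, rfl⟩ | ⟨k, rfl⟩) | rfl)
  · simp [r1]
  · simpa using r2 k
  · rw [map_list_prod, List.map_ofFn, ← r3]
    congr 2
    funext i
    simp

end

theorem finite_pi : Finite (PiS ![2, 2, -7, 1, 1, 1]) := by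
  obtain ⟨x, y, z, h0, h1, r1, -, r2, r3, r4⟩ := relP (MonoidHom.id (PiS ![2, 2, -7, 1, 1, 1]))
  have a1 := conj55 x y z r1 r2 r3 r4
  have a2 : ∀ k : ℤ, z ^ k * x = x * z ^ (55 * k) := by
    intro k
    have : (x⁻¹ * z * x⁻¹⁻¹) ^ k = (z ^ (55 : ℤ)) ^ k := by
      rw [inv_inv, a1]
      norm_cast
    rw [conj_zpow, inv_inv] at this
    rw [zpow_mul, ← this]
    group
  have a3 : x * x = z ^ (-7 : ℤ) := by
    rw [eq_inv_of_mul_eq_one_left r2]
    group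
  have a4 : x⁻¹ = x * z ^ (7 : ℤ) := by
    refine inv_eq_of_mul_eq_one_right ?_
    rw [← mul_assoc, a3]
    group
  have a5 : z ^ 378 = 1 := by
    have b1 := a2 7
    have b2 : z ^ (7 : ℤ) * x = x * z ^ (7 : ℤ) := by exact_mod_cast r1.symm
    have b3 := mul_left_cancel (b1.symm.trans b2)
    calc z ^ 378 = z ^ (55 * 7 : ℤ) * (z ^ (7 : ℤ))⁻¹ := by group
      _ = 1 := by rw [b3, mul_inv_cancel]
  let H : Subgroup (PiS ![2, 2, -7, 1, 1, 1]) :=
    { carrier := {g | ∃ k : ℤ, g = z ^ k ∨ g = x * z ^ k}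
      one_mem' := ⟨0, Or.inl (by simp)⟩
      mul_mem' := by
        rintro _ _ ⟨k, rfl | rfl⟩ ⟨l, rfl | rfl⟩
        · exact ⟨k + l, Or.inl (zpow_add _ _ _).symm⟩
        · exact ⟨55 * k + l, Or.inr (by rw [← mul_assoc, a2, zpow_add, mul_assoc])⟩
        · exact ⟨k + l, Or.inr (by rw [zpow_add, mul_assoc])⟩
        · refine ⟨-7 + 55 * k + l, Or.inl ?_⟩
          rw [mul_assoc, ← mul_assoc (z ^ k), a2, ← mul_assoc, ← mul_assoc, a3, zpow_add, zpow_add]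
      inv_mem' := by
        rintro _ ⟨k, rfl | rfl⟩
        · exact ⟨-k, Or.inl (zpow_neg _ _).symm⟩
        · refine ⟨55 * -k + 7, Or.inr ?_⟩
          rw [mul_inv_rev, ← zpow_neg, a4, ← mul_assoc, a2, zpow_add, mul_assoc] }
  have hH : ∀ g, g ∈ H := by
    refine PresentedGroup.generated_by _ H fun o => ?_
    have m0 : x ∈ H := ⟨0, Or.inr (by simp)⟩
    have m2 : z ∈ H := ⟨1, Or.inl (by simp)⟩
    have m1 : y ∈ H := by
      rw [eq_inv_mul_of_mul_eq r4]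
      exact H.mul_mem (H.inv_mem m0) (H.pow_mem m2 _)
    have m3 := H.pow_mem m2 7
    rcases o with _ | k
    · exact (show PresentedGroup.of none = z ^ 7 from h0) ▸ m3
    · rw [show PresentedGroup.of (some k) = _ from congrFun h1 k]
      fin_cases k
      exacts [m0, m1, m2, H.inv_mem m3, H.inv_mem m3, H.inv_mem m3]
  have h2 : (Subgroup.zpowers z : Set (PiS ![2, 2, -7, 1, 1, 1])).Finite :=
    (isOfFinOrder_iff_pow_eq_one.mpr ⟨378, by norm_num, a5⟩).finite_zpowers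
  refine Set.finite_univ_iff.mp ((h2.union (h2.image (x * ·))).subset fun g _ => ?_)
  obtain ⟨k, rfl | rfl⟩ := hH g
  · exact Or.inl ⟨k, rfl⟩
  · exact Or.inr ⟨_, ⟨k, rfl⟩, rfl⟩

variable {w : unitary ℍ[ℝ] → unitary ℍ[ℝ] → unitary ℍ[ℝ] → UnitAddCircle}

theorem csS_ab (hw : IsCCS w) (ρ : PiS ![2, 2, -7, 1, 1, 1] →* unitary ℍ[ℝ])
    (h : ρ (PresentedGroup.of (some 0)) * ρ (PresentedGroup.of (some 1)) =
      ρ (PresentedGroup.of (some 1)) * ρ (PresentedGroup.of (some 0))) :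
    ρ (PresentedGroup.of (some 0)) ^ 108 = 1 ∧
      (∀ o, ∃ m : ℤ, ρ (PresentedGroup.of o) = ρ (PresentedGroup.of (some 0)) ^ m) ∧
      ∃ q : ℤ, csS w ![2, 2, -7, 1, 1, 1] ρ =
        (85 + 108 * q) • LL w (ρ (PresentedGroup.of (some 0))) 108 := by
  obtain ⟨x, y, z, h0, h1, -, -, r2, r3, r4⟩ := relP ρ
  rw [show ρ (PresentedGroup.of (some 0)) = x from congrFun h1 0] at h ⊢
  rw [show ρ (PresentedGroup.of (some 1)) = y from congrFun h1 1] at h
  obtain ⟨a1, a2, a3, a4⟩ := ab_pow x y z r2 r3 r4 h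
  have a5 : (z ^ 7)⁻¹ = x ^ (2 : ℤ) := by
    rw [a4]
    group
  rw [a5] at h1
  rw [a4] at h0
  refine ⟨a1, fun o => ?_, ?_⟩
  · rcases o with _ | k
    · exact ⟨_, h0⟩
    · rw [show ρ (PresentedGroup.of (some k)) = _ from congrFun h1 k]
      fin_cases k
      exacts [⟨1, (zpow_one x).symm⟩, ⟨_, a2⟩, ⟨_, a3⟩, ⟨_, rfl⟩, ⟨_, rfl⟩, ⟨_, rfl⟩]
  · obtain ⟨P, p1, p2⟩ := exists_zmod x 108 a1
    let φ : C108 →* unitary ℍ[ℝ] := MonoidHom.mk' (fun i => P i.toAdd) fun _ _ => p1 _ _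
    obtain ⟨q, hq⟩ := cyc_one (fun a b c => w (φ a) (φ b) (φ c)) fun a b c d => by
      simpa only [map_mul] using hw.1 (φ a) (φ b) (φ c) (φ d)
    have b1 : φ (Multiplicative.ofAdd 1) = x := (p2 1).trans (zpow_one x)
    have b2 : φ (Multiplicative.ofAdd (-2)) = ρ (PresentedGroup.of none) := (p2 (-2)).trans h0.symm
    have b3 : (fun i => φ (Multiplicative.ofAdd ((![1, 55, 46, 2, 2, 2] : Fin 6 → ZMod 108) i))) =
        fun i => ρ (PresentedGroup.of (some i)) := by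
      rw [h1]
      funext i
      fin_cases i
      exacts [b1, (p2 55).trans a2.symm, (p2 46).trans a3.symm, p2 2, p2 2, p2 2]
    rw [cyc_map, b2, b3] at hq
    simp only [map_pow, b1] at hq
    exact ⟨q, hq⟩

theorem csS_irr (hw : IsCCS w) (ρ : PiS ![2, 2, -7, 1, 1, 1] →* unitary ℍ[ℝ])
    (h : ρ (PresentedGroup.of (some 2)) ^ 14 = 1) :
    ∃ q q' : ℤ, csS w ![2, 2, -7, 1, 1, 1] ρ =
      (4 * (1 + 14 * q)) • LL w (ρ (PresentedGroup.of (some 2))) 14 -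
        (1 + 4 * q') • LL w (ρ (PresentedGroup.of (some 0))) 4 := by
  obtain ⟨x, y, z, h0, h1, r1, -, r2, r3, r4⟩ := relP ρ
  rw [show ρ (PresentedGroup.of (some 2)) = z from congrFun h1 2] at h ⊢
  rw [show ρ (PresentedGroup.of (some 0)) = x from congrFun h1 0]
  have a0 : (z ^ 7)⁻¹ = z ^ 7 := inv_eq_of_mul_eq_one_right (by rw [← pow_add, h])
  have a1 : x * x = z ^ 7 := (eq_inv_of_mul_eq_one_left r2).trans a0
  have a2 : z * x = x * z⁻¹ := by
    have b1 := conj55 x y z r1 r2 r3 r4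
    calc z * x = x * (x⁻¹ * z * x) := by group
      _ = x * ((z ^ 14) ^ 4 * z⁻¹) := by
        rw [b1]
        group
      _ = _ := by rw [h, one_pow, one_mul]
  have a3 : y = x * z ^ (-1 : ℤ) := by
    have b1 : x⁻¹ = x * z ^ 7 := inv_eq_of_mul_eq_one_right (by rw [← mul_assoc, r2])
    calc y = x * ((z ^ 14) ^ 2 * z ^ (-1 : ℤ)) := by
          rw [eq_inv_mul_of_mul_eq r4, b1]
          group
      _ = _ := by rw [h, one_pow, one_mul]
  obtain ⟨φ, p1, p2⟩ := exists_Q28 x z h a1 a2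
  have hc : ∀ a b c d, w (φ b) (φ c) (φ d) - w (φ (a * b)) (φ c) (φ d) +
      w (φ a) (φ (b * c)) (φ d) - w (φ a) (φ b) (φ (c * d)) + w (φ a) (φ b) (φ c) = 0 :=
    fun a b c d => by simpa only [map_mul] using hw.1 (φ a) (φ b) (φ c) (φ d)
  obtain ⟨q, hq⟩ := cyc_two (fun a b c => w (φ a) (φ b) (φ c)) hc
  obtain ⟨q', hq'⟩ := cyc_seven (fun a b c => w (φ a) (φ b) (φ c)) hc
  have b1 : φ (a 1) = z := (p1 1).trans (zpow_one z)
  have b0 : φ (xa 0) = x := (p2 0).trans (by simp)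
  have b7 : φ (a 7) = z ^ 7 := (p1 7).trans (zpow_natCast z 7)
  have b3 : (fun i => φ ((![xa 0, xa (-1), a 1, a 7, a 7, a 7] : Fin 6 → Q28) i)) =
      fun i => ρ (PresentedGroup.of (some i)) := by
    rw [h1, a0]
    funext i
    fin_cases i
    exacts [b0, (p2 (-1)).trans a3.symm, b1, b7, b7, b7]
  rw [cyc_map, b7, ← h0, b3] at hq hq'
  simp only [map_pow, b1, b0] at hq hq'
  refine ⟨q, q', ?_⟩
  change 2 • csS w _ ρ = _ • LL w z 14 at hq
  change 7 • csS w _ ρ = _ • LL w x 4 at hq'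
  rw [mul_smul, ← hq, ← hq']
  abel

end Pool.Agent.P.MP_27a476_gt
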