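import Pool.Agent.P.MP_27a476_gt.CtKirby
import Pool.Agent.P.MP_27a476_gt.CtLens
import Pool.Agent.P.MP_27a476_gt.PrCS

set_option autoImplicit false

open scoped Quaternion Real

namespace Pool.Agent.P.MP_27a476_gt

theorem cj_rel {G : Type*} [Group G] {a b : ℤ} (ρ : PiS ![a, b] →* G) :
    ρ (PresentedGroup.of (some 0)) = ρ (PresentedGroup.of (some 1)) ^ (-1 : ℤ) ∧
      ρ (PresentedGroup.of none) = ρ (PresentedGroup.of (some 1)) ^ a ∧
      ρ (PresentedGroup.of (some 1)) ^ (a + b) = 1 := by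
  obtain ⟨-, h1, h2⟩ := relS _ ρ
  have a0 := h1 0
  have a1 := h1 1
  simp only [List.ofFn_succ, List.ofFn_zero, List.prod_cons, List.prod_nil, mul_one,
    Fin.succ_zero_eq_one, Matrix.cons_val_zero, Matrix.cons_val_one] at h2 a0 a1
  have b0 := eq_inv_of_mul_eq_one_left h2
  rw [b0, inv_zpow] at a0
  have b1 := (inv_mul_eq_one.mp a0).symm
  refine ⟨by rw [b0, zpow_neg_one], b1, ?_⟩
  rw [add_comm, zpow_add, ← b1, a1]

theorem cj_iso {a b N : ℤ} (h : a + b = N) :
    ∃ e : Pi1 ![N] ≃* PiS ![a, b], e (PresentedGroup.of 0) = PresentedGroup.of (some 1) := by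
  obtain ⟨r0, r1, r2⟩ := cj_rel (MonoidHom.id (PiS ![a, b]))
  simp only [MonoidHom.id_apply] at r0 r1 r2
  have hg : (PresentedGroup.of 0 : Pi1 ![N]) ^ (a + b) = 1 := by
    rw [h]
    exact PresentedGroup.one_of_mem (x := FreeGroup.of 0 ^ N) ⟨0, rfl⟩
  let φ : Pi1 ![N] →* PiS ![a, b] :=
    PresentedGroup.toGroup (f := fun _ => PresentedGroup.of (some 1)) (by
      rintro _ ⟨i, rfl⟩
      rw [Subsingleton.elim i 0, map_zpow, FreeGroup.lift_apply_of, Matrix.cons_val_zero, ← h, r2])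
  have hφ : φ (PresentedGroup.of 0) = PresentedGroup.of (some 1) := PresentedGroup.toGroup.of _
  obtain ⟨ψ, p0, p1⟩ := exists_rep_of_rel (G := Pi1 ![N]) ![a, b] (PresentedGroup.of 0 ^ a)
    ![(PresentedGroup.of 0)⁻¹, PresentedGroup.of 0]
    (fun i => by fin_cases i <;> simp <;> group)
    (fun i => by
      fin_cases i
      · simp
      · simp only [Fin.mk_one, Matrix.cons_val_one, Matrix.cons_val_zero]
        rw [← zpow_add, add_comm, hg])
    (by simp)
  refine ⟨MonoidHom.toMulEquiv φ ψ (PresentedGroup.ext fun i => ?_)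
    (PresentedGroup.ext fun o => ?_), hφ⟩
  · rw [Subsingleton.elim i 0, MonoidHom.comp_apply, hφ, p1]
    rfl
  · rcases o with _ | i
    · rw [MonoidHom.comp_apply, p0, map_zpow, hφ, MonoidHom.id_apply, r1]
    · rw [MonoidHom.comp_apply, p1]
      fin_cases i
      · simp only [Fin.zero_eta, Matrix.cons_val_zero, map_inv, hφ, MonoidHom.id_apply, r0,
          zpow_neg_one]
      · exact hφ

variable {w : unitary ℍ[ℝ] → unitary ℍ[ℝ] → unitary ℍ[ℝ] → UnitAddCircle}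

theorem cj_cs (hw : IsCCS w) {a b N : ℤ} (h : a + b = N) (ρ : PiS ![a, b] →* unitary ℍ[ℝ])
    (σ : Pi1 ![N] →* unitary ℍ[ℝ])
    (hσ : σ (PresentedGroup.of 0) = ρ (PresentedGroup.of (some 1))) :
    csS w ![a, b] ρ = -cs w ![N] σ := by
  obtain ⟨r0, r1, r2⟩ := cj_rel ρ
  rw [h] at r2
  set y := ρ (PresentedGroup.of (some 1)) with hy
  obtain ⟨D, hD⟩ := exists_D (fun i j k : ℤ => w (y ^ i) (y ^ j) (y ^ k)) fun i j k l => by
    simpa only [zpow_add] using hw.1 (y ^ i) (y ^ j) (y ^ k) (y ^ l)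
  set F : ℤ → UnitAddCircle := fun t => D 1 t - D t 1 with hF
  set F' : ℤ → UnitAddCircle := fun t => D (-1) (-t) - D (-t) (-1) with hF'
  have e1 : ∀ t : ℤ, w y (y ^ t) y = F (t + 1) - F t := by
    intro t
    have := hD 1 t 1
    simp only [zpow_one] at this
    rw [this, add_comm 1 t]
    simp only [hF]
    abel
  have e2 : ∀ t : ℤ, w (y ^ (-1 : ℤ)) ((y ^ (-1 : ℤ)) ^ t) (y ^ (-1 : ℤ)) = F' (t + 1) - F' t := by
    intro t
    rw [← zpow_mul, neg_one_mul, hD, hF']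
    simp only [neg_add_rev]
    rw [add_comm (-t) (-1)]
    abel
  have e3 : ∀ t : ℤ, F (t + N) - F t = F N - F 0 := by
    intro t
    have := const_of_succ (fun t => F (t + N) - F t) (fun x => by
      have a1 := e1 (x + N)
      rw [zpow_add, r2, mul_one, e1] at a1
      rw [add_right_comm]
      linear_combination (norm := abel1) -a1) t
    simpa using this
  have e4 : cs w ![N] σ = F N - F 0 := by
    rw [cs, Fin.sum_univ_one, hσ, Matrix.cons_val_zero]
    simp only [← zpow_natCast, e1]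
    have := Finset.sum_range_sub (fun j : ℕ => F j) N.natAbs
    simp only [Nat.cast_add, Nat.cast_one, Nat.cast_zero] at this
    rw [this]
    rcases lt_trichotomy N 0 with h1 | h1 | h1
    · have := e3 (-N)
      rw [neg_add_cancel] at this
      rw [Int.sign_eq_neg_one_of_neg h1, show (N.natAbs : ℤ) = -N by omega, ← this, neg_one_smul,
        neg_sub]
    · simp [h1]
    · rw [Int.sign_eq_one_of_pos h1, show (N.natAbs : ℤ) = N by omega, one_smul]
  have e5 := e3 (-b)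
  rw [show -b + N = a by omega] at e5
  have s0 := signed_tele F' (-a)
  have s1 := signed_tele F (-b)
  have t1 := hD a 0 (-1)
  have t2 := hD 0 a (-1)
  have t3 := hD 0 (-1) a
  have t4 := hD a (-1) 1
  have t5 := hD (-1) a 1
  have t6 := hD (-1) 1 a
  simp only [zpow_zero, zpow_one, add_zero, zero_add, neg_add_cancel, add_comm (-1) a,
    add_comm 1 a] at t1 t2 t3 t4 t5 t6
  rw [e4, ← e5, csS]
  simp only [Fin.sum_univ_two, List.ofFn_succ, List.ofFn_zero, Fin.succ_zero_eq_one, Fin.val_zero,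
    Fin.val_one, List.take_zero, List.prod_nil, List.take_succ_cons, List.prod_cons, mul_one,
    Matrix.cons_val_zero, Matrix.cons_val_one, ← hy, r0, r1, e1, e2, s0, s1, t1, t2, t3, t4, t5, t6]
  simp only [hF, hF', neg_neg]
  abel

theorem cj_h0 {Γ Δ : Type} [Group Γ] [Group Δ] (φ : Δ →* Γ) (hφ : Function.Surjective φ)
    (ρ : Γ →* unitary ℍ[ℝ]) :
    Module.finrank ℝ (groupCohomology (adRep (ρ.comp φ)) 0) =
      Module.finrank ℝ (groupCohomology (adRep ρ) 0) := by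
  rw [(groupCohomology.H0Iso (adRep ρ)).toLinearEquiv.finrank_eq,
    (groupCohomology.H0Iso (adRep (ρ.comp φ))).toLinearEquiv.finrank_eq]
  have : (adRep (ρ.comp φ)).ρ.invariants = (adRep ρ).ρ.invariants := by
    ext v
    refine ⟨fun h g => ?_, fun h g => h (φ g)⟩
    obtain ⟨k, rfl⟩ := hφ g
    exact h k
  exact (LinearEquiv.ofEq _ _ this).finrank_eq

theorem cj_lens {a b : ℤ} (ha : a ≠ 0) (hb : b ≠ 0) (hp : 0 < a + b) (hw : IsCCS w) :
    ∃ (m : ℕ) (c : Fin (m + 1) → ℝ) (d : Fin (m + 1) → ℚ), c 0 = 0 ∧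
      Function.Injective (fun j => (c j : UnitAddCircle)) ∧
      Set.range (csS w ![a, b]) = Set.range (fun j => (c j : UnitAddCircle)) ∧
      HasExpansion (fun r => tauS ![a, b] r / tauS ![] r) c d ∧
      ∀ j, IsGreatest {x : ℚ | ∃ ρ : PiS ![a, b] →* unitary ℍ[ℝ],
        csS w ![a, b] ρ = c j ∧ x = ((Module.finrank ℝ (groupCohomology (adRep ρ) 1) : ℚ) -
          Module.finrank ℝ (groupCohomology (adRep ρ) 0)) / 2} (d j) := by
  obtain ⟨p, h⟩ : ∃ p : ℕ, a + b = p := ⟨(a + b).toNat, by omega⟩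
  have hp' : 0 < p := by omega
  obtain ⟨e, he⟩ := cj_iso h
  obtain ⟨m, c, d, h0, h1, h2, h3, h4⟩ := ct_lens p hp' hw
  have f1 := cl_finite hp'
  have f2 : Finite (PiS ![a, b]) := Finite.of_equiv _ e.toEquiv
  have k1 : ∀ ρ : PiS ![a, b] →* unitary ℍ[ℝ],
      csS w ![a, b] ρ = -cs w ![(p : ℤ)] (ρ.comp e.toMonoidHom) :=
    fun ρ => cj_cs hw h ρ _ (congrArg ρ he)
  have k2 : ∀ σ : Pi1 ![(p : ℤ)] →* unitary ℍ[ℝ],
      (σ.comp e.symm.toMonoidHom).comp e.toMonoidHom = σ :=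
    fun σ => MonoidHom.ext fun g => congrArg σ (e.symm_apply_apply g)
  refine ⟨m, c, d, h0, h1, ?_, ?_, fun j => ?_⟩
  · rw [← h2]
    ext x
    constructor
    · rintro ⟨ρ, rfl⟩
      exact ⟨_, (k1 ρ).symm⟩
    · rintro ⟨σ, rfl⟩
      exact ⟨σ.comp e.symm.toMonoidHom, by rw [k1, k2]⟩
  · simpa only [ck_slide ha hb, ck_nil, h] using h3
  · have : {x : ℚ | ∃ ρ : PiS ![a, b] →* unitary ℍ[ℝ],
        csS w ![a, b] ρ = c j ∧ x = ((Module.finrank ℝ (groupCohomology (adRep ρ) 1) : ℚ) -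
          Module.finrank ℝ (groupCohomology (adRep ρ) 0)) / 2} =
        {x : ℚ | ∃ ρ : Pi1 ![(p : ℤ)] →* unitary ℍ[ℝ],
        -cs w ![(p : ℤ)] ρ = c j ∧ x = ((Module.finrank ℝ (groupCohomology (adRep ρ) 1) : ℚ) -
          Module.finrank ℝ (groupCohomology (adRep ρ) 0)) / 2} := by
      ext x
      constructor
      · rintro ⟨ρ, a1, rfl⟩
        exact ⟨ρ.comp e.toMonoidHom, by rw [← k1, a1], by
          rw [cl_h1, cl_h1, cj_h0 _ e.surjective]⟩
      · rintro ⟨σ, a1, rfl⟩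
        exact ⟨σ.comp e.symm.toMonoidHom, by rw [k1, k2, a1], by
          rw [cl_h1, cl_h1, cj_h0 _ e.symm.surjective]⟩
    rw [this]
    exact h4 j

end Pool.Agent.P.MP_27a476_gt
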