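import Pool.Agent.P.MP_27a476_gt.PrVal

set_option autoImplicit false

open scoped Quaternion Real
open QuaternionGroup

namespace Pool.Agent.P.MP_27a476_gt

theorem cq_normal : (PresentedGroup.of (some 2) : PiS ![2, 2, -7, 1, 1, 1]) ^ 378 = 1 ∧
    ∀ g : PiS ![2, 2, -7, 1, 1, 1], ∃ k : ℤ, g = PresentedGroup.of (some 2) ^ k ∨
      g = PresentedGroup.of (some 0) * PresentedGroup.of (some 2) ^ k := by
  obtain ⟨x, y, z, h0, h1, r1, -, r2, r3, r4⟩ := relP (MonoidHom.id (PiS ![2, 2, -7, 1, 1, 1]))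
  rw [show PresentedGroup.of (some 2) = z from congrFun h1 2,
    show PresentedGroup.of (some 0) = x from congrFun h1 0]
  have a1 := conj55 x y z r1 r2 r3 r4
  have a2 : ∀ k : ℤ, z ^ k * x = x * z ^ (55 * k) := by
    intro k
    have : (x⁻¹ * z * x⁻¹⁻¹) ^ k = (z ^ (55 : ℤ)) ^ k := by
      rw [inv_inv, a1]
      norm_cast
    rw [conj_zpow, inv_inv] at this
    rw [zpow_mul, ← this]
    group
  have a3 : x * x = z ^ (-7 : ℤ) := by
    rw [eq_inv_of_mul_eq_one_left r2]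
    group
  have a4 : x⁻¹ = x * z ^ (7 : ℤ) := by
    refine inv_eq_of_mul_eq_one_right ?_
    rw [← mul_assoc, a3]
    group
  have a5 : z ^ 378 = 1 := by
    have b1 := a2 7
    have b2 : z ^ (7 : ℤ) * x = x * z ^ (7 : ℤ) := by exact_mod_cast r1.symm
    have b3 := mul_left_cancel (b1.symm.trans b2)
    calc z ^ 378 = z ^ (55 * 7 : ℤ) * (z ^ (7 : ℤ))⁻¹ := by group
      _ = 1 := by rw [b3, mul_inv_cancel]
  let H : Subgroup (PiS ![2, 2, -7, 1, 1, 1]) :=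
    { carrier := {g | ∃ k : ℤ, g = z ^ k ∨ g = x * z ^ k}
      one_mem' := ⟨0, Or.inl (by simp)⟩
      mul_mem' := by
        rintro _ _ ⟨k, rfl | rfl⟩ ⟨l, rfl | rfl⟩
        · exact ⟨k + l, Or.inl (zpow_add _ _ _).symm⟩
        · exact ⟨55 * k + l, Or.inr (by rw [← mul_assoc, a2, zpow_add, mul_assoc])⟩
        · exact ⟨k + l, Or.inr (by rw [zpow_add, mul_assoc])⟩
        · refine ⟨-7 + 55 * k + l, Or.inl ?_⟩
          rw [mul_assoc, ← mul_assoc (z ^ k), a2, ← mul_assoc, ← mul_assoc, a3, zpow_add, zpow_add]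
      inv_mem' := by
        rintro _ ⟨k, rfl | rfl⟩
        · exact ⟨-k, Or.inl (zpow_neg _ _).symm⟩
        · refine ⟨55 * -k + 7, Or.inr ?_⟩
          rw [mul_inv_rev, ← zpow_neg, a4, ← mul_assoc, a2, zpow_add, mul_assoc] }
  refine ⟨a5, PresentedGroup.generated_by _ H fun o => ?_⟩
  have m0 : x ∈ H := ⟨0, Or.inr (by simp)⟩
  have m2 : z ∈ H := ⟨1, Or.inl (by simp)⟩
  have m1 : y ∈ H := by
    rw [eq_inv_mul_of_mul_eq r4]
    exact H.mul_mem (H.inv_mem m0) (H.pow_mem m2 _)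
  have m3 := H.pow_mem m2 7
  rcases o with _ | k
  · exact (show PresentedGroup.of none = z ^ 7 from h0) ▸ m3
  · rw [show PresentedGroup.of (some k) = _ from congrFun h1 k]
    fin_cases k
    exacts [m0, m1, m2, H.inv_mem m3, H.inv_mem m3, H.inv_mem m3]

theorem cq_left : ∃ l : PiS ![2, 2, -7, 1, 1, 1] →* unitary ℍ[ℝ],
    l (PresentedGroup.of (some 2)) = eu (2 * π * (1 : ℕ) / (14 : ℕ)) ∧
    l (PresentedGroup.of (some 0)) = ju ∧ (∀ g, l g ^ 28 = 1) ∧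
    ∀ w, IsCCS w → csS w ![2, 2, -7, 1, 1, 1] l = ((((27 : ℤ) : ℝ) / 756 : ℝ) : UnitAddCircle) := by
  have a0 : ju ^ 2 = eu π := by
    apply Subtype.ext
    rw [sq, Submonoid.coe_mul]
    ext <;> simp [ju, eu, ee]
  have a1 : eu (2 * π * (1 : ℕ) / (14 : ℕ)) ^ 7 = eu π := by
    rw [eu_pow]
    congr 1
    push_cast
    ring
  have a2 : ∀ θ, eu θ * ju = ju * (eu θ)⁻¹ := by
    intro θ
    rw [← zpow_neg_one, eu_zpow]
    apply Subtype.ext
    rw [Submonoid.coe_mul, Submonoid.coe_mul]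
    ext <;> simp [ju, eu, ee]
  obtain ⟨φ, p1, p2⟩ := exists_Q28 ju _ (pow_two_mul_of a1) (by rw [← sq, a0, a1]) (a2 _)
  obtain ⟨ψ, -, h1⟩ := exists_rep_of_rel (G := Q28) ![2, 2, -7, 1, 1, 1] (a 7)
    ![xa 0, xa (-1), a 1, a 7, a 7, a 7] (by decide +kernel) (by decide +kernel)
    (by decide +kernel)
  have b1 : φ.comp ψ (PresentedGroup.of (some 2)) = eu (2 * π * (1 : ℕ) / (14 : ℕ)) := by
    rw [MonoidHom.comp_apply, h1]
    exact (p1 1).trans (zpow_one _)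
  have b0 : φ.comp ψ (PresentedGroup.of (some 0)) = ju := by
    rw [MonoidHom.comp_apply, h1]
    exact (p2 0).trans (by simp)
  refine ⟨φ.comp ψ, b1, b0, fun g => ?_, fun w hw => ?_⟩
  · have : ∀ t : Q28, t ^ 28 = 1 := by decide +kernel
    rw [MonoidHom.comp_apply, ← map_pow, this, map_one]
  · obtain ⟨q, q', hq⟩ := csS_irr hw (φ.comp ψ) (by rw [b1]; exact pow_two_mul_of a1)
    obtain ⟨n, -, ⟨v, hv⟩, hN⟩ := lens_value hw _ 4 (by norm_num) (pow_two_mul_of a0)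
    rw [hq, b1, b0, LL_eu hw 14 _ (by norm_num), LL, hN,
      arith_irr _ _ _ _ (odd_of_pow v n 2 (by norm_num) (hv ▸ a0))]
    norm_num

theorem cq_right : ∃ r : PiS ![2, 2, -7, 1, 1, 1] →* unitary ℍ[ℝ],
    r (PresentedGroup.of (some 2)) = eu (2 * π * (28 : ℕ) / (108 : ℕ)) ^ (46 : ℤ) ∧
    (∀ g, r g ^ 27 = 1) ∧
    ∀ w, IsCCS w → csS w ![2, 2, -7, 1, 1, 1] r = ((((28 : ℤ) : ℝ) / 756 : ℝ) : UnitAddCircle) := by
  obtain ⟨P, p1, p2⟩ := exists_zmod _ 108 (eu_pow_one 108 28 (by norm_num))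
  let φ : C108 →* unitary ℍ[ℝ] := MonoidHom.mk' (fun i => P i.toAdd) fun _ _ => p1 _ _
  obtain ⟨ψ, -, h1⟩ := exists_rep_of_rel (G := C108) ![2, 2, -7, 1, 1, 1]
    (Multiplicative.ofAdd (-2)) (fun i => Multiplicative.ofAdd (![1, 55, 46, 2, 2, 2] i))
    (by decide +kernel) (by decide +kernel) (by decide +kernel)
  have b1 : φ.comp ψ (PresentedGroup.of (some 0)) = eu (2 * π * (28 : ℕ) / (108 : ℕ)) := by
    rw [MonoidHom.comp_apply, h1]
    exact (p2 1).trans (zpow_one _)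
  have b2 : eu (2 * π * (28 : ℕ) / (108 : ℕ)) ^ 27 = 1 := by
    rw [eu_pow, ← eu_zero, ← eu_period 0 7]
    congr 1
    push_cast
    ring
  refine ⟨φ.comp ψ, ?_, fun g => ?_, fun w hw => ?_⟩
  · rw [MonoidHom.comp_apply, h1]
    exact p2 46
  · obtain ⟨k, hk⟩ := ZMod.intCast_surjective (ψ g).toAdd
    have : φ.comp ψ g = eu (2 * π * (28 : ℕ) / (108 : ℕ)) ^ k := by
      rw [← p2, hk]
      rfl
    rw [this, ← zpow_natCast, ← zpow_mul, mul_comm k, zpow_mul, zpow_natCast, b2, one_zpow]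
  · obtain ⟨-, -, q, hq⟩ := csS_ab hw (φ.comp ψ) (by
      simp only [MonoidHom.comp_apply, ← map_mul φ]
      rw [mul_comm])
    rw [hq, b1, LL_eu hw 108 28 (by norm_num), arith_ab, coe_756]
    norm_num

/-- The group has order 756 and acts freely on the 3-sphere by `x ↦ l g * x * (r g)⁻¹`; the
difference of the two Chern-Simons values is `1 / 756`. -/
theorem cq_space : Nat.card (PiS ![2, 2, -7, 1, 1, 1]) = 756 ∧
    ∃ l r : PiS ![2, 2, -7, 1, 1, 1] →* unitary ℍ[ℝ],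
      (∀ g x, l g * x * (r g)⁻¹ = x → g = 1) ∧
      ∀ w, IsCCS w → csS w ![2, 2, -7, 1, 1, 1] r - csS w ![2, 2, -7, 1, 1, 1] l =
        ((1 / 756 : ℝ) : UnitAddCircle) := by
  obtain ⟨z1, nf⟩ := cq_normal
  obtain ⟨l, l2, l0, l28, lv⟩ := cq_left
  obtain ⟨r, r2, r27, rv⟩ := cq_right
  set x : PiS ![2, 2, -7, 1, 1, 1] := PresentedGroup.of (some 0)
  set z : PiS ![2, 2, -7, 1, 1, 1] := PresentedGroup.of (some 2)
  have hπ := Real.pi_pos
  have k1 : ∀ k : ℤ, l (x * z ^ k) ∉ Set.range eu := by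
    rintro k ⟨θ, h⟩
    rw [map_mul, map_zpow, l0, l2, eu_zpow, eq_comm, ← eq_mul_inv_iff_mul_eq, ← zpow_neg_one,
      eu_zpow, eu_add] at h
    have := congrArg (fun q : unitary ℍ[ℝ] => (q : ℍ[ℝ]).imJ) h
    simp [ju, eu, ee] at this
  have k2 : ∀ k : ℤ, l (z ^ k) = 1 → r (z ^ k) = 1 → (378 : ℤ) ∣ k := by
    intro k h1 h2
    rw [map_zpow, l2, eu_zpow, ← eu_zero] at h1
    rw [map_zpow, r2, eu_zpow, eu_zpow, ← eu_zero] at h2
    obtain ⟨s, hs⟩ := eu_inj h1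
    obtain ⟨t, ht⟩ := eu_inj h2
    push_cast at hs ht
    have a1 : (k : ℝ) = 14 * s := by
      apply mul_right_cancel₀ hπ.ne'
      linarith
    have a2 : 322 * (k : ℝ) = 27 * t := by
      apply mul_right_cancel₀ hπ.ne'
      linarith
    have a3 : k = 14 * s := by exact_mod_cast a1
    have a4 : 322 * k = 27 * t := by exact_mod_cast a2
    omega
  have k3 : orderOf z = 378 := by
    refine Nat.dvd_antisymm (orderOf_dvd_of_pow_eq_one z1) ?_
    have h := pow_orderOf_eq_one z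
    rw [← zpow_natCast] at h
    exact_mod_cast k2 (orderOf z) (by rw [h, map_one]) (by rw [h, map_one])
  have k4 : ∀ k : ℤ, x * z ^ k ∉ Subgroup.zpowers z := by
    rintro k ⟨j, h⟩
    refine k1 k ⟨j * (2 * π * (1 : ℕ) / (14 : ℕ)), ?_⟩
    rw [← h, map_zpow, l2, eu_zpow]
  refine ⟨?_, l, r, fun g u h => ?_, fun w hw => ?_⟩
  · have hi : (Subgroup.zpowers z).index = 2 := by
      rw [Subgroup.index_eq_two_iff']
      refine ⟨x⁻¹, fun b => ?_⟩
      obtain ⟨k, rfl | rfl⟩ := nf b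
      · refine Or.inr ⟨⟨k, rfl⟩, fun h => k4 0 ?_⟩
        have := (Subgroup.zpowers z).inv_mem
          ((Subgroup.zpowers z).mul_mem h ((Subgroup.zpowers z).inv_mem ⟨k, rfl⟩))
        simpa using this
      · exact Or.inl ⟨by rw [inv_mul_cancel_left]; exact ⟨k, rfl⟩, k4 k⟩
    rw [← (Subgroup.zpowers z).card_mul_index, hi, Nat.card_zpowers, k3]
  · have a1 : l g = u * r g * u⁻¹ := by
      rw [eq_mul_inv_iff_mul_eq, ← mul_inv_eq_iff_eq_mul, h]
    have a2 : l g ^ 27 = 1 := by rw [a1, conj_pow, r27, mul_one, mul_inv_cancel]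
    have a3 : l g = 1 := by
      have := l28 g
      rwa [pow_succ, a2, one_mul] at this
    have a4 : r g = 1 := by
      rw [a3, one_mul, mul_inv_eq_iff_eq_mul, left_eq_mul] at h
      exact h
    obtain ⟨k, rfl | rfl⟩ := nf g
    · obtain ⟨s, rfl⟩ := k2 k a3 a4
      rw [zpow_mul, show z ^ (378 : ℤ) = 1 from by exact_mod_cast z1, one_zpow]
    · exact absurd ⟨0, by rw [a3, eu_zero]⟩ (k1 k)
  · rw [rv w hw, lv w hw, ← AddCircle.coe_sub]
    congr 1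
    norm_num

/-- The same with the two factors exchanged, which is the orientation of the 3-sphere. -/
theorem cq_space' : Nat.card (PiS ![2, 2, -7, 1, 1, 1]) = 756 ∧
    ∃ l l' : PiS ![2, 2, -7, 1, 1, 1] →* unitary ℍ[ℝ],
      (∀ g x, l g * x * (l' g)⁻¹ = x → g = 1) ∧
      ∀ w, IsCCS w → csS w ![2, 2, -7, 1, 1, 1] l - csS w ![2, 2, -7, 1, 1, 1] l' =
        ((1 / 756 : ℝ) : UnitAddCircle) := by
  obtain ⟨h0, l, r, h1, h2⟩ := cq_space
  refine ⟨h0, r, l, fun g x h => h1 g x⁻¹ ?_, h2⟩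
  calc l g * x⁻¹ * (r g)⁻¹ = (r g * x * (l g)⁻¹)⁻¹ := by group
    _ = x⁻¹ := by rw [h]

end Pool.Agent.P.MP_27a476_gt
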