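import Pool.Agent.P.MP_27a476_gt.Defs

set_option autoImplicit false

open Complex Real Filter Topology Finset

namespace Pool.Agent.P.MP_27a476_gt

theorem ct_units (Z : Finset ℂ) : ∀ γ : ℂ → ℂ, (∀ y ∈ Z, ‖y‖ = 1) →
    Tendsto (fun r : ℕ => ∑ y ∈ Z, γ y * y ^ r) atTop (𝓝 0) → ∀ y ∈ Z, γ y = 0 := by
  classical
  induction Z using Finset.induction_on with
  | empty => intro γ _ _ y hy; simp at hy
  | insert a Z ha ih =>
    intro γ h1 h
    have h2 : Tendsto (fun r : ℕ => ∑ y ∈ Z, (γ y * (y - a)) * y ^ r) atTop (𝓝 0) := by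
      have h3 := (h.comp (tendsto_add_atTop_nat 1)).sub (h.const_mul a)
      rw [mul_zero, sub_zero] at h3
      refine h3.congr fun r => ?_
      simp only [Function.comp, sum_insert ha, mul_add, mul_sum]
      have : ∀ y ∈ Z, γ y * (y - a) * y ^ r = γ y * y ^ (r + 1) - a * (γ y * y ^ r) :=
        fun y _ => by ring
      rw [sum_congr rfl this, sum_sub_distrib]
      ring
    have h4 : ∀ y ∈ Z, γ y = 0 := fun y hy => by
      have := ih _ (fun y hy => h1 y (mem_insert_of_mem hy)) h2 y hy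
      exact (mul_eq_zero.1 this).resolve_right (sub_ne_zero.2 fun e => ha (e ▸ hy))
    have h5 : γ a = 0 := by
      have h6 : Tendsto (fun _ : ℕ => ‖γ a‖) atTop (𝓝 0) := by
        have := h.norm
        rw [norm_zero] at this
        refine this.congr fun r => ?_
        rw [sum_insert ha, sum_eq_zero fun y hy => by rw [h4 y hy, zero_mul], add_zero, norm_mul,
          norm_pow, h1 a (mem_insert_self _ _), one_pow, mul_one]
      exact norm_eq_zero.1 (tendsto_nhds_unique tendsto_const_nhds h6)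
    intro y hy
    rcases mem_insert.1 hy with rfl | hy
    exacts [h5, h4 y hy]

theorem ct_group {κ : Type*} (T : Finset κ) (z β : κ → ℂ) (r : ℕ) :
    ∑ k ∈ T, β k * z k ^ r =
      ∑ y ∈ T.image z, (∑ k ∈ T.filter fun k => z k = y, β k) * y ^ r := by
  rw [← sum_fiberwise_of_maps_to (g := z) (t := T.image z) fun k hk => mem_image_of_mem z hk]
  refine sum_congr rfl fun y _ => ?_
  rw [sum_mul]
  exact sum_congr rfl fun k hk => by rw [(mem_filter.1 hk).2]

theorem ct_small {s : ℝ} (hs : s < 0) : Tendsto (fun r : ℕ => (r : ℝ) ^ s) atTop (𝓝 0) := by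
  have := (tendsto_rpow_neg_atTop (neg_pos.2 hs)).comp tendsto_natCast_atTop_atTop
  simpa [Function.comp_def] using this

theorem ct_zero {κ : Type*} (z β : κ → ℂ) (s : κ → ℝ) (hz : ∀ k, ‖z k‖ = 1) (τ C : ℝ) (n : ℕ) :
    ∀ T : Finset κ, T.card ≤ n →
      (∀ r : ℕ, 2 ≤ r → ‖∑ k ∈ T, β k * z k ^ r * (((r : ℝ) ^ s k : ℝ) : ℂ)‖ ≤ C * (r : ℝ) ^ τ) →
      ∀ y σ, τ < σ → ∑ k ∈ T.filter (fun k => z k = y ∧ s k = σ), β k = 0 := by
  classical
  induction n with
  | zero =>
    intro T hT _ y σ _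
    rw [card_eq_zero.1 (Nat.le_zero.1 hT)]
    simp
  | succ n ih =>
    intro T hT h y σ hσ
    rcases T.eq_empty_or_nonempty with rfl | hne
    · simp
    obtain ⟨k0, hk0, hmax⟩ := exists_max_image T s hne
    by_cases hτ : s k0 ≤ τ
    · refine sum_eq_zero fun k hk => ?_
      obtain ⟨h1, -, h2⟩ := mem_filter.1 hk
      have := hmax k h1
      linarith
    push Not at hτ
    set T1 := T.filter fun k => s k = s k0 with hT1
    set T2 := T.filter fun k => ¬ s k = s k0 with hT2
    have hsplit : ∀ r : ℕ, ∑ k ∈ T, β k * z k ^ r * (((r : ℝ) ^ s k : ℝ) : ℂ) =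
        (∑ k ∈ T1, β k * z k ^ r) * (((r : ℝ) ^ s k0 : ℝ) : ℂ) +
          ∑ k ∈ T2, β k * z k ^ r * (((r : ℝ) ^ s k : ℝ) : ℂ) := by
      intro r
      rw [← sum_filter_add_sum_filter_not T fun k => s k = s k0, sum_mul]
      congr 1
      exact sum_congr rfl fun k hk => by rw [(mem_filter.1 hk).2]
    have hlim : Tendsto (fun r : ℕ => ∑ k ∈ T1, β k * z k ^ r) atTop (𝓝 0) := by
      have a1 : Tendsto (fun r : ℕ => C * (r : ℝ) ^ (τ - s k0) +
          ∑ k ∈ T2, ‖β k‖ * (r : ℝ) ^ (s k - s k0)) atTop (𝓝 0) := by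
        have b1 := (ct_small (sub_neg.2 hτ)).const_mul C
        have b2 : Tendsto (fun r : ℕ => ∑ k ∈ T2, ‖β k‖ * (r : ℝ) ^ (s k - s k0)) atTop
            (𝓝 (∑ k ∈ T2, ‖β k‖ * 0)) := tendsto_finsetSum _ fun k hk =>
          (ct_small (sub_neg.2 (lt_of_le_of_ne (hmax k (mem_filter.1 hk).1)
            (mem_filter.1 hk).2))).const_mul _
        simpa using b1.add b2
      refine squeeze_zero_norm' ?_ a1
      filter_upwards [eventually_ge_atTop 2] with r hr
      have hr0 : (0 : ℝ) < r := by exact_mod_cast (by omega : 0 < r)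
      have hp : 0 < (r : ℝ) ^ s k0 := rpow_pos_of_pos hr0 _
      have c1 := h r hr
      rw [hsplit] at c1
      have c2 : ‖∑ k ∈ T2, β k * z k ^ r * (((r : ℝ) ^ s k : ℝ) : ℂ)‖ ≤
          ∑ k ∈ T2, ‖β k‖ * (r : ℝ) ^ s k := by
        refine (norm_sum_le _ _).trans (le_of_eq (sum_congr rfl fun k _ => ?_))
        rw [norm_mul, norm_mul, norm_pow, hz, one_pow, mul_one, norm_real,
          Real.norm_of_nonneg (rpow_pos_of_pos hr0 _).le]
      have c3 := norm_sub_le ((∑ k ∈ T1, β k * z k ^ r) * (((r : ℝ) ^ s k0 : ℝ) : ℂ) +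
          ∑ k ∈ T2, β k * z k ^ r * (((r : ℝ) ^ s k : ℝ) : ℂ))
        (∑ k ∈ T2, β k * z k ^ r * (((r : ℝ) ^ s k : ℝ) : ℂ))
      rw [add_sub_cancel_right, norm_mul, norm_real, Real.norm_of_nonneg hp.le] at c3
      refine le_of_mul_le_mul_right ?_ hp
      have c4 : (C * (r : ℝ) ^ (τ - s k0) + ∑ k ∈ T2, ‖β k‖ * (r : ℝ) ^ (s k - s k0)) *
          (r : ℝ) ^ s k0 = C * (r : ℝ) ^ τ + ∑ k ∈ T2, ‖β k‖ * (r : ℝ) ^ s k := by
        rw [add_mul, sum_mul, mul_assoc, ← Real.rpow_add hr0, sub_add_cancel]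
        congr 1
        exact sum_congr rfl fun k _ => by rw [mul_assoc, ← Real.rpow_add hr0, sub_add_cancel]
      rw [c4]
      linarith
    have htop : ∀ y ∈ T1.image z, ∑ k ∈ T1.filter (fun k => z k = y), β k = 0 := by
      refine ct_units _ (fun y => ∑ k ∈ T1.filter (fun k => z k = y), β k) ?_ ?_
      · intro y hy
        obtain ⟨k, -, rfl⟩ := mem_image.1 hy
        exact hz k
      · exact hlim.congr fun r => ct_group T1 z β r
    by_cases hs : σ = s k0
    · have e : T.filter (fun k => z k = y ∧ s k = σ) = T1.filter fun k => z k = y := by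
        ext k
        simp only [hT1, mem_filter, hs]
        tauto
      rw [e]
      by_cases hy : y ∈ T1.image z
      · exact htop y hy
      · exact sum_eq_zero fun k hk =>
          (hy (mem_image.2 ⟨k, (mem_filter.1 hk).1, (mem_filter.1 hk).2⟩)).elim
    · have e : T.filter (fun k => z k = y ∧ s k = σ) =
          T2.filter fun k => z k = y ∧ s k = σ := by
        ext k
        simp only [hT2, mem_filter]
        constructor
        · rintro ⟨h1, h2, h3⟩
          exact ⟨⟨h1, fun h4 => hs (h3.symm.trans h4)⟩, h2, h3⟩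
        · tauto
      rw [e]
      refine ih T2 ?_ (fun r hr => ?_) y σ hσ
      · have : T2.card < T.card :=
          card_lt_card (filter_ssubset.2 ⟨k0, hk0, fun h => h rfl⟩)
        omega
      · have c1 := h r hr
        rwa [hsplit, ct_group T1, sum_eq_zero fun y hy => by rw [htop y hy, zero_mul], zero_mul,
          zero_add] at c1

theorem ct_term {m : ℕ} (c : Fin (m + 1) → ℝ) (d J : Fin (m + 1) → ℚ) (v : Fin (m + 1) → ℝ)
    (a : Fin (m + 1) → ℕ → ℂ) (E : ℕ) {r : ℕ} (hr : 2 ≤ r) :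
    ∑ j, ((v j * (r : ℝ) ^ (d j : ℝ) : ℝ) : ℂ) * cexp (2 * π * I * (r * c j + J j / 8)) *
        (1 + ∑ e ∈ Icc 1 E, a j e / (r : ℂ) ^ e) =
      ∑ k ∈ (univ : Finset (Fin (m + 1))) ×ˢ range (E + 1),
        (v k.1 * cexp (2 * π * I * (J k.1 / 8)) * if k.2 = 0 then 1 else a k.1 k.2) *
          cexp (2 * π * I * c k.1) ^ r * (((r : ℝ) ^ ((d k.1 : ℝ) - k.2) : ℝ) : ℂ) := by
  have hr0 : (0 : ℝ) < r := by exact_mod_cast (by omega : 0 < r)
  rw [sum_product]
  refine sum_congr rfl fun j _ => ?_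
  have e1 : (1 + ∑ e ∈ Icc 1 E, a j e / (r : ℂ) ^ e) =
      ∑ e ∈ range (E + 1), (if e = 0 then 1 else a j e) / (r : ℂ) ^ e := by
    rw [range_eq_Ico, sum_eq_sum_Ico_succ_bot (by omega)]
    congr 1
    · simp
    · refine sum_congr (by ext; simp) fun e he => ?_
      rw [if_neg (by have := (mem_Ico.1 he).1; omega)]
  rw [e1, mul_sum]
  refine sum_congr rfl fun e _ => ?_
  rw [Real.rpow_sub hr0, Real.rpow_natCast, ← Complex.exp_nat_mul, mul_add (2 * π * I),
    Complex.exp_add, show 2 * π * I * (r * c j) = (r : ℂ) * (2 * π * I * c j) by ring]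
  push_cast
  ring

theorem ct_le {m : ℕ} {Z : ℕ → ℂ} {c : Fin (m + 1) → ℝ} {d d' : Fin (m + 1) → ℚ}
    (hc : Function.Injective fun j => (c j : UnitAddCircle))
    (h : HasExpansion Z c d) (h' : HasExpansion Z c d') (j : Fin (m + 1)) : d j ≤ d' j := by
  classical
  by_contra hlt
  push Not at hlt
  obtain ⟨J, v, a, hv, h⟩ := h
  obtain ⟨J', v', a', -, h'⟩ := h'
  set M : ℝ := max ((univ.sup' univ_nonempty d : ℚ) : ℝ) ((univ.sup' univ_nonempty d' : ℚ) : ℝ)
    with hM
  obtain ⟨E, hE⟩ := exists_nat_ge (M - d j)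
  obtain ⟨C, hC⟩ := h E
  obtain ⟨C', hC'⟩ := h' E
  set z : Fin (m + 1) → ℂ := fun i => cexp (2 * π * I * c i) with hz
  have hzi : ∀ i, z i = z j → i = j := by
    intro i hi
    apply hc
    obtain ⟨n, hn⟩ := exp_eq_exp_iff_exists_int.1 hi
    have h1 : (c i : ℂ) = c j + n :=
      mul_left_cancel₀ two_pi_I_ne_zero (by rw [hn]; ring)
    have h2 : c i = c j + n := by exact_mod_cast h1
    have h3 : (((n : ℝ) : ℝ) : UnitAddCircle) = 0 := (AddCircle.coe_eq_zero_iff 1).2 ⟨n, by simp⟩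
    change (c i : UnitAddCircle) = c j
    rw [h2, AddCircle.coe_add, h3, add_zero]
  set P : Finset (Fin (m + 1) × ℕ) := univ ×ˢ range (E + 1) with hP
  have key := ct_zero (κ := (Fin (m + 1) × ℕ) ⊕ (Fin (m + 1) × ℕ))
    (Sum.elim (fun k => z k.1) fun k => z k.1)
    (Sum.elim (fun k => v k.1 * cexp (2 * π * I * (J k.1 / 8)) * if k.2 = 0 then 1 else a k.1 k.2)
      fun k => -(v' k.1 * cexp (2 * π * I * (J' k.1 / 8)) * if k.2 = 0 then 1 else a' k.1 k.2))
    (Sum.elim (fun k => (d k.1 : ℝ) - k.2) fun k => (d' k.1 : ℝ) - k.2) ?_ (M - E - 1)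
    (|C| + |C'|) _ (P.disjSum P) le_rfl ?_ (z j) (d j) (by linarith)
  · have e : (P.disjSum P).filter (fun k => Sum.elim (fun k => z k.1) (fun k => z k.1) k = z j ∧
        Sum.elim (fun k => (d k.1 : ℝ) - k.2) (fun k => (d' k.1 : ℝ) - k.2) k = d j) =
        {Sum.inl (j, 0)} := by
      ext k
      rw [mem_filter, mem_singleton]
      constructor
      · rintro ⟨-, h1, h2⟩
        rcases k with ⟨i, e⟩ | ⟨i, e⟩
        · obtain rfl := hzi i h1
          have : (e : ℝ) = 0 := by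
            simp only [Sum.elim_inl] at h2
            linarith
          have : e = 0 := by exact_mod_cast this
          rw [this]
        · obtain rfl := hzi i h1
          simp only [Sum.elim_inr] at h2
          have h3 : (d' i : ℝ) < d i := by exact_mod_cast hlt
          have h4 : (0 : ℝ) ≤ e := Nat.cast_nonneg e
          linarith
      · rintro rfl
        simp [hP]
    rw [e, sum_singleton] at key
    simp only [Sum.elim_inl, if_true, mul_one] at key
    exact mul_ne_zero (ofReal_ne_zero.2 (hv j).ne') (Complex.exp_ne_zero _) key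
  · have : ∀ i, ‖z i‖ = 1 := fun i => by
      rw [hz]
      change ‖cexp (2 * π * I * c i)‖ = 1
      rw [show 2 * π * I * c i = ((2 * π * c i : ℝ) : ℂ) * I by push_cast; ring,
        norm_exp_ofReal_mul_I]
    rintro (k | k)
    exacts [this _, this _]
  · intro r hr
    have hr1 : (1 : ℝ) ≤ r := by exact_mod_cast (by omega : 1 ≤ r)
    have c1 := hC r hr
    have c2 := hC' r hr
    rw [ct_term c d J v a E hr] at c1
    rw [ct_term c d' J' v' a' E hr] at c2
    rw [sum_disjSum]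
    simp only [Sum.elim_inl, Sum.elim_inr, neg_mul, sum_neg_distrib]
    have b : ∀ (C x : ℝ), x ≤ M → C * (r : ℝ) ^ (x - E - 1) ≤ |C| * (r : ℝ) ^ (M - E - 1) :=
      fun C x hx => mul_le_mul (le_abs_self C)
        (rpow_le_rpow_of_exponent_le hr1 (by linarith)) (by positivity) (abs_nonneg C)
    have c3 := c1.trans (b C _ (le_max_left _ _))
    have c4 := c2.trans (b C' _ (le_max_right _ _))
    have c5 := (norm_sub_le _ _).trans (add_le_add c4 c3)
    rw [sub_sub_sub_cancel_left] at c5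
    rw [← sub_eq_add_neg]
    linarith

theorem ct_unique {m : ℕ} {Z : ℕ → ℂ} {c : Fin (m + 1) → ℝ} {d d' : Fin (m + 1) → ℚ}
    (hc : Function.Injective fun j => (c j : UnitAddCircle))
    (h : HasExpansion Z c d) (h' : HasExpansion Z c d') : d = d' :=
  funext fun j => le_antisymm (ct_le hc h h' j) (ct_le hc h' h j)

end Pool.Agent.P.MP_27a476_gt
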