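import Mathlib

set_option autoImplicit false

open MeasureTheory
open scoped Quaternion Real

namespace Pool.Agent.P.MP_27a476_gt

/-- The fundamental group of surgery on the unlink with framings `f`. -/
abbrev Pi1 {n : ℕ} (f : Fin n → ℤ) : Type :=
  PresentedGroup (Set.range fun i => FreeGroup.of i ^ f i)

/-- The Reshetikhin-Turaev surgery formula (Kirby-Melvin normalisation) for the unlink with
framings `f`. -/
noncomputable def tau {n : ℕ} (f : Fin n → ℤ) (r : ℕ) : ℂ :=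
  ((√(2 / r) * Real.sin (π / r) : ℝ) : ℂ) ^ n *
    Complex.exp (-(2 * π * Complex.I) * (3 * (r - 2) / (8 * r))) ^ (∑ i, (f i).sign) *
    ∑ k ∈ Fintype.piFinset (fun _ : Fin n => Finset.Ioo 0 r), ∏ i,
      ((Real.sin (π * k i / r) / Real.sin (π / r) : ℝ) : ℂ) ^ 2 *
        Complex.exp (2 * π * Complex.I / (4 * r)) ^ (f i * ((k i : ℤ) ^ 2 - 1))

/-- Signed volume of the geodesic simplex of the 3-sphere with vertices `x`, total volume 1. -/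
noncomputable def svol (x : Fin 4 → ℍ[ℝ]) : ℝ :=
  SignType.sign (Matrix.of fun i => Quaternion.equivTuple ℝ (x i)).det *
    volume.real {p : EuclideanSpace ℝ (Fin 4) | ‖p‖ ≤ 1 ∧ ∃ t : Fin 4 → ℝ, (∀ i, 0 ≤ t i) ∧
      p = Quaternion.linearIsometryEquivTuple (∑ i, t i • x i)} /
    volume.real {p : EuclideanSpace ℝ (Fin 4) | ‖p‖ ≤ 1}

/-- `w` is a group 3-cocycle given by the signed volume on nondegenerate simplices. -/
def IsCCS (w : unitary ℍ[ℝ] → unitary ℍ[ℝ] → unitary ℍ[ℝ] → UnitAddCircle) : Prop :=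
  (∀ a b c d, w b c d - w (a * b) c d + w a (b * c) d - w a b (c * d) + w a b c = 0) ∧
    ∀ a b c : unitary ℍ[ℝ], LinearIndependent ℝ ![(1 : ℍ[ℝ]), a, a * b, a * b * c] →
      w a b c = svol ![1, a, a * b, a * b * c]

/-- Pairing of the pulled-back cocycle with the fundamental cycle. -/
noncomputable def cs (w : unitary ℍ[ℝ] → unitary ℍ[ℝ] → unitary ℍ[ℝ] → UnitAddCircle) {n : ℕ}
    (f : Fin n → ℤ) (ρ : Pi1 f →* unitary ℍ[ℝ]) : UnitAddCircle :=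
  ∑ i, (f i).sign • ∑ j ∈ Finset.range (f i).natAbs,
    w (ρ (PresentedGroup.of i)) (ρ (PresentedGroup.of i) ^ j) (ρ (PresentedGroup.of i))

theorem conj_mem (a : ℍ[ℝ]) {v : ℍ[ℝ]}
    (hv : v ∈ (ℝ ∙ (1 : ℍ[ℝ]))ᗮ) :
    a * v * star a ∈ (ℝ ∙ (1 : ℍ[ℝ]))ᗮ := by
  rw [Submodule.mem_orthogonal_singleton_iff_inner_left, Quaternion.inner_def] at hv ⊢
  have h : v.re = 0 := by simpa using hv
  simp [h]
  ring

theorem conj_add (a u v : ℍ[ℝ]) : a * (u + v) * star a = a * u * star a + a * v * star a := by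
  rw [mul_add, add_mul]

theorem conj_smul (a : ℍ[ℝ]) (c : ℝ) (v : ℍ[ℝ]) :
    a * (c • v) * star a = c • (a * v * star a) := by
  rw [mul_smul_comm, smul_mul_assoc]

theorem conj_one {Γ : Type} [Group Γ] (ρ : Γ →* unitary ℍ[ℝ]) (v : ℍ[ℝ]) :
    (ρ 1 : ℍ[ℝ]) * v * star (ρ 1 : ℍ[ℝ]) = v := by
  simp

theorem conj_mul {Γ : Type} [Group Γ] (ρ : Γ →* unitary ℍ[ℝ]) (g h : Γ) (v : ℍ[ℝ]) :
    (ρ (g * h) : ℍ[ℝ]) * v * star (ρ (g * h) : ℍ[ℝ]) =
      (ρ g : ℍ[ℝ]) * ((ρ h : ℍ[ℝ]) * v * star (ρ h : ℍ[ℝ])) * star (ρ g : ℍ[ℝ]) := by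
  simp [mul_assoc]

/-- The adjoint representation on the imaginary quaternions, pulled back along `ρ`. -/
noncomputable def adRep {Γ : Type} [Group Γ] (ρ : Γ →* unitary ℍ[ℝ]) : Rep ℝ Γ :=
  Rep.of (X := (ℝ ∙ (1 : ℍ[ℝ]))ᗮ)
    { toFun := fun g =>
        { toFun := fun v => ⟨(ρ g : ℍ[ℝ]) * (v : ℍ[ℝ]) * star (ρ g : ℍ[ℝ]), conj_mem _ v.2⟩
          map_add' := fun _ _ => Subtype.ext (conj_add _ _ _)
          map_smul' := fun _ _ => Subtype.ext (conj_smul _ _ _) }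
      map_one' := LinearMap.ext fun _ => Subtype.ext (conj_one ρ _)
      map_mul' := fun _ _ => LinearMap.ext fun _ => Subtype.ext (conj_mul ρ _ _ _) }

/-- Expansion (E) with phases `c` and exponents `d`. -/
def HasExpansion {m : ℕ} (Z : ℕ → ℂ) (c : Fin (m + 1) → ℝ) (d : Fin (m + 1) → ℚ) : Prop :=
  ∃ (J : Fin (m + 1) → ℚ) (v : Fin (m + 1) → ℝ) (a : Fin (m + 1) → ℕ → ℂ), (∀ j, 0 < v j) ∧
    ∀ E : ℕ, ∃ C : ℝ, ∀ r : ℕ, 2 ≤ r →
      ‖Z r - ∑ j, ((v j * (r : ℝ) ^ (d j : ℝ) : ℝ) : ℂ) *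
          Complex.exp (2 * π * Complex.I * (r * c j + J j / 8)) *
          (1 + ∑ e ∈ Finset.Icc 1 E, a j e / (r : ℂ) ^ e)‖ ≤
        C * (r : ℝ) ^ (((Finset.univ.sup' Finset.univ_nonempty d : ℚ) : ℝ) - E - 1)

end Pool.Agent.P.MP_27a476_gt
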