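import Pool.Agent.P.MP_27a476_gt.Sector

set_option autoImplicit false

open scoped Quaternion Real

namespace Pool.Agent.P.MP_27a476_gt

section Abstract

variable {G A : Type*} [Group G] [AddCommGroup A]

theorem shift_sum (x : G) (p : ℕ) (hx : x ^ p = 1) (h : G → A) :
    ∑ j ∈ Finset.range p, h (x * x ^ j) = ∑ j ∈ Finset.range p, h (x ^ j) := by
  have h1 := Finset.sum_range_succ (fun j => h (x ^ j)) p
  have h2 := Finset.sum_range_succ' (fun j => h (x ^ j)) p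
  simp only [pow_succ', hx, pow_zero] at h1 h2
  exact add_right_cancel (h2.symm.trans h1)

variable (W : G → G → G → G → A)
  (hc : ∀ a b c d e, W b c d e - W a c d e + W a b d e - W a b c e + W a b c d = 0)
  (hm : ∀ g a b c d, W (g * a) (g * b) (g * c) (g * d) = W a b c d)

/-- The lens space cycle with base points `a` and `b`. -/
def FF (x : G) (p : ℕ) (a b : G) : A :=
  ∑ j ∈ Finset.range p, W a (x * a) (x ^ j * b) (x * (x ^ j * b))

include hm in
theorem tele (x : G) (p : ℕ) (hx : x ^ p = 1) (a b c d : G) :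
    ∑ j ∈ Finset.range p, W (x * a) (x ^ j * b) (x ^ j * c) (x ^ j * d) =
      ∑ j ∈ Finset.range p, W a (x ^ j * b) (x ^ j * c) (x ^ j * d) := by
  rw [← shift_sum x p hx fun u => W (x * a) (u * b) (u * c) (u * d)]
  simp only [mul_assoc, hm]

include hm in
theorem tele2 (x : G) (p : ℕ) (hx : x ^ p = 1) (a b c d : G) :
    ∑ j ∈ Finset.range p, W (x * a) (x * b) (x ^ j * c) (x ^ j * d) =
      ∑ j ∈ Finset.range p, W a b (x ^ j * c) (x ^ j * d) := by
  rw [← shift_sum x p hx fun u => W (x * a) (x * b) (u * c) (u * d)]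
  simp only [mul_assoc, hm]

theorem FF_eq (x : G) (p : ℕ) (a b : G) :
    FF W x p a b = ∑ j ∈ Finset.range p, W a (x * a) (x ^ j * b) (x ^ j * (x * b)) := by
  refine Finset.sum_congr rfl fun j _ => ?_
  rw [← mul_assoc, ← mul_assoc, ← pow_succ, ← pow_succ']

theorem tele3 (x : G) (p : ℕ) (hx : x ^ p = 1) (h : G → A) (b : G) :
    ∑ j ∈ Finset.range p, h (x ^ j * (x * b)) = ∑ j ∈ Finset.range p, h (x ^ j * b) := by
  rw [← shift_sum x p hx fun u => h (u * b)]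
  refine Finset.sum_congr rfl fun j _ => ?_
  rw [← mul_assoc, ← pow_succ, ← pow_succ']

include hc hm in
theorem FF_right (x : G) (p : ℕ) (hx : x ^ p = 1) (a b b' : G) :
    FF W x p a b = FF W x p a b' := by
  rw [FF_eq, FF_eq]
  have h1 := Finset.sum_eq_zero fun j (_ : j ∈ Finset.range p) =>
    hc a (x * a) (x ^ j * b) (x ^ j * (x * b)) (x ^ j * (x * b'))
  have h2 := Finset.sum_eq_zero fun j (_ : j ∈ Finset.range p) =>
    hc a (x * a) (x ^ j * b) (x ^ j * b') (x ^ j * (x * b'))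
  simp only [Finset.sum_add_distrib, Finset.sum_sub_distrib, tele W hm x p hx] at h1 h2
  have h3 : ∑ j ∈ Finset.range p, W a (x * a) (x ^ j * (x * b)) (x ^ j * (x * b')) =
      ∑ j ∈ Finset.range p, W a (x * a) (x ^ j * b) (x ^ j * b') := by
    rw [← shift_sum x p hx fun u => W a (x * a) (u * b) (u * b')]
    refine Finset.sum_congr rfl fun j _ => ?_
    rw [← mul_assoc, ← mul_assoc, ← pow_succ, ← pow_succ']
  rw [h3] at h1
  linear_combination (norm := abel1) h1 - h2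

include hc hm in
theorem FF_left (x : G) (p : ℕ) (hx : x ^ p = 1) (a a' b : G) :
    FF W x p a b = FF W x p a' b := by
  rw [FF_eq, FF_eq]
  have h1 := Finset.sum_eq_zero fun j (_ : j ∈ Finset.range p) =>
    hc a a' (x * a') (x ^ j * b) (x ^ j * (x * b))
  have h2 := Finset.sum_eq_zero fun j (_ : j ∈ Finset.range p) =>
    hc a (x * a) (x * a') (x ^ j * b) (x ^ j * (x * b))
  simp only [Finset.sum_add_distrib, Finset.sum_sub_distrib, tele2 W hm x p hx,
    tele3 x p hx (W a a' (x * a')), tele3 x p hx (W a (x * a) (x * a'))] at h1 h2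
  linear_combination (norm := abel1) h2 - h1

include hc hm in
theorem FF_subdiv (y : G) (p : ℕ) (hx : (y * y) ^ p = 1) (a b : G) :
    FF W (y * y) p a b = ∑ j ∈ Finset.range p,
      (W a (y * a) ((y * y) ^ j * b) ((y * y) ^ j * (y * b)) +
        W a (y * a) ((y * y) ^ j * (y * b)) ((y * y) ^ j * (y * y * b)) +
        W (y * a) (y * y * a) ((y * y) ^ j * b) ((y * y) ^ j * (y * b)) +
        W (y * a) (y * y * a) ((y * y) ^ j * (y * b)) ((y * y) ^ j * (y * y * b))) := by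
  rw [FF_eq]
  have h1 := Finset.sum_eq_zero fun j (_ : j ∈ Finset.range p) =>
    hc a (y * a) (y * y * a) ((y * y) ^ j * b) ((y * y) ^ j * (y * y * b))
  have h2 := Finset.sum_eq_zero fun j (_ : j ∈ Finset.range p) =>
    hc a (y * a) ((y * y) ^ j * b) ((y * y) ^ j * (y * b)) ((y * y) ^ j * (y * y * b))
  have h3 := Finset.sum_eq_zero fun j (_ : j ∈ Finset.range p) =>
    hc (y * a) (y * y * a) ((y * y) ^ j * b) ((y * y) ^ j * (y * b)) ((y * y) ^ j * (y * y * b))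
  simp only [Finset.sum_add_distrib, Finset.sum_sub_distrib, tele W hm (y * y) p hx,
    tele3 (y * y) p hx (W a (y * a) (y * y * a))] at h1 h2 h3 ⊢
  linear_combination (norm := abel1) -h1 - h2 - h3

include hm in
theorem FF_conj (x u : G) (p : ℕ) (a b : G) :
    FF W (u * x * u⁻¹) p (u * a) (u * b) = FF W x p a b := by
  refine Finset.sum_congr rfl fun j _ => ?_
  rw [conj_pow, ← hm u a]
  simp only [mul_assoc, inv_mul_cancel_left]

end Abstract

/-- The homogeneous form of a cochain. -/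
noncomputable def WW (w : unitary ℍ[ℝ] → unitary ℍ[ℝ] → unitary ℍ[ℝ] → UnitAddCircle)
    (a b c d : unitary ℍ[ℝ]) : UnitAddCircle :=
  w (a⁻¹ * b) (b⁻¹ * c) (c⁻¹ * d)

variable {w : unitary ℍ[ℝ] → unitary ℍ[ℝ] → unitary ℍ[ℝ] → UnitAddCircle}

theorem WW_coc (hw : IsCCS w) (a b c d e : unitary ℍ[ℝ]) :
    WW w b c d e - WW w a c d e + WW w a b d e - WW w a b c e + WW w a b c d = 0 := by
  have := hw.1 (a⁻¹ * b) (b⁻¹ * c) (c⁻¹ * d) (d⁻¹ * e)
  simpa only [WW, mul_assoc, mul_inv_cancel_left] using this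

theorem WW_mul (g a b c d : unitary ℍ[ℝ]) :
    WW w (g * a) (g * b) (g * c) (g * d) = WW w a b c d := by
  simp only [WW, mul_inv_rev, mul_assoc, inv_mul_cancel_left]

theorem WW_svol (hw : IsCCS w) (a b c d : unitary ℍ[ℝ])
    (h : LinearIndependent ℝ ![(a : ℍ[ℝ]), b, c, d]) : WW w a b c d = svol ![a, b, c, d] := by
  have h1 : ![(1 : ℍ[ℝ]), (a⁻¹ * b : unitary ℍ[ℝ]),
      (a⁻¹ * b : unitary ℍ[ℝ]) * (b⁻¹ * c : unitary ℍ[ℝ]),
      (a⁻¹ * b : unitary ℍ[ℝ]) * (b⁻¹ * c : unitary ℍ[ℝ]) * (c⁻¹ * d : unitary ℍ[ℝ])] =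
      fun i => (a⁻¹ : unitary ℍ[ℝ]) * ![(a : ℍ[ℝ]), b, c, d] i := by
    funext i
    fin_cases i <;>
      simp only [← Submonoid.coe_mul, mul_assoc, mul_inv_cancel_left, Fin.zero_eta, Fin.mk_one,
        Fin.reduceFinMk, Matrix.cons_val, inv_mul_cancel, OneMemClass.coe_one]
  rw [WW, hw.2 _ _ _ (by rw [h1]; exact (indep_mul _ _).mpr h), h1, svol_mul]

theorem lens_eq (x : unitary ℍ[ℝ]) (p : ℕ) (hx : x ^ p = 1) :
    ∑ j ∈ Finset.range p, w x (x ^ j) x = FF (WW w) x p 1 1 := by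
  rw [FF, ← shift_sum x p hx fun u => WW w 1 (x * 1) (u * 1) (x * (u * 1))]
  refine Finset.sum_congr rfl fun j _ => ?_
  simp only [WW, mul_one, inv_one, one_mul, inv_mul_cancel_left]
  congr 1
  rw [← pow_succ']
  group

theorem ee_mem (θ : ℝ) : ee θ ∈ unitary ℍ[ℝ] := by
  have := Real.sin_sq_add_cos_sq θ
  constructor <;> ext <;> simp [ee] <;> linarith

/-- The circle subgroup. -/
noncomputable def eu (θ : ℝ) : unitary ℍ[ℝ] := ⟨ee θ, ee_mem θ⟩

/-- The quaternion `j`. -/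
noncomputable def ju : unitary ℍ[ℝ] := ⟨⟨0, 0, 1, 0⟩, by constructor <;> ext <;> simp⟩

theorem eu_add (θ φ : ℝ) : eu θ * eu φ = eu (θ + φ) := by
  apply Subtype.ext
  ext <;> simp [eu, ee, Real.cos_add, Real.sin_add]
  ring

theorem eu_zero : eu 0 = 1 := by
  apply Subtype.ext
  ext <;> simp [eu, ee]

theorem eu_pow (θ : ℝ) (n : ℕ) : eu θ ^ n = eu (n * θ) := by
  induction n with
  | zero => simp [eu_zero]
  | succ n ih =>
    rw [pow_succ, ih, eu_add]
    congr 1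
    push_cast
    ring

theorem eu_period (θ : ℝ) (n : ℤ) : eu (θ + n * (2 * π)) = eu θ := by
  apply Subtype.ext
  ext <;> simp [eu, ee]

theorem eu_ju (θ : ℝ) : ((eu θ * ju : unitary ℍ[ℝ]) : ℍ[ℝ]) = ej θ := by
  ext <;> simp [eu, ee, ju, ej]

theorem WW_eu (hw : IsCCS w) (θ φ : ℝ) {β : ℝ} (h0 : 0 < β) (h1 : β < π) :
    WW w (eu θ) (eu (θ + β)) (eu φ * ju) (eu (φ + β) * ju) = ((β / (2 * π)) ^ 2 : ℝ) := by
  have hs : 0 < Real.sin β := Real.sin_pos_of_pos_of_lt_pi h0 h1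
  rw [WW_svol hw, eu_ju, eu_ju, ← svol_ee θ φ h0 h1]
  · rfl
  · rw [eu_ju, eu_ju, ← dt_ne_iff]
    exact (dt_ee θ φ β).trans_ne (by positivity)

theorem FF_eu (hw : IsCCS w) (p n : ℕ) (hn : n < p) :
    FF (WW w) (eu (2 * π * n / p)) p 1 1 = ((n ^ 2 / p : ℝ) : UnitAddCircle) := by
  have hp : (0:ℝ) < p := by exact_mod_cast (by omega : 0 < p)
  have hπ := Real.pi_pos
  rcases Nat.eq_zero_or_pos n with rfl | hn0
  · have h1 : WW w 1 1 1 1 = 0 := by simpa using WW_coc hw 1 1 1 1 1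
    simp [FF, eu_zero, h1]
  · have hn' : (0:ℝ) < n := by exact_mod_cast hn0
    have hnp : (n:ℝ) < p := by exact_mod_cast hn
    set β : ℝ := π * n / p with hβ
    have h0 : 0 < β := by positivity
    have h1 : β < π := by
      rw [hβ, div_lt_iff₀ hp]
      gcongr
    have h2 : eu (2 * π * n / p) = eu β * eu β := by
      rw [eu_add]
      congr 1
      ring
    have h3 : (eu β * eu β) ^ p = 1 := by
      rw [← h2, eu_pow, ← eu_zero, ← eu_period 0 n]
      congr 1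
      push_cast
      field_simp
      ring
    rw [h2, FF_right _ (WW_coc hw) WW_mul _ p h3 1 1 ju, FF_subdiv _ (WW_coc hw) WW_mul _ p h3]
    have h4 : ∀ θ φ a b c : ℝ, a = θ + β → b = φ → c = φ + β →
        WW w (eu θ) (eu a) (eu b * ju) (eu c * ju) = ((β / (2 * π)) ^ 2 : ℝ) := by
      rintro θ φ a b c rfl rfl rfl
      exact WW_eu hw _ _ h0 h1
    rw [← eu_zero]
    simp only [← mul_assoc, eu_add, eu_pow]
    rw [Finset.sum_congr rfl (g := fun _ => ((4 * (β / (2 * π)) ^ 2 : ℝ) : UnitAddCircle))]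
    · rw [Finset.sum_const, Finset.card_range, ← AddCircle.coe_nsmul]
      congr 1
      rw [hβ, nsmul_eq_mul]
      field_simp
      ring
    · intro j _
      rw [h4 0 _ _ _ _ (by ring) rfl rfl, h4 0 _ _ _ _ (by ring) rfl (by ring),
        h4 (β + 0) _ _ _ _ (by ring) rfl rfl, h4 (β + 0) _ _ _ _ (by ring) rfl (by ring),
        ← AddCircle.coe_add, ← AddCircle.coe_add, ← AddCircle.coe_add]
      congr 1
      ring

theorem exists_angle (a b : ℝ) (h : a ^ 2 + b ^ 2 = 1) :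
    ∃ α : ℝ, a = Real.cos α ∧ b = Real.sin α := by
  have h1 : ‖(⟨a, b⟩ : ℂ)‖ = 1 := by
    rw [Complex.norm_eq_sqrt_sq_add_sq, h, Real.sqrt_one]
  have h2 : (⟨a, b⟩ : ℂ) ≠ 0 := by
    intro h3
    simp [h3] at h1
  exact ⟨Complex.arg ⟨a, b⟩, by rw [Complex.cos_arg h2, h1]; simp,
    by rw [Complex.sin_arg, h1]; simp⟩

open Classical in
/-- Normalisation of a nonzero quaternion. -/
noncomputable def nrm (q : ℍ[ℝ]) : unitary ℍ[ℝ] :=
  if h : q = 0 then 1 else ⟨‖q‖⁻¹ • q, by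
    have h1 : ‖q‖ ≠ 0 := norm_ne_zero_iff.mpr h
    constructor
    · rw [Quaternion.star_mul_self, Quaternion.normSq_eq_norm_mul_self, norm_smul]
      simp [h1]
    · rw [Quaternion.self_mul_star, Quaternion.normSq_eq_norm_mul_self, norm_smul]
      simp [h1]⟩

theorem coe_nrm {q : ℍ[ℝ]} (h : q ≠ 0) : (nrm q : ℍ[ℝ]) = ‖q‖⁻¹ • q := by
  rw [nrm, dif_neg h]

theorem exists_conj (x : unitary ℍ[ℝ]) : ∃ (u : unitary ℍ[ℝ]) (α : ℝ), x = u * eu α * u⁻¹ := by
  have hn := normSq_unit x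
  rw [Quaternion.normSq_def'] at hn
  obtain ⟨⟨a, b, c, d⟩, hx⟩ := x
  simp only at hn
  by_cases h : c = 0 ∧ d = 0
  · obtain ⟨α, h1, h2⟩ := exists_angle a b (by simpa [h.1, h.2] using hn)
    refine ⟨1, α, Subtype.ext ?_⟩
    ext <;> simp [eu, ee, h1, h2, h.1, h.2]
  · set s := √(b ^ 2 + c ^ 2 + d ^ 2) with hs
    have hs2 : s ^ 2 = b ^ 2 + c ^ 2 + d ^ 2 := Real.sq_sqrt (by positivity)
    obtain ⟨α, h1, h2⟩ := exists_angle a s (by linarith)
    set q : ℍ[ℝ] := ⟨0, b + s, c, d⟩ with hq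
    have hq0 : q ≠ 0 := by
      intro h3
      exact h ⟨congrArg QuaternionAlgebra.imJ h3, congrArg QuaternionAlgebra.imK h3⟩
    refine ⟨nrm q, α, ?_⟩
    rw [eq_mul_inv_iff_mul_eq]
    apply Subtype.ext
    rw [Submonoid.coe_mul, Submonoid.coe_mul, coe_nrm hq0, mul_smul_comm, smul_mul_assoc]
    congr 1
    ext <;> simp [eu, ee, ← h1, ← h2, hq] <;> linarith

theorem lens_value (hw : IsCCS w) (x : unitary ℍ[ℝ]) (p : ℕ) (hp : 0 < p) (hx : x ^ p = 1) :
    ∃ n : ℕ, n < p ∧ (∃ u : unitary ℍ[ℝ], x = u * eu (2 * π * n / p) * u⁻¹) ∧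
      ∑ j ∈ Finset.range p, w x (x ^ j) x = ((n ^ 2 / p : ℝ) : UnitAddCircle) := by
  obtain ⟨u, α, rfl⟩ := exists_conj x
  have hp' : (p:ℝ) ≠ 0 := by exact_mod_cast hp.ne'
  have h1 : eu α ^ p = 1 := by
    rw [conj_pow] at hx
    simpa [mul_inv_eq_one] using hx
  have h2 : Real.cos (p * α) = 1 := by
    rw [eu_pow] at h1
    exact congrArg (fun q : unitary ℍ[ℝ] => (q : ℍ[ℝ]).re) h1
  obtain ⟨k, hk⟩ := (Real.cos_eq_one_iff _).mp h2
  have hp0 : (0:ℤ) < p := by exact_mod_cast hp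
  obtain ⟨n, hn⟩ := Int.eq_ofNat_of_zero_le (Int.emod_nonneg k hp0.ne')
  have hnp : n < p := by
    have := Int.emod_lt_of_pos k hp0
    omega
  have h3 : eu α = eu (2 * π * n / p) := by
    rw [← eu_period (2 * π * n / p) (k / p)]
    congr 1
    have h4 : (k:ℝ) = n + p * (k / p : ℤ) := by
      have := Int.emod_add_mul_ediv k p
      rw [hn] at this
      exact_mod_cast this.symm
    field_simp
    rw [h4] at hk
    linarith
  refine ⟨n, hnp, ⟨u, by rw [h3]⟩, ?_⟩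
  rw [lens_eq _ p hx, FF_left _ (WW_coc hw) WW_mul _ p hx 1 (u * 1),
    FF_right _ (WW_coc hw) WW_mul _ p hx _ 1 (u * 1), FF_conj _ WW_mul, h3, FF_eu hw p n hnp]

end Pool.Agent.P.MP_27a476_gt
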