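import Pool.Agent.P.MP_27a476_gt.Taylor
import Pool.Agent.P.MP_27a476_gt.Gauss

set_option autoImplicit false

open Complex Metric Real

namespace Pool.Agent.P.MP_27a476_gt

/-- The basic finite sum. -/
noncomputable def TT (a : ℤ) (r : ℕ) : ℂ :=
  ∑ k ∈ Finset.range r, Complex.sin (π * k / r) ^ 2 * cexp (π * I * (a * k ^ 2) / (2 * r))

/-- The Gauss sum of period `2 r`. -/
noncomputable def GG (a b : ℤ) (r : ℕ) : ℂ :=
  ∑ j ∈ Finset.range (2 * r), cexp (π * I * (a * j ^ 2 + b * j) / (2 * r : ℕ))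

theorem TT_eq (a : ℤ) {r : ℕ} (hr : 0 < r) :
    8 * TT a r = 2 * GG a 0 r - GG a 4 r - GG a (-4) r := by
  have hr' : (r : ℂ) ≠ 0 := by exact_mod_cast hr.ne'
  set g : ℂ → ℂ := fun k => Complex.sin (π * k / r) ^ 2 * cexp (π * I * (a * k ^ 2) / (2 * r))
    with hg
  have h1 : 2 * GG a 0 r - GG a 4 r - GG a (-4) r = 4 * ∑ j ∈ Finset.range (2 * r), g j := by
    simp only [GG, Finset.mul_sum, ← Finset.sum_sub_distrib]
    refine Finset.sum_congr rfl fun j _ => ?_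
    have e0 : cexp (π * I * (a * j ^ 2 + (0:ℤ) * j) / (2 * r : ℕ)) =
        cexp (π * I * (a * j ^ 2) / (2 * r)) := by
      congr 1
      push_cast
      ring
    have e1 : cexp (π * I * (a * j ^ 2 + (4:ℤ) * j) / (2 * r : ℕ)) =
        cexp (π * I * (a * j ^ 2) / (2 * r)) * cexp (π * j / r * I) ^ 2 := by
      rw [← Complex.exp_nat_mul, ← Complex.exp_add]
      congr 1
      push_cast
      field_simp
      ring
    have e2 : cexp (π * I * (a * j ^ 2 + (-4:ℤ) * j) / (2 * r : ℕ)) =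
        cexp (π * I * (a * j ^ 2) / (2 * r)) * cexp (-(π * j / r) * I) ^ 2 := by
      rw [← Complex.exp_nat_mul, ← Complex.exp_add]
      congr 1
      push_cast
      field_simp
      ring
    have e3 : cexp (π * j / r * I) * cexp (-(π * j / r) * I) = 1 := by
      rw [← Complex.exp_add]
      simp
    rw [e0, e1, e2, hg]
    simp only [Complex.sin]
    linear_combination (-(cexp (-(π * j / r) * I) - cexp (π * j / r * I)) ^ 2 *
      cexp (π * I * (a * j ^ 2) / (2 * r))) * I_mul_I -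
      (2 * cexp (π * I * (a * j ^ 2) / (2 * r))) * e3
  have h2 : ∀ j : ℕ, g (r + j) = g (r - j) := by
    intro j
    simp only [hg]
    congr 1
    · have e1 : π * (r + j) / r = (π * j / r : ℂ) + π := by
        field_simp
        ring
      have e2 : π * (r - j) / r = π - (π * j / r : ℂ) := by field_simp
      rw [e1, e2, Complex.sin_add_pi, Complex.sin_pi_sub]
      ring
    · rw [exp_eq_exp_iff_exists_int]
      refine ⟨a * j, ?_⟩
      push_cast
      field_simp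
      ring
  have h3 : ∑ j ∈ Finset.range r, g (r + j : ℕ) = ∑ j ∈ Finset.range r, g j := by
    have e1 : ∑ j ∈ Finset.range r, g (r + j : ℕ) = ∑ j ∈ Finset.range r, g ((j + 1 : ℕ)) := by
      rw [← Finset.sum_range_reflect (fun j => g ((j + 1 : ℕ))) r]
      refine Finset.sum_congr rfl fun j hj => ?_
      have := Finset.mem_range.mp hj
      rw [Nat.cast_add, h2]
      congr 1
      have : r - 1 - j + 1 = r - j := by omega
      rw [this, Nat.cast_sub (by omega)]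
    have e2 := Finset.sum_range_succ' (fun j => g (j : ℕ)) r
    have e3 := Finset.sum_range_succ (fun j => g (j : ℕ)) r
    have e4 : g (0 : ℕ) = 0 := by simp [hg]
    have e5 : g (r : ℕ) = 0 := by
      simp only [hg]
      rw [mul_div_assoc, div_self hr', mul_one, Complex.sin_pi]
      simp
    rw [e1]
    linear_combination e3 - e2 + e5 - e4
  rw [h1, two_mul, Finset.sum_range_add, h3, TT]
  ring

theorem sin_ne_zero_of_norm {x : ℂ} (h0 : x ≠ 0) (h1 : ‖x‖ < 1) : Complex.sin (π * x) ≠ 0 := by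
  rw [Ne, Complex.sin_eq_zero_iff]
  rintro ⟨k, hk⟩
  have hπ : (π : ℂ) ≠ 0 := ofReal_ne_zero.mpr pi_ne_zero
  have hx : x = k := by
    apply mul_left_cancel₀ hπ
    rw [hk, mul_comm]
  rw [hx] at h0 h1
  have h2 : k ≠ 0 := by exact_mod_cast h0
  rw [norm_intCast] at h1
  have : (1:ℝ) ≤ |(k:ℝ)| := by exact_mod_cast Int.one_le_abs h2
  linarith

theorem inv_ne_and_lt {r : ℕ} (hr : 2 ≤ r) : (1 / r : ℂ) ≠ 0 ∧ ‖(1 / r : ℂ)‖ < 1 := by
  have hr' : (2:ℝ) ≤ r := by exact_mod_cast hr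
  constructor
  · have : (r : ℂ) ≠ 0 := by exact_mod_cast (by omega : r ≠ 0)
    simpa using this
  · simp only [one_div, norm_inv, RCLike.norm_natCast]
    exact inv_lt_one_of_one_lt₀ (by linarith)

theorem sin_pi_div_ne {r : ℕ} (hr : 2 ≤ r) : Complex.sin (π / r) ≠ 0 := by
  have := sin_ne_zero_of_norm (inv_ne_and_lt hr).1 (inv_ne_and_lt hr).2
  rwa [mul_one_div] at this

theorem inner_sum_eq (a : ℤ) {r : ℕ} (hr : 2 ≤ r) :
    ∑ k ∈ Finset.Ioo 0 r, ((Real.sin (π * k / r) / Real.sin (π / r) : ℝ) : ℂ) ^ 2 *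
        cexp (2 * π * I / (4 * r)) ^ (a * ((k : ℤ) ^ 2 - 1)) =
      TT a r * cexp (-(π * I * a / (2 * r))) / Complex.sin (π / r) ^ 2 := by
  have hr' : (r : ℂ) ≠ 0 := by exact_mod_cast (by omega : r ≠ 0)
  have h1 : Finset.range r = insert 0 (Finset.Ioo 0 r) := by
    ext k
    simp
    omega
  rw [TT, h1, Finset.sum_insert (by simp), Finset.sum_congr rfl (g := fun k : ℕ =>
    Complex.sin (π * k / r) ^ 2 * cexp (π * I * (a * k ^ 2) / (2 * r)) *
      cexp (-(π * I * a / (2 * r))) / Complex.sin (π / r) ^ 2), ← Finset.sum_div,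
      ← Finset.sum_mul]
  · simp
  · intro k _
    rw [← Complex.exp_int_mul, mul_assoc (Complex.sin _ ^ 2), ← Complex.exp_add]
    push_cast
    rw [div_pow, div_mul_eq_mul_div]
    congr 3
    field_simp
    ring

theorem GG_zero {r : ℕ} (hr : 2 ≤ r) (β : ℤ) (hβ : β = 1 ∨ β = -1) : GG 0 (4 * β) r = 0 := by
  have hr' : (r : ℂ) ≠ 0 := by exact_mod_cast (by omega : r ≠ 0)
  have h1 : GG 0 (4 * β) r = ∑ j ∈ Finset.range (2 * r), cexp (2 * π * I * β / r) ^ j := by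
    refine Finset.sum_congr rfl fun j _ => ?_
    rw [← Complex.exp_nat_mul]
    congr 1
    push_cast
    field_simp
    ring
  have h2 : cexp (2 * π * I * β / r) ≠ 1 := by
    rw [Ne, Complex.exp_eq_one_iff]
    rintro ⟨n, hn⟩
    have hπ : (π : ℂ) ≠ 0 := ofReal_ne_zero.mpr pi_ne_zero
    field_simp at hn
    have h3 : β = r * n := by exact_mod_cast hn
    have h4 : (r : ℤ) ∣ 1 := by
      rcases hβ with h | h
      · exact ⟨n, by rw [← h3, h]⟩
      · exact ⟨-n, by rw [mul_neg, ← h3, h]; rfl⟩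
    have := Int.le_of_dvd one_pos h4
    omega
  rw [h1, geom_sum_eq h2, ← Complex.exp_nat_mul]
  have : ((2 * r : ℕ) : ℂ) * (2 * π * I * β / r) = ((2 * β : ℤ) : ℂ) * (2 * π * I) := by
    push_cast
    field_simp
  rw [this, exp_int_mul_two_pi_mul_I]
  simp

theorem TT_zero {r : ℕ} (hr : 2 ≤ r) : TT 0 r = r / 2 := by
  have h1 := TT_eq 0 (by omega : 0 < r)
  have h2 := GG_zero hr 1 (Or.inl rfl)
  have h3 := GG_zero hr (-1) (Or.inr rfl)
  have h4 : GG 0 0 r = 2 * r := by simp [GG]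
  norm_num at h2 h3
  rw [h2, h3, h4] at h1
  linear_combination h1 / 8

theorem exp_neg_pi_quarter_sq : cexp (-(π * I / 4)) ^ 2 = -I := by
  rw [← Complex.exp_nat_mul]
  have : ((2:ℕ) : ℂ) * -(π * I / 4) = -(π / 2 * I) := by
    push_cast
    ring
  rw [this, Complex.exp_neg, exp_pi_div_two_mul_I, inv_I]

theorem kappa_pos {r : ℕ} (hr : 2 ≤ r) :
    (-I * (3:ℤ) / (2 * r : ℕ)) ^ (1 / 2 : ℂ) = (√(3 / (2 * r)) : ℝ) * cexp (-(π * I / 4)) := by
  have hr' : (0:ℝ) < r := by exact_mod_cast (by omega : 0 < r)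
  have : (-I * (3:ℤ) / (2 * r : ℕ)) = ((3 / (2 * r) : ℝ) : ℂ) * (-I) := by
    push_cast
    ring
  rw [this, ofReal_mul_cpow (by positivity) (neg_ne_zero.mpr I_ne_zero),
    ofReal_cpow_half (by positivity), cpow_def_of_ne_zero (neg_ne_zero.mpr I_ne_zero), log_neg_I]
  congr 2
  ring

theorem kappa_neg {r : ℕ} (hr : 2 ≤ r) :
    (-I * (-6:ℤ) / (2 * r : ℕ)) ^ (1 / 2 : ℂ) = (√(3 / r) : ℝ) * cexp (π * I / 4) := by
  have hr' : (0:ℝ) < r := by exact_mod_cast (by omega : 0 < r)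
  have hr'' : (r : ℂ) ≠ 0 := by exact_mod_cast (by omega : r ≠ 0)
  have : (-I * (-6:ℤ) / (2 * r : ℕ)) = ((3 / r : ℝ) : ℂ) * I := by
    push_cast
    field_simp
    ring
  rw [this, ofReal_mul_cpow (by positivity) I_ne_zero,
    ofReal_cpow_half (by positivity), cpow_def_of_ne_zero I_ne_zero, log_I]
  congr 2
  ring

theorem zeta3 : cexp (2 * π * I / 3) ^ 2 + cexp (2 * π * I / 3) + 1 = 0 := by
  have h := (Complex.isPrimitiveRoot_exp 3 (by norm_num)).geom_sum_eq_zero (by norm_num)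
  simp only [Finset.sum_range_succ, Finset.range_zero, Finset.sum_empty] at h
  push_cast at h
  linear_combination h

theorem om_pow (r : ℕ) : cexp (2 * π * I * r / 6) ^ 6 = 1 := by
  rw [← Complex.exp_nat_mul]
  have : ((6:ℕ) : ℂ) * (2 * π * I * r / 6) = (r : ℂ) * (2 * π * I) := by
    push_cast
    ring
  rw [this, exp_nat_mul_two_pi_mul_I]

theorem TT_three {r : ℕ} (hr : 2 ≤ r) :
    4 * ((√(3 / (2 * r)) : ℝ) * cexp (-(π * I / 4))) * TT 3 r =
      (1 - (cexp (π * I / 3 * (1 / r)) ^ 2)⁻¹) +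
        cexp (2 * π * I * r / 6) ^ 4 * (2 + (cexp (π * I / 3 * (1 / r)) ^ 2)⁻¹) := by
  have hr' : (r : ℂ) ≠ 0 := by exact_mod_cast (by omega : r ≠ 0)
  set ω := cexp (2 * π * I * r / 6) with hω
  set ζ := cexp (2 * π * I / 3) with hζ
  set q := cexp (π * I / 3 * (1 / r)) with hq
  have hω6 : ω ^ 6 = 1 := om_pow r
  have hζ3 : ζ ^ 2 + ζ + 1 = 0 := zeta3
  have key : ∀ (β : ℤ) (m : ℕ), (3:ℤ) ∣ m - 2 * β →
      (-I * (3:ℤ) / (2 * r : ℕ)) ^ (1 / 2 : ℂ) * GG 3 (4 * β) r =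
        (q ^ (2 * β ^ 2))⁻¹ * (1 + ω ^ 4 * ζ ^ m + ω ^ 16 * ζ ^ (2 * m)) := by
    intro β m hm
    obtain ⟨e, he⟩ := hm
    have he' : (m : ℂ) = 2 * β + 3 * e := by
      have : (m : ℤ) = 2 * β + 3 * e := by linarith
      exact_mod_cast this
    rw [GG, gauss_reciprocity (2 * r) (by omega) 3 (by norm_num) (4 * β)
      ⟨3 * r + 2 * β, by push_cast; ring⟩]
    have hterm : ∀ n : ℕ, cexp (-π * I * ((2 * r : ℕ) * n ^ 2 - (4 * β : ℤ) * n) / (3:ℤ)) =
        ω ^ (4 * n ^ 2) * ζ ^ (n * m) := by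
      intro n
      rw [hω, hζ, ← Complex.exp_nat_mul, ← Complex.exp_nat_mul, ← Complex.exp_add,
        exp_eq_exp_iff_exists_int]
      refine ⟨-(r * n ^ 2) - n * e, ?_⟩
      push_cast
      rw [he']
      ring
    simp only [hterm]
    congr 1
    · rw [hq, ← Complex.exp_int_mul, ← Complex.exp_neg]
      congr 1
      push_cast
      field_simp
      ring
    · simp [Finset.sum_range_succ]
  have k0 := key 0 0 (by norm_num)
  have k1 := key 1 2 (by norm_num)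
  have k2 := key (-1) 1 (by norm_num)
  have h8 := TT_eq 3 (by omega : 0 < r)
  rw [kappa_pos hr] at k0 k1 k2
  generalize ((√(3 / (2 * r)) : ℝ) * cexp (-(π * I / 4)) : ℂ) = κ at k0 k1 k2 ⊢
  have hz : q ^ (2:ℤ) = q ^ 2 := by norm_cast
  have hω16 : ω ^ 16 = ω ^ 4 := by linear_combination (ω ^ 10 + ω ^ 4) * hω6
  have hζ4 : ζ ^ 4 = ζ := by linear_combination (ζ ^ 2 - ζ) * hζ3
  norm_num [hz, hω16, hζ4] at k0 k1 k2
  generalize (q ^ 2)⁻¹ = Q at k1 k2 ⊢
  linear_combination (κ / 2) * h8 + k0 - k1 / 2 - k2 / 2 - (Q * ω ^ 4) * hζ3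

theorem TT_minus_six {r : ℕ} (hr : 2 ≤ r) :
    4 * ((√(3 / r) : ℝ) * cexp (π * I / 4)) * TT (-6) r =
      (1 + cexp (2 * π * I * r / 6) ^ 3) * ((1 - cexp (π * I / 3 * (1 / r))) +
        cexp (2 * π * I * r / 6) ^ 4 * (2 + cexp (π * I / 3 * (1 / r)))) := by
  have hr' : (r : ℂ) ≠ 0 := by exact_mod_cast (by omega : r ≠ 0)
  set ω := cexp (2 * π * I * r / 6) with hω
  set ζ := cexp (2 * π * I / 3) with hζ
  set q := cexp (π * I / 3 * (1 / r)) with hq
  have hω6 : ω ^ 6 = 1 := om_pow r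
  have hζ3 : ζ ^ 2 + ζ + 1 = 0 := zeta3
  have key : ∀ (β : ℤ) (m : ℕ), (3:ℤ) ∣ m + β →
      (-I * (-6:ℤ) / (2 * r : ℕ)) ^ (1 / 2 : ℂ) * GG (-6) (4 * β) r =
        q ^ (β ^ 2) * (1 + ω * ζ ^ m + ω ^ 4 * ζ ^ (2 * m) + ω ^ 9 * ζ ^ (3 * m) +
          ω ^ 16 * ζ ^ (4 * m) + ω ^ 25 * ζ ^ (5 * m)) := by
    intro β m hm
    obtain ⟨e, he⟩ := hm
    have he' : (m : ℂ) = -β + 3 * e := by
      have : (m : ℤ) = -β + 3 * e := by linarith
      exact_mod_cast this
    rw [GG, gauss_reciprocity (2 * r) (by omega) (-6) (by norm_num) (4 * β)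
      ⟨-6 * r + 2 * β, by push_cast; ring⟩]
    have hterm : ∀ n : ℕ, cexp (-π * I * ((2 * r : ℕ) * n ^ 2 - (4 * β : ℤ) * n) / (-6:ℤ)) =
        ω ^ (n ^ 2) * ζ ^ (n * m) := by
      intro n
      rw [hω, hζ, ← Complex.exp_nat_mul, ← Complex.exp_nat_mul, ← Complex.exp_add,
        exp_eq_exp_iff_exists_int]
      refine ⟨- n * e, ?_⟩
      push_cast
      rw [he']
      ring
    simp only [hterm]
    congr 1
    · rw [hq, ← Complex.exp_int_mul]
      congr 1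
      push_cast
      field_simp
      ring
    · simp [Finset.sum_range_succ]
  have k0 := key 0 0 (by norm_num)
  have k1 := key 1 2 (by norm_num)
  have k2 := key (-1) 1 (by norm_num)
  have h8 := TT_eq (-6) (by omega : 0 < r)
  rw [kappa_neg hr] at k0 k1 k2
  generalize ((√(3 / r) : ℝ) * cexp (π * I / 4) : ℂ) = κ at k0 k1 k2 ⊢
  have hω9 : ω ^ 9 = ω ^ 3 := by linear_combination (ω ^ 3) * hω6
  have hω16 : ω ^ 16 = ω ^ 4 := by linear_combination (ω ^ 10 + ω ^ 4) * hω6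
  have hω25 : ω ^ 25 = ω := by linear_combination (ω ^ 19 + ω ^ 13 + ω ^ 7 + ω) * hω6
  have hζ3' : ζ ^ 3 = 1 := by linear_combination (ζ - 1) * hζ3
  have hζ4 : ζ ^ 4 = ζ := by linear_combination ζ * hζ3'
  have hζ5 : ζ ^ 5 = ζ ^ 2 := by linear_combination ζ ^ 2 * hζ3'
  have hζ6 : ζ ^ 6 = 1 := by linear_combination (ζ ^ 3 + 1) * hζ3'
  have hζ8 : ζ ^ 8 = ζ ^ 2 := by linear_combination (ζ ^ 5 + ζ ^ 2) * hζ3'
  have hζ10 : ζ ^ 10 = ζ := by linear_combination (ζ ^ 7 + ζ ^ 4 + ζ) * hζ3'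
  norm_num [hω9, hω16, hω25, hζ3', hζ4, hζ5, hζ6, hζ8, hζ10] at k0 k1 k2
  linear_combination (κ / 2) * h8 + k0 - k1 / 2 - k2 / 2 - (q * (ω + ω ^ 4)) * hζ3
    - (ω * (2 + q)) * hω6

theorem tau_eq {n : ℕ} (f : Fin n → ℤ) {r : ℕ} (hr : 2 ≤ r) :
    tau f r = ((√(2 / r) : ℝ) * Complex.sin (π / r)) ^ n *
      cexp (-(2 * π * I) * (3 * (r - 2) / (8 * r))) ^ (∑ i, (f i).sign) *
      ∏ i, (TT (f i) r * cexp (-(π * I * f i / (2 * r))) / Complex.sin (π / r) ^ 2) := by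
  rw [tau, ← Finset.prod_univ_sum (fun _ : Fin n => Finset.Ioo 0 r) (fun i (k : ℕ) =>
    ((Real.sin (π * k / r) / Real.sin (π / r) : ℝ) : ℂ) ^ 2 *
        cexp (2 * π * I / (4 * r)) ^ (f i * ((k : ℤ) ^ 2 - 1)))]
  simp only [inner_sum_eq _ hr]
  push_cast
  rfl

theorem Z_closed {r : ℕ} (hr : 2 ≤ r) :
    tau ![3, 3, -6] r / tau ![0] r =
      -I / (24 * (√3 : ℝ)) * cexp (3 * π * I / 2 * (1 / r)) *
        ((1 - (cexp (π * I / 3 * (1 / r)) ^ 2)⁻¹) +
          cexp (2 * π * I * r / 6) ^ 4 * (2 + (cexp (π * I / 3 * (1 / r)) ^ 2)⁻¹)) ^ 2 *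
        ((1 + cexp (2 * π * I * r / 6) ^ 3) * ((1 - cexp (π * I / 3 * (1 / r))) +
          cexp (2 * π * I * r / 6) ^ 4 * (2 + cexp (π * I / 3 * (1 / r))))) /
        ((√r : ℝ) * Complex.sin (π / r) ^ 2) := by
  have hr' : (r : ℂ) ≠ 0 := by exact_mod_cast (by omega : r ≠ 0)
  have hrr : (0:ℝ) < r := by exact_mod_cast (by omega : 0 < r)
  rw [tau_eq _ hr, tau_eq _ hr, ← TT_three hr, ← TT_minus_six hr]
  have hs := sin_pi_div_ne hr
  have e1 : (∑ i, (![3, 3, -6] i : ℤ).sign) = 1 := by decide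
  have e2 : (∑ i, (![0] i : ℤ).sign) = 0 := by decide
  rw [e1, e2, Fin.prod_univ_three, Fin.prod_univ_one]
  simp only [Matrix.cons_val_zero, Matrix.cons_val_one, Matrix.cons_val_two, Matrix.head_cons,
    Matrix.tail_cons, TT_zero hr, zpow_one, zpow_zero]
  have a1 : cexp (-(π * I * (3:ℤ) / (2 * r))) ^ 2 * cexp (-(π * I * (-6:ℤ) / (2 * r))) = 1 := by
    rw [← Complex.exp_nat_mul, ← Complex.exp_add, ← Complex.exp_zero]
    congr 1
    push_cast
    ring
  have a2 : cexp (-(π * I * (0:ℤ) / (2 * r))) = 1 := by simp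
  have a3 : cexp (-(2 * π * I) * (3 * (r - 2) / (8 * r))) =
      - cexp (π * I / 4) * cexp (3 * π * I / 2 * (1 / r)) := by
    rw [neg_mul (cexp _), ← neg_one_mul (cexp _ * _), ← exp_pi_mul_I, ← Complex.exp_add,
      ← Complex.exp_add, exp_eq_exp_iff_exists_int]
    refine ⟨-1, ?_⟩
    push_cast
    field_simp
    ring
  have a4 := exp_neg_pi_quarter_sq
  have b1 : ((√(2 / r) : ℝ) : ℂ) ^ 2 = 2 / r := by
    rw [← ofReal_pow, Real.sq_sqrt (by positivity)]
    push_cast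
    rfl
  have b2 : ((√(3 / (2 * r)) : ℝ) : ℂ) ^ 2 = 3 / (2 * r) := by
    rw [← ofReal_pow, Real.sq_sqrt (by positivity)]
    push_cast
    rfl
  have b3 : ((√(3 / r) : ℝ) : ℂ) = (√3 : ℝ) / (√r : ℝ) := by
    rw [Real.sqrt_div (by norm_num)]
    push_cast
    rfl
  have b4 : ((√r : ℝ) : ℂ) ^ 2 = r := by
    rw [← ofReal_pow, Real.sq_sqrt hrr.le]
    simp
  have b5 : ((√r : ℝ) : ℂ) ≠ 0 := by
    intro h
    rw [h] at b4
    exact hr' (by rw [← b4]; simp)
  have b6 : ((√3 : ℝ) : ℂ) ≠ 0 := by simp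
  have b7 : ((√(2 / r) : ℝ) : ℂ) ≠ 0 := by
    intro h
    rw [h] at b1
    have : (2 / r : ℂ) ≠ 0 := div_ne_zero two_ne_zero hr'
    exact this (by rw [← b1]; simp)
  rw [a2, a3, b3, mul_pow, mul_pow, mul_pow, mul_pow, mul_pow, a4, b2]
  generalize ((√(2 / r) : ℝ) : ℂ) = s2 at *
  generalize ((√r : ℝ) : ℂ) = sr at *
  generalize ((√3 : ℝ) : ℂ) = s3 at *
  generalize cexp (-(π * I * (3:ℤ) / (2 * r))) = E3 at *
  generalize cexp (-(π * I * (-6:ℤ) / (2 * r))) = E6 at *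
  generalize cexp (π * I / 4) = E4 at *
  generalize cexp (3 * π * I / 2 * (1 / r)) = E at *
  generalize Complex.sin (π / r) = S at *
  generalize TT 3 r = T3 at *
  generalize TT (-6) r = T6 at *
  have b1' : s2 ^ 2 * sr ^ 2 = 2 := by rw [b1, b4]; field_simp
  rw [← b4]
  simp only [Nat.succ_eq_add_one, Nat.reduceAdd]
  field_simp
  linear_combination (-96 * E4 * E * T3 ^ 2 * T6 * E3 ^ 2 * E6) * b1' -
    (192 * E4 * E * T3 ^ 2 * T6) * a1 - (192 * E4 * E * T3 ^ 2 * T6) * I_sq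

/-- The exponential `q`. -/
noncomputable def qq (x : ℂ) : ℂ := cexp (π * I / 3 * x)

/-- The divided difference of `qq`. -/
noncomputable def DD : ℂ → ℂ := dslope qq 0

/-- The divided difference of the sine. -/
noncomputable def sg : ℂ → ℂ := dslope (fun x : ℂ => Complex.sin (π * x)) 0

theorem qq_diff : Differentiable ℂ qq := by
  unfold qq
  fun_prop

theorem qq_ne (x : ℂ) : qq x ≠ 0 := Complex.exp_ne_zero _

theorem qq_zero : qq 0 = 1 := by simp [qq]

theorem DD_diff : DifferentiableOn ℂ DD (ball 0 1) :=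
  (Complex.differentiableOn_dslope (ball_mem_nhds 0 one_pos)).mpr qq_diff.differentiableOn

theorem sg_diff : DifferentiableOn ℂ sg (ball 0 1) :=
  (Complex.differentiableOn_dslope (ball_mem_nhds 0 one_pos)).mpr (by fun_prop)

theorem DD_zero : DD 0 = π * I / 3 := by
  rw [DD, dslope_same]
  have : HasDerivAt qq (cexp (π * I / 3 * 0) * (π * I / 3 * 1)) 0 :=
    ((hasDerivAt_id (0:ℂ)).const_mul (π * I / 3 : ℂ)).cexp
  rw [this.deriv]
  simp

theorem sg_zero : sg 0 = π := by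
  rw [sg, dslope_same]
  have : HasDerivAt (fun x : ℂ => Complex.sin (π * x)) (Complex.cos (π * 0) * (π * 1)) 0 :=
    ((hasDerivAt_id (0:ℂ)).const_mul (π : ℂ)).csin
  rw [this.deriv]
  simp

theorem mul_DD (x : ℂ) : qq x = 1 + x * DD x := by
  have := sub_smul_dslope qq 0 x
  rw [qq_zero, sub_zero, smul_eq_mul] at this
  rw [DD, this]
  ring

theorem mul_sg (x : ℂ) : Complex.sin (π * x) = x * sg x := by
  have := sub_smul_dslope (fun x : ℂ => Complex.sin (π * x)) 0 x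
  rw [sub_zero, smul_eq_mul] at this
  rw [sg, this]
  simp

theorem sg_ne {x : ℂ} (hx : x ∈ ball (0:ℂ) 1) : sg x ≠ 0 := by
  by_cases h : x = 0
  · rw [h, sg_zero]
    exact ofReal_ne_zero.mpr pi_ne_zero
  · intro h2
    have := sin_ne_zero_of_norm h (mem_ball_zero_iff.mp hx)
    rw [mul_sg, h2, mul_zero] at this
    exact this rfl

/-- The common prefactor. -/
noncomputable def pre (x : ℂ) : ℂ :=
  -I / (24 * (√3 : ℝ)) * cexp (3 * π * I / 2 * x) / sg x ^ 2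

theorem pre_diff : DifferentiableOn ℂ pre (ball 0 1) := by
  unfold pre
  refine DifferentiableOn.div (by fun_prop) (sg_diff.pow 2) fun x hx => pow_ne_zero _ (sg_ne hx)

theorem pre_zero : pre 0 = -I / (24 * (√3 : ℝ) * π ^ 2) := by
  rw [pre, sg_zero]
  simp
  ring

/-- Amplitude of the classes `0` and `1 / 2`. -/
noncomputable def A0 (x : ℂ) : ℂ :=
  pre x * ((1 - (qq x ^ 2)⁻¹) ^ 2 * (1 - qq x) + (2 + (qq x ^ 2)⁻¹) ^ 2 * (2 + qq x))

/-- Amplitude of the classes `1 / 6` and `2 / 3`. -/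
noncomputable def A1 (x : ℂ) : ℂ :=
  pre x * (-3 * (1 + qq x) * DD x ^ 3 * (qq x ^ 3)⁻¹)

/-- Amplitude of the classes `1 / 3` and `5 / 6`. -/
noncomputable def A2 (x : ℂ) : ℂ :=
  pre x * (3 * (2 + (qq x ^ 2)⁻¹) * DD x * (1 + 2 * qq x) * (qq x ^ 2)⁻¹)

theorem qq_inv_diff (n : ℕ) : Differentiable ℂ fun x => (qq x ^ n)⁻¹ :=
  (qq_diff.pow n).inv fun x => pow_ne_zero _ (qq_ne x)

theorem A0_diff : DifferentiableOn ℂ A0 (ball 0 1) := by
  have h1 := qq_diff
  have h2 := qq_inv_diff 2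
  refine pre_diff.mul (Differentiable.differentiableOn ?_)
  exact ((((differentiable_const _).sub h2).pow 2).mul ((differentiable_const _).sub h1)).add
    ((((differentiable_const _).add h2).pow 2).mul ((differentiable_const _).add h1))

theorem A1_diff : DifferentiableOn ℂ A1 (ball 0 1) := by
  have h1 := qq_diff
  have h2 := qq_inv_diff 3
  refine pre_diff.mul (DifferentiableOn.mul (DifferentiableOn.mul ?_ (DD_diff.pow 3))
    h2.differentiableOn)
  exact (((differentiable_const _).add h1).const_mul _).differentiableOn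

theorem A2_diff : DifferentiableOn ℂ A2 (ball 0 1) := by
  have h1 := qq_diff
  have h2 := qq_inv_diff 2
  refine pre_diff.mul (DifferentiableOn.mul (DifferentiableOn.mul
    (DifferentiableOn.mul ?_ DD_diff) ?_) h2.differentiableOn)
  · exact (((differentiable_const _).add h2).const_mul _).differentiableOn
  · exact ((differentiable_const _).add (h1.const_mul _)).differentiableOn

theorem sqrt3_ne : ((√3 : ℝ) : ℂ) ≠ 0 := by simp

theorem A0_zero : A0 0 = ((27 / (24 * √3 * π ^ 2) : ℝ) : ℂ) *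
    cexp (2 * π * I * (((-2 : ℚ) : ℂ) / 8)) := by
  have hπ : (π : ℂ) ≠ 0 := ofReal_ne_zero.mpr pi_ne_zero
  have : (2 * π * I * (((-2 : ℚ) : ℂ) / 8)) = -(π / 2 * I) := by
    push_cast
    ring
  rw [this, Complex.exp_neg, exp_pi_div_two_mul_I, inv_I, A0, pre_zero, qq_zero]
  have := sqrt3_ne
  push_cast
  field_simp
  ring

theorem A1_zero : A1 0 = ((π / (108 * √3) : ℝ) : ℂ) *
    cexp (2 * π * I * (((0 : ℚ) : ℂ) / 8)) := by
  have hπ : (π : ℂ) ≠ 0 := ofReal_ne_zero.mpr pi_ne_zero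
  rw [A1, pre_zero, qq_zero, DD_zero]
  have := sqrt3_ne
  simp only [Rat.cast_zero, zero_div, mul_zero, Complex.exp_zero]
  push_cast
  field_simp
  linear_combination (216 * (I ^ 2 - 1)) * I_sq

theorem A2_zero : A2 0 = ((9 / (24 * √3 * π) : ℝ) : ℂ) *
    cexp (2 * π * I * (((0 : ℚ) : ℂ) / 8)) := by
  have hπ : (π : ℂ) ≠ 0 := ofReal_ne_zero.mpr pi_ne_zero
  rw [A2, pre_zero, qq_zero, DD_zero]
  have := sqrt3_ne
  simp only [Rat.cast_zero, zero_div, mul_zero, Complex.exp_zero]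
  push_cast
  field_simp
  linear_combination (-9) * I_sq

theorem Z_expansion : HasExpansion (fun r => tau ![3, 3, -6] r / tau ![0] r)
    (fun j : Fin 6 => (j : ℝ) / 6) ![3 / 2, -3 / 2, 1 / 2, 3 / 2, -3 / 2, 1 / 2] := by
  refine hasExpansion_of_analytic _ _ _ ![A0, A1, A2, A0, A1, A2] ?_ ![-2, 0, 0, -2, 0, 0]
    ![27 / (24 * √3 * π ^ 2), π / (108 * √3), 9 / (24 * √3 * π),
      27 / (24 * √3 * π ^ 2), π / (108 * √3), 9 / (24 * √3 * π)] ?_ ?_ ?_
  · intro j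
    fin_cases j
    exacts [A0_diff, A1_diff, A2_diff, A0_diff, A1_diff, A2_diff]
  · intro j
    have := pi_pos
    fin_cases j <;> simp only [Fin.zero_eta, Fin.mk_one, Fin.reduceFinMk, Matrix.cons_val] <;>
      positivity
  · intro j
    fin_cases j
    exacts [A0_zero, A1_zero, A2_zero, A0_zero, A1_zero, A2_zero]
  · intro r hr
    have hr' : (r : ℂ) ≠ 0 := by exact_mod_cast (by omega : r ≠ 0)
    have hrr : (0:ℝ) < r := by exact_mod_cast (by omega : 0 < r)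
    have hω6 := om_pow r
    have hph : ∀ j : Fin 6, cexp (2 * π * I * (r * (((j : ℕ) : ℝ) / 6 : ℝ))) =
        cexp (2 * π * I * r / 6) ^ (j : ℕ) := by
      intro j
      rw [← Complex.exp_nat_mul]
      congr 1
      push_cast
      ring
    have b4 : ((√r : ℝ) : ℂ) ^ 2 = r := by
      rw [← ofReal_pow, Real.sq_sqrt hrr.le]
      simp
    have b5 : ((√r : ℝ) : ℂ) ≠ 0 := by
      intro h
      rw [h] at b4
      exact hr' (by rw [← b4]; simp)
    have p1 : (((r : ℝ) ^ (((1 / 2 : ℚ)) : ℝ) : ℝ) : ℂ) = (√r : ℝ) := by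
      rw [Real.sqrt_eq_rpow]
      norm_num
    have p2 : (((r : ℝ) ^ (((3 / 2 : ℚ)) : ℝ) : ℝ) : ℂ) = (√r : ℝ) ^ 3 := by
      rw [Real.sqrt_eq_rpow, ← ofReal_pow, ← Real.rpow_natCast, ← Real.rpow_mul hrr.le]
      norm_num
    have p3 : (((r : ℝ) ^ (((-3 / 2 : ℚ)) : ℝ) : ℝ) : ℂ) = (((√r : ℝ) : ℂ) ^ 3)⁻¹ := by
      rw [← p2, ← ofReal_inv, ← Real.rpow_neg hrr.le]
      norm_num
    have hsin : Complex.sin (π / r) = 1 / r * sg (1 / r) := by
      rw [← mul_sg, mul_one_div]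
    have hsg : sg (1 / r) ≠ 0 := sg_ne (mem_ball_zero_iff.mpr (inv_ne_and_lt hr).2)
    have hD : DD (1 / r) = r * (qq (1 / r) - 1) := by
      rw [mul_DD (1 / r)]
      field_simp
      ring
    rw [Z_closed hr, Fin.sum_univ_six]
    simp only [hph]
    simp only [Matrix.cons_val, p1, p2, p3, A0, A1, A2, pre, hD, hsin]
    have hq := qq_ne (1 / r)
    have hq' : cexp (π * I / 3 * (1 / r)) = qq (1 / r) := rfl
    have := sqrt3_ne
    rw [hq']
    generalize qq (1 / r) = q at *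
    generalize sg (1 / r) = S at *
    generalize cexp (3 * π * I / 2 * (1 / r)) = E at *
    generalize cexp (2 * π * I * r / 6) = ω at *
    generalize ((√r : ℝ) : ℂ) = sr at *
    generalize ((√3 : ℝ) : ℂ) = s3 at *
    rw [← b4]
    simp only [Fin.isValue, Fin.coe_ofNat_eq_mod, Nat.reduceMod]
    field_simp
    linear_combination (-E * (((q ^ 2 * 2 + 1) ^ 2 * (1 - q) +
      2 * (q ^ 2 - 1) * (q ^ 2 * 2 + 1) * (2 + q)) * (ω ^ 2 + ω ^ 5) +
      (q ^ 2 * 2 + 1) ^ 2 * (2 + q) * (ω ^ 6 + 1) * (1 + ω ^ 3) +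
      (2 * (q ^ 2 - 1) * (q ^ 2 * 2 + 1) * (1 - q) + (q ^ 2 - 1) ^ 2 * (2 + q)) * ω)) * hω6

end Pool.Agent.P.MP_27a476_gt
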