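import Pool.Agent.P.MP_27a476_gt.Cocycle
import Pool.Agent.P.MP_27a476_gt.Quantum

set_option autoImplicit false

open scoped Quaternion Real

namespace Pool.Agent.P.MP_27a476_gt

variable {w : unitary ℍ[ℝ] → unitary ℍ[ℝ] → unitary ℍ[ℝ] → UnitAddCircle}

/-- The lens space sum. -/
noncomputable def LL (w : unitary ℍ[ℝ] → unitary ℍ[ℝ] → unitary ℍ[ℝ] → UnitAddCircle)
    (x : unitary ℍ[ℝ]) (p : ℕ) : UnitAddCircle :=
  ∑ j ∈ Finset.range p, w x (x ^ j) x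

theorem cs_eq (ρ : Pi1 ![3, 3, -6] →* unitary ℍ[ℝ]) :
    cs w ![3, 3, -6] ρ = LL w (ρ (PresentedGroup.of 0)) 3 + LL w (ρ (PresentedGroup.of 1)) 3 -
      LL w (ρ (PresentedGroup.of 2)) 6 := by
  rw [cs, Fin.sum_univ_three]
  have e0 : (![3, 3, -6] 0 : ℤ) = 3 := rfl
  have e1 : (![3, 3, -6] 1 : ℤ) = 3 := rfl
  have e2 : (![3, 3, -6] 2 : ℤ) = -6 := rfl
  have s3 : (3 : ℤ).sign = 1 := rfl
  have s6 : (-6 : ℤ).sign = -1 := rfl
  rw [e0, e1, e2, s3, s6, one_smul, one_smul, neg_one_smul, ← sub_eq_add_neg]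
  rfl

theorem rel_pow {n : ℕ} (f : Fin n → ℤ) (ρ : Pi1 f →* unitary ℍ[ℝ]) (i : Fin n) :
    ρ (PresentedGroup.of i) ^ f i = 1 := by
  rw [← map_zpow]
  have : (PresentedGroup.of i : Pi1 f) ^ f i = 1 :=
    PresentedGroup.one_of_mem (x := FreeGroup.of i ^ f i) ⟨i, rfl⟩
  rw [this, map_one]

theorem rel0 (ρ : Pi1 ![3, 3, -6] →* unitary ℍ[ℝ]) : ρ (PresentedGroup.of 0) ^ 3 = 1 := by
  have := rel_pow _ ρ 0
  exact_mod_cast this

theorem rel1 (ρ : Pi1 ![3, 3, -6] →* unitary ℍ[ℝ]) : ρ (PresentedGroup.of 1) ^ 3 = 1 := by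
  have := rel_pow _ ρ 1
  exact_mod_cast this

theorem rel2 (ρ : Pi1 ![3, 3, -6] →* unitary ℍ[ℝ]) : ρ (PresentedGroup.of 2) ^ 6 = 1 := by
  have : ρ (PresentedGroup.of 2) ^ (-6 : ℤ) = 1 := rel_pow _ ρ 2
  rw [zpow_neg, inv_eq_one] at this
  exact_mod_cast this

theorem eu_pow_one (p n : ℕ) (hp : 0 < p) : eu (2 * π * n / p) ^ p = 1 := by
  have hp' : (p:ℝ) ≠ 0 := by exact_mod_cast hp.ne'
  rw [eu_pow, ← eu_zero, ← eu_period 0 n]
  congr 1
  push_cast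
  field_simp
  ring

theorem LL_eu (hw : IsCCS w) (p n : ℕ) (hn : n < p) :
    LL w (eu (2 * π * n / p)) p = ((n ^ 2 / p : ℝ) : UnitAddCircle) := by
  rw [LL, lens_eq _ p (eu_pow_one p n (by omega)), FF_eu hw p n hn]

theorem exists_rep (hw : IsCCS w) (a b c : ℕ) (ha : a < 3) (hb : b < 3) (hc : c < 6) :
    ∃ ρ : Pi1 ![3, 3, -6] →* unitary ℍ[ℝ], cs w ![3, 3, -6] ρ =
      ((((2 * a ^ 2 + 2 * b ^ 2 - c ^ 2 : ℤ) : ℝ) / 6 : ℝ) : UnitAddCircle) := by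
  refine ⟨PresentedGroup.toGroup (f := ![eu (2 * π * a / (3:ℕ)), eu (2 * π * b / (3:ℕ)),
    eu (2 * π * c / (6:ℕ))]) ?_, ?_⟩
  · rintro _ ⟨i, rfl⟩
    rw [map_zpow, FreeGroup.lift_apply_of]
    fin_cases i
    · exact_mod_cast eu_pow_one 3 a (by norm_num)
    · exact_mod_cast eu_pow_one 3 b (by norm_num)
    · change eu (2 * π * c / (6:ℕ)) ^ (-6 : ℤ) = 1
      rw [zpow_neg, inv_eq_one]
      exact_mod_cast eu_pow_one 6 c (by norm_num)
  · rw [cs_eq]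
    simp only [PresentedGroup.toGroup.of, Matrix.cons_val]
    rw [LL_eu hw 3 a ha, LL_eu hw 3 b hb, LL_eu hw 6 c hc, ← AddCircle.coe_add,
      ← AddCircle.coe_sub]
    congr 1
    push_cast
    ring

theorem cs_value (hw : IsCCS w) (ρ : Pi1 ![3, 3, -6] →* unitary ℍ[ℝ]) :
    ∃ k : ℤ, cs w ![3, 3, -6] ρ = (((k : ℝ) / 6 : ℝ) : UnitAddCircle) := by
  obtain ⟨a, -, -, ha⟩ := lens_value hw _ 3 (by norm_num) (rel0 ρ)
  obtain ⟨b, -, -, hb⟩ := lens_value hw _ 3 (by norm_num) (rel1 ρ)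
  obtain ⟨c, -, -, hc⟩ := lens_value hw _ 6 (by norm_num) (rel2 ρ)
  refine ⟨2 * a ^ 2 + 2 * b ^ 2 - c ^ 2, ?_⟩
  rw [cs_eq, LL, LL, LL, ha, hb, hc, ← AddCircle.coe_add, ← AddCircle.coe_sub]
  congr 1
  push_cast
  ring

theorem coe_six (a b : ℤ) :
    (((a : ℝ) / 6 : ℝ) : UnitAddCircle) = (((b : ℝ) / 6 : ℝ) : UnitAddCircle) ↔ a % 6 = b % 6 := by
  rw [← sub_eq_zero, ← AddCircle.coe_sub, AddCircle.coe_eq_zero_iff]
  constructor
  · rintro ⟨n, hn⟩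
    have : (a : ℝ) - b = 6 * n := by
      rw [zsmul_eq_mul] at hn
      linarith
    have : a - b = 6 * n := by exact_mod_cast this
    omega
  · intro h
    refine ⟨(a - b) / 6, ?_⟩
    have h1 : a - b = 6 * ((a - b) / 6) := by omega
    have h2 : (a : ℝ) - b = 6 * ((a - b) / 6 : ℤ) := by exact_mod_cast h1
    rw [zsmul_eq_mul]
    linarith

theorem smul_six (ε : ℤˣ) (a : ℤ) :
    ε • (((a : ℝ) / 6 : ℝ) : UnitAddCircle) = ((((ε * a : ℤ) : ℝ) / 6 : ℝ) : UnitAddCircle) := by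
  rw [Units.smul_def, ← AddCircle.coe_zsmul]
  congr 1
  push_cast
  rw [zsmul_eq_mul]
  ring

theorem exists_rep_six (hw : IsCCS w) (k : ℤ) : ∃ ρ : Pi1 ![3, 3, -6] →* unitary ℍ[ℝ],
    cs w ![3, 3, -6] ρ = (((k : ℝ) / 6 : ℝ) : UnitAddCircle) := by
  have key : ∀ a b c : ℕ, a < 3 → b < 3 → c < 6 →
      (2 * a ^ 2 + 2 * b ^ 2 - c ^ 2 : ℤ) % 6 = k % 6 → ∃ ρ : Pi1 ![3, 3, -6] →* unitary ℍ[ℝ],
      cs w ![3, 3, -6] ρ = (((k : ℝ) / 6 : ℝ) : UnitAddCircle) := by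
    intro a b c ha hb hc h
    obtain ⟨ρ, hρ⟩ := exists_rep hw a b c ha hb hc
    exact ⟨ρ, hρ.trans ((coe_six _ _).mpr h)⟩
  have h : k % 6 = 0 ∨ k % 6 = 1 ∨ k % 6 = 2 ∨ k % 6 = 3 ∨ k % 6 = 4 ∨ k % 6 = 5 := by omega
  rcases h with h | h | h | h | h | h
  · exact key 0 0 0 (by norm_num) (by norm_num) (by norm_num) (by rw [h]; rfl)
  · exact key 1 0 1 (by norm_num) (by norm_num) (by norm_num) (by rw [h]; rfl)
  · exact key 1 0 0 (by norm_num) (by norm_num) (by norm_num) (by rw [h]; rfl)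
  · exact key 0 0 3 (by norm_num) (by norm_num) (by norm_num) (by rw [h]; rfl)
  · exact key 1 1 0 (by norm_num) (by norm_num) (by norm_num) (by rw [h]; rfl)
  · exact key 0 0 1 (by norm_num) (by norm_num) (by norm_num) (by rw [h]; rfl)

theorem fin_six (j : Fin 6) : ((j : ℕ) : ℝ) / 6 = (((j : ℕ) : ℤ) : ℝ) / 6 := by simp

theorem cs_range (hw : IsCCS w) (ε : ℤˣ) :
    Set.range (fun ρ => ε • cs w ![3, 3, -6] ρ) =
      Set.range (fun j : Fin 6 => ((((j : ℕ) : ℝ) / 6 : ℝ) : UnitAddCircle)) := by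
  ext z
  constructor
  · rintro ⟨ρ, rfl⟩
    obtain ⟨k, hk⟩ := cs_value hw ρ
    have hlt : ((ε * k : ℤ) % 6).toNat < 6 := by omega
    refine ⟨⟨((ε * k : ℤ) % 6).toNat, hlt⟩, ?_⟩
    simp only
    rw [hk, smul_six, fin_six ⟨_, hlt⟩, coe_six]
    simp only
    omega
  · rintro ⟨j, rfl⟩
    obtain ⟨ρ, hρ⟩ := exists_rep_six hw (ε * j)
    refine ⟨ρ, ?_⟩
    simp only
    rw [hρ, smul_six, ← mul_assoc, Int.units_coe_mul_self, one_mul, fin_six]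

theorem six_inj :
    Function.Injective (fun j : Fin 6 => ((((j : ℕ) : ℝ) / 6 : ℝ) : UnitAddCircle)) := by
  intro i j h
  simp only at h
  rw [fin_six, fin_six, coe_six] at h
  apply Fin.ext
  omega

theorem central_cases (x : unitary ℍ[ℝ])
    (h : ∀ v : ℍ[ℝ], v.re = 0 → (x : ℍ[ℝ]) * v * star (x : ℍ[ℝ]) = v) :
    x = eu (2 * π * (0:ℕ) / (6:ℕ)) ∨ x = eu (2 * π * (3:ℕ) / (6:ℕ)) := by
  have hn := normSq_unit x
  rw [Quaternion.normSq_def'] at hn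
  have h1 := congrArg QuaternionAlgebra.imI (h ⟨0, 1, 0, 0⟩ rfl)
  have h2 := congrArg QuaternionAlgebra.imJ (h ⟨0, 0, 1, 0⟩ rfl)
  obtain ⟨⟨a, b, c, d⟩, hx⟩ := x
  simp at h1 h2 hn
  have hb : b = 0 := by nlinarith
  have hc : c = 0 := by nlinarith
  have hd : d = 0 := by nlinarith
  have ha : (a - 1) * (a + 1) = 0 := by nlinarith
  have e3 : 2 * π * (3:ℕ) / (6:ℕ) = π := by
    push_cast
    ring
  rw [e3]
  rcases mul_eq_zero.mp ha with h3 | h3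
  · left
    apply Subtype.ext
    ext <;> simp [eu, ee, hb, hc, hd]
    linarith
  · right
    apply Subtype.ext
    ext <;> simp [eu, ee, hb, hc, hd]
    linarith

theorem central_three (x : unitary ℍ[ℝ]) (hx : x ^ 3 = 1)
    (h : ∀ v : ℍ[ℝ], v.re = 0 → (x : ℍ[ℝ]) * v * star (x : ℍ[ℝ]) = v) :
    x = eu (2 * π * (0:ℕ) / (3:ℕ)) := by
  rcases central_cases x h with h1 | h1
  · rw [h1]
    simp
  · exfalso
    rw [h1, eu_pow] at hx
    have h2 := congrArg (fun q : unitary ℍ[ℝ] => (q : ℍ[ℝ]).re) hx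
    have e3 : (3:ℕ) * (2 * π * (3:ℕ) / (6:ℕ)) = π + 2 * π := by
      push_cast
      ring
    rw [e3] at h2
    simp [eu, ee] at h2
    linarith

theorem finrank_im : Module.finrank ℝ (ℝ ∙ (1 : ℍ[ℝ]))ᗮ = 3 := by
  have : Fact (Module.finrank ℝ ℍ[ℝ] = 3 + 1) := ⟨Quaternion.finrank_eq_four⟩
  exact Submodule.finrank_orthogonal_span_singleton one_ne_zero

theorem ad_finite {Γ : Type} [Group Γ] (ρ : Γ →* unitary ℍ[ℝ]) :
    FiniteDimensional ℝ (adRep ρ) :=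
  inferInstanceAs (FiniteDimensional ℝ (ℝ ∙ (1 : ℍ[ℝ]))ᗮ)

theorem h0_finite {Γ : Type} [Group Γ] (ρ : Γ →* unitary ℍ[ℝ]) :
    Module.Finite ℝ (groupCohomology (adRep ρ) 0) := by
  have := ad_finite ρ
  exact Module.Finite.equiv (groupCohomology.H0Iso (adRep ρ)).toLinearEquiv.symm

theorem h1_finite {n : ℕ} (f : Fin n → ℤ) (ρ : Pi1 f →* unitary ℍ[ℝ]) :
    Module.Finite ℝ (groupCohomology (adRep ρ) 1) := by
  have := ad_finite ρ
  have h1 : Module.Finite ℝ (groupCohomology.cocycles₁ (adRep ρ)) := by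
    refine Module.Finite.of_injective ((LinearMap.funLeft ℝ (adRep ρ)
      (PresentedGroup.of : Fin n → Pi1 f)).comp (groupCohomology.cocycles₁ (adRep ρ)).subtype) ?_
    rw [injective_iff_map_eq_zero]
    intro z hz
    let H : Subgroup (Pi1 f) :=
      { carrier := {g | z g = 0}
        one_mem' := groupCohomology.cocycles₁_map_one z
        mul_mem' := fun {a b} ha hb => by
          have h2 := (groupCohomology.mem_cocycles₁_iff z).1 z.2 a b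
          simp only [Set.mem_ofPred_eq] at ha hb ⊢
          rw [h2, ha, hb]
          simp
        inv_mem' := fun {a} ha => by
          have h2 := (groupCohomology.mem_cocycles₁_iff z).1 z.2 a⁻¹ a
          simp only [Set.mem_ofPred_eq] at ha ⊢
          rw [ha, inv_mul_cancel, groupCohomology.cocycles₁_map_one] at h2
          simpa using h2.symm }
    ext g : 2
    exact PresentedGroup.generated_by _ H (fun j => congrFun hz j) g
  exact Module.Finite.of_surjective (groupCohomology.H1π (adRep ρ)).hom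
    ((ModuleCat.epi_iff_surjective _).mp inferInstance)

theorem h0_le (hw : IsCCS w) (ε : ℤˣ) (ρ : Pi1 ![3, 3, -6] →* unitary ℍ[ℝ])
    (h : ε • cs w ![3, 3, -6] ρ = ((((1 : ℤ) : ℝ) / 6 : ℝ) : UnitAddCircle)) :
    Module.finrank ℝ (groupCohomology (adRep ρ) 0) ≤ 2 := by
  rw [(groupCohomology.H0Iso (adRep ρ)).toLinearEquiv.finrank_eq]
  have hne : (adRep ρ).ρ.invariants ≠ ⊤ := by
    intro htop
    have hc : ∀ g, ∀ v : ℍ[ℝ], v.re = 0 → (ρ g : ℍ[ℝ]) * v * star (ρ g : ℍ[ℝ]) = v := by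
      intro g v hv
      have hv' : v ∈ (ℝ ∙ (1 : ℍ[ℝ]))ᗮ := by
        rw [Submodule.mem_orthogonal_singleton_iff_inner_left, Quaternion.inner_def]
        simpa using hv
      have : (⟨v, hv'⟩ : (ℝ ∙ (1 : ℍ[ℝ]))ᗮ) ∈ (adRep ρ).ρ.invariants := by
        rw [htop]
        trivial
      exact congrArg Subtype.val (this g)
    rw [cs_eq, central_three _ (rel0 ρ) (hc _), central_three _ (rel1 ρ) (hc _),
      LL_eu hw 3 0 (by norm_num)] at h
    rcases central_cases _ (hc (PresentedGroup.of 2)) with h1 | h1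
    · rw [h1, LL_eu hw 6 0 (by norm_num), ← AddCircle.coe_add, ← AddCircle.coe_sub] at h
      have e : (((0:ℕ):ℝ) ^ 2 / (3:ℕ) + ((0:ℕ):ℝ) ^ 2 / (3:ℕ) - ((0:ℕ):ℝ) ^ 2 / (6:ℕ)) =
        ((0:ℤ):ℝ) / 6 := by norm_num
      rw [e, smul_six, coe_six] at h
      omega
    · rw [h1, LL_eu hw 6 3 (by norm_num), ← AddCircle.coe_add, ← AddCircle.coe_sub] at h
      have e : (((0:ℕ):ℝ) ^ 2 / (3:ℕ) + ((0:ℕ):ℝ) ^ 2 / (3:ℕ) - ((3:ℕ):ℝ) ^ 2 / (6:ℕ)) =
        ((-9:ℤ):ℝ) / 6 := by norm_num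
      rw [e, smul_six, coe_six] at h
      omega
  have : FiniteDimensional ℝ (adRep ρ) := ad_finite ρ
  have h1 : Module.finrank ℝ (adRep ρ).ρ.invariants < Module.finrank ℝ (ℝ ∙ (1 : ℍ[ℝ]))ᗮ :=
    Submodule.finrank_lt hne
  rw [finrank_im] at h1
  exact Nat.le_of_lt_succ h1

end Pool.Agent.P.MP_27a476_gt
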