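import Pool.Agent.P.MP_27a476_gt.Defs

set_option autoImplicit false

open scoped Quaternion Real

namespace Pool.Agent.P.MP_27a476_gt

/-- The quantum integer `[k]` at level `r`. -/
noncomputable def qi (r k : ℕ) : ℂ := (Real.sin (π * k / r) / Real.sin (π / r) : ℝ)

/-- The Reshetikhin-Turaev surgery formula (Kirby-Melvin normalisation) for the 0-framed unknot
together with `n` of its meridians, framed `f`. -/
noncomputable def tauS {n : ℕ} (f : Fin n → ℤ) (r : ℕ) : ℂ :=
  ((√(2 / r) * Real.sin (π / r) : ℝ) : ℂ) ^ (n + 1) *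
    Complex.exp (-(2 * π * Complex.I) * (3 * (r - 2) / (8 * r))) ^
      (∑ i, (f i).sign + (SignType.sign (-∑ i, (f i : ℚ)⁻¹) : ℤ)) *
    ∑ k₀ ∈ Finset.Ioo 0 r, ∑ k ∈ Fintype.piFinset (fun _ : Fin n => Finset.Ioo 0 r),
      qi r k₀ ^ 2 * ∏ i, (qi r (k i) * (qi r (k₀ * k i) / qi r k₀) *
        Complex.exp (2 * π * Complex.I / (4 * r)) ^ (f i * ((k i : ℤ) ^ 2 - 1)))

/-- The fundamental group of that surgery: `some i` is the meridian `x_i` of the `i`-th meridian
circle and `none` is the meridian `h` of the central unknot. -/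
abbrev PiS {n : ℕ} (f : Fin n → ℤ) : Type :=
  PresentedGroup
    ((Set.range fun i : Fin n => FreeGroup.of (some i) * FreeGroup.of none *
        (FreeGroup.of (some i))⁻¹ * (FreeGroup.of none)⁻¹) ∪
      (Set.range fun i => FreeGroup.of (some i) ^ f i * FreeGroup.of none) ∪
      {(List.ofFn fun i => FreeGroup.of (some i)).prod})

/-- Pairing of the pulled-back cocycle with the fundamental cycle. -/
noncomputable def csS (w : unitary ℍ[ℝ] → unitary ℍ[ℝ] → unitary ℍ[ℝ] → UnitAddCircle) {n : ℕ}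
    (f : Fin n → ℤ) (ρ : PiS f →* unitary ℍ[ℝ]) : UnitAddCircle :=
  let h := ρ (PresentedGroup.of none)
  let x := fun i => ρ (PresentedGroup.of (some i))
  let p := fun i : Fin n => ((List.ofFn x).take i).prod
  ∑ i, (∑ t ∈ Finset.Ico 1 (-f i), w (x i) (x i ^ t) (x i) -
    ∑ t ∈ Finset.Ico (-f i) 1, w (x i) (x i ^ t) (x i) -
    (w h (p i) (x i) - w (p i) h (x i) + w (p i) (x i) h))

end Pool.Agent.P.MP_27a476_gt
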