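import Pool.Agent.P.MP_27a476_gt.Main
import Pool.Agent.P.MP_27a476_gt.NilDefs

set_option autoImplicit false

open scoped Quaternion Real

namespace Pool.Agent.P.MP_27a476_gt

section Cyclic

variable {A : Type*} [AddCommGroup A]

theorem exists_antider (φ : ℤ → A) : ∃ S : ℤ → A, S 0 = 0 ∧ ∀ y, S (y + 1) = S y + φ y := by
  refine ⟨fun y => ∑ t ∈ Finset.Ico 0 y, φ t - ∑ t ∈ Finset.Ico y 0, φ t, by simp, fun y => ?_⟩
  by_cases hy : 0 ≤ y
  · have h1 : Finset.Ico 0 (y + 1) = insert y (Finset.Ico 0 y) := by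
      ext t
      simp only [Finset.mem_Ico, Finset.mem_insert]
      omega
    simp only
    rw [h1, Finset.sum_insert (by simp), Finset.Ico_eq_empty (a := y + 1) (by omega),
      Finset.Ico_eq_empty (a := y) (by omega)]
    simp only [Finset.sum_empty]
    abel
  · have h1 : Finset.Ico y 0 = insert y (Finset.Ico (y + 1) 0) := by
      ext t
      simp only [Finset.mem_Ico, Finset.mem_insert]
      omega
    simp only
    rw [h1, Finset.sum_insert (by simp), Finset.Ico_eq_empty (b := y + 1) (by omega),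
      Finset.Ico_eq_empty (b := y) (by omega)]
    simp only [Finset.sum_empty]
    abel

omit [AddCommGroup A] in
theorem const_of_succ (f : ℤ → A) (h : ∀ x, f (x + 1) = f x) (x : ℤ) : f x = f 0 := by
  induction x using Int.induction_on with
  | zero => rfl
  | succ n ih => rw [h, ih]
  | pred n ih =>
    rw [← ih, ← h (-n - 1)]
    congr 1
    ring

theorem exists_D (ω : ℤ → ℤ → ℤ → A)
    (hc : ∀ a b c d, ω b c d - ω (a + b) c d + ω a (b + c) d - ω a b (c + d) + ω a b c = 0) :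
    ∃ D : ℤ → ℤ → A, ∀ x y z, ω x y z = D y z - D (x + y) z + D x (y + z) - D x y := by
  choose S hS0 hS using fun z => exists_antider fun y => ω 1 y z
  set D : ℤ → ℤ → A := fun y z => ω 1 0 z - S z y with hD
  have h1 : ∀ z, D 1 z = 0 := by
    intro z
    have := hS z 0
    rw [zero_add, hS0, zero_add] at this
    simp only [hD, this, sub_self]
  have h2 : ∀ y z, D (1 + y) z = D y z - ω 1 y z := by
    intro y z
    simp only [hD]
    rw [add_comm 1 y, hS]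
    abel
  refine ⟨D, fun x y z => ?_⟩
  have h3 : ∀ x, ω (x + 1) y z - (D y z - D (x + 1 + y) z + D (x + 1) (y + z) - D (x + 1) y) =
      ω x y z - (D y z - D (x + y) z + D x (y + z) - D x y) := by
    intro x
    have h4 := hc 1 x y z
    rw [add_comm x 1, add_assoc, h2, h2, h2]
    linear_combination (norm := abel1) -h4
  have h5 := const_of_succ
    (fun x => ω x y z - (D y z - D (x + y) z + D x (y + z) - D x y)) h3
  have h6 := (h5 x).trans (h5 1).symm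
  simp only [h1, h2] at h6
  linear_combination (norm := abel1) h6

theorem exists_E (ω : ℤ → ℤ → ℤ → A)
    (hc : ∀ a b c d, ω b c d - ω (a + b) c d + ω a (b + c) d - ω a b (c + d) + ω a b c = 0)
    (N : ℕ) (h1 : ∀ a b c, ω (a + N) b c = ω a b c) (h2 : ∀ a b c, ω a (b + N) c = ω a b c)
    (h3 : ∀ a b c, ω a b (c + N) = ω a b c) :
    ∃ E : ℤ → ℤ → A, (∀ x, E x x = 0) ∧
      (∀ η p x, ω η p x - ω p η x + ω p x η = E η (p + x) - E η p - E η x) ∧
      (∀ x y, ω x y x = E y x - E (y + x) x) ∧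
      ∀ η m x, E (η + N * m) x = E η x - (m * x) • ∑ t ∈ Finset.range N, ω 1 t 1 := by
  obtain ⟨D, hD⟩ := exists_D ω hc
  set E : ℤ → ℤ → A := fun x y => D x y - D y x with hE
  have a1 : ∀ η p x, ω η p x - ω p η x + ω p x η = E η (p + x) - E η p - E η x := by
    intro η p x
    simp only [hE, hD, add_comm p η, add_comm x η]
    abel
  have a2 : ∀ x y, ω x y x = E y x - E (y + x) x := by
    intro x y
    simp only [hE, hD, add_comm x y]
    abel
  have a3 : ∀ η, E (η + N) 1 - E η 1 = -∑ t ∈ Finset.range N, ω 1 t 1 := by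
    intro η
    rw [const_of_succ (fun η => E (η + N) 1 - E η 1) (fun η => ?_) η]
    · simp only [a2]
      have := Finset.sum_range_sub' (fun t : ℕ => E t 1) N
      push_cast at this
      rw [this]
      simp
    · have b1 := a2 1 η
      have b2 := a2 1 (η + N)
      rw [h2] at b2
      rw [add_right_comm]
      linear_combination (norm := abel1) b2 - b1
  have a4 : ∀ η x, E (η + N) x = E η x - x • ∑ t ∈ Finset.range N, ω 1 t 1 := by
    intro η x
    let φ : ℤ →+ A := AddMonoidHom.mk' (fun x => E (η + N) x - E η x) fun p x => by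
      have b1 := a1 η p x
      have b2 := a1 (η + N) p x
      rw [h1, h2, h3] at b2
      linear_combination (norm := abel1) b1 - b2
    have b3 : φ x = x • φ 1 := by rw [← map_zsmul, smul_eq_mul, mul_one]
    have b4 : E (η + N) x - E η x = x • (E (η + N) 1 - E η 1) := b3
    rw [a3, smul_neg] at b4
    linear_combination (norm := abel1) b4
  refine ⟨E, fun x => sub_self _, a1, a2, fun η m x => ?_⟩
  have a5 := const_of_succ
    (fun m => E (η + N * m) x + (m * x) • ∑ t ∈ Finset.range N, ω 1 t 1) (fun m => ?_) m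
  · simp only [mul_zero, add_zero, zero_mul, zero_smul] at a5
    rw [← a5]
    abel
  · rw [mul_add, mul_one, ← add_assoc, a4, add_mul, one_mul, add_smul]
    abel

end Cyclic

variable {w : unitary ℍ[ℝ] → unitary ℍ[ℝ] → unitary ℍ[ℝ] → UnitAddCircle}

theorem csS_pow (hw : IsCCS w) (g : unitary ℍ[ℝ]) (hg : g ^ 8 = 1) (i j : ℤ)
    (ρ : PiS ![2, 4, -4] →* unitary ℍ[ℝ]) (h0 : ρ (PresentedGroup.of none) = g ^ (4 * i))
    (h1 : ρ (PresentedGroup.of (some 0)) = g ^ (-2 * i))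
    (h2 : ρ (PresentedGroup.of (some 1)) = g ^ (-i - 2 * j))
    (h3 : ρ (PresentedGroup.of (some 2)) = g ^ (3 * i + 2 * j)) :
    csS w ![2, 4, -4] ρ = (3 * i ^ 2 + 4 * i * j) • LL w g 8 := by
  have hg' : ∀ a : ℤ, g ^ (a + (8 : ℕ)) = g ^ a := by
    intro a
    rw [zpow_add, zpow_natCast, hg, mul_one]
  obtain ⟨E, e0, e1, e2, e3⟩ := exists_E (fun a b c : ℤ => w (g ^ a) (g ^ b) (g ^ c))
    (fun a b c d => by simpa only [zpow_add] using hw.1 (g ^ a) (g ^ b) (g ^ c) (g ^ d)) 8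
    (fun a b c => by rw [hg']) (fun a b c => by rw [hg']) (fun a b c => by rw [hg'])
  have hL : ∑ t ∈ Finset.range 8, w (g ^ (1:ℤ)) (g ^ (t:ℤ)) (g ^ (1:ℤ)) = LL w g 8 := by
    simp [LL]
  rw [hL] at e3
  have i1 : Finset.Ico (1:ℤ) (-2) = ∅ := by decide
  have i2 : Finset.Ico (-2:ℤ) 1 = {-2, -1, 0} := by decide
  have i3 : Finset.Ico (1:ℤ) (-4) = ∅ := by decide
  have i4 : Finset.Ico (-4:ℤ) 1 = {-4, -3, -2, -1, 0} := by decide
  have i5 : Finset.Ico (1:ℤ) 4 = {1, 2, 3} := by decide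
  have i6 : Finset.Ico (4:ℤ) 1 = ∅ := by decide
  have p0 : (1 : unitary ℍ[ℝ]) = g ^ (0:ℤ) := (zpow_zero g).symm
  simp only [csS, Fin.sum_univ_three, Matrix.cons_val, neg_neg, i1, i2, i3, i4, i5, i6,
    List.ofFn_succ, List.ofFn_zero, Fin.succ_zero_eq_one, Fin.succ_one_eq_two, Fin.val_zero,
    Fin.val_one, Fin.val_two, List.take_zero, List.take_succ_cons, List.prod_nil, List.prod_cons,
    mul_one, h0, h1, h2, h3]
  rw [Finset.sum_insert (by decide), Finset.sum_insert (by decide), Finset.sum_singleton,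
    Finset.sum_insert (by decide), Finset.sum_insert (by decide), Finset.sum_insert (by decide),
    Finset.sum_insert (by decide), Finset.sum_singleton, Finset.sum_insert (by decide),
    Finset.sum_insert (by decide), Finset.sum_singleton, p0]
  simp only [← zpow_mul, ← zpow_add, e1, e2, Finset.sum_empty]
  have f1 := e3 (4 * i) j (-i - 2 * j)
  have f2 := e3 (4 * i) (i + j) (3 * i + 2 * j)
  have f3 := e0 (-2 * i)
  have f4 := e0 (-i - 2 * j)
  have f5 := e0 (3 * i + 2 * j)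
  push_cast at f1 f2
  ring_nf at f1 f2 f3 f4 f5 ⊢
  have f6 : i * j * 4 + i ^ 2 * 3 =
      (i * j * 5 + i ^ 2 * 3 + j ^ 2 * 2) + (-(i * j) - j ^ 2 * 2) := by ring
  rw [f1, f2, f3, f4, f5, f6, add_smul (i * j * 5 + i ^ 2 * 3 + j ^ 2 * 2)]
  generalize (i * j * 5 + i ^ 2 * 3 + j ^ 2 * 2) • LL w g 8 = X
  generalize (-(i * j) - j ^ 2 * 2) • LL w g 8 = Y
  abel

theorem relS {n : ℕ} (f : Fin n → ℤ) {G : Type*} [Group G] (ρ : PiS f →* G) :
    (∀ i, ρ (PresentedGroup.of (some i)) * ρ (PresentedGroup.of none) =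
      ρ (PresentedGroup.of none) * ρ (PresentedGroup.of (some i))) ∧
    (∀ i, ρ (PresentedGroup.of (some i)) ^ f i * ρ (PresentedGroup.of none) = 1) ∧
    (List.ofFn fun i => ρ (PresentedGroup.of (some i))).prod = 1 := by
  have key : ∀ x ∈ ((Set.range fun i : Fin n => FreeGroup.of (some i) * FreeGroup.of none *
        (FreeGroup.of (some i))⁻¹ * (FreeGroup.of none)⁻¹) ∪
      (Set.range fun i => FreeGroup.of (some i) ^ f i * FreeGroup.of none) ∪
      {(List.ofFn fun i => FreeGroup.of (some i)).prod}),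
      ρ.comp (PresentedGroup.mk _) x = 1 := by
    intro x hx
    rw [MonoidHom.comp_apply, PresentedGroup.one_of_mem hx, map_one]
  refine ⟨fun i => ?_, fun i => ?_, ?_⟩
  · have := key _ (Or.inl (Or.inl ⟨i, rfl⟩))
    simp only [map_mul, map_inv] at this
    rw [mul_inv_eq_one, mul_inv_eq_iff_eq_mul] at this
    exact this
  · have := key _ (Or.inl (Or.inr ⟨i, rfl⟩))
    simp only [map_mul, map_zpow] at this
    exact this
  · have := key _ (Or.inr rfl)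
    rw [map_list_prod, List.map_ofFn] at this
    exact this

theorem torus_of_comm (x : unitary ℍ[ℝ]) {θ : ℝ} (hs : Real.sin θ ≠ 0)
    (hx : x * eu θ = eu θ * x) : ∃ φ, x = eu φ := by
  have hn := normSq_unit x
  rw [Quaternion.normSq_def'] at hn
  have h1 := congrArg (fun q : unitary ℍ[ℝ] => (q : ℍ[ℝ]).imJ) hx
  have h2 := congrArg (fun q : unitary ℍ[ℝ] => (q : ℍ[ℝ]).imK) hx
  simp only [Submonoid.coe_mul, Quaternion.imJ_mul, Quaternion.imK_mul] at h1 h2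
  simp only [eu, ee] at h1 h2
  obtain ⟨⟨a, b, c, d⟩, hq⟩ := x
  simp only at h1 h2 hn
  have hd : d = 0 := by
    apply mul_left_cancel₀ hs
    linarith
  have hc : c = 0 := by
    apply mul_left_cancel₀ hs
    linarith
  obtain ⟨α, h3, h4⟩ := exists_angle a b (by simpa [hc, hd] using hn)
  refine ⟨α, Subtype.ext ?_⟩
  ext <;> simp [eu, ee, h3, h4, hc, hd]

theorem conj_torus (x u : unitary ℍ[ℝ]) {θ : ℝ} (hs : Real.sin θ ≠ 0)
    (hx : x * (u * eu θ * u⁻¹) = u * eu θ * u⁻¹ * x) : ∃ φ, x = u * eu φ * u⁻¹ := by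
  obtain ⟨φ, hφ⟩ := torus_of_comm (u⁻¹ * x * u) hs (by
    have := congrArg (fun y => u⁻¹ * y * u) hx
    simpa [mul_assoc] using this)
  exact ⟨φ, by rw [← hφ]; group⟩

theorem eu_comm_of_sin {θ : ℝ} (hs : Real.sin θ = 0) (x : unitary ℍ[ℝ]) :
    x * eu θ = eu θ * x := by
  apply Subtype.ext
  ext <;> simp only [Submonoid.coe_mul, Quaternion.re_mul, Quaternion.imI_mul, Quaternion.imJ_mul,
    Quaternion.imK_mul] <;> simp only [eu, ee, hs] <;> ring

theorem simul (x y : unitary ℍ[ℝ]) (h : x * y = y * x) :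
    ∃ (u : unitary ℍ[ℝ]) (φ θ : ℝ), x = u * eu φ * u⁻¹ ∧ y = u * eu θ * u⁻¹ := by
  obtain ⟨u, θ, rfl⟩ := exists_conj y
  by_cases hs : Real.sin θ = 0
  · obtain ⟨v, φ, rfl⟩ := exists_conj x
    refine ⟨v, φ, θ, rfl, ?_⟩
    rw [eu_comm_of_sin hs, eu_comm_of_sin hs]
    simp
  · obtain ⟨φ, hφ⟩ := conj_torus x u hs h
    exact ⟨u, φ, θ, hφ, rfl⟩

theorem re_sq_unit (x : unitary ℍ[ℝ]) :
    ((x ^ 2 : unitary ℍ[ℝ]) : ℍ[ℝ]).re = 2 * (x : ℍ[ℝ]).re ^ 2 - 1 := by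
  have hn := normSq_unit x
  rw [Quaternion.normSq_def'] at hn
  rw [sq, Submonoid.coe_mul, Quaternion.re_mul]
  linarith

theorem cross_zero (e a b c d a' b' c' d' : ℝ) (he : e = 1 ∨ e = -1)
    (hx : a ^ 2 + b ^ 2 + c ^ 2 + d ^ 2 = 1) (hy : a' ^ 2 + b' ^ 2 + c' ^ 2 + d' ^ 2 = 1)
    (a1 : e = 2 * a ^ 2 - 1) (a2 : e = 2 * (2 * a' ^ 2 - 1) ^ 2 - 1)
    (a3 : e = 2 * (2 * (a * a' - b * b' - c * c' - d * d') ^ 2 - 1) ^ 2 - 1) :
    c * d' - d * c' = 0 ∧ d * b' - b * d' = 0 ∧ b * c' - c * b' = 0 := by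
  have b3 : (c * d' - d * c') ^ 2 + (d * b' - b * d') ^ 2 + (b * c' - c * b') ^ 2 ≤ 0 := by
    have : (c * d' - d * c') ^ 2 + (d * b' - b * d') ^ 2 + (b * c' - c * b') ^ 2 =
        (b ^ 2 + c ^ 2 + d ^ 2) * (b' ^ 2 + c' ^ 2 + d' ^ 2) -
          (b * b' + c * c' + d * d') ^ 2 := by ring
    rw [this]
    rcases he with rfl | rfl
    · rw [show b ^ 2 + c ^ 2 + d ^ 2 = 0 by linarith]
      linarith [sq_nonneg (b * b' + c * c' + d * d')]
    · have ha : a = 0 := pow_eq_zero_iff two_ne_zero |>.mp (by linarith)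
      have b1 : 2 * a' ^ 2 - 1 = 0 := pow_eq_zero_iff two_ne_zero |>.mp (by linarith)
      have b2 : 2 * (a * a' - b * b' - c * c' - d * d') ^ 2 - 1 = 0 :=
        pow_eq_zero_iff two_ne_zero |>.mp (by linarith)
      subst ha
      rw [show b ^ 2 + c ^ 2 + d ^ 2 = 1 by linarith,
        show b' ^ 2 + c' ^ 2 + d' ^ 2 = 1 / 2 by linarith]
      linarith
  have s1 := sq_nonneg (c * d' - d * c')
  have s2 := sq_nonneg (d * b' - b * d')
  have s3 := sq_nonneg (b * c' - c * b')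
  exact ⟨pow_eq_zero_iff two_ne_zero |>.mp (by linarith),
    pow_eq_zero_iff two_ne_zero |>.mp (by linarith),
    pow_eq_zero_iff two_ne_zero |>.mp (by linarith)⟩

theorem comm_of_rel (x y : unitary ℍ[ℝ]) (h1 : x ^ 2 = y ^ 4) (h2 : x ^ 2 = (x * y) ^ 4) :
    ∃ (u : unitary ℍ[ℝ]) (φ θ : ℝ), x = u * eu φ * u⁻¹ ∧ y = u * eu θ * u⁻¹ := by
  obtain ⟨u, η, hu⟩ := exists_conj (x ^ 2)
  by_cases hs : Real.sin η = 0
  · apply simul
    rw [eu_comm_of_sin hs, mul_inv_cancel_right] at hu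
    have hc : Real.cos η = 1 ∨ Real.cos η = -1 := Real.sin_eq_zero_iff_cos_eq.mp hs
    have h3 : ((x ^ 2 : unitary ℍ[ℝ]) : ℍ[ℝ]).re = Real.cos η := by rw [hu]; rfl
    have hx := normSq_unit x
    have hy := normSq_unit y
    rw [Quaternion.normSq_def'] at hx hy
    have a1 := re_sq_unit x
    have a2 := re_sq_unit (y ^ 2)
    have a3 := re_sq_unit ((x * y) ^ 2)
    rw [← pow_mul, re_sq_unit, ← h1, h3] at a2
    rw [← pow_mul, re_sq_unit, ← h2, h3, Submonoid.coe_mul, Quaternion.re_mul] at a3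
    rw [h3] at a1
    obtain ⟨c1, c2, c3⟩ := cross_zero _ _ _ _ _ _ _ _ _ hc hx hy a1 a2 a3
    apply Subtype.ext
    ext <;> simp only [Submonoid.coe_mul, Quaternion.re_mul, Quaternion.imI_mul,
      Quaternion.imJ_mul, Quaternion.imK_mul] <;> linarith
  · obtain ⟨φ, hφ⟩ := conj_torus x u hs (by rw [← hu]; group)
    obtain ⟨θ, hθ⟩ := conj_torus y u hs (by rw [← hu, h1]; group)
    exact ⟨u, φ, θ, hφ, hθ⟩

theorem eu_zpow (θ : ℝ) (n : ℤ) : eu θ ^ n = eu (n * θ) := by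
  let φ : Multiplicative ℝ →* unitary ℍ[ℝ] :=
    MonoidHom.mk' (fun t => eu t.toAdd) fun a b => (eu_add _ _).symm
  have := map_zpow φ (Multiplicative.ofAdd θ) n
  simpa [φ] using this.symm

theorem eu_inj {θ φ : ℝ} (h : eu θ = eu φ) : ∃ k : ℤ, θ = φ + k * (2 * π) := by
  have h1 : eu (θ - φ) = 1 := by
    rw [sub_eq_add_neg, ← eu_add, h, eu_add, add_neg_cancel, eu_zero]
  have h2 : Real.cos (θ - φ) = 1 := congrArg (fun q : unitary ℍ[ℝ] => (q : ℍ[ℝ]).re) h1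
  obtain ⟨k, hk⟩ := (Real.cos_eq_one_iff _).mp h2
  exact ⟨k, by linarith⟩

theorem eu_eight : eu (2 * π * (1:ℕ) / (8:ℕ)) ^ 8 = 1 := eu_pow_one 8 1 (by norm_num)

theorem exists_pow (ρ : PiS ![2, 4, -4] →* unitary ℍ[ℝ]) :
    ∃ (u g : unitary ℍ[ℝ]) (i j : ℤ), g = u * eu (2 * π * (1:ℕ) / (8:ℕ)) * u⁻¹ ∧
      ρ (PresentedGroup.of none) = g ^ (4 * i) ∧
      ρ (PresentedGroup.of (some 0)) = g ^ (-2 * i) ∧
      ρ (PresentedGroup.of (some 1)) = g ^ (-i - 2 * j) ∧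
      ρ (PresentedGroup.of (some 2)) = g ^ (3 * i + 2 * j) := by
  obtain ⟨-, h1, h2⟩ := relS _ ρ
  have a0 := h1 0
  have a1 := h1 1
  have a2 := h1 2
  simp only [Matrix.cons_val, List.ofFn_succ, List.ofFn_zero, Fin.succ_zero_eq_one,
    Fin.succ_one_eq_two, List.prod_nil, List.prod_cons, mul_one] at a0 a1 a2 h2
  generalize ρ (PresentedGroup.of none) = h at *
  generalize ρ (PresentedGroup.of (some 0)) = x at *
  generalize ρ (PresentedGroup.of (some 1)) = y at *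
  generalize ρ (PresentedGroup.of (some 2)) = z at *
  have b0 : h = (x ^ 2)⁻¹ := by
    rw [← zpow_natCast]
    exact eq_inv_of_mul_eq_one_right a0
  have b1 : z = (x * y)⁻¹ := eq_inv_of_mul_eq_one_right (by rw [mul_assoc, h2])
  have b2 : x ^ 2 = y ^ 4 := by
    rw [b0, mul_inv_eq_one] at a1
    exact_mod_cast a1.symm
  have b3 : x ^ 2 = (x * y) ^ 4 := by
    rw [b0, b1, mul_inv_eq_one, inv_zpow', neg_neg] at a2
    exact_mod_cast a2.symm
  obtain ⟨u, φ, θ, rfl, rfl⟩ := comm_of_rel x y b2 b3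
  have c0 : u * eu φ * u⁻¹ * (u * eu θ * u⁻¹) = u * eu (φ + θ) * u⁻¹ := by
    rw [← eu_add]
    group
  rw [c0] at b1 b3
  rw [conj_pow, conj_pow, mul_left_inj, mul_right_inj, eu_pow, eu_pow] at b2 b3
  obtain ⟨k, hk⟩ := eu_inj b2
  obtain ⟨l, hl⟩ := eu_inj b3
  push_cast at hk hl
  refine ⟨u, _, l - k, k, rfl, ?_, ?_, ?_, ?_⟩
  · rw [b0, conj_zpow, conj_pow, eu_zpow, eu_pow, conj_inv, ← zpow_neg_one, eu_zpow]
    congr 3
    push_cast
    linarith
  · rw [conj_zpow, eu_zpow]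
    congr 3
    push_cast
    linarith
  · rw [conj_zpow, eu_zpow]
    congr 3
    push_cast
    linarith
  · rw [b1, conj_zpow, eu_zpow, conj_inv, ← zpow_neg_one, eu_zpow]
    congr 3
    push_cast
    linarith

theorem LL_conj (hw : IsCCS w) (u : unitary ℍ[ℝ]) :
    LL w (u * eu (2 * π * (1:ℕ) / (8:ℕ)) * u⁻¹) 8 = ((1 / 8 : ℝ) : UnitAddCircle) := by
  have hx : (u * eu (2 * π * (1:ℕ) / (8:ℕ)) * u⁻¹) ^ 8 = 1 := by
    rw [conj_pow, eu_eight]
    simp
  rw [LL, lens_eq _ 8 hx, FF_left _ (WW_coc hw) WW_mul _ 8 hx 1 (u * 1),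
    FF_right _ (WW_coc hw) WW_mul _ 8 hx _ 1 (u * 1), FF_conj _ WW_mul,
    FF_eu hw 8 1 (by norm_num)]
  norm_num

theorem csS_value (hw : IsCCS w) (u : unitary ℍ[ℝ]) (i j : ℤ)
    (ρ : PiS ![2, 4, -4] →* unitary ℍ[ℝ]) {g : unitary ℍ[ℝ]}
    (hg : g = u * eu (2 * π * (1:ℕ) / (8:ℕ)) * u⁻¹)
    (h0 : ρ (PresentedGroup.of none) = g ^ (4 * i))
    (h1 : ρ (PresentedGroup.of (some 0)) = g ^ (-2 * i))
    (h2 : ρ (PresentedGroup.of (some 1)) = g ^ (-i - 2 * j))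
    (h3 : ρ (PresentedGroup.of (some 2)) = g ^ (3 * i + 2 * j)) :
    csS w ![2, 4, -4] ρ = ((((3 * i ^ 2 + 4 * i * j : ℤ) : ℝ) / 8 : ℝ) : UnitAddCircle) := by
  have hx : g ^ 8 = 1 := by
    rw [hg, conj_pow, eu_eight]
    simp
  rw [csS_pow hw g hx i j ρ h0 h1 h2 h3, hg, LL_conj hw, ← AddCircle.coe_zsmul]
  congr 1
  rw [zsmul_eq_mul]
  ring

theorem coe_eight (a b : ℤ) :
    (((a : ℝ) / 8 : ℝ) : UnitAddCircle) = (((b : ℝ) / 8 : ℝ) : UnitAddCircle) ↔ a % 8 = b % 8 := by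
  rw [← sub_eq_zero, ← AddCircle.coe_sub, AddCircle.coe_eq_zero_iff]
  constructor
  · rintro ⟨n, hn⟩
    have : (a : ℝ) - b = 8 * n := by
      rw [zsmul_eq_mul] at hn
      linarith
    have : a - b = 8 * n := by exact_mod_cast this
    omega
  · intro h
    refine ⟨(a - b) / 8, ?_⟩
    have h1 : a - b = 8 * ((a - b) / 8) := by omega
    have h2 : (a : ℝ) - b = 8 * ((a - b) / 8 : ℤ) := by exact_mod_cast h1
    rw [zsmul_eq_mul]
    linarith

theorem exists_repS (hw : IsCCS w) (i j : ℤ) : ∃ ρ : PiS ![2, 4, -4] →* unitary ℍ[ℝ],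
    csS w ![2, 4, -4] ρ = ((((3 * i ^ 2 + 4 * i * j : ℤ) : ℝ) / 8 : ℝ) : UnitAddCircle) := by
  set g := eu (2 * π * (1:ℕ) / (8:ℕ)) with hg
  have h8 : ∀ a : ℤ, (8:ℤ) ∣ a → g ^ a = 1 := by
    rintro _ ⟨a, rfl⟩
    have : g ^ (8:ℤ) = 1 := (zpow_natCast g 8).trans eu_eight
    rw [zpow_mul, this, one_zpow]
  refine ⟨PresentedGroup.toGroup (f := fun o => g ^ (o.elim (4 * i)
    ![-2 * i, -i - 2 * j, 3 * i + 2 * j])) ?_,
    csS_value hw 1 i j _ (g := g) (by simp [hg]) ?_ ?_ ?_ ?_⟩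
  · rintro _ ((⟨k, rfl⟩ | ⟨k, rfl⟩) | rfl)
    · simp only [map_mul, map_inv, FreeGroup.lift_apply_of]
      group
    · simp only [map_mul, map_zpow, FreeGroup.lift_apply_of, ← zpow_mul, ← zpow_add]
      apply h8
      fin_cases k <;> simp <;> omega
    · simp only [List.ofFn_succ, List.ofFn_zero, List.prod_nil, List.prod_cons, map_mul,
        FreeGroup.lift_apply_of, mul_one, ← zpow_add]
      apply h8
      simp
      omega
  all_goals simp

theorem quad_mod (i j : ℤ) : (i % 2 = 0 ∧ ((3 * i ^ 2 + 4 * i * j) % 8 = 0 ∨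
    (3 * i ^ 2 + 4 * i * j) % 8 = 4)) ∨ (i % 2 = 1 ∧ ((3 * i ^ 2 + 4 * i * j) % 8 = 3 ∨
    (3 * i ^ 2 + 4 * i * j) % 8 = 7)) := by
  rcases Int.even_or_odd' i with ⟨k, rfl | rfl⟩
  · left
    have : 3 * (2 * k) ^ 2 + 4 * (2 * k) * j = 4 * (3 * k ^ 2 + 2 * k * j) := by ring
    rw [this]
    omega
  · right
    have : 3 * (2 * k + 1) ^ 2 + 4 * (2 * k + 1) * j =
      4 * (3 * k ^ 2 + 3 * k + 2 * k * j + j) + 3 := by ring
    rw [this]
    omega

theorem csS_range (hw : IsCCS w) :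
    Set.range (csS w ![2, 4, -4]) =
      Set.range (fun j => ((![0, 3 / 8, 1 / 2, 7 / 8] j : ℝ) : UnitAddCircle)) := by
  have e0 : (0 : ℝ) = (0 : ℤ) / 8 := by norm_num
  have e1 : (3 / 8 : ℝ) = (3 : ℤ) / 8 := by norm_num
  have e2 : (1 / 2 : ℝ) = (4 : ℤ) / 8 := by norm_num
  have e3 : (7 / 8 : ℝ) = (7 : ℤ) / 8 := by norm_num
  ext z
  constructor
  · rintro ⟨ρ, rfl⟩
    obtain ⟨u, g, i, j, hg, h0, h1, h2, h3⟩ := exists_pow ρ
    rw [csS_value hw u i j ρ hg h0 h1 h2 h3]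
    rcases quad_mod i j with ⟨-, h | h⟩ | ⟨-, h | h⟩
    · exact ⟨0, (congrArg _ e0).trans ((coe_eight _ _).mpr (by rw [h]; rfl))⟩
    · exact ⟨2, (congrArg _ e2).trans ((coe_eight _ _).mpr (by rw [h]; rfl))⟩
    · exact ⟨1, (congrArg _ e1).trans ((coe_eight _ _).mpr (by rw [h]; rfl))⟩
    · exact ⟨3, (congrArg _ e3).trans ((coe_eight _ _).mpr (by rw [h]; rfl))⟩
  · rintro ⟨j, rfl⟩
    fin_cases j
    · obtain ⟨ρ, h⟩ := exists_repS hw 0 0
      exact ⟨ρ, h.trans (((coe_eight _ _).mpr rfl).trans (congrArg _ e0.symm))⟩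
    · obtain ⟨ρ, h⟩ := exists_repS hw 1 0
      exact ⟨ρ, h.trans (((coe_eight _ _).mpr rfl).trans (congrArg _ e1.symm))⟩
    · obtain ⟨ρ, h⟩ := exists_repS hw 2 0
      exact ⟨ρ, h.trans (((coe_eight _ 4).mpr (by decide)).trans (congrArg _ e2.symm))⟩
    · obtain ⟨ρ, h⟩ := exists_repS hw 1 1
      exact ⟨ρ, h.trans (((coe_eight _ _).mpr rfl).trans (congrArg _ e3.symm))⟩

theorem re_conj (u x : unitary ℍ[ℝ]) : ((u * x * u⁻¹ : unitary ℍ[ℝ]) : ℍ[ℝ]).re = (x : ℍ[ℝ]).re := by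
  have hn := normSq_unit u
  rw [Quaternion.normSq_def'] at hn
  change ((u : ℍ[ℝ]) * x * star (u : ℍ[ℝ])).re = _
  simp only [Quaternion.re_mul, Quaternion.imI_mul, Quaternion.imJ_mul, Quaternion.imK_mul,
    Quaternion.re_star, Quaternion.imI_star, Quaternion.imJ_star, Quaternion.imK_star]
  linear_combination (x : ℍ[ℝ]).re * hn

theorem char_finite : (Set.range fun (ρ : PiS ![2, 4, -4] →* unitary ℍ[ℝ])
    (g : PiS ![2, 4, -4]) => (ρ g : ℍ[ℝ]).re).Finite := by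
  set ζ := eu (2 * π * (1:ℕ) / (8:ℕ)) with hζ
  have h1 : (Subgroup.zpowers ζ : Set (unitary ℍ[ℝ])).Finite :=
    (isOfFinOrder_iff_pow_eq_one.mpr ⟨8, by norm_num, eu_eight⟩).finite_zpowers
  have h2 : {ρ : PiS ![2, 4, -4] →* unitary ℍ[ℝ] |
      ∀ o, ρ (PresentedGroup.of o) ∈ Subgroup.zpowers ζ}.Finite :=
    (Set.Finite.pi' fun _ : Option (Fin 3) => h1).preimage
      (f := fun (ρ : PiS ![2, 4, -4] →* unitary ℍ[ℝ]) o => ρ (PresentedGroup.of o))
      fun a _ b _ hab => PresentedGroup.ext fun o => congrFun hab o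
  refine (h2.image fun (ρ : PiS ![2, 4, -4] →* unitary ℍ[ℝ]) g => (ρ g : ℍ[ℝ]).re).subset ?_
  rintro _ ⟨ρ, rfl⟩
  obtain ⟨u, g, i, j, hg, a0, a1, a2, a3⟩ := exists_pow ρ
  have key : ∀ n : ℤ, MulAut.conj u⁻¹ (g ^ n) ∈ Subgroup.zpowers ζ := by
    intro n
    refine ⟨n, ?_⟩
    rw [hg, conj_zpow]
    simp [hζ, mul_assoc]
  refine ⟨(MulAut.conj u⁻¹).toMonoidHom.comp ρ, fun o => ?_, funext fun γ => re_conj u⁻¹ (ρ γ)⟩
  rcases o with _ | k
  · exact (congrArg (MulAut.conj u⁻¹) a0).symm ▸ key _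
  · fin_cases k
    · exact (congrArg (MulAut.conj u⁻¹) a1).symm ▸ key _
    · exact (congrArg (MulAut.conj u⁻¹) a2).symm ▸ key _
    · exact (congrArg (MulAut.conj u⁻¹) a3).symm ▸ key _

end Pool.Agent.P.MP_27a476_gt
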