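import Pool.Agent.P.MP_27a476_gt.NilCS

set_option autoImplicit false

open scoped Quaternion Real
open groupCohomology

namespace Pool.Agent.P.MP_27a476_gt

theorem z1_finite {α : Type} [Finite α] (rels : Set (FreeGroup α))
    (A : Rep ℝ (PresentedGroup rels)) [FiniteDimensional ℝ A] :
    Module.Finite ℝ (cocycles₁ A) := by
  refine Module.Finite.of_injective ((LinearMap.funLeft ℝ A
    (PresentedGroup.of : α → PresentedGroup rels)).comp (cocycles₁ A).subtype) ?_
  rw [injective_iff_map_eq_zero]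
  intro z hz
  let H : Subgroup (PresentedGroup rels) :=
    { carrier := {g | z g = 0}
      one_mem' := cocycles₁_map_one z
      mul_mem' := fun {a b} ha hb => by
        have h2 := (mem_cocycles₁_iff z).1 z.2 a b
        simp only [Set.mem_ofPred_eq] at ha hb ⊢
        rw [h2, ha, hb]
        simp
      inv_mem' := fun {a} ha => by
        have h2 := (mem_cocycles₁_iff z).1 z.2 a⁻¹ a
        simp only [Set.mem_ofPred_eq] at ha ⊢
        rw [ha, inv_mul_cancel, cocycles₁_map_one] at h2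
        simpa using h2.symm }
  ext g : 2
  exact PresentedGroup.generated_by _ H (fun j => congrFun hz j) g

theorem h1_finite_of {Γ : Type} [Group Γ] (A : Rep ℝ Γ) [Module.Finite ℝ (cocycles₁ A)] :
    Module.Finite ℝ (groupCohomology A 1) :=
  Module.Finite.of_surjective (H1π A).hom ((ModuleCat.epi_iff_surjective _).mp inferInstance)

theorem euler_le {Γ : Type} [Group Γ] (A : Rep ℝ Γ) [FiniteDimensional ℝ A]
    [Module.Finite ℝ (cocycles₁ A)] :
    Module.finrank ℝ (cocycles₁ A) + Module.finrank ℝ (groupCohomology A 0) ≤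
      Module.finrank ℝ (groupCohomology A 1) + Module.finrank ℝ A := by
  have := h1_finite_of A
  have h1 := LinearMap.finrank_range_add_finrank_ker (H1π A).hom
  have h2 := LinearMap.finrank_range_add_finrank_ker (d₀₁ A).hom
  have h3 : Module.finrank ℝ (LinearMap.range (H1π A).hom) ≤
      Module.finrank ℝ (groupCohomology A 1) := Submodule.finrank_le _
  have h4 : Module.finrank ℝ (LinearMap.ker (H1π A).hom) ≤
      Module.finrank ℝ (LinearMap.range (d₀₁ A).hom) := by
    refine LinearMap.finrank_le_finrank_of_injective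
      (f := LinearMap.codRestrict (LinearMap.range (d₀₁ A).hom)
        ((cocycles₁ A).subtype.comp (LinearMap.ker (H1π A).hom).subtype)
        fun x => (H1π_eq_zero_iff x.1).mp x.2) ?_
    intro x y hxy
    have h5 := congrArg Subtype.val hxy
    exact Subtype.ext (Subtype.ext h5)
  have h5 : Module.finrank ℝ (groupCohomology A 0) =
      Module.finrank ℝ (LinearMap.ker (d₀₁ A).hom) := by
    rw [d₀₁_ker_eq_invariants]
    exact (H0Iso A).toLinearEquiv.finrank_eq
  change _ = Module.finrank ℝ (cocycles₁ A) at h1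
  change _ = Module.finrank ℝ A at h2
  omega

/-- The affine bijection attached to a group element and a vector. -/
def aff {Γ : Type} [Group Γ] (A : Rep ℝ Γ) (g : Γ) (z : A) : Equiv.Perm A where
  toFun v := A.ρ g v + z
  invFun v := A.ρ g⁻¹ (v - z)
  left_inv v := by simp
  right_inv v := by simp

theorem aff_mul {Γ : Type} [Group Γ] (A : Rep ℝ Γ) (g k : Γ) (z y : A) :
    aff A g z * aff A k y = aff A (g * k) (A.ρ g y + z) := by
  ext v
  simp [aff, add_assoc]

theorem aff_sq {Γ : Type} [Group Γ] (A : Rep ℝ Γ) (g : Γ) (z : A) (h1 : A.ρ g * A.ρ g = 1)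
    (h2 : A.ρ g z = -z) : aff A g z ^ 2 = 1 := by
  rw [sq, aff_mul, h2]
  ext v
  simp [aff, h1]

theorem aff_four {Γ : Type} [Group Γ] (A : Rep ℝ Γ) (g : Γ) (z : A)
    (h1 : A.ρ g * A.ρ g * (A.ρ g * A.ρ g) = 1)
    (h2 : A.ρ g (A.ρ g z) = -z) : aff A g z ^ 4 = 1 := by
  rw [show 4 = 2 * 2 from rfl, pow_mul, sq (aff A g z), aff_mul]
  apply aff_sq
  · rw [map_mul, h1]
  · simp [h2, add_comm]

theorem exists_cocycle (A : Rep ℝ (PiS ![2, 4, -4])) (hh : A.ρ (PresentedGroup.of none) = 1)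
    (hx : A.ρ (PresentedGroup.of (some 0)) =
      A.ρ (PresentedGroup.of (some 1)) * A.ρ (PresentedGroup.of (some 1)))
    (v₀ v₁ : A) (h0 : A.ρ (PresentedGroup.of (some 0)) v₀ = -v₀)
    (h1 : A.ρ (PresentedGroup.of (some 0)) v₁ = -v₁) :
    ∃ z : cocycles₁ A, z (PresentedGroup.of (some 0)) = v₀ ∧
      z (PresentedGroup.of (some 1)) = v₁ := by
  obtain ⟨-, r1, r2⟩ := relS ![2, 4, -4] (MonoidHom.id _)
  have r0 := r1 0
  simp only [Matrix.cons_val, List.ofFn_succ, List.ofFn_zero, Fin.succ_zero_eq_one,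
    Fin.succ_one_eq_two, List.prod_nil, List.prod_cons, mul_one, MonoidHom.id_apply] at r0 r2
  set x : PiS ![2, 4, -4] := PresentedGroup.of (some 0) with hx0
  set y : PiS ![2, 4, -4] := PresentedGroup.of (some 1) with hy0
  have a1 : A.ρ x * A.ρ x = 1 := by
    have := congrArg A.ρ r0
    rwa [map_mul, hh, mul_one, zpow_two, map_mul, map_one] at this
  have a2 : ∀ v, A.ρ x v = A.ρ y (A.ρ y v) := fun v => by rw [hx]; rfl
  have a3 : ∀ v, A.ρ x (A.ρ x v) = v := fun v => LinearMap.congr_fun a1 v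
  let σ : PiS ![2, 4, -4] →* Equiv.Perm A := PresentedGroup.toGroup (f := fun o => o.elim 1
    ![aff A x v₀, aff A y v₁, (aff A x v₀ * aff A y v₁)⁻¹]) (by
      rintro _ ((⟨k, rfl⟩ | ⟨k, rfl⟩) | rfl)
      · simp
      · simp only [map_mul, map_zpow, FreeGroup.lift_apply_of, Option.elim, mul_one]
        fin_cases k
        · exact (zpow_natCast _ 2).trans (aff_sq A x v₀ a1 h0)
        · exact (zpow_natCast _ 4).trans (aff_four A y v₁ (hx ▸ a1) ((a2 v₁).symm.trans h1))
        · change (aff A x v₀ * aff A y v₁)⁻¹ ^ (-4 : ℤ) = 1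
          rw [inv_zpow', neg_neg, aff_mul]
          refine (zpow_natCast _ 4).trans (aff_four A _ _ ?_ ?_)
          · have : A.ρ (x * y) * A.ρ (x * y) = A.ρ x := by
              rw [map_mul]
              calc A.ρ x * A.ρ y * (A.ρ x * A.ρ y) = A.ρ x * (A.ρ x * A.ρ x) := by
                    rw [hx]
                    simp only [mul_assoc]
                _ = A.ρ x := by rw [a1, mul_one]
            rw [this, a1]
          · have : ∀ v, A.ρ (x * y) (A.ρ (x * y) v) = A.ρ x v := by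
              intro v
              conv_rhs => rw [← a3 (A.ρ x v)]
              simp only [map_mul, Module.End.mul_apply, a2]
            rw [this, map_add, h0, h1, map_neg, h1]
            simp [add_comm]
      · simp)
  let H : Subgroup (PiS ![2, 4, -4]) :=
    { carrier := {g | ∀ v, σ g v = A.ρ g v + σ g 0}
      one_mem' := by simp
      mul_mem' := fun {a b} ha hb v => by
        simp only [map_mul, Equiv.Perm.mul_apply, Module.End.mul_apply]
        rw [ha (σ b v), ha (σ b 0), hb v, map_add, add_assoc]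
      inv_mem' := fun {a} ha v => by
        have b1 := ha (σ a⁻¹ v)
        have b2 := ha (σ a⁻¹ 0)
        rw [← Equiv.Perm.mul_apply, ← map_mul, mul_inv_cancel, map_one,
          Equiv.Perm.one_apply] at b1 b2
        have b3 : A.ρ a (σ a⁻¹ v - σ a⁻¹ 0) = v := by
          rw [map_sub]
          linear_combination (norm := abel1) b2 - b1
        have b4 := congrArg (A.ρ a⁻¹) b3
        rw [Representation.inv_self_apply] at b4
        rw [← b4]
        abel }
  have s0 : σ x = aff A x v₀ := PresentedGroup.toGroup.of _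
  have s1 : σ y = aff A y v₁ := PresentedGroup.toGroup.of _
  have m0 : x ∈ H := fun v => by simp [s0, aff]
  have m1 : y ∈ H := fun v => by simp [s1, aff]
  have hH : ∀ g, g ∈ H := by
    refine PresentedGroup.generated_by _ H fun o => ?_
    rcases o with _ | k
    · intro v
      have : σ (PresentedGroup.of none) = 1 := PresentedGroup.toGroup.of _
      simp [this, hh]
    · fin_cases k
      · exact m0
      · exact m1
      · have : PresentedGroup.of (some 2) = (x * y)⁻¹ :=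
          eq_inv_of_mul_eq_one_right (by rw [mul_assoc, r2])
        exact this ▸ H.inv_mem (H.mul_mem m0 m1)
  refine ⟨⟨fun g => σ g 0, (mem_cocycles₁_iff _).2 fun a b => ?_⟩, ?_, ?_⟩
  · rw [map_mul, Equiv.Perm.mul_apply, hH a (σ b 0)]
  · change σ x 0 = v₀
    simp [s0, aff]
  · change σ y 0 = v₁
    simp [s1, aff]

/-- The adjoint action of the unit quaternions. -/
noncomputable def AD : unitary ℍ[ℝ] →* Module.End ℝ (ℝ ∙ (1 : ℍ[ℝ]))ᗮ :=
  (adRep (MonoidHom.id (unitary ℍ[ℝ]))).ρ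

theorem AD_apply (u : unitary ℍ[ℝ]) (v : (ℝ ∙ (1 : ℍ[ℝ]))ᗮ) :
    (AD u v : ℍ[ℝ]) = u * v * star (u : ℍ[ℝ]) := rfl

theorem AD_four (u : unitary ℍ[ℝ]) (m : ℤ) :
    AD ((u * eu (2 * π * (1:ℕ) / (8:ℕ)) * u⁻¹) ^ (4 * m)) = 1 := by
  have h1 : AD (eu π) = 1 := by
    refine LinearMap.ext fun v => Subtype.ext ?_
    rw [AD_apply]
    have : (eu π : ℍ[ℝ]) = -1 := by ext <;> simp [eu, ee]
    rw [this]
    simp
  have h2 : (u * eu (2 * π * (1:ℕ) / (8:ℕ)) * u⁻¹) ^ (4:ℤ) ∈ AD.ker := by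
    rw [conj_zpow, eu_zpow, MonoidHom.mem_ker, map_mul, map_mul,
      show ((4:ℤ):ℝ) * (2 * π * (1:ℕ) / (8:ℕ)) = π by push_cast; ring, h1, mul_one, ← map_mul]
    simp
  rw [zpow_mul]
  exact AD.ker.zpow_mem h2 m

/-- A vector in the plane spanned by `j` and `k`. -/
def jkv (p : ℝ × ℝ) : ℍ[ℝ] := ⟨0, 0, p.1, p.2⟩

theorem jkv_re (p : ℝ × ℝ) : (jkv p).re = 0 := rfl
theorem jkv_imI (p : ℝ × ℝ) : (jkv p).imI = 0 := rfl
theorem jkv_imJ (p : ℝ × ℝ) : (jkv p).imJ = p.1 := rfl
theorem jkv_imK (p : ℝ × ℝ) : (jkv p).imK = p.2 := rfl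

/-- The plane spanned by `j` and `k`. -/
noncomputable def jk : (ℝ × ℝ) →ₗ[ℝ] (ℝ ∙ (1 : ℍ[ℝ]))ᗮ where
  toFun p := ⟨jkv p, by
    rw [Submodule.mem_orthogonal_singleton_iff_inner_left, Quaternion.inner_def]
    simp [jkv_re]⟩
  map_add' p q := by
    apply Subtype.ext
    ext <;> simp [jkv_re, jkv_imI, jkv_imJ, jkv_imK]
  map_smul' c p := by
    apply Subtype.ext
    ext <;> simp [jkv_re, jkv_imI, jkv_imJ, jkv_imK]

theorem jk_inj : Function.Injective jk := by
  intro p q h
  have h1 := congrArg (fun v : (ℝ ∙ (1 : ℍ[ℝ]))ᗮ => (v : ℍ[ℝ]).imJ) h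
  have h2 := congrArg (fun v : (ℝ ∙ (1 : ℍ[ℝ]))ᗮ => (v : ℍ[ℝ]).imK) h
  exact Prod.ext h1 h2

theorem AD_jk (p : ℝ × ℝ) : AD (eu (π / 2)) (jk p) = -jk p := by
  apply Subtype.ext
  rw [AD_apply]
  change (eu (π / 2) : ℍ[ℝ]) * jkv p * _ = -jkv p
  ext <;> simp only [Quaternion.re_mul, Quaternion.imI_mul, Quaternion.imJ_mul,
    Quaternion.imK_mul, Quaternion.re_star, Quaternion.imI_star, Quaternion.imJ_star,
    Quaternion.imK_star, Quaternion.re_neg, Quaternion.imI_neg, Quaternion.imJ_neg,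
    Quaternion.imK_neg, jkv_re, jkv_imI, jkv_imJ, jkv_imK] <;> simp [eu, ee]

variable {w : unitary ℍ[ℝ] → unitary ℍ[ℝ] → unitary ℍ[ℝ] → UnitAddCircle}

theorem h1S_finite (ρ : PiS ![2, 4, -4] →* unitary ℍ[ℝ]) :
    Module.Finite ℝ (groupCohomology (adRep ρ) 1) := by
  have := ad_finite ρ
  have := z1_finite _ (adRep ρ)
  exact h1_finite_of _

theorem h1S_ge (hw : IsCCS w) (ρ : PiS ![2, 4, -4] →* unitary ℍ[ℝ])
    (h : csS w ![2, 4, -4] ρ = ((3 / 8 : ℝ) : UnitAddCircle)) :
    Module.finrank ℝ (groupCohomology (adRep ρ) 0) + 1 ≤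
      Module.finrank ℝ (groupCohomology (adRep ρ) 1) := by
  have := ad_finite ρ
  have := z1_finite _ (adRep ρ)
  obtain ⟨u, g, i, j, hg, h0, h1, h2, h3⟩ := exists_pow ρ
  have e1 : (3 / 8 : ℝ) = (3 : ℤ) / 8 := by norm_num
  rw [csS_value hw u i j ρ hg h0 h1 h2 h3, e1, coe_eight] at h
  obtain ⟨k, hk⟩ : ∃ k, -2 * i = 2 + 4 * k := by
    refine ⟨-((i + 1) / 2), ?_⟩
    rcases quad_mod i j with ⟨-, h4 | h4⟩ | ⟨h4, -⟩ <;> omega
  have a0 : ∀ m : ℤ, AD (g ^ (4 * m)) = 1 := fun m => by rw [hg, AD_four]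
  have a1 : AD (ρ (PresentedGroup.of none)) = 1 := by rw [h0, a0]
  have a2 : AD (ρ (PresentedGroup.of (some 0))) =
      AD (ρ (PresentedGroup.of (some 1))) * AD (ρ (PresentedGroup.of (some 1))) := by
    rw [← map_mul, h1, h2, ← zpow_add,
      show -i - 2 * j + (-i - 2 * j) = -2 * i + 4 * -j by ring, zpow_add, map_mul, a0, mul_one]
  have a3 : ∀ p, AD (ρ (PresentedGroup.of (some 0))) (AD u (jk p)) = -AD u (jk p) := by
    intro p
    rw [h1, hk, zpow_add, map_mul, a0, mul_one, hg, conj_zpow, eu_zpow,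
      show ((2:ℤ):ℝ) * (2 * π * (1:ℕ) / (8:ℕ)) = π / 2 by push_cast; ring,
      ← Module.End.mul_apply, ← map_mul, inv_mul_cancel_right, map_mul, Module.End.mul_apply,
      AD_jk, map_neg]
  have a4 : Function.Injective ((AD u).comp jk) := by
    intro p q hpq
    have b1 := congrArg (AD u⁻¹) hpq
    simp only [LinearMap.comp_apply, ← Module.End.mul_apply, ← map_mul, inv_mul_cancel, map_one,
      Module.End.one_apply] at b1
    exact jk_inj b1
  let ev : cocycles₁ (adRep ρ) →ₗ[ℝ] (ℝ ∙ (1 : ℍ[ℝ]))ᗮ × (ℝ ∙ (1 : ℍ[ℝ]))ᗮ :=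
    ((LinearMap.proj (PresentedGroup.of (some 0))).prod
      (LinearMap.proj (PresentedGroup.of (some 1)))).comp (cocycles₁ (adRep ρ)).subtype
  have a5 : LinearMap.range (((AD u).comp jk).prodMap ((AD u).comp jk)) ≤
      LinearMap.range ev := by
    rintro _ ⟨⟨p, q⟩, rfl⟩
    obtain ⟨z, b1, b2⟩ := exists_cocycle (adRep ρ) a1 a2 _ _ (a3 p) (a3 q)
    exact ⟨z, Prod.ext b1 b2⟩
  have a6 := Submodule.finrank_mono a5
  rw [LinearMap.finrank_range_of_inj (a4.prodMap a4)] at a6
  have a7 := LinearMap.finrank_range_le ev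
  have a8 := euler_le (adRep ρ)
  have a9 : Module.finrank ℝ (adRep ρ) = 3 := finrank_im
  simp only [Module.finrank_prod, Module.finrank_self] at a6
  omega

end Pool.Agent.P.MP_27a476_gt
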