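import Mathlib

set_option autoImplicit false

open Complex Filter MeasureTheory Real Topology

namespace Pool.Agent.P.MP_27a476_gt

/-- The rotated hyperbolic cosine. -/
noncomputable def CH (w : ℂ) : ℂ := Complex.cosh (π * (1 - I) * w)

theorem CH_diff : Differentiable ℂ CH := by
  unfold CH
  fun_prop

theorem CH_normSq (t s : ℝ) :
    ‖CH (t + s * I)‖ ^ 2 = Real.sinh (π * (t + s)) ^ 2 + Real.cos (π * (s - t)) ^ 2 := by
  have h1 : π * (1 - I) * (t + s * I) = ((π * (t + s) : ℝ) : ℂ) + ((π * (s - t) : ℝ) : ℂ) * I := by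
    push_cast
    linear_combination (-π * s) * I_mul_I
  rw [CH, h1, Complex.cosh_add, cosh_mul_I, sinh_mul_I, ← ofReal_cosh, ← ofReal_cos,
    ← ofReal_sinh, ← ofReal_sin, ← mul_assoc, ← ofReal_mul, ← ofReal_mul, Complex.sq_norm,
    normSq_add_mul_I, mul_pow, mul_pow, Real.cosh_sq, Real.sin_sq]
  ring

theorem abs_le_abs_sinh (x : ℝ) : |x| ≤ |Real.sinh x| := by
  rw [abs_sinh]
  exact Real.self_le_sinh_iff.mpr (abs_nonneg x)

theorem CH_real (t : ℝ) : Real.exp (2 * |t|) ≤ 3 * ‖CH t‖ := by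
  have h1 := CH_normSq t 0
  simp only [ofReal_zero, zero_mul, add_zero, zero_sub, mul_neg, Real.cos_neg] at h1
  have h2 : Real.sin (π * t) ^ 2 ≤ Real.sinh (π * t) ^ 2 :=
    sq_le_sq.mpr (Real.abs_sin_le_abs.trans (abs_le_abs_sinh _))
  have h3 := Real.sin_sq_add_cos_sq (π * t)
  have h4 := Real.cosh_sq (π * t)
  have h5 : Real.exp (2 * |t|) ≤ 2 * Real.cosh (π * t) := by
    rw [← Real.cosh_abs, Real.cosh_eq, abs_mul, abs_of_pos pi_pos]
    have : Real.exp (2 * |t|) ≤ Real.exp (π * |t|) :=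
      Real.exp_le_exp.mpr (mul_le_mul_of_nonneg_right two_le_pi (abs_nonneg t))
    linarith [Real.exp_pos (-(π * |t|))]
  have h6 := pow_le_pow_left₀ (Real.exp_pos _).le h5 2
  refine le_of_sq_le_sq ?_ (by positivity)
  nlinarith [sq_nonneg (Real.cos (π * t))]

theorem CH_real_ne (t : ℝ) : CH t ≠ 0 := by
  intro h
  have := CH_real t
  rw [h, norm_zero, mul_zero] at this
  exact absurd (Real.exp_pos _) (not_lt.mpr this)

theorem integrable_kap {h : ℝ → ℂ} (hc : Continuous h) (C : ℝ)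
    (hb : ∀ t, ‖h t‖ ≤ C * Real.exp |t|) : Integrable fun t : ℝ => h t / CH t := by
  have hC : 0 ≤ C := by simpa using (norm_nonneg _).trans (hb 0)
  refine (integrable_inv_one_add_sq.const_mul (6 * C)).mono'
    (hc.div (CH_diff.continuous.comp continuous_ofReal) CH_real_ne).aestronglyMeasurable
    (Eventually.of_forall fun t => ?_)
  have h1 := CH_real t
  have h2 : 0 < ‖CH t‖ := norm_pos_iff.mpr (CH_real_ne t)
  have h3 := Real.quadratic_le_exp_of_nonneg (abs_nonneg t)
  rw [sq_abs] at h3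
  rw [two_mul, Real.exp_add] at h1
  rw [norm_div, ← div_eq_mul_inv, div_le_div_iff₀ h2 (by positivity)]
  have h4 := Real.exp_pos |t|
  calc ‖h t‖ * (1 + t ^ 2) ≤ C * Real.exp |t| * (2 * Real.exp |t|) := by
        gcongr
        · exact hb t
        · linarith [abs_nonneg t]
    _ = 2 * C * (Real.exp |t| * Real.exp |t|) := by ring
    _ ≤ 2 * C * (3 * ‖CH t‖) := by gcongr
    _ = _ := by ring

theorem strip_zero {f : ℂ → ℂ} (hf : DifferentiableOn ℂ f {w | 0 ≤ w.im ∧ w.im ≤ 1 / 2}) (C : ℝ)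
    (hb : ∀ x y : ℝ, 1 ≤ |x| → 0 ≤ y → y ≤ 1 / 2 → ‖f (x + y * I)‖ ≤ C / |x|)
    (hi : Integrable fun x : ℝ => f x - f (x + (1 / 2 : ℝ) * I)) :
    ∫ x : ℝ, (f x - f (x + (1 / 2 : ℝ) * I)) = 0 := by
  have h1 := intervalIntegral_tendsto_integral hi tendsto_neg_atTop_atBot tendsto_id
  have hc : ∀ y : ℝ, 0 ≤ y → y ≤ 1 / 2 → Continuous fun x : ℝ => f (x + y * I) := by
    intro y h0 h1
    refine hf.continuousOn.comp_continuous (by fun_prop) fun x => ?_
    simpa using ⟨h0, by simpa using h1⟩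
  refine tendsto_nhds_unique h1 (squeeze_zero_norm' (a := fun T => C / T) ?_
    (tendsto_const_nhds.div_atTop tendsto_id))
  filter_upwards [eventually_ge_atTop 1] with T hT
  have h2 := integral_boundary_rect_eq_zero_of_differentiableOn f ⟨-T, 0⟩ ⟨T, 1 / 2⟩
    (hf.mono fun w hw => by
      have := hw.2
      rwa [Set.mem_preimage, Set.uIcc_of_le (by norm_num)] at this)
  have h3 : ∀ x : ℝ, |x| = T → ‖∫ y in (0:ℝ)..1 / 2, f (x + y * I)‖ ≤ C / T * |1 / 2 - 0| := by
    intro x hx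
    refine intervalIntegral.norm_integral_le_of_norm_le_const fun y hy => ?_
    rw [Set.uIoc_of_le (by norm_num)] at hy
    rw [← hx]
    exact hb x y (by rwa [hx]) hy.1.le hy.2
  have h4 := hc 0 le_rfl (by norm_num)
  simp only [ofReal_zero, zero_mul, add_zero] at h2 h4
  simp only [id]
  rw [intervalIntegral.integral_sub (h4.intervalIntegrable _ _)
    ((hc _ (by norm_num) le_rfl).intervalIntegrable _ _)]
  have h5 := h3 T (abs_of_pos (by linarith))
  have h6 := h3 (-T) (by rw [abs_neg, abs_of_pos (by linarith)])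
  rw [sub_eq_zero, ← eq_sub_iff_add_eq] at h2
  rw [h2]
  refine (norm_sub_le _ _).trans ?_
  rw [norm_smul, norm_smul, norm_I, one_mul, one_mul]
  norm_num at h5 h6 ⊢
  linarith

theorem CH_shift (w : ℂ) : CH (w + (-1 + I) / 2) = -CH w := by
  have : π * (1 - I) * (w + (-1 + I) / 2) = π * (1 - I) * w + π * I := by
    linear_combination (-π / 2 : ℂ) * I_mul_I
  rw [CH, this, Complex.cosh_add, cosh_mul_I, sinh_mul_I, Complex.cos_pi, Complex.sin_pi, CH]
  ring

theorem CH_arg : π * (1 - I) * ((-1 + I) / 4) = π / 2 * I := by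
  linear_combination (-π / 4 : ℂ) * I_mul_I

theorem CH_pole : CH ((-1 + I) / 4) = 0 := by
  rw [CH, CH_arg, cosh_mul_I, Complex.cos_pi_div_two]

theorem CH_deriv : deriv CH ((-1 + I) / 4) = π * (1 + I) := by
  have : HasDerivAt CH (Complex.sinh (π * (1 - I) * ((-1 + I) / 4)) * (π * (1 - I) * 1))
      ((-1 + I) / 4) := ((hasDerivAt_id _).const_mul (π * (1 - I) : ℂ)).ccosh
  rw [this.deriv, CH_arg, sinh_mul_I, Complex.sin_pi_div_two]
  linear_combination (-π : ℂ) * I_mul_I

theorem CH_ne {w : ℂ} (h0 : -1 / 4 < w.im) (h1 : w.im < 3 / 4) (hw : w ≠ (-1 + I) / 4) :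
    CH w ≠ 0 := by
  intro h
  have h2 := CH_normSq w.re w.im
  rw [re_add_im, h, norm_zero] at h2
  have h3 : Real.sinh (π * (w.re + w.im)) = 0 := by
    apply pow_eq_zero_iff two_ne_zero |>.mp
    nlinarith [sq_nonneg (Real.sinh (π * (w.re + w.im))), sq_nonneg (Real.cos (π * (w.im - w.re)))]
  have h4 : Real.cos (π * (w.im - w.re)) = 0 := by
    apply pow_eq_zero_iff two_ne_zero |>.mp
    nlinarith [sq_nonneg (Real.sinh (π * (w.re + w.im))), sq_nonneg (Real.cos (π * (w.im - w.re)))]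
  rw [Real.sinh_eq_zero, mul_eq_zero, or_iff_right pi_ne_zero] at h3
  obtain ⟨k, hk⟩ := Real.cos_eq_zero_iff.mp h4
  have h5 : w.im - w.re = (2 * k + 1) / 2 := by
    apply mul_left_cancel₀ pi_ne_zero
    rw [hk]
    ring
  have h6 : (-1 : ℝ) < k := by linarith
  have h7 : (k : ℝ) < 1 := by linarith
  have h8 : k = 0 := by
    have a1 : -1 < k := by exact_mod_cast h6
    have a2 : k < 1 := by exact_mod_cast h7
    omega
  rw [h8] at h5
  apply hw
  apply Complex.ext <;> simp at h5 ⊢ <;> linarith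

theorem residue_line {g : ℂ → ℂ} (hg : Differentiable ℂ g) (M : ℝ)
    (hM : ∀ w : ℂ, 0 ≤ w.im → w.im ≤ 1 / 2 → ‖g w‖ ≤ M) :
    (∫ t : ℝ, g t / CH t) + ∫ t : ℝ, g (t + (-1 + I) / 2) / CH t =
      (1 + I) * g ((-1 + I) / 4) := by
  have hM0 : 0 ≤ M := (norm_nonneg _).trans (hM 0 (by simp) (by simp))
  set w₀ : ℂ := (-1 + I) / 4 with hw₀
  have hπ : (π : ℂ) * (1 + I) ≠ 0 := by
    refine mul_ne_zero (ofReal_ne_zero.mpr pi_ne_zero) fun h => ?_
    simpa using congrArg re h
  have hσ : Differentiable ℂ (dslope CH w₀) := differentiableOn_univ.mp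
    ((Complex.differentiableOn_dslope univ_mem).mpr CH_diff.differentiableOn)
  have hσ0 : dslope CH w₀ w₀ = π * (1 + I) := by rw [dslope_same, CH_deriv]
  have hσ1 : ∀ w, w ≠ w₀ → dslope CH w₀ w = CH w / (w - w₀) := by
    intro w hw
    rw [dslope_of_ne _ hw, slope_def_field, CH_pole, sub_zero]
  set U : Set ℂ := {w | -1 / 4 < w.im ∧ w.im < 3 / 4} with hU
  have hUo : IsOpen U :=
    (isOpen_lt continuous_const continuous_im).inter (isOpen_lt continuous_im continuous_const)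
  have hG : DifferentiableOn ℂ (fun w => g w / dslope CH w₀ w) U := by
    refine hg.differentiableOn.div hσ.differentiableOn fun w hw => ?_
    by_cases h : w = w₀
    · rw [h, hσ0]
      exact hπ
    · rw [hσ1 w h]
      exact div_ne_zero (CH_ne hw.1 hw.2 h) (sub_ne_zero.mpr h)
  have hΨ := (Complex.differentiableOn_dslope (c := w₀) (hUo.mem_nhds (by
    simp only [hU, hw₀, Set.mem_ofPred_eq]
    norm_num))).mpr hG
  set G₀ : ℂ := g w₀ / (π * (1 + I)) with hG₀
  have hΨ1 : ∀ w, w ≠ w₀ →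
      dslope (fun w => g w / dslope CH w₀ w) w₀ w = g w / CH w - G₀ / (w - w₀) := by
    intro w hw
    have := sub_ne_zero.mpr hw
    rw [dslope_of_ne _ hw, slope_def_field, hσ0, hσ1 w hw, sub_div, div_div_eq_mul_div,
      div_right_comm, mul_div_cancel_right₀ _ this]
  have hne : ∀ x y : ℝ, y ≠ 1 / 4 ∨ x ≠ -1 / 4 → (x + y * I : ℂ) ≠ w₀ := by
    intro x y h h2
    have a1 := congrArg re h2
    have a2 := congrArg im h2
    simp [hw₀] at a1 a2
    rcases h with h | h <;> apply h <;> linarith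
  have hval : ∀ x : ℝ, dslope (fun w => g w / dslope CH w₀ w) w₀ x -
      dslope (fun w => g w / dslope CH w₀ w) w₀ (x + (1 / 2 : ℝ) * I) =
      g x / CH x + g ((x + 1 / 2 : ℝ) + (-1 + I) / 2) / CH (x + 1 / 2 : ℝ) -
        G₀ * (8 * I) * ((1 + (4 * x + 1) ^ 2)⁻¹ : ℝ) := by
    intro x
    have a1 := hne x 0 (Or.inl (by norm_num))
    have a2 := hne x (1 / 2) (Or.inl (by norm_num))
    rw [ofReal_zero, zero_mul, add_zero] at a1
    have a3 : (x + (1 / 2 : ℝ) * I : ℂ) = (x + 1 / 2 : ℝ) + (-1 + I) / 2 := by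
      push_cast
      ring
    have a4 : (1 + (4 * x + 1) ^ 2 : ℂ) = 16 * (x - w₀) * (x + (1 / 2 : ℝ) * I - w₀) := by
      rw [hw₀]
      push_cast
      linear_combination I_mul_I
    rw [hΨ1 _ a1, hΨ1 _ a2]
    have a5 := sub_ne_zero.mpr a1
    have a6 := sub_ne_zero.mpr a2
    have a7 : G₀ * (8 * I) * ((1 + (4 * x + 1) ^ 2)⁻¹ : ℝ) =
        G₀ / (x - w₀) - G₀ / (x + (1 / 2 : ℝ) * I - w₀) := by
      rw [div_sub_div _ _ a5 a6, ofReal_inv, ← div_eq_mul_inv, div_eq_div_iff _ (mul_ne_zero a5 a6)]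
      · push_cast at a4 ⊢
        rw [a4]
        ring
      · exact ofReal_ne_zero.mpr (by positivity)
    rw [a7, a3, CH_shift, div_neg]
    ring
  have i1 : Integrable fun t : ℝ => g t / CH t :=
    integrable_kap (hg.continuous.comp continuous_ofReal) M fun t =>
      (hM t (by simp) (by simp)).trans (le_mul_of_one_le_right hM0 (one_le_exp (abs_nonneg t)))
  have i2 : Integrable fun t : ℝ => g (t + (-1 + I) / 2) / CH t :=
    integrable_kap (hg.continuous.comp (by fun_prop)) M fun t =>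
      (hM _ (by simp) (by simp)).trans (le_mul_of_one_le_right hM0 (one_le_exp (abs_nonneg t)))
  have i3 := i2.comp_add_right (1 / 2)
  have i4 : Integrable fun x : ℝ => (1 + (4 * x + 1) ^ 2)⁻¹ :=
    (integrable_inv_one_add_sq.comp_add_right 1).comp_mul_left' (R := 4) (by norm_num)
  have i5 : Integrable fun x : ℝ => G₀ * (8 * I) * ((1 + (4 * x + 1) ^ 2)⁻¹ : ℝ) :=
    (i4.ofReal (𝕜 := ℂ)).const_mul (G₀ * (8 * I))
  have i6 : ∫ x : ℝ, (1 + (4 * x + 1) ^ 2)⁻¹ = π / 4 := by
    rw [Measure.integral_comp_mul_left (fun y : ℝ => (1 + (y + 1) ^ 2)⁻¹) 4,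
      integral_add_right_eq_self (fun y : ℝ => (1 + y ^ 2)⁻¹) 1, integral_univ_inv_one_add_sq]
    norm_num
    ring
  have key := strip_zero (hΨ.mono fun w hw => ⟨by linarith [hw.1], by linarith [hw.2]⟩)
    (M + 2 * ‖G₀‖) (fun x y hx h0 h1 => ?_) (by
      simp only [hval]
      exact (i1.add i3).sub i5)
  · simp only [hval] at key
    have i7 : Integrable fun t : ℝ => g t / CH t +
      g ((t + 1 / 2 : ℝ) + (-1 + I) / 2) / CH (t + 1 / 2 : ℝ) := i1.add i3
    rw [integral_sub i7 i5, integral_add i1 i3, integral_add_right_eq_self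
      (fun t : ℝ => g (t + (-1 + I) / 2) / CH t) (1 / 2), integral_const_mul,
      integral_complex_ofReal, i6, sub_eq_zero] at key
    rw [key, hG₀]
    have h2 := ofReal_ne_zero.mpr pi_ne_zero
    have h3 := right_ne_zero_of_mul hπ
    push_cast
    field_simp
    linear_combination (-4 * g w₀) * I_mul_I
  · have hx0 : 0 < |x| := by linarith
    have a1 : x ≠ -1 / 4 := by
      rintro rfl
      norm_num [abs_div] at hx
    rw [hΨ1 _ (hne x y (Or.inr a1)), add_div]
    refine (norm_sub_le _ _).trans (add_le_add ?_ ?_)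
    · rw [norm_div]
      refine div_le_div₀ hM0 (hM _ (by simpa using h0) (by simpa using h1)) hx0 ?_
      have a2 := CH_normSq x y
      have a3 := abs_le_abs_sinh (π * (x + y))
      have a4 : |x| ≤ |π * (x + y)| := by
        rw [abs_mul, abs_of_pos pi_pos]
        have b1 : |x| ≤ |x + y| + |y| := by simpa using abs_sub (x + y) y
        rw [abs_of_nonneg h0] at b1
        nlinarith [two_le_pi, abs_nonneg (x + y)]
      refine (a4.trans a3).trans (abs_le_of_sq_le_sq' ?_ (norm_nonneg _) |> abs_le.mpr)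
      rw [a2]
      exact le_add_of_nonneg_right (sq_nonneg _)
    · rw [norm_div, mul_comm 2 ‖G₀‖, mul_div_assoc, div_eq_mul_inv]
      refine mul_le_mul_of_nonneg_left ?_ (norm_nonneg _)
      have a2 := abs_re_le_norm (x + y * I - w₀)
      have a3 : (x + y * I - w₀).re = x + 1 / 4 := by
        simp [hw₀]
        ring
      have b1 : |x| ≤ |x + 1 / 4| + |1 / 4| := by simpa using abs_sub (x + 1 / 4) (1 / 4)
      rw [a3] at a2
      rw [abs_of_pos (by norm_num : (0:ℝ) < 1 / 4)] at b1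
      rw [inv_le_comm₀ (by linarith) (by positivity), inv_div]
      linarith

theorem exp_two_CH (w : ℂ) :
    cexp (2 * (π * (1 - I) * w)) = 2 * cexp (π * (1 - I) * w) * CH w - 1 := by
  rw [CH, Complex.cosh, two_mul, Complex.exp_add]
  have := Complex.exp_ne_zero (π * (1 - I) * w)
  rw [Complex.exp_neg]
  field_simp
  ring

theorem gauss_norm_le {r : ℕ} (hr : 0 < r) (w : ℂ) :
    ‖cexp (-(2 * π / r) * w ^ 2)‖ ≤ Real.exp (2 * π / r * w.im ^ 2) := by
  have h1 : -(2 * π / r : ℂ) = ((-(2 * π / r) : ℝ) : ℂ) := by push_cast; rfl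
  rw [Complex.norm_exp, h1, re_ofReal_mul, sq, mul_re, Real.exp_le_exp]
  have : (0:ℝ) ≤ 2 * π / r * w.re ^ 2 := by positivity
  nlinarith

/-- The false theta sum is a Mordell integral plus a Gaussian. -/
theorem mordell {r : ℕ} (hr : 0 < r) :
    ∑ m ∈ Finset.range r, (-1) ^ m * cexp (π * I * (2 * m + 1) ^ 2 / (4 * r)) =
      (1 - I) * ((∫ t : ℝ, cexp (-(2 * π / r) * t ^ 2) / CH t) -
        (√(r / 2) : ℝ) * cexp (-(π * I * r / 4))) := by
  have hr' : (r : ℂ) ≠ 0 := by exact_mod_cast hr.ne'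
  have hrr : (0:ℝ) < r := by exact_mod_cast hr
  set J : ℕ → ℂ := fun m => ∫ t : ℝ, cexp (-(2 * π / r) * (t + m * ((-1 + I) / 2)) ^ 2) / CH t
    with hJ
  have h1 : ∀ m : ℕ, J m + J (m + 1) = (1 + I) * cexp (π * I * (2 * m + 1) ^ 2 / (4 * r)) := by
    intro m
    have := residue_line (g := fun w => cexp (-(2 * π / r) * (w + m * ((-1 + I) / 2)) ^ 2))
      (by fun_prop) (Real.exp (2 * π / r * ((m + 1) / 2) ^ 2)) fun w h0 h1 => by
        refine (gauss_norm_le hr _).trans (Real.exp_le_exp.mpr ?_)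
        have : (w + m * ((-1 + I) / 2)).im = w.im + m / 2 := by
          simp
          ring
        rw [this]
        gcongr
        linarith
    have a1 : ∀ t : ℝ, (t + (-1 + I) / 2 + m * ((-1 + I) / 2) : ℂ) =
        t + (m + 1 : ℕ) * ((-1 + I) / 2) := by
      intro t
      push_cast
      ring
    have a2 : -(2 * π / r) * ((-1 + I) / 4 + m * ((-1 + I) / 2)) ^ 2 =
        π * I * (2 * m + 1) ^ 2 / (4 * r) := by
      field_simp
      linear_combination (-4 * (2 * m + 1) ^ 2) * I_mul_I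
    simp only [a1, a2] at this
    exact this
  have h2 : ∑ m ∈ Finset.range r, (-1) ^ m * (J m + J (m + 1)) = J 0 - (-1) ^ r * J r := by
    have := Finset.sum_range_sub' (fun m => (-1) ^ m * J m) r
    rw [pow_zero, one_mul] at this
    rw [← this]
    refine Finset.sum_congr rfl fun m _ => ?_
    ring
  have h3 : J 0 = ∫ t : ℝ, cexp (-(2 * π / r) * t ^ 2) / CH t := by simp [hJ]
  have hb : (-(2 * π / r : ℂ)).re < 0 := by
    have : -(2 * π / r : ℂ) = ((-(2 * π / r) : ℝ) : ℂ) := by push_cast; rfl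
    rw [this, ofReal_re, neg_lt_zero]
    have := pi_pos
    positivity
  have i1 : Integrable fun t : ℝ => cexp (-(2 * π / r) * t ^ 2) / CH t :=
    integrable_kap (by fun_prop) 1 fun t => (gauss_norm_le hr t).trans (by simp)
  have i2 := (integrable_cexp_quadratic' hb (π * (1 - I)) 0).const_mul 2
  have h4 : (-1) ^ r * J r = 2 * ((√(r / 2) : ℝ) * cexp (-(π * I * r / 4))) - J 0 := by
    have a1 := integral_cexp_quadratic hb (π * (1 - I)) 0
    have a2 : (π / - -(2 * π / r) : ℂ) ^ (1 / 2 : ℂ) = (√(r / 2) : ℝ) := by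
      have hπ := ofReal_ne_zero.mpr pi_ne_zero
      rw [Real.sqrt_eq_rpow, ofReal_cpow (by positivity)]
      congr 1
      · push_cast
        field_simp
      · push_cast
        rfl
    have a3 : (0 - (π * (1 - I)) ^ 2 / (4 * -(2 * π / r)) : ℂ) = -(π * I * r / 4) := by
      have hπ := ofReal_ne_zero.mpr pi_ne_zero
      field_simp
      linear_combination (r * π : ℂ) * I_mul_I
    rw [a2, a3] at a1
    rw [← a1, h3, ← integral_const_mul 2, ← integral_sub i2 i1, hJ]
    simp only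
    rw [← integral_const_mul]
    congr 1
    funext t
    have a4 : -(2 * π / r) * (t + r * ((-1 + I) / 2)) ^ 2 =
        -(2 * π / r) * t ^ 2 + 2 * (π * (1 - I) * t) + r * (π * I) := by
      field_simp
      linear_combination (-r ^ 2 : ℂ) * I_mul_I
    have a5 : ((-1 : ℂ) ^ r) * (-1) ^ r = 1 := by
      rw [← mul_pow]
      simp
    have := CH_real_ne t
    rw [a4, Complex.exp_add, Complex.exp_add, Complex.exp_nat_mul, exp_pi_mul_I, exp_two_CH,
      add_zero, Complex.exp_add]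
    generalize cexp (π * (1 - I) * t) = X
    generalize cexp (-(2 * π / r) * t ^ 2) = Y
    field_simp
    linear_combination (Y * (2 * X * CH t - 1)) * a5
  have h5 : (1 + I) ≠ 0 := fun h => by simpa using congrArg re h
  apply mul_left_cancel₀ h5
  simp only [h1, h4, h3] at h2
  rw [Finset.mul_sum, Finset.sum_congr rfl fun m _ => mul_left_comm _ _ _, h2]
  linear_combination ((∫ t : ℝ, cexp (-(2 * π / r) * t ^ 2) / CH t) -
        (√(r / 2) : ℝ) * cexp (-(π * I * r / 4))) * I_mul_I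

theorem integral_kap : ∫ t : ℝ, 1 / CH t = (1 + I) / 2 := by
  have := residue_line (g := fun _ => 1) (differentiable_const _) 1 (by simp)
  linear_combination this / 2

theorem exp_tail {z : ℂ} (hz : z.re ≤ 0) {n : ℕ} (hn : 0 < n) :
    ‖cexp z - ∑ k ∈ Finset.range n, z ^ k / k.factorial‖ ≤ (n + 1) * ‖z‖ ^ n := by
  by_cases h : ‖z‖ ≤ 1
  · refine (Complex.exp_bound h hn).trans ?_
    rw [mul_comm]
    gcongr
    have h1 : (1:ℝ) ≤ n.factorial * n := by
      exact_mod_cast Nat.mul_pos (Nat.factorial_pos n) hn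
    push_cast
    exact mul_le_of_le_one_right (by positivity) (inv_le_one_of_one_le₀ h1)
  · have h1 : 1 ≤ ‖z‖ := (not_le.mp h).le
    refine (norm_sub_le _ _).trans ?_
    have h2 : ‖cexp z‖ ≤ ‖z‖ ^ n := by
      rw [Complex.norm_exp]
      exact (Real.exp_le_one_iff.mpr hz).trans (one_le_pow₀ h1)
    have h3 : ‖∑ k ∈ Finset.range n, z ^ k / k.factorial‖ ≤ ∑ _k ∈ Finset.range n, ‖z‖ ^ n := by
      refine norm_sum_le_of_le _ fun k hk => ?_
      rw [norm_div, norm_pow, Complex.norm_natCast]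
      refine (div_le_self (by positivity) ?_).trans
        (pow_le_pow_right₀ h1 (Finset.mem_range.mp hk).le)
      exact_mod_cast Nat.factorial_pos k
    rw [Finset.sum_const, Finset.card_range, nsmul_eq_mul] at h3
    linarith

theorem exp_series {z : ℂ} (hz : z.re ≤ 0) (E r : ℕ) :
    ‖cexp (z / r) - ∑ e ∈ Finset.range (E + 1), z ^ e / e.factorial / (r : ℂ) ^ e‖ ≤
      (E + 2) * ‖z‖ ^ (E + 1) * (1 / r) ^ (E + 1) := by
  have h1 := exp_tail (z := z / r) (by
    rw [div_natCast_re]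
    exact div_nonpos_of_nonpos_of_nonneg hz (Nat.cast_nonneg r)) (Nat.succ_pos E)
  convert h1 using 1
  · congr 2
    refine Finset.sum_congr rfl fun e _ => ?_
    ring
  · rw [norm_div, Complex.norm_natCast, Nat.succ_eq_add_one]
    push_cast
    ring

theorem moment_bound (a : ℂ) (n : ℕ) :
    ∃ C : ℝ, ∀ t : ℝ, ‖a - 2 * π * t ^ 2‖ ^ n ≤ C * Real.exp |t| := by
  refine ⟨(‖a‖ + 2 * π) ^ n * ((2 * n).factorial * Real.exp 1), fun t => ?_⟩
  have hπ := pi_pos
  have h0 := abs_nonneg t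
  have h1 : ‖a - 2 * π * t ^ 2‖ ≤ (‖a‖ + 2 * π) * (1 + |t|) ^ 2 := by
    refine (norm_sub_le _ _).trans ?_
    have : ‖(2 * π * t ^ 2 : ℂ)‖ = 2 * π * |t| ^ 2 := by simp [abs_of_pos hπ]
    rw [this, add_mul]
    gcongr
    · exact le_mul_of_one_le_right (norm_nonneg _) (one_le_pow₀ (by linarith))
    · linarith
  have h2 := Real.pow_div_factorial_le_exp (1 + |t|) (by linarith) (2 * n)
  rw [div_le_iff₀ (by positivity), Real.exp_add] at h2
  calc ‖a - 2 * π * t ^ 2‖ ^ n ≤ ((‖a‖ + 2 * π) * (1 + |t|) ^ 2) ^ n := by gcongr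
    _ = (‖a‖ + 2 * π) ^ n * (1 + |t|) ^ (2 * n) := by rw [mul_pow, ← pow_mul]
    _ ≤ (‖a‖ + 2 * π) ^ n * (Real.exp 1 * Real.exp |t| * (2 * n).factorial) := by gcongr
    _ = _ := by ring

theorem mordell_series (a : ℂ) (ha : a.re = 0) :
    ∃ p : ℕ → ℂ, p 0 = (1 + I) / 2 ∧ ∀ E : ℕ, ∃ C : ℝ, 0 ≤ C ∧ ∀ r : ℕ, 0 < r →
      ‖cexp (a / r) * (∫ t : ℝ, cexp (-(2 * π / r) * t ^ 2) / CH t) -
        ∑ e ∈ Finset.range (E + 1), p e / (r : ℂ) ^ e‖ ≤ C * (1 / r) ^ (E + 1) := by
  have hz : ∀ t : ℝ, (a - 2 * π * t ^ 2).re ≤ 0 := by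
    intro t
    have : (2 * π * t ^ 2 : ℂ) = ((2 * π * t ^ 2 : ℝ) : ℂ) := by push_cast; rfl
    rw [sub_re, ha, this, ofReal_re, zero_sub, neg_nonpos]
    have := pi_pos
    positivity
  have i1 : ∀ e : ℕ, Integrable fun t : ℝ => (a - 2 * π * t ^ 2) ^ e / CH t := by
    intro e
    obtain ⟨C, hC⟩ := moment_bound a e
    exact integrable_kap (by fun_prop) C fun t => by rw [norm_pow]; exact hC t
  refine ⟨fun e => (∫ t : ℝ, (a - 2 * π * t ^ 2) ^ e / CH t) / e.factorial,
    by simpa using integral_kap, fun E => ⟨(E + 2) *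
      ∫ t : ℝ, ‖(a - 2 * π * t ^ 2) ^ (E + 1) / CH t‖, ?_, fun r hr => ?_⟩⟩
  · exact mul_nonneg (by positivity) (integral_nonneg fun t => norm_nonneg _)
  · have i2 : Integrable fun t : ℝ => cexp (a / r) * (cexp (-(2 * π / r) * t ^ 2) / CH t) :=
      (integrable_kap (by fun_prop) 1 fun t => (gauss_norm_le hr t).trans (by simp)).const_mul _
    have i3 : ∀ e ∈ Finset.range (E + 1), Integrable fun t : ℝ =>
        (a - 2 * π * t ^ 2) ^ e / CH t / e.factorial / (r : ℂ) ^ e :=
      fun e _ => ((i1 e).div_const _).div_const _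
    simp only [← integral_div]
    rw [← integral_const_mul, ← integral_finsetSum _ i3,
      ← integral_sub i2 (integrable_finsetSum _ i3), mul_right_comm, ← integral_const_mul]
    refine norm_integral_le_of_norm_le ((i1 (E + 1)).norm.const_mul _)
      (Eventually.of_forall fun t => ?_)
    have h1 := exp_series (hz t) E r
    have h2 : cexp (a / r) * (cexp (-(2 * π / r) * t ^ 2) / CH t) -
        ∑ e ∈ Finset.range (E + 1), (a - 2 * π * t ^ 2) ^ e / CH t / e.factorial / (r : ℂ) ^ e =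
        (cexp ((a - 2 * π * t ^ 2) / r) - ∑ e ∈ Finset.range (E + 1),
          (a - 2 * π * t ^ 2) ^ e / e.factorial / (r : ℂ) ^ e) / CH t := by
      rw [sub_div, Finset.sum_div, ← mul_div_assoc, ← Complex.exp_add]
      congr 1
      · congr 2
        ring
      · refine Finset.sum_congr rfl fun e _ => ?_
        ring
    rw [h2, norm_div, norm_div, norm_pow, ← mul_div_assoc]
    gcongr
    linarith

end Pool.Agent.P.MP_27a476_gt
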