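import Pool.Agent.P.MP_27a476_gt.Quantum
import Pool.Agent.P.MP_27a476_gt.NilDefs
import Pool.Agent.P.MP_27a476_gt.NilMordell

set_option autoImplicit false

open Complex Real

namespace Pool.Agent.P.MP_27a476_gt

/-- The sum over the colours of one meridian circle. -/
noncomputable def TS (a : ℤ) (m r : ℕ) : ℂ :=
  ∑ k ∈ Finset.range r, Complex.sin (π * k / r) * Complex.sin (π * m * k / r) *
    cexp (π * I * (a * k ^ 2) / (2 * r))

theorem TS_eq (a : ℤ) (m : ℕ) {r : ℕ} (hr : 0 < r) :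
    8 * TS a m r = GG a (2 * (m - 1)) r + GG a (2 * -(m - 1)) r - GG a (2 * (m + 1)) r -
      GG a (2 * -(m + 1)) r := by
  have hr' : (r : ℂ) ≠ 0 := by exact_mod_cast hr.ne'
  set g : ℂ → ℂ := fun k => Complex.sin (π * k / r) * Complex.sin (π * m * k / r) *
    cexp (π * I * (a * k ^ 2) / (2 * r)) with hg
  have h1 : GG a (2 * (m - 1)) r + GG a (2 * -(m - 1)) r - GG a (2 * (m + 1)) r -
      GG a (2 * -(m + 1)) r = 4 * ∑ j ∈ Finset.range (2 * r), g j := by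
    simp only [GG, Finset.mul_sum, ← Finset.sum_sub_distrib, ← Finset.sum_add_distrib]
    refine Finset.sum_congr rfl fun j _ => ?_
    have e0 : ∀ (b : ℤ) (x y : ℂ), (b : ℂ) * (π * j) = 2 * r * (x + y) →
        cexp (π * I * (a * j ^ 2 + b * j) / (2 * r : ℕ)) =
        cexp (π * I * (a * j ^ 2) / (2 * r)) * cexp (x * I) * cexp (y * I) := by
      intro b x y h
      rw [← Complex.exp_add, ← Complex.exp_add]
      congr 1
      push_cast
      field_simp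
      linear_combination h
    rw [e0 _ (π * m * j / r) (-(π * j / r)) (by push_cast; field_simp; ring),
      e0 _ (-(π * m * j / r)) (π * j / r) (by push_cast; field_simp; ring),
      e0 _ (π * m * j / r) (π * j / r) (by push_cast; field_simp),
      e0 _ (-(π * m * j / r)) (-(π * j / r)) (by push_cast; field_simp; ring), hg]
    simp only [Complex.sin]
    linear_combination (-(cexp (-(π * j / r) * I) - cexp (π * j / r * I)) *
      (cexp (-(π * m * j / r) * I) - cexp (π * m * j / r * I)) *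
      cexp (π * I * (a * j ^ 2) / (2 * r))) * I_mul_I
  have h2 : ∀ j : ℕ, g (r + j) = g (r - j) := by
    intro j
    simp only [hg]
    congr 1
    · have e1 : π * (r + j) / r = (π * j / r : ℂ) + π := by
        field_simp
        ring
      have e2 : π * (r - j) / r = π - (π * j / r : ℂ) := by field_simp
      have e3 : π * m * (r + j) / r = m * π + (π * m * j / r : ℂ) := by field_simp
      have e4 : π * m * (r - j) / r = m * π - (π * m * j / r : ℂ) := by field_simp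
      rw [e1, e2, e3, e4, Complex.sin_add_pi, Complex.sin_pi_sub, Complex.sin_add,
        Complex.sin_sub, Complex.sin_nat_mul_pi]
      ring
    · rw [exp_eq_exp_iff_exists_int]
      refine ⟨a * j, ?_⟩
      push_cast
      field_simp
      ring
  have h3 : ∑ j ∈ Finset.range r, g (r + j : ℕ) = ∑ j ∈ Finset.range r, g j := by
    have e1 : ∑ j ∈ Finset.range r, g (r + j : ℕ) = ∑ j ∈ Finset.range r, g ((j + 1 : ℕ)) := by
      rw [← Finset.sum_range_reflect (fun j => g ((j + 1 : ℕ))) r]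
      refine Finset.sum_congr rfl fun j hj => ?_
      have := Finset.mem_range.mp hj
      rw [Nat.cast_add, h2]
      congr 1
      have : r - 1 - j + 1 = r - j := by omega
      rw [this, Nat.cast_sub (by omega)]
    have e2 := Finset.sum_range_succ' (fun j => g (j : ℕ)) r
    have e3 := Finset.sum_range_succ (fun j => g (j : ℕ)) r
    have e4 : g (0 : ℕ) = 0 := by simp [hg]
    have e5 : g (r : ℕ) = 0 := by
      simp only [hg]
      rw [mul_div_assoc, div_self hr', mul_one, Complex.sin_pi]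
      simp
    rw [e1]
    linear_combination e3 - e2 + e5 - e4
  rw [h1, two_mul r, Finset.sum_range_add, h3, TS]
  ring

theorem range_eq_insert {r : ℕ} (hr : 0 < r) : Finset.range r = insert 0 (Finset.Ioo 0 r) := by
  ext k
  simp
  omega

theorem leg_eq (a : ℤ) (m : ℕ) {r : ℕ} (hr : 2 ≤ r) :
    ∑ k ∈ Finset.Ioo 0 r, qi r k * (qi r (m * k) / qi r m) *
        cexp (2 * π * I / (4 * r)) ^ (a * ((k : ℤ) ^ 2 - 1)) =
      TS a m r * cexp (-(π * I * a / (2 * r))) /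
        (Complex.sin (π / r) * Complex.sin (π * m / r)) := by
  have hr' : (r : ℂ) ≠ 0 := by exact_mod_cast (by omega : r ≠ 0)
  have hs := sin_pi_div_ne hr
  rw [TS, range_eq_insert (by omega), Finset.sum_insert (by simp), Finset.sum_congr rfl
    (g := fun k : ℕ => Complex.sin (π * k / r) * Complex.sin (π * m * k / r) *
      cexp (π * I * (a * k ^ 2) / (2 * r)) * cexp (-(π * I * a / (2 * r))) /
        (Complex.sin (π / r) * Complex.sin (π * m / r))), ← Finset.sum_div, ← Finset.sum_mul]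
  · simp
  · intro k _
    rw [← Complex.exp_int_mul, mul_assoc _ (cexp _), ← Complex.exp_add, qi, qi, qi]
    push_cast
    rw [div_div_div_cancel_right₀ hs, div_mul_div_comm, div_mul_eq_mul_div,
      mul_assoc (π : ℂ) m k]
    congr 3
    field_simp
    ring

theorem tauS_nil {r : ℕ} (hr : 2 ≤ r) :
    tauS ![] r = (√(2 / r) : ℝ) * Complex.sin (π / r) * (r / 2 / Complex.sin (π / r) ^ 2) := by
  have h := inner_sum_eq 0 hr
  rw [TT_zero hr] at h
  simp only [zero_mul, zpow_zero, mul_one, Int.cast_zero, mul_zero, zero_div, neg_zero,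
    Complex.exp_zero] at h
  rw [← h]
  simp [tauS, qi]

theorem sin_ne_of_Ioo {r k : ℕ} (hk : k ∈ Finset.Ioo 0 r) : Complex.sin (π * k / r) ≠ 0 := by
  obtain ⟨h0, h1⟩ := Finset.mem_Ioo.mp hk
  have a0 : (0:ℝ) < k := by exact_mod_cast h0
  have a1 : (k:ℝ) < r := by exact_mod_cast h1
  have a2 : 0 < Real.sin (π * k / r) := by
    have := pi_pos
    refine Real.sin_pos_of_pos_of_lt_pi (div_pos (by positivity) (by linarith)) ?_
    rw [div_lt_iff₀ (by linarith)]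
    gcongr
  exact_mod_cast a2.ne'

theorem Z_sum {r : ℕ} (hr : 2 ≤ r) :
    tauS ![2, 4, -4] r / tauS ![] r = 4 / r ^ 2 * (√(2 / r) : ℝ) * cexp (-(π * I / r)) *
      ∑ k ∈ Finset.range r, TS 2 k r * TS 4 k r * TS (-4) k r / Complex.sin (π * k / r) := by
  have hr' : (r : ℂ) ≠ 0 := by exact_mod_cast (by omega : r ≠ 0)
  have hs := sin_pi_div_ne hr
  have e1 : (∑ i, (![2, 4, -4] i : ℤ).sign +
      (SignType.sign (-∑ i, ((![2, 4, -4] i : ℤ) : ℚ)⁻¹) : ℤ)) = 0 := by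
    simp only [Fin.sum_univ_three, Matrix.cons_val]
    rw [sign_neg (by norm_num)]
    rfl
  have b1 : ((√(2 / r) : ℝ) : ℂ) ^ 2 = 2 / r := by
    rw [← ofReal_pow, Real.sq_sqrt (by positivity)]
    push_cast
    rfl
  have b7 : ((√(2 / r) : ℝ) : ℂ) ≠ 0 := by
    intro h
    rw [h] at b1
    exact div_ne_zero two_ne_zero hr' (by rw [← b1]; simp)
  have a1 : cexp (-(π * I * (2:ℤ) / (2 * r))) * cexp (-(π * I * (4:ℤ) / (2 * r))) *
      cexp (-(π * I * (-4:ℤ) / (2 * r))) = cexp (-(π * I / r)) := by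
    rw [← Complex.exp_add, ← Complex.exp_add]
    congr 1
    push_cast
    field_simp
    ring
  rw [tauS_nil hr, tauS, e1, zpow_zero, mul_one, range_eq_insert (by omega),
    Finset.sum_insert (by simp), Finset.sum_congr rfl (g := fun k : ℕ =>
      cexp (-(π * I / r)) / Complex.sin (π / r) ^ 5 *
        (TS 2 k r * TS 4 k r * TS (-4) k r / Complex.sin (π * k / r))), ← Finset.mul_sum]
  · simp only [CharP.cast_eq_zero, mul_zero, zero_div, Complex.sin_zero, div_zero, zero_add]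
    generalize ∑ k ∈ Finset.Ioo 0 r, TS 2 k r * TS 4 k r * TS (-4) k r /
      Complex.sin (π * k / r) = S
    push_cast
    generalize ((√(2 / r) : ℝ) : ℂ) = s at *
    have b2 : s ^ 2 * r = 2 := by rw [b1]; field_simp
    field_simp
    linear_combination (2 * S) * b2
  · intro k hk
    have hk' := sin_ne_of_Ioo hk
    rw [← Finset.mul_sum, ← Finset.prod_univ_sum (fun _ : Fin 3 => Finset.Ioo 0 r)
      (fun i (l : ℕ) => qi r l * (qi r (k * l) / qi r k) *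
        cexp (2 * π * I / (4 * r)) ^ ((![2, 4, -4] i : ℤ) * ((l : ℤ) ^ 2 - 1)))]
    simp only [leg_eq _ _ hr, Fin.prod_univ_three, Matrix.cons_val]
    rw [← a1, qi]
    push_cast
    field_simp

theorem recip (a : ℤ) (ha : a ≠ 0) (m : ℤ) {r : ℕ} (hr : 0 < r) :
    (-I * a / (2 * r : ℕ)) ^ (1 / 2 : ℂ) * GG a (2 * m) r =
      cexp (-(π * I * m ^ 2 / (2 * a * r))) *
        ∑ n ∈ Finset.range a.natAbs, cexp (-(2 * π * I * (r * n ^ 2 - m * n) / a)) := by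
  rw [GG, gauss_reciprocity (2 * r) (by omega) a ha (2 * m) ⟨a * r + m, by push_cast; ring⟩]
  congr 1
  · congr 1
    push_cast
    ring
  · refine Finset.sum_congr rfl fun n _ => ?_
    congr 1
    push_cast
    ring

theorem kap_ne {a : ℤ} (ha : a ≠ 0) {r : ℕ} (hr : 0 < r) :
    (-I * a / (2 * r : ℕ)) ^ (1 / 2 : ℂ) ≠ 0 := by
  rw [Ne, cpow_eq_zero_iff]
  simp [ha, hr.ne']

theorem exp_eq_one_of {x : ℂ} (l : ℤ) (h : x = l * (2 * π * I)) : cexp x = 1 := by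
  rw [h, exp_int_mul_two_pi_mul_I]

theorem exp_eq_neg_of {x y : ℂ} (l : ℤ) (h : x = y + π * I + l * (2 * π * I)) :
    cexp x = -cexp y := by
  rw [h, Complex.exp_add, Complex.exp_add, exp_int_mul_two_pi_mul_I, exp_pi_mul_I]
  ring

theorem GG_two_odd {r : ℕ} (hr : 0 < r) (m : ℤ) (h : Odd (r + m)) : GG 2 (2 * m) r = 0 := by
  obtain ⟨l, hl⟩ := h
  have hl' : (r : ℂ) = 2 * l + 1 - m := by exact_mod_cast eq_sub_of_add_eq hl
  have := recip 2 two_ne_zero m hr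
  simp only [Int.reduceAbs, Finset.sum_range_succ, Finset.range_zero, Finset.sum_empty] at this
  rw [exp_eq_neg_of (x := -(2 * π * I * (r * (1:ℕ) ^ 2 - m * (1:ℕ)) / (2:ℤ))) (y := 0) (m - l - 1)
    (by push_cast; rw [hl']; ring)] at this
  simpa [kap_ne, hr.ne'] using this

theorem GG_two_even {r : ℕ} (hr : 0 < r) (m : ℤ) (h : Even (r + m)) :
    (-I * (2:ℤ) / (2 * r : ℕ)) ^ (1 / 2 : ℂ) * GG 2 (2 * m) r =
      2 * cexp (-(π * I * m ^ 2 / (4 * r))) := by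
  obtain ⟨l, hl⟩ := h
  have hl' : (r : ℂ) = l + l - m := by exact_mod_cast eq_sub_of_add_eq hl
  rw [recip 2 two_ne_zero m hr]
  simp only [Int.reduceAbs, Finset.sum_range_succ, Finset.range_zero, Finset.sum_empty]
  rw [exp_eq_one_of (x := -(2 * π * I * (r * (1:ℕ) ^ 2 - m * (1:ℕ)) / (2:ℤ))) (m - l)
    (by push_cast; rw [hl']; ring)]
  norm_num
  ring

theorem GG_four_odd {r : ℕ} (hr : 0 < r) (m : ℤ) (h : Odd m) : GG 4 (2 * m) r = 0 := by
  obtain ⟨l, rfl⟩ := h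
  have := recip 4 (by norm_num) (2 * l + 1) hr
  simp only [Int.reduceAbs, Finset.sum_range_succ, Finset.range_zero, Finset.sum_empty] at this
  rw [exp_eq_neg_of (x := -(2 * π * I * (r * (2:ℕ) ^ 2 - (2 * l + 1 : ℤ) * (2:ℕ)) / (4:ℤ)))
      (y := -(2 * π * I * (r * (0:ℕ) ^ 2 - (2 * l + 1 : ℤ) * (0:ℕ)) / (4:ℤ))) (l - r)
      (by push_cast; ring),
    exp_eq_neg_of (x := -(2 * π * I * (r * (3:ℕ) ^ 2 - (2 * l + 1 : ℤ) * (3:ℕ)) / (4:ℤ)))
      (y := -(2 * π * I * (r * (1:ℕ) ^ 2 - (2 * l + 1 : ℤ) * (1:ℕ)) / (4:ℤ))) (l - 2 * r)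
      (by push_cast; ring)] at this
  refine (mul_eq_zero.mp (this.trans ?_)).resolve_left (kap_ne (by norm_num) hr)
  ring

theorem GG_four (a : ℤ) (ha : a = 4 ∨ a = -4) {ρ : ℕ} (hρ : 0 < ρ) (μ : ℤ) :
    (-I * a / (2 * (2 * ρ) : ℕ)) ^ (1 / 2 : ℂ) * GG a (2 * (2 * μ)) (2 * ρ) =
      cexp (-(π * I * (2 * μ) ^ 2 / (2 * a * (2 * ρ)))) * if Even (ρ + μ) then 4 else 0 := by
  have h0 : a ≠ 0 := by omega
  have h1 : a.natAbs = 4 := by omega
  have h2 : ∀ n : ℕ, cexp (-(2 * π * I * ((2 * ρ : ℕ) * n ^ 2 - (2 * μ : ℤ) * n) / a)) =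
      (-1) ^ (ρ * n ^ 2 - μ * n : ℤ) := by
    intro n
    rw [← exp_pi_mul_I, ← Complex.exp_int_mul, exp_eq_exp_iff_exists_int]
    rcases ha with rfl | rfl
    · exact ⟨-(ρ * n ^ 2 - μ * n), by push_cast; ring⟩
    · exact ⟨0, by push_cast; ring⟩
  rw [recip a h0 (2 * μ) (by omega), h1]
  simp only [h2, Finset.sum_range_succ, Finset.range_zero, Finset.sum_empty]
  push_cast
  congr 1
  rw [Even.neg_one_zpow (n := ρ * 0 - μ * 0) (by simp),
    Even.neg_one_zpow (n := ρ * 4 - μ * 2) (by rw [Int.even_iff]; omega)]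
  split_ifs with h
  · rw [Int.even_iff] at h
    rw [Even.neg_one_zpow (by rw [Int.even_iff]; omega),
      Even.neg_one_zpow (by rw [Int.even_iff]; omega)]
    norm_num
  · rw [Int.even_iff] at h
    rw [Odd.neg_one_zpow (by rw [Int.odd_iff]; omega),
      Odd.neg_one_zpow (by rw [Int.odd_iff]; omega)]
    norm_num

theorem TS_four_even {r : ℕ} (hr : 0 < r) {k : ℕ} (hk : Even k) : TS 4 k r = 0 := by
  have h := TS_eq 4 k hr
  obtain ⟨l, rfl⟩ := hk
  rw [GG_four_odd hr _ ⟨l - 1, by push_cast; ring⟩, GG_four_odd hr _ ⟨-l, by push_cast; ring⟩,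
    GG_four_odd hr _ ⟨l, by push_cast; ring⟩,
    GG_four_odd hr _ ⟨-l - 1, by push_cast; ring⟩] at h
  linear_combination h / 8

theorem TS_two_odd {r : ℕ} (hr : Odd r) {k : ℕ} (hk : Odd k) : TS 2 k r = 0 := by
  have h := TS_eq 2 k hr.pos
  rw [Nat.odd_iff] at hr hk
  rw [GG_two_odd (by omega) _ (by rw [Int.odd_iff]; omega),
    GG_two_odd (by omega) _ (by rw [Int.odd_iff]; omega),
    GG_two_odd (by omega) _ (by rw [Int.odd_iff]; omega),
    GG_two_odd (by omega) _ (by rw [Int.odd_iff]; omega)] at h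
  linear_combination h / 8

theorem TS_two {ρ : ℕ} (hρ : 0 < ρ) (κ : ℕ) :
    (-I * (2:ℤ) / (2 * (2 * ρ) : ℕ)) ^ (1 / 2 : ℂ) * TS 2 (2 * κ + 1) (2 * ρ) =
      I * cexp (-(π * I / (8 * ρ))) * cexp (-(π * I * (2 * κ + 1) ^ 2 / (8 * ρ))) *
        Complex.sin (π * (2 * κ + 1) / (4 * ρ)) := by
  have hρ' : (ρ : ℂ) ≠ 0 := by exact_mod_cast hρ.ne'
  have h := TS_eq 2 (2 * κ + 1) (r := 2 * ρ) (by omega)
  have key : ∀ (m : ℤ) (x : ℂ), m % 2 = 0 →
      (m : ℂ) ^ 2 = (2 * κ + 1) ^ 2 + 1 - 8 * ρ * x / π →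
      (-I * (2:ℤ) / (2 * (2 * ρ) : ℕ)) ^ (1 / 2 : ℂ) * GG 2 (2 * m) (2 * ρ) =
      2 * (cexp (-(π * I / (8 * ρ))) * cexp (-(π * I * (2 * κ + 1) ^ 2 / (8 * ρ))) *
        cexp (x * I)) := by
    intro m x h1 h2
    have hπ := ofReal_ne_zero.mpr pi_ne_zero
    rw [GG_two_even (by omega) m (by rw [Int.even_iff]; omega), h2, ← Complex.exp_add,
      ← Complex.exp_add]
    congr 2
    push_cast
    field_simp
    ring
  have hπ := ofReal_ne_zero.mpr pi_ne_zero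
  have k1 := key ((2 * κ + 1 : ℕ) - 1) (π * (2 * κ + 1) / (4 * ρ)) (by omega)
    (by push_cast; field_simp; ring)
  have k2 := key (-((2 * κ + 1 : ℕ) - 1)) (π * (2 * κ + 1) / (4 * ρ)) (by omega)
    (by push_cast; field_simp; ring)
  have k3 := key ((2 * κ + 1 : ℕ) + 1) (-(π * (2 * κ + 1) / (4 * ρ))) (by omega)
    (by push_cast; field_simp; ring)
  have k4 := key (-((2 * κ + 1 : ℕ) + 1)) (-(π * (2 * κ + 1) / (4 * ρ))) (by omega)
    (by push_cast; field_simp; ring)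
  rw [Complex.sin]
  generalize (-I * (2:ℤ) / (2 * (2 * ρ) : ℕ)) ^ (1 / 2 : ℂ) = K at *
  generalize cexp (-(π * I / (8 * ρ))) = A at *
  generalize cexp (-(π * I * (2 * κ + 1) ^ 2 / (8 * ρ))) = B at *
  generalize cexp (π * (2 * κ + 1) / (4 * ρ) * I) = X at *
  generalize cexp (-(π * (2 * κ + 1) / (4 * ρ)) * I) = Y at *
  linear_combination (K / 8) * h + (k1 + k2 - k3 - k4) / 8 - (A * B * (Y - X) / 2) * I_mul_I

theorem TS_four (a : ℤ) (ha : a = 4 ∨ a = -4) {ρ : ℕ} (hρ : 0 < ρ) (κ : ℕ) :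
    (-I * a / (2 * (2 * ρ) : ℕ)) ^ (1 / 2 : ℂ) * TS a (2 * κ + 1) (2 * ρ) =
      if Even ((ρ : ℤ) + κ) then cexp (-(π * I * (2 * κ) ^ 2 / (2 * a * (2 * ρ))))
      else -cexp (-(π * I * (2 * κ + 2) ^ 2 / (2 * a * (2 * ρ)))) := by
  have h := TS_eq a (2 * κ + 1) (r := 2 * ρ) (by omega)
  have k1 := GG_four a ha hρ κ
  have k2 := GG_four a ha hρ (-κ)
  have k3 := GG_four a ha hρ (κ + 1)
  have k4 := GG_four a ha hρ (-(κ + 1))
  rw [show (((2 * κ + 1 : ℕ) : ℤ) - 1) = 2 * κ by push_cast; ring,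
    show (((2 * κ + 1 : ℕ) : ℤ) + 1) = 2 * (κ + 1) by push_cast; ring,
    ← mul_neg (2:ℤ) κ, ← mul_neg (2:ℤ) (κ + 1)] at h
  generalize (-I * a / (2 * (2 * ρ) : ℕ)) ^ (1 / 2 : ℂ) = K at *
  push_cast at k1 k2 k3 k4
  rw [mul_neg (2:ℂ), neg_sq] at k2
  rw [show (2 * -(κ + 1) : ℂ) ^ 2 = (2 * κ + 2) ^ 2 by ring] at k4
  rw [show (2 * (κ + 1) : ℂ) ^ 2 = (2 * κ + 2) ^ 2 by ring] at k3
  simp only [Int.even_iff] at k1 k2 k3 k4 ⊢
  split_ifs with h1
  · rw [if_pos (by omega)] at k1 k2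
    rw [if_neg (by omega)] at k3 k4
    linear_combination (K / 8) * h + (k1 + k2 - k3 - k4) / 8
  · rw [if_neg (by omega)] at k1 k2
    rw [if_pos (by omega)] at k3 k4
    linear_combination (K / 8) * h + (k1 + k2 - k3 - k4) / 8

theorem kap_pos {x : ℝ} (hx : 0 < x) :
    ((x : ℂ) * -I) ^ (1 / 2 : ℂ) = (√x : ℝ) * cexp (-(π * I / 4)) := by
  rw [ofReal_mul_cpow hx (neg_ne_zero.mpr I_ne_zero), ofReal_cpow_half hx.le,
    cpow_def_of_ne_zero (neg_ne_zero.mpr I_ne_zero), log_neg_I]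
  congr 2
  ring

theorem kap_neg {x : ℝ} (hx : 0 < x) :
    ((x : ℂ) * I) ^ (1 / 2 : ℂ) = (√x : ℝ) * cexp (π * I / 4) := by
  rw [ofReal_mul_cpow hx I_ne_zero, ofReal_cpow_half hx.le, cpow_def_of_ne_zero I_ne_zero, log_I]
  congr 2
  ring

theorem exp_quarter_mul : cexp (-(π * I / 4)) * cexp (π * I / 4) = 1 := by
  rw [← Complex.exp_add]
  simp

theorem TS_four_mul {ρ : ℕ} (hρ : 0 < ρ) (κ : ℕ) :
    TS 4 (2 * κ + 1) (2 * ρ) * TS (-4) (2 * κ + 1) (2 * ρ) = ρ := by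
  have hρ' : (ρ : ℂ) ≠ 0 := by exact_mod_cast hρ.ne'
  have hρr : (0:ℝ) < ρ := by exact_mod_cast hρ
  have k1 := TS_four 4 (Or.inl rfl) hρ κ
  have k2 := TS_four (-4) (Or.inr rfl) hρ κ
  have e1 : (-I * (4:ℤ) / (2 * (2 * ρ) : ℕ)) = ((1 / ρ : ℝ) : ℂ) * -I := by
    push_cast
    field_simp
    ring
  have e2 : (-I * (-4:ℤ) / (2 * (2 * ρ) : ℕ)) = ((1 / ρ : ℝ) : ℂ) * I := by
    push_cast
    field_simp
    ring
  have e3 : ((√(1 / ρ) : ℝ) : ℂ) ^ 2 * ρ = 1 := by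
    rw [← ofReal_pow, Real.sq_sqrt (by positivity)]
    push_cast
    field_simp
  have e4 : ∀ x : ℂ, cexp (-(π * I * x / (2 * (4:ℤ) * (2 * ρ)))) *
      cexp (-(π * I * x / (2 * (-4:ℤ) * (2 * ρ)))) = 1 := by
    intro x
    rw [← Complex.exp_add, ← Complex.exp_zero]
    congr 1
    push_cast
    field_simp
    ring
  rw [e1, kap_pos (by positivity)] at k1
  rw [e2, kap_neg (by positivity)] at k2
  have e5 : (√(1 / ρ) : ℝ) * cexp (-(π * I / 4)) * TS 4 (2 * κ + 1) (2 * ρ) *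
      ((√(1 / ρ) : ℝ) * cexp (π * I / 4) * TS (-4) (2 * κ + 1) (2 * ρ)) = 1 := by
    rw [k1, k2]
    split_ifs
    · exact e4 _
    · rw [neg_mul_neg]
      exact e4 _
  have e6 := exp_quarter_mul
  generalize ((√(1 / ρ) : ℝ) : ℂ) = s at *
  generalize TS 4 (2 * κ + 1) (2 * ρ) = X at *
  generalize TS (-4) (2 * κ + 1) (2 * ρ) = Y at *
  linear_combination ρ * e5 - (X * Y) * e3 - (ρ * s ^ 2 * X * Y) * e6

theorem sum_even_odd (F : ℕ → ℂ) (n : ℕ) :
    ∑ k ∈ Finset.range (2 * n), F k = ∑ k ∈ Finset.range n, (F (2 * k) + F (2 * k + 1)) := by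
  induction n with
  | zero => simp
  | succ n ih =>
    rw [Nat.mul_succ, Finset.sum_range_succ, Finset.sum_range_succ, Finset.sum_range_succ, ih]
    ring

theorem cos_mul_sum {ρ : ℕ} (hρ : 0 < ρ) (κ : ℕ) :
    Complex.cos (π * (2 * κ + 1) / (4 * ρ)) * ∑ m ∈ Finset.range (2 * ρ),
      (-1) ^ m * cexp (π * (2 * κ + 1) / (4 * ρ) * I) ^ (2 * m + 1) = 1 := by
  have hρ' : (ρ : ℂ) ≠ 0 := by exact_mod_cast hρ.ne'
  have h1 : cexp (π * (2 * κ + 1) / (4 * ρ) * I) ^ (2 * (2 * ρ)) = -1 := by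
    rw [← Complex.exp_nat_mul, exp_eq_neg_of (y := 0) κ (by push_cast; field_simp; ring)]
    simp
  have h2 := Complex.exp_ne_zero (π * (2 * κ + 1) / (4 * ρ) * I)
  rw [Complex.cos, neg_mul, Complex.exp_neg]
  generalize cexp (π * (2 * κ + 1) / (4 * ρ) * I) = W at *
  have h3 := Finset.sum_range_sub' (fun m => (-1) ^ m * W ^ (2 * m) / 2) (2 * ρ)
  rw [h1, Even.neg_one_pow (even_two_mul ρ)] at h3
  rw [Finset.mul_sum, Finset.sum_congr rfl (g := fun m => (-1) ^ m * W ^ (2 * m) / 2 -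
    (-1) ^ (m + 1) * W ^ (2 * (m + 1)) / 2), h3]
  · norm_num
  · intro m _
    field_simp
    ring

theorem sec_sum {ρ : ℕ} (hρ : 0 < ρ) :
    (√(1 / (2 * ρ)) : ℝ) * cexp (π * I / 4) * (2 * ∑ κ ∈ Finset.range ρ,
      cexp (-(π * I * (2 * κ + 1) ^ 2 / (8 * ρ))) / Complex.cos (π * (2 * κ + 1) / (4 * ρ))) =
      ∑ m ∈ Finset.range (2 * ρ), (-1) ^ m * cexp (π * I * (2 * m + 1) ^ 2 / (8 * ρ)) := by
  have hρ' : (ρ : ℂ) ≠ 0 := by exact_mod_cast hρ.ne'
  have hρr : (0:ℝ) < ρ := by exact_mod_cast hρ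
  set f : ℕ → ℂ := fun κ =>
    cexp (-(π * I * (2 * κ + 1) ^ 2 / (8 * ρ))) / Complex.cos (π * (2 * κ + 1) / (4 * ρ)) with hf
  have h1 : 2 * ∑ κ ∈ Finset.range ρ, f κ = ∑ κ ∈ Finset.range (2 * ρ), f κ := by
    rw [two_mul ρ, Finset.sum_range_add, two_mul,
      ← Finset.sum_range_reflect (fun κ => f (ρ + κ)) ρ]
    congr 1
    refine Finset.sum_congr rfl fun κ hκ => ?_
    have a1 : κ < ρ := Finset.mem_range.mp hκ
    have a2 : ((ρ + (ρ - 1 - κ) : ℕ) : ℂ) = 2 * ρ - 1 - κ := by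
      have : ρ + (ρ - 1 - κ) + 1 + κ = 2 * ρ := by omega
      have a3 : ((ρ + (ρ - 1 - κ) : ℕ) : ℂ) + 1 + κ = 2 * ρ := by exact_mod_cast this
      linear_combination a3
    simp only [hf]
    rw [a2, show π * (2 * (2 * ρ - 1 - κ) + 1) / (4 * ρ) = π - π * (2 * κ + 1) / (4 * ρ : ℂ) by
      field_simp; ring, Complex.cos_pi_sub,
      exp_eq_neg_of (x := -(π * I * (2 * (2 * ρ - 1 - κ) + 1) ^ 2 / (8 * ρ)))
        (y := -(π * I * (2 * κ + 1) ^ 2 / (8 * ρ))) (κ - ρ) (by push_cast; field_simp; ring),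
      neg_div_neg_eq]
  have h2 : ∀ κ, f κ = ∑ m ∈ Finset.range (2 * ρ), (-1) ^ m * cexp (π * I * (4 * m + 1) / (8 * ρ)) *
      cexp (π * I * ((-1:ℤ) * κ ^ 2 + (2 * m : ℤ) * κ) / (2 * ρ : ℕ)) := by
    intro κ
    simp only [hf]
    rw [div_eq_mul_inv, ← eq_inv_of_mul_eq_one_right (cos_mul_sum hρ κ), Finset.mul_sum]
    refine Finset.sum_congr rfl fun m _ => ?_
    rw [mul_left_comm, mul_assoc ((-1 : ℂ) ^ m), ← Complex.exp_nat_mul, ← Complex.exp_add, ← Complex.exp_add]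
    congr 2
    push_cast
    field_simp
    ring
  have e1 : (-I * (-1:ℤ) / (2 * ρ : ℕ)) = ((1 / (2 * ρ) : ℝ) : ℂ) * I := by
    push_cast
    ring
  rw [h1, Finset.sum_congr rfl fun κ _ => h2 κ, Finset.sum_comm, Finset.mul_sum]
  refine Finset.sum_congr rfl fun m _ => ?_
  have h3 := gauss_reciprocity (2 * ρ) (by omega) (-1) (by norm_num) (2 * m)
    ⟨m - ρ, by push_cast; ring⟩
  rw [e1, kap_neg (by positivity)] at h3
  rw [← Finset.mul_sum, mul_left_comm, h3, mul_assoc]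
  simp only [Int.reduceNeg, Int.natAbs_neg, Int.natAbs_one, Finset.range_one, Finset.sum_singleton]
  rw [← Complex.exp_add, ← Complex.exp_add]
  congr 2
  push_cast
  field_simp
  ring

theorem Z_odd {r : ℕ} (hr : 2 ≤ r) (h : Odd r) : tauS ![2, 4, -4] r / tauS ![] r = 0 := by
  rw [Z_sum hr, Finset.sum_eq_zero, mul_zero]
  intro k _
  rcases Nat.even_or_odd k with hk | hk
  · simp [TS_four_even (by omega : 0 < r) hk]
  · simp [TS_two_odd h hk]

theorem Z_even {ρ : ℕ} (hρ : 0 < ρ) :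
    tauS ![2, 4, -4] (2 * ρ) / tauS ![] (2 * ρ) =
      I / 2 * (√(2 / (2 * ρ : ℕ)) : ℝ) * cexp (-(5 * π * I / 4) / (2 * ρ : ℕ)) *
        ∑ m ∈ Finset.range (2 * ρ),
          (-1) ^ m * cexp (π * I * (2 * m + 1) ^ 2 / (4 * (2 * ρ : ℕ))) := by
  have hρ' : (ρ : ℂ) ≠ 0 := by exact_mod_cast hρ.ne'
  have hρr : (0:ℝ) < ρ := by exact_mod_cast hρ
  have e1 : (-I * (2:ℤ) / (2 * (2 * ρ) : ℕ)) = ((1 / (2 * ρ) : ℝ) : ℂ) * -I := by
    push_cast
    field_simp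
  have e2 : ((√(1 / (2 * ρ)) : ℝ) : ℂ) ^ 2 * (2 * ρ) = 1 := by
    rw [← ofReal_pow, Real.sq_sqrt (by positivity)]
    push_cast
    field_simp
  have e3 := exp_quarter_mul
  have e4 : cexp (-(5 * π * I / 4) / (2 * ρ : ℕ)) =
      cexp (-(π * I / (2 * ρ : ℕ))) * cexp (-(π * I / (8 * ρ))) := by
    rw [← Complex.exp_add]
    congr 1
    push_cast
    field_simp
    ring
  have e5 : ((4 : ℂ) * (2 * ρ : ℕ)) = 8 * ρ := by
    push_cast
    ring
  rw [Z_sum (by omega), sum_even_odd, e4, e5, ← sec_sum hρ, Finset.sum_congr rfl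
    (g := fun κ : ℕ => ρ ^ 2 * I * cexp (-(π * I / (8 * ρ))) *
      ((√(1 / (2 * ρ)) : ℝ) * cexp (π * I / 4)) * (cexp (-(π * I * (2 * κ + 1) ^ 2 / (8 * ρ))) /
        Complex.cos (π * (2 * κ + 1) / (4 * ρ)))), ← Finset.mul_sum]
  · push_cast
    field_simp
    ring
  · intro κ hκ
    have a1 := sin_ne_of_Ioo (r := 2 * ρ) (k := 2 * κ + 1)
      (Finset.mem_Ioo.mpr ⟨by omega, by have := Finset.mem_range.mp hκ; omega⟩)
    have a2 : (π * (2 * κ + 1 : ℕ) / (2 * ρ : ℕ) : ℂ) = 2 * (π * (2 * κ + 1) / (4 * ρ)) := by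
      push_cast
      field_simp
      ring
    have a3 := TS_two hρ κ
    rw [e1, kap_pos (by positivity)] at a3
    rw [TS_four_even (by omega) (even_two_mul κ), mul_assoc (TS 2 (2 * κ + 1) (2 * ρ)),
      TS_four_mul hρ]
    rw [a2, Complex.sin_two_mul] at a1 ⊢
    have a4 := right_ne_zero_of_mul a1
    have a5 := right_ne_zero_of_mul (left_ne_zero_of_mul a1)
    generalize Complex.sin (π * (2 * κ + 1) / (4 * ρ)) = S at *
    generalize Complex.cos (π * (2 * κ + 1) / (4 * ρ)) = C at *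
    generalize TS 2 (2 * κ + 1) (2 * ρ) = T at *
    generalize ((√(1 / (2 * ρ)) : ℝ) : ℂ) = s at *
    generalize cexp (-(π * I / (8 * ρ))) = A at *
    generalize cexp (-(π * I * (2 * κ + 1) ^ 2 / (8 * ρ))) = B at *
    generalize cexp (π * I / 4) = P at *
    generalize cexp (-(π * I / 4)) = Q at *
    simp only [mul_zero, zero_mul, zero_div, zero_add]
    field_simp
    linear_combination (2 * ρ * s * P) * a3 - T * e2 - (2 * ρ * s ^ 2 * T) * e3

theorem Z_closedS {r : ℕ} (hr : 2 ≤ r) :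
    tauS ![2, 4, -4] r / tauS ![] r = (1 + (-1) ^ r) / 2 *
      (I / 2 * (√(2 / r) : ℝ) * cexp (-(5 * π * I / 4) / r) *
        ((1 - I) * ((∫ t : ℝ, cexp (-(2 * π / r) * t ^ 2) / CH t) -
          (√(r / 2) : ℝ) * cexp (-(π * I * r / 4))))) := by
  rcases Nat.even_or_odd' r with ⟨ρ, rfl | rfl⟩
  · rw [Z_even (by omega), mordell (by omega), Even.neg_one_pow (even_two_mul ρ)]
    ring
  · rw [Z_odd hr (odd_two_mul_add_one ρ), Odd.neg_one_pow (odd_two_mul_add_one ρ)]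
    ring

theorem hasExpansion_of_series {m : ℕ} (Z : ℕ → ℂ) (c : Fin (m + 1) → ℝ) (d : Fin (m + 1) → ℚ)
    (A p : Fin (m + 1) → ℕ → ℂ)
    (hp : ∀ j (E : ℕ), ∃ C : ℝ, 0 ≤ C ∧ ∀ r : ℕ, 0 < r →
      ‖A j r - ∑ e ∈ Finset.range (E + 1), p j e / (r : ℂ) ^ e‖ ≤ C * (1 / r) ^ (E + 1))
    (J : Fin (m + 1) → ℚ) (v : Fin (m + 1) → ℝ) (hv : ∀ j, 0 < v j)
    (h0 : ∀ j, p j 0 = v j * cexp (2 * π * I * (J j / 8)))
    (hZ : ∀ r : ℕ, 2 ≤ r →
      Z r = ∑ j, (((r : ℝ) ^ (d j : ℝ) : ℝ) : ℂ) * cexp (2 * π * I * (r * c j)) * A j r) :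
    HasExpansion Z c d := by
  refine ⟨J, v, fun j e => p j e / p j 0, hv, fun E => ?_⟩
  choose C hC0 hC using fun j => hp j E
  refine ⟨∑ j, C j, fun r hr => ?_⟩
  have hr' : (2:ℝ) ≤ r := by exact_mod_cast hr
  have hr0 : (0:ℝ) < r := by linarith
  rw [hZ r hr, ← Finset.sum_sub_distrib, Finset.sum_mul]
  refine (norm_sum_le _ _).trans (Finset.sum_le_sum fun j _ => ?_)
  have hA0 : p j 0 ≠ 0 := by
    rw [h0]
    exact mul_ne_zero (ofReal_ne_zero.mpr (hv j).ne') (Complex.exp_ne_zero _)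
  have e1 : ((v j * (r : ℝ) ^ (d j : ℝ) : ℝ) : ℂ) * cexp (2 * π * I * (r * c j + J j / 8)) *
      (1 + ∑ e ∈ Finset.Icc 1 E, p j e / p j 0 / (r : ℂ) ^ e) =
      (((r : ℝ) ^ (d j : ℝ) : ℝ) : ℂ) * cexp (2 * π * I * (r * c j)) *
        ∑ e ∈ Finset.range (E + 1), p j e / (r : ℂ) ^ e := by
    have e2 : ∑ e ∈ Finset.range (E + 1), p j e / (r : ℂ) ^ e =
        p j 0 * (1 + ∑ e ∈ Finset.Icc 1 E, p j e / p j 0 / (r : ℂ) ^ e) := by
      rw [Finset.range_eq_Ico, Finset.sum_eq_sum_Ico_succ_bot (by omega), mul_add,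
        Finset.mul_sum]
      congr 1
      · simp
      · refine Finset.sum_congr (by ext; simp) fun e _ => ?_
        field_simp
    rw [e2, mul_add (2 * π * I), Complex.exp_add]
    generalize (1 + ∑ e ∈ Finset.Icc 1 E, p j e / p j 0 / (r : ℂ) ^ e) = S
    rw [h0]
    push_cast
    ring
  rw [e1, ← mul_sub, norm_mul, norm_mul, norm_real, Real.norm_of_nonneg (by positivity)]
  have e3 : ‖cexp (2 * π * I * (r * c j))‖ = 1 := by
    have : 2 * π * I * (r * c j) = ((2 * π * r * c j : ℝ) : ℂ) * I := by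
      push_cast
      ring
    rw [this, norm_exp_ofReal_mul_I]
  rw [e3, mul_one]
  have e4 : (r:ℝ) ^ (d j : ℝ) * (1 / r) ^ (E + 1) ≤
      (r : ℝ) ^ (((Finset.univ.sup' Finset.univ_nonempty d : ℚ) : ℝ) - E - 1) := by
    have : (1 / (r:ℝ)) ^ (E + 1) = (r:ℝ) ^ (-((E:ℝ) + 1)) := by
      rw [Real.rpow_neg hr0.le, one_div, inv_pow, ← Real.rpow_natCast]
      push_cast
      rfl
    rw [this, ← Real.rpow_add hr0]
    apply Real.rpow_le_rpow_of_exponent_le (by linarith)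
    have : (d j : ℝ) ≤ ((Finset.univ.sup' Finset.univ_nonempty d : ℚ) : ℝ) := by
      exact_mod_cast Finset.le_sup' d (Finset.mem_univ j)
    linarith
  calc (r:ℝ) ^ (d j : ℝ) * ‖A j r - ∑ e ∈ Finset.range (E + 1), p j e / (r : ℂ) ^ e‖
      ≤ (r:ℝ) ^ (d j : ℝ) * (C j * (1 / r) ^ (E + 1)) := by
        gcongr
        exact hC j r (by omega)
    _ = C j * ((r:ℝ) ^ (d j : ℝ) * (1 / r) ^ (E + 1)) := by ring
    _ ≤ _ := by
        gcongr
        exact hC0 j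

theorem series_mul {A p : ℕ → ℂ} (k : ℂ)
    (h : ∀ E : ℕ, ∃ C : ℝ, 0 ≤ C ∧ ∀ r : ℕ, 0 < r →
      ‖A r - ∑ e ∈ Finset.range (E + 1), p e / (r : ℂ) ^ e‖ ≤ C * (1 / r) ^ (E + 1)) (E : ℕ) :
    ∃ C : ℝ, 0 ≤ C ∧ ∀ r : ℕ, 0 < r →
      ‖k * A r - ∑ e ∈ Finset.range (E + 1), k * p e / (r : ℂ) ^ e‖ ≤ C * (1 / r) ^ (E + 1) := by
  obtain ⟨C, h0, h1⟩ := h E
  refine ⟨‖k‖ * C, by positivity, fun r hr => ?_⟩
  simp only [mul_div_assoc]
  rw [← Finset.mul_sum, ← mul_sub, norm_mul, mul_assoc]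
  gcongr
  exact h1 r hr

theorem ZS_expansion : HasExpansion (fun r => tauS ![2, 4, -4] r / tauS ![] r)
    ![0, 3 / 8, 1 / 2, 7 / 8] ![-1 / 2, 0, -1 / 2, 0] := by
  obtain ⟨p, hp0, hp⟩ := mordell_series (-(5 * π * I / 4)) (by simp)
  have h1 := series_mul ((√2 : ℝ) / 4 * (1 + I)) hp
  have h2 := series_mul (A := fun r => cexp (-(5 * π * I / 4) / r))
    (p := fun e => (-(5 * π * I / 4)) ^ e / e.factorial) (-(1 + I) / 4)
    fun E => ⟨_, by positivity, fun r _ => exp_series (by simp) E r⟩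
  have s2 : ((√2 : ℝ) : ℂ) ^ 2 = 2 := by
    rw [← ofReal_pow, Real.sq_sqrt (by norm_num)]
    simp
  have a0 : (√2 : ℝ) / 4 * (1 + I) * p 0 =
      ((√2 / 4 : ℝ) : ℂ) * cexp (2 * π * I * (((2 : ℚ) : ℂ) / 8)) := by
    have : (2 * π * I * (((2 : ℚ) : ℂ) / 8)) = π / 2 * I := by
      push_cast
      ring
    rw [this, exp_pi_div_two_mul_I, hp0]
    push_cast
    linear_combination ((√2 : ℝ) / 8 : ℂ) * I_mul_I
  have a1 : -(1 + I) / 4 * ((-(5 * π * I / 4)) ^ 0 / (Nat.factorial 0)) =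
      ((√2 / 4 : ℝ) : ℂ) * cexp (2 * π * I * (((5 : ℚ) : ℂ) / 8)) := by
    rw [exp_eq_neg_of (y := (π / 4 : ℝ) * I) 0 (by push_cast; ring), exp_mul_I, ← ofReal_cos,
      ← ofReal_sin, Real.cos_pi_div_four, Real.sin_pi_div_four]
    simp only [pow_zero, Nat.factorial_zero]
    push_cast
    linear_combination ((1 + I) / 8) * s2
  refine hasExpansion_of_series _ _ _ ![_, _, _, _] ![_, _, _, _]
    (fun j => by fin_cases j; exacts [h1, h2, h1, h2]) ![2, 5, 2, 5] (fun _ => √2 / 4)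
    (fun _ => by positivity) (fun j => by fin_cases j; exacts [a0, a1, a0, a1]) fun r hr => ?_
  have hrr : (0:ℝ) < r := by exact_mod_cast (by omega : 0 < r)
  have b5 : ((√r : ℝ) : ℂ) ≠ 0 := ofReal_ne_zero.mpr (Real.sqrt_ne_zero'.mpr hrr)
  have b6 : ((√2 : ℝ) : ℂ) ≠ 0 := by simp
  have p1 : (((r : ℝ) ^ (((-1 / 2 : ℚ)) : ℝ) : ℝ) : ℂ) = ((√r : ℝ) : ℂ)⁻¹ := by
    rw [Real.sqrt_eq_rpow, ← ofReal_inv, ← Real.rpow_neg hrr.le]
    norm_num
  have q2 : cexp (2 * π * I * (r * (1 / 2 : ℝ))) = (-1) ^ r := by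
    rw [← exp_pi_mul_I, ← Complex.exp_nat_mul]
    congr 1
    push_cast
    ring
  have q1 : cexp (2 * π * I * (r * (3 / 8 : ℝ))) = (-1) ^ r * cexp (-(π * I * r / 4)) := by
    rw [← q2, ← Complex.exp_add]
    congr 1
    push_cast
    ring
  have q3 : cexp (2 * π * I * (r * (7 / 8 : ℝ))) = cexp (-(π * I * r / 4)) := by
    rw [exp_eq_exp_iff_exists_int]
    exact ⟨r, by push_cast; ring⟩
  rw [Z_closedS hr, Fin.sum_univ_four]
  simp only [Matrix.cons_val, p1, q1, q2, q3, Rat.cast_zero, Real.rpow_zero, ofReal_one,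
    ofReal_zero, mul_zero, Complex.exp_zero]
  rw [Real.sqrt_div (by norm_num), Real.sqrt_div hrr.le]
  push_cast
  generalize ((√r : ℝ) : ℂ) = sr at *
  generalize ((√2 : ℝ) : ℂ) = s at *
  generalize (∫ t : ℝ, cexp (-(2 * π / r) * t ^ 2) / CH t) = X
  generalize cexp (-(5 * π * I / 4) / r) = Y
  generalize cexp (-(π * I * r / 4)) = W
  generalize ((-1 : ℂ) ^ r) = ε
  field_simp
  linear_combination (-4 * (1 + ε) * Y * (s * X - sr * W)) * I_mul_I

end Pool.Agent.P.MP_27a476_gt
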