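import Pool.Agent.P.MP_27a476_gt.PrZ

set_option autoImplicit false

open Complex Filter MeasureTheory Real Topology

namespace Pool.Agent.P.MP_27a476_gt

/-- The exponent of the integrand, times the level. -/
noncomputable def zz (t : ℝ) : ℂ := 18 * π * I / 7 + π * I / 378 * (-5 / 2 - 7 * (1 + I) * t) ^ 2

/-- The kernel. -/
noncomputable def kn (n t : ℝ) : ℂ := cexp (π * (1 - I) * n / 27 * t) / CH t

theorem zz_cont : Continuous zz := by
  unfold zz
  fun_prop

theorem zz_re (t : ℝ) : (zz t).re ≤ π := by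
  have h1 : zz t = ((π / 378 : ℝ) : ℂ) * (I * ((-5 / 2 : ℝ) - 7 * (1 + I) * t) ^ 2) +
      ((18 * π / 7 : ℝ) : ℂ) * I := by
    rw [zz]
    push_cast
    ring
  have h2 := re_sq_le (-5 / 2) t
  rw [ofReal_im] at h2
  rw [h1, add_re, re_ofReal_mul, re_ofReal_mul, I_re]
  nlinarith [pi_pos]

theorem zz_norm (t : ℝ) : ‖zz t‖ ≤ (3 * π + π * 14 ^ 2) * (1 + |t|) ^ 2 := by
  have hπ := pi_pos
  have h0 := abs_nonneg t
  have h1 : ‖(-5 / 2 - 7 * (1 + I) * t : ℂ)‖ ≤ 14 * (1 + |t|) := by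
    refine (norm_sub_le _ _).trans ?_
    have a1 : ‖(1 + I : ℂ)‖ ≤ 2 := (norm_add_le _ _).trans (by simp [one_add_one_eq_two])
    have a2 : ‖(1 + I : ℂ)‖ * |t| ≤ 2 * |t| := by gcongr
    simp only [norm_mul, norm_div, norm_neg, Complex.norm_ofNat, norm_real, Real.norm_eq_abs]
    nlinarith
  rw [zz, add_mul]
  refine (norm_add_le _ _).trans (add_le_add ?_ ?_)
  · have a1 : (1:ℝ) ≤ (1 + |t|) ^ 2 := one_le_pow₀ (by linarith)
    simp only [norm_mul, norm_div, Complex.norm_ofNat, norm_real, Real.norm_eq_abs, norm_I,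
      abs_of_pos hπ]
    nlinarith
  · rw [norm_mul, norm_pow, mul_assoc π (14 ^ 2), ← mul_pow]
    gcongr
    simp only [norm_mul, norm_div, Complex.norm_ofNat, norm_real, Real.norm_eq_abs, norm_I,
      abs_of_pos hπ]
    linarith

theorem exp_zz (r : ℕ) (t : ℝ) :
    cexp (zz t / r) = cexp (18 * π * I / 7 / r) * Gs r (-5 / 2 - 7 * (1 + I) * t) := by
  rw [Gs, ← Complex.exp_add, zz]
  congr 1
  ring

theorem lin_norm (n : ℝ) (w : ℂ) :
    ‖cexp (π * (1 - I) * n / 27 * w)‖ = Real.exp (π * n / 27 * (w.re + w.im)) := by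
  have : π * (1 - I) * n / 27 * w = ((π * n / 27 : ℝ) : ℂ) * ((1 - I) * w) := by
    push_cast
    ring
  rw [Complex.norm_exp, this, re_ofReal_mul]
  simp

theorem lin_le {n : ℝ} (hn : |n| ≤ 26) (x : ℝ) : π * n / 27 * x ≤ 26 * π / 27 * |x| := by
  have hπ := pi_pos
  have h1 : n * x ≤ 26 * |x| := (le_abs_self _).trans (by rw [abs_mul]; gcongr)
  nlinarith

theorem ser_Im {n : ℝ} (hn : |n| ≤ 26) : Ser (fun r => cexp (18 * π * I / 7 / r) * Im r n)
    (fun e => (∫ t, zz t ^ e * kn n t) / e.factorial) := by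
  have hπ := pi_pos
  refine (ser_int (κ := kn n) ?_ (3 * 1) (π - 26 * π / 27) (by linarith)
    (kap_decay 1 _ fun t => ?_) zz_cont π _ hπ.le zz_re zz_norm).congr fun r _ => ?_
  · exact ((by fun_prop : Continuous fun t : ℝ => cexp (π * (1 - I) * n / 27 * t)).div
      (CH_diff.continuous.comp continuous_ofReal) CH_real_ne).aestronglyMeasurable
  · rw [lin_norm, one_mul, Real.exp_le_exp]
    simpa using lin_le hn t
  · rw [Im, ← integral_const_mul]
    simp only [exp_zz, kn, mul_assoc, mul_div_assoc]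

theorem mom {n : ℝ} (hn : |n| ≤ 26) (α β γ : ℂ) (F : ℝ → ℂ)
    (hF : ∀ t : ℝ, F t = α * (-(1 + I) * t) ^ 2 + β * (-(1 + I) * t) + γ + cexp (π * I * n / 27) *
      (α * (-(1 + I) * t + 1) ^ 2 + β * (-(1 + I) * t + 1) + γ)) :
    ∫ t, F t * kn n t = (1 + I) * (α / 4 + β / 2 + γ) * cexp (π * I * n / 54) := by
  have hπ := pi_pos
  obtain ⟨K, k0, k1⟩ := poly_le 2 (by positivity : 0 < π / 54)
  have h := residue_exp (g := fun w => (α * (-(1 + I) * w) ^ 2 + β * (-(1 + I) * w) + γ) *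
    cexp (π * (1 - I) * n / 27 * w)) (by fun_prop)
    ((4 * ‖α‖ + 2 * ‖β‖ + ‖γ‖) * K * Real.exp π) (π / 54 + 26 * π / 27) (by positivity)
    (by linarith) fun w h0 h1 => by
      have a0 := abs_nonneg w.re
      have a1 : ‖-(1 + I) * w‖ ≤ 2 * (1 + |w.re|) := by
        rw [norm_mul, norm_neg]
        gcongr
        · exact (norm_add_le _ _).trans (by simp [one_add_one_eq_two])
        · refine (norm_le_abs_re_add_abs_im w).trans ?_
          rw [abs_of_nonneg h0]
          linarith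
      have a2 : ‖α * (-(1 + I) * w) ^ 2 + β * (-(1 + I) * w) + γ‖ ≤
          (4 * ‖α‖ + 2 * ‖β‖ + ‖γ‖) * (1 + |w.re|) ^ 2 := by
        refine norm_add₃_le.trans ?_
        rw [norm_mul, norm_mul β, norm_pow]
        have b1 : ‖-(1 + I) * w‖ ^ 2 ≤ (2 * (1 + |w.re|)) ^ 2 := by gcongr
        have b2 : ‖-(1 + I) * w‖ ≤ 2 * (1 + |w.re|) ^ 2 := by nlinarith
        have b3 : (1:ℝ) ≤ (1 + |w.re|) ^ 2 := by nlinarith
        have c1 := mul_le_mul_of_nonneg_left b1 (norm_nonneg α)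
        have c2 := mul_le_mul_of_nonneg_left b2 (norm_nonneg β)
        have c3 := mul_le_mul_of_nonneg_left b3 (norm_nonneg γ)
        nlinarith
      have a3 : π * n / 27 * (w.re + w.im) ≤ π + 26 * π / 27 * |w.re| := by
        have b1 := lin_le hn w.re
        have b2 := lin_le hn w.im
        rw [abs_of_nonneg h0] at b2
        nlinarith
      rw [norm_mul, lin_norm]
      calc _ ≤ (4 * ‖α‖ + 2 * ‖β‖ + ‖γ‖) * (K * Real.exp (π / 54 * |w.re|)) *
            Real.exp (π + 26 * π / 27 * |w.re|) := by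
            gcongr
            exact a2.trans (by gcongr; exact k1 _)
        _ = _ := by
            rw [add_mul (π / 54), Real.exp_add, Real.exp_add]
            ring
  have e1 : ∀ t : ℝ, -(1 + I) * (t + (-1 + I) / 2) = -(1 + I) * t + 1 := by
    intro t
    linear_combination (-1 / 2 : ℂ) * I_mul_I
  have e2 : ∀ t : ℝ, π * (1 - I) * n / 27 * (t + (-1 + I) / 2) =
      π * I * n / 27 + π * (1 - I) * n / 27 * t := by
    intro t
    linear_combination (-π * n / 54 : ℂ) * I_mul_I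
  have e3 : -(1 + I) * ((-1 + I) / 4) = 1 / 2 := by
    linear_combination (-1 / 4 : ℂ) * I_mul_I
  have e4 : π * (1 - I) * n / 27 * ((-1 + I) / 4) = π * I * n / 54 := by
    linear_combination (-π * n / 108 : ℂ) * I_mul_I
  simp only [e1, e2, e3, e4, Complex.exp_add] at h
  rw [show (1 + I) * (α / 4 + β / 2 + γ) * cexp (π * I * n / 54) =
    (1 + I) * ((α * (1 / 2) ^ 2 + β * (1 / 2) + γ) * cexp (π * I * n / 54)) by ring, ← h]
  congr 1
  funext t
  rw [hF, kn]
  ring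

/-- The amplitude with the framing factor. -/
noncomputable def BB (p r : ℕ) : ℂ := cexp (18 * π * I / 7 / r) * Bp r p

/-- The coefficients of its expansion. -/
noncomputable def PP (p e : ℕ) : ℂ :=
  2 * (-1) ^ (p + kk p) * cexp (-(5 * π * I * p / 54)) *
      ((∫ t, zz t ^ e * kn (7 * p - 54 * kk p) t) / e.factorial) +
    -((1 + I) * (-1) ^ p * cexp (π * I * p / 27)) *
      ((18 * π * I / 7 + π * I / 378) ^ e / e.factorial)

theorem kk_bound {p : ℕ} (hp : p % 54 ≠ 27) : |(7 * p - 54 * kk p : ℝ)| ≤ 26 := by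
  have h1 : -26 ≤ (7 * p - 54 * kk p : ℤ) := by
    rw [kk]
    omega
  have h2 : (7 * p - 54 * kk p : ℤ) ≤ 26 := by
    rw [kk]
    omega
  exact abs_le.mpr ⟨by exact_mod_cast h1, by exact_mod_cast h2⟩

theorem re_aux : (18 * π * I / 7 + π * I / 378 : ℂ).re ≤ 0 := by simp

theorem ser_BB {p : ℕ} (hp : p % 54 ≠ 27) : Ser (BB p) (PP p) := by
  refine (((ser_Im (kk_bound hp)).const_mul _).add ((ser_exp re_aux).const_mul _)).congr
    fun r _ => ?_
  rw [BB, Bp, add_div, Complex.exp_add]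
  ring

theorem PP_val {p : ℕ} (hp : p % 54 ≠ 27) {ζ l μ : ℂ} (h1 : cexp (π * I * p / 27) = ζ)
    (h2 : ζ ^ 7 = l) (h3 : (1 + l) * μ = 1) :
    PP p 0 = (1 + I) * ((-1) ^ p * (ζ * (2 * μ - 1))) ∧
    PP p 1 = 18 * π * I / 7 * PP p 0 + π * I / 378 * (1 + I) *
      ((-1) ^ p * (ζ * (2 * (μ - 63 * l * μ ^ 2 + 98 * l ^ 2 * μ ^ 3) - 1))) := by
  have a1 : cexp (π * I * (7 * p - 54 * kk p : ℝ) / 27) = l := by
    rw [← h2, ← h1, ← Complex.exp_nat_mul, exp_eq_exp_iff_exists_int]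
    exact ⟨-kk p, by push_cast; ring⟩
  have a2 : (-1) ^ kk p * cexp (-(5 * π * I * p / 54)) *
      cexp (π * I * (7 * p - 54 * kk p : ℝ) / 54) = ζ := by
    rw [← h1, neg_one_pow_exp, ← Complex.exp_add, ← Complex.exp_add]
    congr 1
    push_cast
    ring
  have a3 := mom (kk_bound hp) 0 0 μ (fun t => zz t ^ 0) fun t => by
    rw [a1]
    linear_combination -h3
  have a4 := mom (kk_bound hp) (49 * (π * I / 378) * μ) (π * I / 378 * (-35 * μ - 98 * l * μ ^ 2))
    (18 * π * I / 7 * μ + π * I / 378 * (25 / 4 * μ - 14 * l * μ ^ 2 + 98 * l ^ 2 * μ ^ 3))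
    (fun t => zz t ^ 1) fun t => by
      rw [a1, zz]
      linear_combination -(49 * (π * I / 378) * (-(1 + I) * t) ^ 2 -
        π * I / 378 * (35 + 98 * l * μ) * (-(1 + I) * t) + 18 * π * I / 7 +
        π * I / 378 * (25 / 4 - 14 * l * μ + 98 * l ^ 2 * μ ^ 2)) * h3
  simp only [PP, a3, a4, h1, pow_add, Nat.factorial, Nat.succ_eq_add_one]
  rw [← a2]
  constructor <;> push_cast <;> ring

end Pool.Agent.P.MP_27a476_gt
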