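import Pool.Agent.P.MP_27a476_gt.NilCS

set_option autoImplicit false

namespace Pool.Agent.P.MP_27a476_gt

variable {Γ Δ : Type*} [Group Γ] [Group Δ] {A : Type*} [AddCommGroup A]

/-- Pairing of a cochain with the fundamental cycle, for given group elements. -/
noncomputable def cyc (ω : Γ → Γ → Γ → A) {n : ℕ} (f : Fin n → ℤ) (h : Γ) (x : Fin n → Γ) : A :=
  ∑ i, (∑ t ∈ Finset.Ico 1 (-f i), ω (x i) (x i ^ t) (x i) -
    ∑ t ∈ Finset.Ico (-f i) 1, ω (x i) (x i ^ t) (x i) -
    (ω h ((List.ofFn x).take i).prod (x i) - ω ((List.ofFn x).take i).prod h (x i) +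
      ω ((List.ofFn x).take i).prod (x i) h))

theorem cyc_map (ω : Δ → Δ → Δ → A) (φ : Γ →* Δ) {n : ℕ} (f : Fin n → ℤ) (h : Γ)
    (x : Fin n → Γ) :
    cyc (fun a b c => ω (φ a) (φ b) (φ c)) f h x = cyc ω f (φ h) (fun i => φ (x i)) := by
  have : (List.ofFn fun i => φ (x i)) = (List.ofFn x).map φ := by
    rw [List.map_ofFn]
    rfl
  simp only [cyc, map_zpow, map_list_prod, this, List.map_take]

theorem cyc_add (ω ω' : Γ → Γ → Γ → A) {n : ℕ} (f : Fin n → ℤ) (h : Γ) (x : Fin n → Γ) :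
    cyc (fun a b c => ω a b c + ω' a b c) f h x = cyc ω f h x + cyc ω' f h x := by
  simp only [cyc, Finset.sum_add_distrib]
  rw [← Finset.sum_add_distrib]
  refine Finset.sum_congr rfl fun i _ => ?_
  abel

theorem cyc_nsmul (m : ℕ) (ω : Γ → Γ → Γ → A) {n : ℕ} (f : Fin n → ℤ) (h : Γ) (x : Fin n → Γ) :
    cyc (fun a b c => m • ω a b c) f h x = m • cyc ω f h x := by
  simp only [cyc, Finset.smul_sum, smul_sub, smul_add]

theorem cyc_zsmul (L : A) (ω : Γ → Γ → Γ → ℤ) {n : ℕ} (f : Fin n → ℤ) (h : Γ) (x : Fin n → Γ) :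
    cyc (fun a b c => ω a b c • L) f h x = cyc ω f h x • L := by
  simp only [cyc, Finset.sum_smul, sub_smul, add_smul]

theorem signed_tele (F : ℤ → A) (N : ℤ) :
    ∑ t ∈ Finset.Ico 1 N, (F (t + 1) - F t) - ∑ t ∈ Finset.Ico N 1, (F (t + 1) - F t) =
      F N - F 1 := by
  have h := const_of_succ (fun N => ∑ t ∈ Finset.Ico 1 N, (F (t + 1) - F t) -
    ∑ t ∈ Finset.Ico N 1, (F (t + 1) - F t) - F N) fun y => by
      by_cases hy : 1 ≤ y
      · have h1 : Finset.Ico 1 (y + 1) = insert y (Finset.Ico 1 y) := by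
          ext t
          simp only [Finset.mem_Ico, Finset.mem_insert]
          omega
        rw [h1, Finset.sum_insert (by simp), Finset.Ico_eq_empty (a := y + 1) (by omega),
          Finset.Ico_eq_empty (a := y) (by omega)]
        simp only [Finset.sum_empty]
        abel
      · have h1 : Finset.Ico y 1 = insert y (Finset.Ico (y + 1) 1) := by
          ext t
          simp only [Finset.mem_Ico, Finset.mem_insert]
          omega
        rw [h1, Finset.sum_insert (by simp), Finset.Ico_eq_empty (b := y + 1) (by omega),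
          Finset.Ico_eq_empty (b := y) (by omega)]
        simp only [Finset.sum_empty]
        abel
  have h2 := (h N).trans (h 1).symm
  simp only [Finset.Ico_self, Finset.sum_empty] at h2
  linear_combination (norm := abel1) h2

theorem cyc_cob (K : Γ → Γ → A) {n : ℕ} (f : Fin n → ℤ) (h : Γ) (x : Fin n → Γ)
    (r1 : ∀ i, x i * h = h * x i) (r2 : ∀ i, x i ^ f i * h = 1) (r3 : (List.ofFn x).prod = 1) :
    cyc (fun a b c => K b c - K (a * b) c + K a (b * c) - K a b) f h x = 0 := by
  set P : ℕ → A := fun i => K h ((List.ofFn x).take i).prod - K ((List.ofFn x).take i).prod h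
    with hP
  have h1 : ∀ i : ℕ, ((List.ofFn x).take i).prod * h = h * ((List.ofFn x).take i).prod := by
    intro i
    refine Commute.list_prod_left _ _ fun y hy => ?_
    obtain ⟨j, rfl⟩ := (List.mem_ofFn' _ _).mp (List.mem_of_mem_take hy)
    exact r1 j
  rw [cyc, Finset.sum_congr rfl (g := fun i : Fin n => P i - P (i + 1)),
    Fin.sum_univ_eq_sum_range (fun i => P i - P (i + 1)), Finset.sum_range_sub']
  · have : (List.ofFn x).take n = List.ofFn x := List.take_of_length_le (by simp)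
    simp only [hP, this, r3, List.take_zero, List.prod_nil, sub_self]
  · intro i _
    have h2 := signed_tele (fun t => K (x i) (x i ^ t) - K (x i ^ t) (x i)) (-f i)
    have h3 : x i ^ (-f i) = h := by
      rw [zpow_neg]
      exact inv_eq_of_mul_eq_one_right (r2 i)
    have h4 : ∀ t : ℤ, K (x i ^ t) (x i) - K (x i * x i ^ t) (x i) + K (x i) (x i ^ t * x i) -
        K (x i) (x i ^ t) = K (x i) (x i ^ (t + 1)) - K (x i ^ (t + 1)) (x i) -
          (K (x i) (x i ^ t) - K (x i ^ t) (x i)) := by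
      intro t
      rw [← zpow_add_one, ← zpow_one_add, add_comm 1 t]
      abel
    have h5 : ((List.ofFn x).take (i + 1)).prod = ((List.ofFn x).take i).prod * x i := by
      rw [List.prod_take_succ _ _ (by simp)]
      simp
    simp only [h4, h2, h3, zpow_one, hP, h5, h1, r1]
    abel

theorem exists_D_per (ω : ℤ → ℤ → ℤ → A)
    (hc : ∀ a b c d, ω b c d - ω (a + b) c d + ω a (b + c) d - ω a b (c + d) + ω a b c = 0)
    (N : ℕ) (h1 : ∀ a b c, ω (a + N) b c = ω a b c) (h2 : ∀ a b c, ω a (b + N) c = ω a b c)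
    (h3 : ∀ a b c, ω a b (c + N) = ω a b c) :
    ∃ D : ℤ → ℤ → A, (∀ x y z, ω x y z = D y z - D (x + y) z + D x (y + z) - D x y) ∧
      (∀ y z m, D y (z + N * m) = D y z) ∧
      ∀ y z m, D (y + N * m) z = D y z - (m * z) • ∑ t ∈ Finset.range N, ω 1 t 1 := by
  choose S hS0 hS using fun φ : ℤ → A => exists_antider φ
  set D : ℤ → ℤ → A := fun y z => ω 1 0 z - S (fun y => ω 1 y z) y with hD
  have a1 : ∀ z, D 1 z = 0 := by
    intro z
    have := hS (fun y => ω 1 y z) 0
    rw [zero_add, hS0, zero_add] at this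
    simp only [hD, this, sub_self]
  have a2 : ∀ y z, D (1 + y) z = D y z - ω 1 y z := by
    intro y z
    simp only [hD]
    rw [add_comm 1 y, hS]
    abel
  have a3 : ∀ x y z, ω x y z = D y z - D (x + y) z + D x (y + z) - D x y := by
    intro x y z
    have h3 : ∀ x, ω (x + 1) y z - (D y z - D (x + 1 + y) z + D (x + 1) (y + z) - D (x + 1) y) =
        ω x y z - (D y z - D (x + y) z + D x (y + z) - D x y) := by
      intro x
      have h4 := hc 1 x y z
      rw [add_comm x 1, add_assoc, a2, a2, a2]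
      linear_combination (norm := abel1) -h4
    have h5 := const_of_succ
      (fun x => ω x y z - (D y z - D (x + y) z + D x (y + z) - D x y)) h3
    have h6 := (h5 x).trans (h5 1).symm
    simp only [a1, a2] at h6
    linear_combination (norm := abel1) h6
  have a4 : ∀ y z, D y (z + N) = D y z := by
    intro y z
    simp only [hD, h3]
  have a5 : ∀ y z, D (y + N) z - D y z = D N z - D 0 z := by
    intro y z
    have := const_of_succ (fun y => D (y + N) z - D y z) (fun y => by
      rw [add_comm y 1, add_assoc, a2, a2, h2]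
      abel) y
    simpa using this
  let φ : ℤ →+ A := AddMonoidHom.mk' (fun z => D N z - D 0 z) fun p z => by
    have b1 := a3 0 p z
    have b2 := a3 (0 + N) p z
    have b3 := a5 p z
    rw [h1, zero_add, add_comm (N : ℤ) p] at b2
    rw [zero_add] at b1
    linear_combination (norm := abel1) b1 - b2 + b3
  have a6 : D N 1 - D 0 1 = -∑ t ∈ Finset.range N, ω 1 t 1 := by
    have := Finset.sum_range_sub' (fun t : ℕ => D t 1) N
    rw [Finset.sum_congr rfl (g := fun t : ℕ => ω 1 t 1) fun t _ => by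
      push_cast
      rw [add_comm, a2]
      abel] at this
    rw [this]
    simp
  have a7 : ∀ y z, D (y + N) z = D y z - z • ∑ t ∈ Finset.range N, ω 1 t 1 := by
    intro y z
    have b3 : φ z = z • φ 1 := by rw [← map_zsmul, smul_eq_mul, mul_one]
    have b4 : D N z - D 0 z = z • (D N 1 - D 0 1) := b3
    rw [a6, smul_neg, ← a5 y] at b4
    linear_combination (norm := abel1) b4
  refine ⟨D, a3, fun y z m => ?_, fun y z m => ?_⟩
  · have := const_of_succ (fun m => D y (z + N * m)) (fun m => by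
      rw [mul_add, mul_one, ← add_assoc, a4]) m
    simpa using this
  · have a8 := const_of_succ
      (fun m => D (y + N * m) z + (m * z) • ∑ t ∈ Finset.range N, ω 1 t 1) (fun m => ?_) m
    · simp only [mul_zero, add_zero, zero_mul, zero_smul] at a8
      rw [← a8]
      abel
    · rw [mul_add, mul_one, ← add_assoc, a7, add_mul, one_mul, add_smul]
      abel

theorem transfer (ω : Γ → Γ → Γ → A)
    (hc : ∀ a b c d, ω b c d - ω (a * b) c d + ω a (b * c) d - ω a b (c * d) + ω a b c = 0)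
    {X : Type*} [Fintype X] (τ : Γ → X → X) (hτ : ∀ g g' t, τ (g * g') t = τ g (τ g' t))
    (hb : ∀ g, Function.Bijective (τ g)) (ρ : X → Γ) (γ : Γ) (N : ℕ) (hγ : γ ^ N = 1)
    (c : Γ → X → ℤ) (hρ : ∀ g t, g * ρ t = ρ (τ g t) * γ ^ c g t) (e : Γ → Γ → X → ℤ)
    (he : ∀ g g' t, c g (τ g' t) + c g' t = c (g * g') t + N * e g g' t)
    {n : ℕ} (f : Fin n → ℤ) (h : Γ) (x : Fin n → Γ)
    (r1 : ∀ i, x i * h = h * x i) (r2 : ∀ i, x i ^ f i * h = 1) (r3 : (List.ofFn x).prod = 1) :
    Fintype.card X • cyc ω f h x =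
      cyc (fun a b d => ∑ t, e a b (τ d t) * c d t) f h x •
        ∑ t ∈ Finset.range N, ω γ (γ ^ t) γ := by
  have hg' : ∀ a : ℤ, γ ^ (a + N) = γ ^ a := by
    intro a
    rw [zpow_add, zpow_natCast, hγ, mul_one]
  obtain ⟨D, d1, d2, d3⟩ := exists_D_per (fun a b c : ℤ => ω (γ ^ a) (γ ^ b) (γ ^ c))
    (fun a b c d => by simpa only [zpow_add] using hc (γ ^ a) (γ ^ b) (γ ^ c) (γ ^ d)) N
    (fun a b c => by rw [hg']) (fun a b c => by rw [hg']) (fun a b c => by rw [hg'])
  simp only [zpow_one, zpow_natCast] at d3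
  have hm : ∀ g g' t, γ ^ c g (τ g' t) * γ ^ c g' t = γ ^ c (g * g') t := by
    intro g g' t
    rw [← zpow_add, he, zpow_add, zpow_mul, zpow_natCast, hγ, one_zpow, mul_one]
  set k : Γ → Γ → X → A := fun g g' t => D (c g (τ g' t)) (c g' t) -
    (ω (ρ (τ (g * g') t)) (γ ^ c g (τ g' t)) (γ ^ c g' t) - ω g (ρ (τ g' t)) (γ ^ c g' t) +
      ω g g' (ρ t)) with hk
  rw [← cyc_nsmul, ← cyc_zsmul, ← add_zero (cyc (fun a b d => (∑ t, e a b (τ d t) * c d t) • _)
    f h x), ← cyc_cob (fun g g' => ∑ t, k g g' t) f h x r1 r2 r3, ← cyc_add]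
  congr 1
  funext a b d
  rw [← (hb d).sum_comp (fun t => k a b t), Finset.sum_smul, ← Finset.sum_sub_distrib,
    ← Finset.sum_add_distrib, ← Finset.sum_sub_distrib, ← Finset.sum_add_distrib,
    ← Finset.card_univ, ← Finset.sum_const]
  refine Finset.sum_congr rfl fun t _ => ?_
  have c1 := hc (ρ (τ a (τ b (τ d t)))) (γ ^ c a (τ b (τ d t))) (γ ^ c b (τ d t)) (γ ^ c d t)
  have c2 := hc a (ρ (τ b (τ d t))) (γ ^ c b (τ d t)) (γ ^ c d t)
  have c3 := hc a b (ρ (τ d t)) (γ ^ c d t)
  have c4 := hc a b d (ρ t)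
  have c5 := d1 (c a (τ b (τ d t))) (c b (τ d t)) (c d t)
  rw [he, he, d2, d3] at c5
  rw [hm, hm] at c1
  rw [hm, hρ] at c2
  rw [hρ] at c3 c4
  simp only [hk, hτ]
  linear_combination (norm := abel1) c4 - c3 + c2 - c1 + c5

end Pool.Agent.P.MP_27a476_gt
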