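import Pool.Agent.P.MP_27a476_gt.PrCS
import Pool.Agent.P.MP_27a476_gt.NilCoh

set_option autoImplicit false

open scoped Quaternion Real
open QuaternionGroup groupCohomology

namespace Pool.Agent.P.MP_27a476_gt

/-- Numerators over 756 of the 25 Chern-Simons values. -/
def nn (j : ℕ) : ℤ :=
  if j < 7 then [0, 63, 252, 567, 27, 243, 675].getD j 0
  else 427 * ((j - 7 + (j - 7) / 2 + 1 : ℕ) : ℤ) ^ 2

theorem coe_756 (a b : ℤ) :
    (((a : ℝ) / 756 : ℝ) : UnitAddCircle) = (((b : ℝ) / 756 : ℝ) : UnitAddCircle) ↔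
      a % 756 = b % 756 := by
  rw [← sub_eq_zero, ← AddCircle.coe_sub, AddCircle.coe_eq_zero_iff]
  constructor
  · rintro ⟨n, hn⟩
    have : (a : ℝ) - b = 756 * n := by
      rw [zsmul_eq_mul] at hn
      linarith
    have : a - b = 756 * n := by exact_mod_cast this
    omega
  · intro h
    refine ⟨(a - b) / 756, ?_⟩
    have h1 : a - b = 756 * ((a - b) / 756) := by omega
    have h2 : (a : ℝ) - b = 756 * ((a - b) / 756 : ℤ) := by exact_mod_cast h1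
    rw [zsmul_eq_mul]
    linarith

theorem nn_inj :
    Function.Injective fun j : Fin 25 => (((nn j : ℝ) / 756 : ℝ) : UnitAddCircle) := by
  intro i j h
  simp only [coe_756] at h
  revert i j
  decide +kernel

theorem odd_of_pow (u : unitary ℍ[ℝ]) (n m : ℕ) (hm : 0 < m)
    (h : (u * eu (2 * π * n / (2 * m : ℕ)) * u⁻¹) ^ m = eu π) : Odd n := by
  have hm' : (m : ℝ) ≠ 0 := by exact_mod_cast hm.ne'
  have h1 := congrArg (fun q : unitary ℍ[ℝ] => (q : ℍ[ℝ]).re) h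
  rw [conj_pow, eu_pow, show (m : ℝ) * (2 * π * n / (2 * m : ℕ)) = n * π by
    push_cast; field_simp] at h1
  simp only [re_conj] at h1
  change Real.cos (n * π) = Real.cos π at h1
  rw [Real.cos_nat_mul_pi, Real.cos_pi] at h1
  by_contra h2
  rw [(Nat.not_odd_iff_even.mp h2).neg_one_pow] at h1
  norm_num at h1

theorem eu_pi_sq : eu π * eu π = 1 := by
  rw [eu_add, ← eu_zero, ← eu_period 0 1]
  congr 1
  push_cast
  ring

theorem dich (ρ : PiS ![2, 2, -7, 1, 1, 1] →* unitary ℍ[ℝ]) :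
    ρ (PresentedGroup.of (some 0)) * ρ (PresentedGroup.of (some 1)) =
      ρ (PresentedGroup.of (some 1)) * ρ (PresentedGroup.of (some 0)) ∨
    (ρ (PresentedGroup.of (some 2)) ^ 7 = eu π ∧ ρ (PresentedGroup.of (some 0)) ^ 2 = eu π) := by
  obtain ⟨x, y, z, -, h1, r0, r1, r2, -, -⟩ := relP ρ
  rw [show ρ (PresentedGroup.of (some 2)) = z from congrFun h1 2,
    show ρ (PresentedGroup.of (some 1)) = y from congrFun h1 1,
    show ρ (PresentedGroup.of (some 0)) = x from congrFun h1 0]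
  obtain ⟨u, η, hu⟩ := exists_conj (z ^ 7)
  rw [hu] at r0 r1 r2 ⊢
  by_cases hs : Real.sin η = 0
  · rw [eu_comm_of_sin hs, mul_inv_cancel_right] at r2 ⊢
    rcases Real.sin_eq_zero_iff_cos_eq.mp hs with hc | hc
    · left
      have a1 : eu η = 1 := by
        apply Subtype.ext
        ext <;> simp [eu, ee, hs, hc]
      obtain ⟨v, θ, rfl⟩ := exists_conj x
      rw [a1, mul_one, ← sq, conj_pow, eu_pow] at r2
      have a2 := congrArg (fun q : unitary ℍ[ℝ] => (q : ℍ[ℝ]).re) r2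
      simp only [re_conj] at a2
      change Real.cos (((2 : ℕ) : ℝ) * θ) = 1 at a2
      have a3 : Real.sin θ = 0 := by
        push_cast at a2
        rw [Real.cos_two_mul, Real.cos_sq'] at a2
        exact pow_eq_zero_iff two_ne_zero |>.mp (by linarith)
      rw [eu_comm_of_sin a3, mul_inv_cancel_right, eu_comm_of_sin a3]
    · right
      have a1 : eu η = eu π := by
        apply Subtype.ext
        ext <;> simp [eu, ee, hs, hc]
      rw [a1] at r2 ⊢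
      refine ⟨rfl, ?_⟩
      rw [sq, eq_inv_of_mul_eq_one_left r2, inv_eq_of_mul_eq_one_right eu_pi_sq]
  · left
    obtain ⟨φ, rfl⟩ := conj_torus x u hs r0
    obtain ⟨θ, rfl⟩ := conj_torus y u hs r1
    calc u * eu φ * u⁻¹ * (u * eu θ * u⁻¹) = u * (eu φ * eu θ) * u⁻¹ := by group
      _ = u * (eu θ * eu φ) * u⁻¹ := by rw [eu_add, eu_add, add_comm]
      _ = _ := by group

variable {w : unitary ℍ[ℝ] → unitary ℍ[ℝ] → unitary ℍ[ℝ] → UnitAddCircle}

theorem arith_ab (q : ℤ) (k : ℕ) :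
    (85 + 108 * q) • (((k : ℝ) ^ 2 / (108 : ℕ) : ℝ) : UnitAddCircle) =
      ((((595 * (k : ℤ) ^ 2 : ℤ) : ℝ) / 756 : ℝ) : UnitAddCircle) := by
  rw [← AddCircle.coe_zsmul, ← (coe_756 (595 * (k : ℤ) ^ 2 + 756 * (q * k ^ 2)) _).mpr (by omega)]
  congr 1
  rw [zsmul_eq_mul]
  push_cast
  ring

theorem arith_irr (q q' : ℤ) (l n : ℕ) (hn : Odd n) :
    (4 * (1 + 14 * q)) • (((l : ℝ) ^ 2 / (14 : ℕ) : ℝ) : UnitAddCircle) -
      (1 + 4 * q') • (((n : ℝ) ^ 2 / (4 : ℕ) : ℝ) : UnitAddCircle) =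
      ((((216 * (l : ℤ) ^ 2 - 189 : ℤ) : ℝ) / 756 : ℝ) : UnitAddCircle) := by
  obtain ⟨s, rfl⟩ := hn
  rw [← AddCircle.coe_zsmul, ← AddCircle.coe_zsmul, ← AddCircle.coe_sub,
    ← (coe_756 (216 * (l : ℤ) ^ 2 - 189 +
      756 * (4 * q * l ^ 2 - (s ^ 2 + s) - q' * (2 * s + 1) ^ 2)) _).mpr (by omega)]
  congr 1
  rw [zsmul_eq_mul, zsmul_eq_mul]
  push_cast
  ring

theorem pow_two_mul_of {x : unitary ℍ[ℝ]} {m : ℕ} (h : x ^ m = eu π) : x ^ (2 * m) = 1 := by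
  rw [two_mul, pow_add, h, eu_pi_sq]

theorem value_cases (hw : IsCCS w) (ρ : PiS ![2, 2, -7, 1, 1, 1] →* unitary ℍ[ℝ]) :
    (∃ (k : ℕ) (u : unitary ℍ[ℝ]), k < 108 ∧
      (∀ o, ∃ m : ℤ, ρ (PresentedGroup.of o) = (u * eu (2 * π * k / (108 : ℕ)) * u⁻¹) ^ m) ∧
      ρ (PresentedGroup.of (some 0)) = u * eu (2 * π * k / (108 : ℕ)) * u⁻¹ ∧
      csS w ![2, 2, -7, 1, 1, 1] ρ = ((((595 * (k : ℤ) ^ 2 : ℤ) : ℝ) / 756 : ℝ) : UnitAddCircle)) ∨
    ∃ l : ℕ, l < 14 ∧ Odd l ∧ csS w ![2, 2, -7, 1, 1, 1] ρ =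
      ((((216 * (l : ℤ) ^ 2 - 189 : ℤ) : ℝ) / 756 : ℝ) : UnitAddCircle) := by
  rcases dich ρ with h | ⟨h1, h2⟩
  · left
    obtain ⟨a1, a2, q, hq⟩ := csS_ab hw ρ h
    obtain ⟨k, hk, ⟨u, hu⟩, hL⟩ := lens_value hw _ 108 (by norm_num) a1
    exact ⟨k, u, hk, hu ▸ a2, hu, by rw [hq, LL, hL, arith_ab]⟩
  · right
    obtain ⟨q, q', hq⟩ := csS_irr hw ρ (pow_two_mul_of h1)
    obtain ⟨l, hl, ⟨u, hu⟩, hL⟩ := lens_value hw _ 14 (by norm_num) (pow_two_mul_of h1)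
    obtain ⟨n, -, ⟨v, hv⟩, hN⟩ := lens_value hw _ 4 (by norm_num) (pow_two_mul_of h2)
    refine ⟨l, hl, odd_of_pow u l 7 (by norm_num) (hu ▸ h1), ?_⟩
    rw [hq, LL, LL, hL, hN, arith_irr _ _ _ _ (odd_of_pow v n 2 (by norm_num) (hv ▸ h2))]

theorem exists_ab (hw : IsCCS w) (k : ℕ) (hk : k < 108) :
    ∃ ρ : PiS ![2, 2, -7, 1, 1, 1] →* unitary ℍ[ℝ], csS w ![2, 2, -7, 1, 1, 1] ρ =
      ((((595 * (k : ℤ) ^ 2 : ℤ) : ℝ) / 756 : ℝ) : UnitAddCircle) := by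
  obtain ⟨P, p1, p2⟩ := exists_zmod _ 108 (eu_pow_one 108 k (by norm_num))
  let φ : C108 →* unitary ℍ[ℝ] := MonoidHom.mk' (fun i => P i.toAdd) fun _ _ => p1 _ _
  obtain ⟨ψ, -, h1⟩ := exists_rep_of_rel (G := C108) ![2, 2, -7, 1, 1, 1]
    (Multiplicative.ofAdd (-2)) (fun i => Multiplicative.ofAdd (![1, 55, 46, 2, 2, 2] i))
    (by decide +kernel) (by decide +kernel) (by decide +kernel)
  obtain ⟨-, -, q, hq⟩ := csS_ab hw (φ.comp ψ) (by
    simp only [MonoidHom.comp_apply, ← map_mul φ]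
    rw [mul_comm])
  have b1 : φ.comp ψ (PresentedGroup.of (some 0)) = eu (2 * π * k / (108 : ℕ)) := by
    rw [MonoidHom.comp_apply, h1]
    exact (p2 1).trans (zpow_one _)
  exact ⟨_, by rw [hq, b1, LL_eu hw 108 k hk, arith_ab]⟩

theorem exists_irr (hw : IsCCS w) (s : ℕ) (hs : 2 * s + 1 < 14) :
    ∃ ρ : PiS ![2, 2, -7, 1, 1, 1] →* unitary ℍ[ℝ], csS w ![2, 2, -7, 1, 1, 1] ρ =
      ((((216 * ((2 * s + 1 : ℕ) : ℤ) ^ 2 - 189 : ℤ) : ℝ) / 756 : ℝ) : UnitAddCircle) := by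
  have a0 : ju ^ 2 = eu π := by
    apply Subtype.ext
    rw [sq, Submonoid.coe_mul]
    ext <;> simp [ju, eu, ee]
  have a1 : eu (2 * π * (2 * s + 1 : ℕ) / (14 : ℕ)) ^ 7 = eu π := by
    rw [eu_pow, ← eu_period π s]
    congr 1
    push_cast
    ring
  have a2 : ∀ θ, eu θ * ju = ju * (eu θ)⁻¹ := by
    intro θ
    rw [← zpow_neg_one, eu_zpow]
    apply Subtype.ext
    rw [Submonoid.coe_mul, Submonoid.coe_mul]
    ext <;> simp [ju, eu, ee]
  obtain ⟨φ, p1, p2⟩ := exists_Q28 ju _ (pow_two_mul_of a1) (by rw [← sq, a0, a1]) (a2 _)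
  obtain ⟨ψ, -, h1⟩ := exists_rep_of_rel (G := Q28) ![2, 2, -7, 1, 1, 1] (a 7)
    ![xa 0, xa (-1), a 1, a 7, a 7, a 7] (by decide +kernel) (by decide +kernel)
    (by decide +kernel)
  have b1 : φ.comp ψ (PresentedGroup.of (some 2)) = eu (2 * π * (2 * s + 1 : ℕ) / (14 : ℕ)) := by
    rw [MonoidHom.comp_apply, h1]
    exact (p1 1).trans (zpow_one _)
  have b0 : φ.comp ψ (PresentedGroup.of (some 0)) = ju := by
    rw [MonoidHom.comp_apply, h1]
    exact (p2 0).trans (by simp)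
  obtain ⟨q, q', hq⟩ := csS_irr hw (φ.comp ψ) (by rw [b1]; exact pow_two_mul_of a1)
  obtain ⟨n, -, ⟨v, hv⟩, hN⟩ := lens_value hw _ 4 (by norm_num) (pow_two_mul_of a0)
  refine ⟨φ.comp ψ, ?_⟩
  rw [hq, b1, b0, LL_eu hw 14 _ hs, LL, hN,
    arith_irr _ _ _ _ (odd_of_pow v n 2 (by norm_num) (hv ▸ a0))]

theorem prism_range (hw : IsCCS w) : Set.range (csS w ![2, 2, -7, 1, 1, 1]) =
    Set.range fun j : Fin 25 => (((nn j : ℝ) / 756 : ℝ) : UnitAddCircle) := by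
  ext c
  constructor
  · rintro ⟨ρ, rfl⟩
    rcases value_cases hw ρ with ⟨k, -, hk, -, -, h⟩ | ⟨l, hl, ho, h⟩
    · have : ∀ k < 108, ∃ j : Fin 25, nn j % 756 = (595 * ((k : ℕ) : ℤ) ^ 2) % 756 := by
        decide +kernel
      obtain ⟨j, hj⟩ := this k hk
      exact ⟨j, ((coe_756 _ _).mpr hj).trans h.symm⟩
    · have : ∀ l < 14, Odd l → ∃ j : Fin 25,
          nn j % 756 = (216 * ((l : ℕ) : ℤ) ^ 2 - 189) % 756 := by decide +kernel
      obtain ⟨j, hj⟩ := this l hl ho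
      exact ⟨j, ((coe_756 _ _).mpr hj).trans h.symm⟩
  · rintro ⟨j, rfl⟩
    have : ∀ j : Fin 25, (∃ k < 108, (595 * ((k : ℕ) : ℤ) ^ 2) % 756 = nn j % 756) ∨
        ∃ s < 6, (216 * ((2 * s + 1 : ℕ) : ℤ) ^ 2 - 189) % 756 = nn j % 756 := by decide +kernel
    rcases this j with ⟨k, hk, h⟩ | ⟨s, hs, h⟩
    · obtain ⟨ρ, hρ⟩ := exists_ab hw k hk
      exact ⟨ρ, hρ.trans ((coe_756 _ _).mpr h)⟩
    · obtain ⟨ρ, hρ⟩ := exists_irr hw s (by omega)
      exact ⟨ρ, hρ.trans ((coe_756 _ _).mpr h)⟩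

theorem h1_zero {Γ : Type} [Group Γ] [Finite Γ] (A : Rep ℝ Γ) :
    Subsingleton (groupCohomology A 1) := by
  have := Fintype.ofFinite Γ
  refine subsingleton_of_forall_eq 0 fun c => ?_
  obtain ⟨z, rfl⟩ := (ModuleCat.epi_iff_surjective (H1π A)).mp inferInstance c
  rw [H1π_eq_zero_iff]
  have hc : (Fintype.card Γ : ℝ) ≠ 0 := by exact_mod_cast Fintype.card_ne_zero
  refine ⟨-((Fintype.card Γ : ℝ)⁻¹ • ∑ h, z h), funext fun g => ?_⟩
  have h1 : ∑ h, z h = A.ρ g (∑ h, z h) + (Fintype.card Γ : ℝ) • z g := by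
    nth_rewrite 1 [← (Group.mulLeft_bijective g).sum_comp (fun h => z h)]
    rw [map_sum]
    simp only [(mem_cocycles₁_iff z).1 z.2]
    rw [Finset.sum_add_distrib, Finset.sum_const, Finset.card_univ, Nat.cast_smul_eq_nsmul]
  change A.ρ g _ - _ = z g
  rw [map_neg, map_smul, sub_neg_eq_add]
  nth_rewrite 2 [h1]
  rw [smul_add, inv_smul_smul₀ hc]
  abel

/-- The quaternion `i` as an imaginary quaternion. -/
noncomputable def iv : (ℝ ∙ (1 : ℍ[ℝ]))ᗮ := ⟨⟨0, 1, 0, 0⟩, by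
  rw [Submodule.mem_orthogonal_singleton_iff_inner_left, Quaternion.inner_def]
  simp⟩

theorem AD_iv (θ : ℝ) : AD (eu θ) iv = iv := by
  have := Real.sin_sq_add_cos_sq θ
  apply Subtype.ext
  rw [AD_apply]
  ext <;> simp [eu, ee, iv] <;> linarith

theorem fix_iv {θ : ℝ} (hs : Real.sin θ ≠ 0) (v : (ℝ ∙ (1 : ℍ[ℝ]))ᗮ) (h : AD (eu θ) v = v) :
    ∃ b : ℝ, b • iv = v := by
  have h0 := Real.sin_sq_add_cos_sq θ
  obtain ⟨⟨a, b, c, d⟩, hv⟩ := v
  have ha : a = 0 := by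
    rw [Submodule.mem_orthogonal_singleton_iff_inner_left, Quaternion.inner_def] at hv
    simpa using hv
  have h1 := congrArg (fun v : (ℝ ∙ (1 : ℍ[ℝ]))ᗮ => (v : ℍ[ℝ]).imJ) h
  have h2 := congrArg (fun v : (ℝ ∙ (1 : ℍ[ℝ]))ᗮ => (v : ℍ[ℝ]).imK) h
  simp only [AD_apply] at h1 h2
  simp [eu, ee] at h1 h2
  have h3 : Real.sin θ * c + Real.cos θ * d = 0 := by
    apply mul_left_cancel₀ hs
    linear_combination (-1 / 2) * h1 + (c / 2) * h0
  have h4 : Real.cos θ * c - Real.sin θ * d = 0 := by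
    apply mul_left_cancel₀ hs
    linear_combination (1 / 2) * h2 - (d / 2) * h0
  have hc : c = 0 := by linear_combination Real.sin θ * h3 + Real.cos θ * h4 - c * h0
  have hd : d = 0 := by linear_combination Real.cos θ * h3 - Real.sin θ * h4 - d * h0
  refine ⟨b, Subtype.ext ?_⟩
  ext <;> simp [iv, ha, hc, hd]

theorem h0_one (hw : IsCCS w) (ρ : PiS ![2, 2, -7, 1, 1, 1] →* unitary ℍ[ℝ])
    (h : csS w ![2, 2, -7, 1, 1, 1] ρ = ((1 / 12 : ℝ) : UnitAddCircle)) :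
    Module.finrank ℝ (groupCohomology (adRep ρ) 0) = 1 := by
  rw [show (1 / 12 : ℝ) = (63 : ℤ) / 756 by norm_num] at h
  rcases value_cases hw ρ with ⟨k, u, hk, h1, h2, h3⟩ | ⟨l, hl, ho, h3⟩
  · rw [h3, coe_756] at h
    have a1 : ∀ k < 108, (595 * ((k : ℕ) : ℤ) ^ 2) % 756 = 63 % 756 → k % 54 ≠ 0 := by
      decide +kernel
    have hs : Real.sin (2 * π * k / (108 : ℕ)) ≠ 0 := by
      intro h0
      obtain ⟨n, hn⟩ := Real.sin_eq_zero_iff.mp h0
      have b1 : (k : ℝ) = 54 * n := by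
        apply mul_left_cancel₀ Real.pi_ne_zero
        push_cast at hn
        linarith
      have b2 : (k : ℤ) = 54 * n := by exact_mod_cast b1
      have := a1 k hk h
      omega
    have hi : iv ≠ 0 := fun h0 => by
      simpa [iv] using congrArg (fun v : (ℝ ∙ (1 : ℍ[ℝ]))ᗮ => (v : ℍ[ℝ]).imI) h0
    have hu : ∀ v, AD u (AD u⁻¹ v) = v := fun v => by
      rw [← Module.End.mul_apply, ← map_mul, mul_inv_cancel, map_one, Module.End.one_apply]
    have hu' : ∀ v, AD u⁻¹ (AD u v) = v := fun v => by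
      rw [← Module.End.mul_apply, ← map_mul, inv_mul_cancel, map_one, Module.End.one_apply]
    rw [(H0Iso (adRep ρ)).toLinearEquiv.finrank_eq]
    let H : Subgroup (PiS ![2, 2, -7, 1, 1, 1]) :=
      { carrier := {g | AD (ρ g) (AD u iv) = AD u iv}
        one_mem' := by simp
        mul_mem' := fun {a b} ha hb => by
          simp only [Set.mem_ofPred_eq] at ha hb ⊢
          rw [map_mul, map_mul, Module.End.mul_apply, hb, ha]
        inv_mem' := fun {a} ha => by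
          simp only [Set.mem_ofPred_eq] at ha ⊢
          nth_rewrite 1 [← ha]
          rw [← Module.End.mul_apply, ← map_mul, ← map_mul, inv_mul_cancel, map_one, map_one,
            Module.End.one_apply] }
    have hH : ∀ g, g ∈ H := by
      refine PresentedGroup.generated_by _ H fun o => ?_
      obtain ⟨m, hm⟩ := h1 o
      change AD (ρ _) (AD u iv) = AD u iv
      rw [hm, conj_zpow, eu_zpow, map_mul, map_mul, Module.End.mul_apply, Module.End.mul_apply,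
        hu', AD_iv]
    refine (finrank_eq_one_iff_of_nonzero' (⟨AD u iv, hH⟩ : (adRep ρ).ρ.invariants) ?_).mpr ?_
    · intro h0
      have : AD u iv = 0 := congrArg Subtype.val h0
      apply hi
      rw [← hu' iv, this, map_zero]
    · rintro ⟨v, hv⟩
      have b1 : AD (ρ (PresentedGroup.of (some 0))) v = v := hv _
      rw [h2, map_mul, map_mul, Module.End.mul_apply, Module.End.mul_apply] at b1
      obtain ⟨b, hb⟩ := fix_iv hs (AD u⁻¹ v) (by
        have := congrArg (AD u⁻¹) b1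
        rwa [hu'] at this)
      refine ⟨b, Subtype.ext ?_⟩
      change b • AD u iv = v
      rw [← map_smul, hb, hu]
  · rw [h3, coe_756] at h
    have a1 : ∀ l < 14, (216 * ((l : ℕ) : ℤ) ^ 2 - 189) % 756 ≠ 63 % 756 := by decide +kernel
    exact absurd h (a1 l hl)

end Pool.Agent.P.MP_27a476_gt
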