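import Pool.Agent.P.MP_27a476_gt.PrMid
import Pool.Agent.P.MP_27a476_gt.PrVal

set_option autoImplicit false

open Complex Real

namespace Pool.Agent.P.MP_27a476_gt

/-- A primitive 18th root of unity. -/
noncomputable def om : ℂ := cexp (π * I / 9)

theorem om_pw (q : ℕ) : cexp (π * I * (3 * q : ℕ) / 27) = om ^ q := by
  rw [om, ← Complex.exp_nat_mul]
  congr 1
  push_cast
  ring

theorem om_eq : om ^ 6 - om ^ 3 + 1 = 0 := by
  have h1 : cexp (2 * π * I / 3) = om ^ 6 := by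
    rw [← om_pw]
    congr 1
    push_cast
    ring
  have h2 : om ^ 9 = -1 := by
    rw [← om_pw, ← exp_pi_mul_I]
    congr 1
    push_cast
    ring
  have h3 := zeta3
  rw [h1] at h3
  linear_combination h3 - om ^ 3 * h2

theorem PP_0 : PP 0 0 = (1 + I) * (0) := by
  have h := om_eq
  have h1 := om_pw 0
  generalize om = ω at *
  obtain ⟨a0, a1⟩ := PP_val (p := 0) (by norm_num) (ζ := 1) (l := 1)
    (μ := 1 / 2)
    (h1.trans (by linear_combination (0) * h))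
    (by linear_combination (0) * h)
    (by linear_combination (0) * h)
  linear_combination a0 + (1 + I) * (0) * h

theorem PP_3 : PP 3 0 = (1 + I) * (-(2 / 3) - 1 / 3 * om - 2 / 3 * om ^ 2 + 4 / 3 * om ^ 3 + 2 /
      3 * om ^ 4 + 4 / 3 * om ^ 5) ∧
    PP 3 1 = 18 * π * I / 7 * PP 3 0 + π * I / 378 * (1 + I) *
      (172 + 377 / 3 * om + 250 / 3 * om ^ 2 - 218 * om ^ 3 - 586 / 3 * om ^ 4 - 710 / 3 * om ^
      5) := by
  have h := om_eq
  have h1 := om_pw 1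
  generalize om = ω at *
  obtain ⟨a0, a1⟩ := PP_val (p := 3) (by norm_num) (ζ := ω) (l := -ω + ω ^ 4)
    (μ := 2 / 3 + 1 / 3 * ω - 1 / 3 * ω ^ 2 - 1 / 3 * ω ^ 3 - 2 / 3 * ω ^ 4 - 1 / 3 * ω ^ 5)
    (h1.trans (by linear_combination (0) * h))
    (by linear_combination (ω) * h)
    (by linear_combination (-(1 / 3) - 1 / 3 * ω - 2 / 3 * ω ^ 2 - 1 / 3 * ω ^ 3) * h)
  refine ⟨by linear_combination a0 + (1 + I) * (2 / 3) * h, ?_⟩
  linear_combination a1 + π * I / 378 * (1 + I) * (-172 - 126 * ω - 140 * ω ^ 2 - 1820 / 27 * ω ^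
      3 + 224 / 9 * ω ^ 4 + 2534 / 9 * ω ^ 5 +
    15400 / 27 * ω ^ 6 + 1820 / 3 * ω ^ 7 + 1148 / 3 * ω ^ 8 - 2366 / 27 * ω ^ 9 - 4312 / 9 * ω
    ^ 10 - 4900 / 9 * ω ^ 11 - 9800 / 27 * ω ^ 12 - 196 / 3 * ω ^ 13 + 392 / 3 * ω ^ 14 + 4312 /
    27 * ω ^ 15 + 980 / 9 * ω ^ 16 + 392 / 9 * ω ^ 17 + 196 / 27 * ω ^ 18) * h

theorem PP_6 : PP 6 0 = (1 + I) * (-2 + om ^ 2 + 2 * om ^ 4 - 2 * om ^ 5) := by
  have h := om_eq
  have h1 := om_pw 2
  generalize om = ω at *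
  obtain ⟨a0, a1⟩ := PP_val (p := 6) (by norm_num) (ζ := ω ^ 2) (l := -(ω ^ 5))
    (μ := 1 - ω + ω ^ 2 - ω ^ 3 + ω ^ 4)
    (h1.trans (by linear_combination (0) * h))
    (by linear_combination (ω ^ 5 + ω ^ 8) * h)
    (by linear_combination (-ω + ω ^ 2 - ω ^ 3) * h)
  linear_combination a0 + (1 + I) * (2) * h

theorem PP_9 : PP 9 0 = (1 + I) * (-(2 / 3) + 1 / 3 * om ^ 3) := by
  have h := om_eq
  have h1 := om_pw 3
  generalize om = ω at *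
  obtain ⟨a0, a1⟩ := PP_val (p := 9) (by norm_num) (ζ := ω ^ 3) (l := ω ^ 3)
    (μ := 2 / 3 - 1 / 3 * ω ^ 3)
    (h1.trans (by linear_combination (0) * h))
    (by linear_combination (-(ω ^ 3) - ω ^ 6 + ω ^ 12 + ω ^ 15) * h)
    (by linear_combination (-(1 / 3)) * h)
  linear_combination a0 + (1 + I) * (2 / 3) * h

theorem PP_12 : PP 12 0 = (1 + I) * (-2 - 2 * om - 2 * om ^ 2 + om ^ 4 + 2 * om ^ 5) := by
  have h := om_eq
  have h1 := om_pw 4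
  generalize om = ω at *
  obtain ⟨a0, a1⟩ := PP_val (p := 12) (by norm_num) (ζ := ω ^ 4) (l := -ω)
    (μ := ω ^ 3 + ω ^ 4 + ω ^ 5)
    (h1.trans (by linear_combination (0) * h))
    (by linear_combination (ω + ω ^ 4 - ω ^ 10 - ω ^ 13 + ω ^ 19 + ω ^ 22) * h)
    (by linear_combination (-1) * h)
  linear_combination a0 + (1 + I) * (2 + 2 * ω + 2 * ω ^ 2 + 2 * ω ^ 3) * h

theorem PP_15 : PP 15 0 = (1 + I) * (2 / 3 - 2 / 3 * om + 2 / 3 * om ^ 2 - 4 / 3 * om ^ 3 + 4 / 3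
      * om ^ 4 - 1 / 3 * om ^ 5) ∧
    PP 15 1 = 18 * π * I / 7 * PP 15 0 + π * I / 378 * (1 + I) *
      (-46 + 460 / 3 * om - 586 / 3 * om ^ 2 + 218 * om ^ 3 - 710 / 3 * om ^ 4 + 377 / 3 * om ^
      5) := by
  have h := om_eq
  have h1 := om_pw 5
  generalize om = ω at *
  obtain ⟨a0, a1⟩ := PP_val (p := 15) (by norm_num) (ζ := ω ^ 5) (l := ω ^ 2 - ω ^ 5)
    (μ := 1 / 3 + 2 / 3 * ω - 2 / 3 * ω ^ 2 + 1 / 3 * ω ^ 3 - 1 / 3 * ω ^ 4 + 1 / 3 * ω ^ 5)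
    (h1.trans (by linear_combination (0) * h))
    (by linear_combination (-(ω ^ 2) + ω ^ 8 + ω ^ 11 - ω ^ 17 - ω ^ 20 + ω ^ 26 + ω ^ 29) * h)
    (by linear_combination (-(2 / 3) + 2 / 3 * ω - 1 / 3 * ω ^ 2 + 1 / 3 * ω ^ 3 - 1 / 3 * ω ^ 4)
      * h)
  refine ⟨by linear_combination a0 + (1 + I) * (-(2 / 3) + 2 / 3 * ω - 2 / 3 * ω ^ 2 + 2 / 3 * ω
      ^ 3 - 2 / 3 * ω ^ 4) * h, ?_⟩
  linear_combination a1 + π * I / 378 * (1 + I) * (46 - 460 / 3 * ω + 586 / 3 * ω ^ 2 - 172 * ω ^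
      3 + 250 / 3 * ω ^ 4 + 70 * ω ^ 5 - 658 / 3 *
    ω ^ 6 + 252 * ω ^ 7 - 70 * ω ^ 8 - 1456 / 27 * ω ^ 9 + 238 / 9 * ω ^ 10 - 1400 / 9 * ω ^ 11
    + 5138 / 27 * ω ^ 12 + 280 / 3 * ω ^ 13 - 826 / 3 * ω ^ 14 + 8036 / 27 * ω ^ 15 - 3920 / 9 *
    ω ^ 16 + 4312 / 9 * ω ^ 17 - 9604 / 27 * ω ^ 18 + 784 / 3 * ω ^ 19 - 196 * ω ^ 20 + 2744 /
    27 * ω ^ 21 - 392 / 9 * ω ^ 22 + 196 / 9 * ω ^ 23 - 196 / 27 * ω ^ 24) * h

theorem PP_18 : PP 18 0 = (1 + I) * (1 + om ^ 3) := by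
  have h := om_eq
  have h1 := om_pw 6
  generalize om = ω at *
  obtain ⟨a0, a1⟩ := PP_val (p := 18) (by norm_num) (ζ := -1 + ω ^ 3) (l := -1 + ω ^ 3)
    (μ := 1 - ω ^ 3)
    (h1.trans (by linear_combination (1) * h))
    (by linear_combination (6 * ω ^ 3 - 15 * ω ^ 6 + 14 * ω ^ 9 - 6 * ω ^ 12 + ω ^ 15) * h)
    (by linear_combination (-1) * h)
  linear_combination a0 + (1 + I) * (-2) * h

theorem PP_21 : PP 21 0 = (1 + I) * (-(2 / 3) - 1 / 3 * om + 4 / 3 * om ^ 2 + 4 / 3 * om ^ 3 - 1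
      / 3 * om ^ 4 - 2 / 3 * om ^ 5) ∧
    PP 21 1 = 18 * π * I / 7 * PP 21 0 + π * I / 378 * (1 + I) *
      (172 + 209 / 3 * om - 710 / 3 * om ^ 2 - 218 * om ^ 3 + 377 / 3 * om ^ 4 + 460 / 3 * om ^
      5) := by
  have h := om_eq
  have h1 := om_pw 7
  generalize om = ω at *
  obtain ⟨a0, a1⟩ := PP_val (p := 21) (by norm_num) (ζ := -ω + ω ^ 4) (l := -(ω ^ 4))
    (μ := 2 / 3 + 1 / 3 * ω - 1 / 3 * ω ^ 2 - 1 / 3 * ω ^ 3 + 1 / 3 * ω ^ 4 + 2 / 3 * ω ^ 5)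
    (h1.trans (by linear_combination (ω) * h))
    (by linear_combination (ω ^ 4 + 6 * ω ^ 10 - 15 * ω ^ 13 + 14 * ω ^ 16 - 6 * ω ^ 19 + ω ^ 22)
      * h)
    (by linear_combination (-(1 / 3) + 1 / 3 * ω - 1 / 3 * ω ^ 2 - 2 / 3 * ω ^ 3) * h)
  refine ⟨by linear_combination a0 + (1 + I) * (2 / 3 + 2 / 3 * ω - 2 / 3 * ω ^ 2 - 4 / 3 * ω ^
      3) * h, ?_⟩
  linear_combination a1 + π * I / 378 * (1 + I) * (-172 - 208 / 3 * ω + 712 / 3 * ω ^ 2 + 136 / 3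
      * ω ^ 3 - 196 * ω ^ 4 + 140 * ω ^ 5 + 826 / 3
    * ω ^ 6 - 168 * ω ^ 7 - 238 * ω ^ 8 + 7364 / 27 * ω ^ 9 + 2926 / 9 * ω ^ 10 - 2660 / 9 * ω ^
    11 - 9548 / 27 * ω ^ 12 + 1960 / 9 * ω ^ 13 + 3136 / 9 * ω ^ 14 - 392 / 3 * ω ^ 15 - 3136 /
    9 * ω ^ 16 - 196 / 9 * ω ^ 17 + 4508 / 27 * ω ^ 18 + 392 / 9 * ω ^ 19 - 784 / 9 * ω ^ 20 -
    1568 / 27 * ω ^ 21) * h

theorem PP_24 : PP 24 0 = (1 + I) * (-2 + 2 * om + om ^ 2 - 2 * om ^ 4 + om ^ 5) := by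
  have h := om_eq
  have h1 := om_pw 8
  generalize om = ω at *
  obtain ⟨a0, a1⟩ := PP_val (p := 24) (by norm_num) (ζ := -(ω ^ 2) + ω ^ 5) (l := ω ^ 2)
    (μ := 1 + ω - ω ^ 2 - ω ^ 3 + ω ^ 5)
    (h1.trans (by linear_combination (ω ^ 2) * h))
    (by linear_combination (-(ω ^ 2) - ω ^ 5 + ω ^ 11 + 6 * ω ^ 17 - 15 * ω ^ 20 + 14 * ω ^ 23 -
      6 * ω ^ 26 + ω ^ 29) * h)
    (by linear_combination (ω) * h)
  linear_combination a0 + (1 + I) * (2 - 2 * ω - 2 * ω ^ 2 + 2 * ω ^ 4) * h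

theorem PP_30 : PP 30 0 = (1 + I) * (-2 + om + 2 * om ^ 2 - 2 * om ^ 4) := by
  have h := om_eq
  have h1 := om_pw 10
  generalize om = ω at *
  obtain ⟨a0, a1⟩ := PP_val (p := 30) (by norm_num) (ζ := -ω) (l := ω - ω ^ 4)
    (μ := -ω + ω ^ 2 + ω ^ 3 - ω ^ 5)
    (h1.trans (by linear_combination (ω + ω ^ 4) * h))
    (by linear_combination (-ω) * h)
    (by linear_combination (-1 - ω + ω ^ 3) * h)
  linear_combination a0 + (1 + I) * (2) * h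

theorem PP_33 : PP 33 0 = (1 + I) * (2 / 3 + 4 / 3 * om - 1 / 3 * om ^ 2 - 4 / 3 * om ^ 3 - 2 / 3
      * om ^ 4 + 2 / 3 * om ^ 5) ∧
    PP 33 1 = 18 * π * I / 7 * PP 33 0 + π * I / 378 * (1 + I) *
      (-46 - 710 / 3 * om + 209 / 3 * om ^ 2 + 218 * om ^ 3 + 250 / 3 * om ^ 4 - 586 / 3 * om ^
      5) := by
  have h := om_eq
  have h1 := om_pw 11
  generalize om = ω at *
  obtain ⟨a0, a1⟩ := PP_val (p := 33) (by norm_num) (ζ := -(ω ^ 2)) (l := ω ^ 5)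
    (μ := 1 / 3 - 1 / 3 * ω + 1 / 3 * ω ^ 2 + 1 / 3 * ω ^ 3 - 1 / 3 * ω ^ 4 - 2 / 3 * ω ^ 5)
    (h1.trans (by linear_combination (ω ^ 2 + ω ^ 5) * h))
    (by linear_combination (-(ω ^ 5) - ω ^ 8) * h)
    (by linear_combination (-(2 / 3) - 1 / 3 * ω + 1 / 3 * ω ^ 2 - 1 / 3 * ω ^ 3 - 2 / 3 * ω ^ 4)
      * h)
  refine ⟨by linear_combination a0 + (1 + I) * (-(2 / 3) - 4 / 3 * ω) * h, ?_⟩
  linear_combination a1 + π * I / 378 * (1 + I) * (46 + 710 / 3 * ω - 70 * ω ^ 2 - 518 / 3 * ω ^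
      3 + 154 * ω ^ 4 + 126 * ω ^ 5 - 658 / 3 * ω ^
    6 - 98 * ω ^ 7 + 224 * ω ^ 8 - 266 / 3 * ω ^ 9 - 252 * ω ^ 10 + 140 * ω ^ 11 + 3724 / 27 * ω
    ^ 12 - 1960 / 9 * ω ^ 13 + 392 / 9 * ω ^ 14 + 2156 / 9 * ω ^ 15 - 392 / 9 * ω ^ 16 - 980 / 9
    * ω ^ 17 + 980 / 9 * ω ^ 18 + 392 / 9 * ω ^ 19 - 784 / 9 * ω ^ 20 - 1568 / 27 * ω ^ 21) * h

theorem PP_36 : PP 36 0 = (1 + I) * (2 - om ^ 3) := by
  have h := om_eq
  have h1 := om_pw 12
  generalize om = ω at *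
  obtain ⟨a0, a1⟩ := PP_val (p := 36) (by norm_num) (ζ := -(ω ^ 3)) (l := -(ω ^ 3))
    (μ := ω ^ 3)
    (h1.trans (by linear_combination (ω ^ 3 + ω ^ 6) * h))
    (by linear_combination (ω ^ 3 + ω ^ 6 - ω ^ 12 - ω ^ 15) * h)
    (by linear_combination (-1) * h)
  linear_combination a0 + (1 + I) * (-2) * h

theorem PP_39 : PP 39 0 = (1 + I) * (-(2 / 3) + 2 / 3 * om - 2 / 3 * om ^ 2 + 4 / 3 * om ^ 3 - 1
      / 3 * om ^ 4 - 2 / 3 * om ^ 5) ∧
    PP 39 1 = 18 * π * I / 7 * PP 39 0 + π * I / 378 * (1 + I) *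
      (172 - 586 / 3 * om + 460 / 3 * om ^ 2 - 218 * om ^ 3 + 209 / 3 * om ^ 4 + 250 / 3 * om ^
      5) := by
  have h := om_eq
  have h1 := om_pw 13
  generalize om = ω at *
  obtain ⟨a0, a1⟩ := PP_val (p := 39) (by norm_num) (ζ := -(ω ^ 4)) (l := ω)
    (μ := 2 / 3 - 2 / 3 * ω + 2 / 3 * ω ^ 2 - 1 / 3 * ω ^ 3 + 1 / 3 * ω ^ 4 - 1 / 3 * ω ^ 5)
    (h1.trans (by linear_combination (ω ^ 4 + ω ^ 7) * h))
    (by linear_combination (-ω - ω ^ 4 + ω ^ 10 + ω ^ 13 - ω ^ 19 - ω ^ 22) * h)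
    (by linear_combination (-(1 / 3)) * h)
  refine ⟨by linear_combination a0 + (1 + I) * (2 / 3 - 2 / 3 * ω + 2 / 3 * ω ^ 2 - 2 / 3 * ω ^
      3) * h, ?_⟩
  linear_combination a1 + π * I / 378 * (1 + I) * (-172 + 586 / 3 * ω - 460 / 3 * ω ^ 2 + 46 * ω
      ^ 3 + 126 * ω ^ 4 - 294 * ω ^ 5 + 10514 / 27 *
    ω ^ 6 - 3710 / 9 * ω ^ 7 + 3388 / 9 * ω ^ 8 - 2870 / 9 * ω ^ 9 + 2156 / 9 * ω ^ 10 - 1372 /
    9 * ω ^ 11 + 784 / 9 * ω ^ 12 - 392 / 9 * ω ^ 13 + 196 / 9 * ω ^ 14 - 196 / 27 * ω ^ 15) * h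

theorem PP_42 : PP 42 0 = (1 + I) * (-2 - 2 * om - 2 * om ^ 2 + om ^ 5) := by
  have h := om_eq
  have h1 := om_pw 14
  generalize om = ω at *
  obtain ⟨a0, a1⟩ := PP_val (p := 42) (by norm_num) (ζ := -(ω ^ 5)) (l := -(ω ^ 2) + ω ^ 5)
    (μ := 1 - ω ^ 3 - ω ^ 4 - ω ^ 5)
    (h1.trans (by linear_combination (ω ^ 5 + ω ^ 8) * h))
    (by linear_combination (ω ^ 2 - ω ^ 8 - ω ^ 11 + ω ^ 17 + ω ^ 20 - ω ^ 26 - ω ^ 29) * h)
    (by linear_combination (-(ω ^ 2) - ω ^ 3 - ω ^ 4) * h)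
  linear_combination a0 + (1 + I) * (2 + 2 * ω + 2 * ω ^ 2 + 2 * ω ^ 3 + 2 * ω ^ 4) * h

theorem PP_45 : PP 45 0 = (1 + I) * (-(1 / 3) - 1 / 3 * om ^ 3) := by
  have h := om_eq
  have h1 := om_pw 15
  generalize om = ω at *
  obtain ⟨a0, a1⟩ := PP_val (p := 45) (by norm_num) (ζ := 1 - ω ^ 3) (l := 1 - ω ^ 3)
    (μ := 1 / 3 + 1 / 3 * ω ^ 3)
    (h1.trans (by linear_combination (-1 + ω ^ 6 + ω ^ 9) * h))
    (by linear_combination (-(6 * ω ^ 3) + 15 * ω ^ 6 - 14 * ω ^ 9 + 6 * ω ^ 12 - ω ^ 15) * h)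
    (by linear_combination (-(1 / 3)) * h)
  linear_combination a0 + (1 + I) * (2 / 3) * h

theorem PP_48 : PP 48 0 = (1 + I) * (-2 + om + om ^ 4 - 2 * om ^ 5) := by
  have h := om_eq
  have h1 := om_pw 16
  generalize om = ω at *
  obtain ⟨a0, a1⟩ := PP_val (p := 48) (by norm_num) (ζ := ω - ω ^ 4) (l := ω ^ 4)
    (μ := ω - ω ^ 2 + ω ^ 3 - ω ^ 4)
    (h1.trans (by linear_combination (-ω + ω ^ 7 + ω ^ 10) * h))
    (by linear_combination (-(ω ^ 4) - 6 * ω ^ 10 + 15 * ω ^ 13 - 14 * ω ^ 16 + 6 * ω ^ 19 - ω ^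
      22) * h)
    (by linear_combination (-1 + ω - ω ^ 2) * h)
  linear_combination a0 + (1 + I) * (2 - 2 * ω + 2 * ω ^ 2) * h

theorem PP_51 : PP 51 0 = (1 + I) * (2 / 3 - 2 / 3 * om - 1 / 3 * om ^ 2 - 4 / 3 * om ^ 3 - 2 / 3
      * om ^ 4 - 1 / 3 * om ^ 5) ∧
    PP 51 1 = 18 * π * I / 7 * PP 51 0 + π * I / 378 * (1 + I) *
      (-46 + 250 / 3 * om + 377 / 3 * om ^ 2 + 218 * om ^ 3 + 460 / 3 * om ^ 4 + 209 / 3 * om ^
      5) := by
  have h := om_eq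
  have h1 := om_pw 17
  generalize om = ω at *
  obtain ⟨a0, a1⟩ := PP_val (p := 51) (by norm_num) (ζ := ω ^ 2 - ω ^ 5) (l := -(ω ^ 2))
    (μ := 1 / 3 - 1 / 3 * ω + 1 / 3 * ω ^ 2 + 1 / 3 * ω ^ 3 + 2 / 3 * ω ^ 4 + 1 / 3 * ω ^ 5)
    (h1.trans (by linear_combination (-(ω ^ 2) + ω ^ 8 + ω ^ 11) * h))
    (by linear_combination (ω ^ 2 + ω ^ 5 - ω ^ 11 - 6 * ω ^ 17 + 15 * ω ^ 20 - 14 * ω ^ 23 + 6 *
      ω ^ 26 - ω ^ 29) * h)
    (by linear_combination (-(2 / 3) - 1 / 3 * ω) * h)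
  refine ⟨by linear_combination a0 + (1 + I) * (-(2 / 3) + 2 / 3 * ω + 2 / 3 * ω ^ 2 + 4 / 3 * ω
      ^ 3 + 2 / 3 * ω ^ 4) * h, ?_⟩
  linear_combination a1 + π * I / 378 * (1 + I) * (46 - 250 / 3 * ω - 376 / 3 * ω ^ 2 - 514 / 3 *
      ω ^ 3 - 754 / 3 * ω ^ 4 - 168 * ω ^ 5 - 7252
    / 27 * ω ^ 6 - 1190 / 9 * ω ^ 7 - 1400 / 9 * ω ^ 8 - 476 / 27 * ω ^ 9 + 112 / 9 * ω ^ 10 +
    322 / 9 * ω ^ 11 + 196 / 3 * ω ^ 12 + 980 / 9 * ω ^ 13 + 1568 / 9 * ω ^ 14 + 4508 / 27 * ω ^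
    15 + 980 / 9 * ω ^ 16 + 392 / 9 * ω ^ 17 + 196 / 27 * ω ^ 18) * h

theorem mu_eq {θ : ℝ} (hc : Real.cos θ ≠ 0) :
    (1 + cexp (θ * I) ^ 2) * ((1 - I * Real.tan θ) / 2) = 1 := by
  have h1 : ((Real.cos θ : ℝ) : ℂ) ≠ 0 := ofReal_ne_zero.mpr hc
  have h2 : ((Real.sin θ : ℝ) : ℂ) ^ 2 + ((Real.cos θ : ℝ) : ℂ) ^ 2 = 1 := by
    exact_mod_cast Real.sin_sq_add_cos_sq θ
  rw [exp_mul_I, ← ofReal_cos, ← ofReal_sin, Real.tan_eq_sin_div_cos, ofReal_div]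
  generalize ((Real.cos θ : ℝ) : ℂ) = c at *
  generalize ((Real.sin θ : ℝ) : ℂ) = s at *
  field_simp
  linear_combination (c + I * s) * h2 - (s ^ 2 * c + I * s ^ 3) * I_mul_I

theorem PP_pair {p : ℕ} (h0 : 0 < p) (h1 : p < 27) :
    ∃ a : ℝ, a ≠ 0 ∧ PP p 0 + PP (54 - p) 0 = (1 + I) * a := by
  have hπ := pi_ne_zero
  have c1 : Real.cos (7 * π * p / 54) ≠ 0 := by
    intro h
    obtain ⟨k, hk⟩ := Real.cos_eq_zero_iff.mp h
    have a1 : (7 * p : ℝ) = 54 * k + 27 := by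
      apply mul_left_cancel₀ hπ
      linarith
    have a2 : (7 * p : ℤ) = 54 * k + 27 := by exact_mod_cast a1
    omega
  have c2 : Real.sin (7 * π * p / 54) ≠ 0 := by
    intro h
    obtain ⟨k, hk⟩ := Real.sin_eq_zero_iff.mp h
    have a1 : (7 * p : ℝ) = 54 * k := by
      apply mul_left_cancel₀ hπ
      linarith
    have a2 : (7 * p : ℤ) = 54 * k := by exact_mod_cast a1
    omega
  have c3 : Real.sin (π * p / 27) ≠ 0 := by
    intro h
    obtain ⟨k, hk⟩ := Real.sin_eq_zero_iff.mp h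
    have a1 : (p : ℝ) = 27 * k := by
      apply mul_left_cancel₀ hπ
      linarith
    have a2 : (p : ℤ) = 27 * k := by exact_mod_cast a1
    omega
  have e1 : ∀ x : ℝ, cexp ((π * x / 27 : ℝ) * I) ^ 7 = cexp ((7 * π * x / 54 : ℝ) * I) ^ 2 := by
    intro x
    rw [← Complex.exp_nat_mul, ← Complex.exp_nat_mul]
    congr 1
    push_cast
    ring
  have e2 : ∀ c : ℝ, c * -(p : ℝ) / 54 = -(c * p / 54) := fun c => by ring
  have a0 := (PP_val (p := p) (by omega) (ζ := cexp ((π * p / 27 : ℝ) * I))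
    (by congr 1; push_cast; ring) (e1 p) (mu_eq c1)).1
  have a1 := (PP_val (p := 54 - p) (by omega) (ζ := cexp ((π * -(p : ℝ) / 27 : ℝ) * I))
    (by
      rw [exp_eq_exp_iff_exists_int]
      refine ⟨1, ?_⟩
      push_cast [Nat.cast_sub (by omega : p ≤ 54)]
      ring) (e1 (-p)) (mu_eq (by rwa [e2, Real.cos_neg]))).1
  have a2 : (-1 : ℂ) ^ (54 - p) = (-1) ^ p := by
    rw [neg_one_pow_eq_pow_mod_two, neg_one_pow_eq_pow_mod_two p]
    congr 1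
    omega
  refine ⟨2 * (-1) ^ p * Real.tan (7 * π * p / 54) * Real.sin (π * p / 27), ?_, ?_⟩
  · rw [Real.tan_eq_sin_div_cos]
    have := div_ne_zero c2 c1
    positivity
  · rw [a0, a1, a2, e2, Real.tan_neg, show π * -(p : ℝ) / 27 = -(π * p / 27) by ring, exp_mul_I,
      exp_mul_I, ← ofReal_cos, ← ofReal_cos, ← ofReal_sin, ← ofReal_sin, Real.cos_neg, Real.sin_neg]
    generalize Real.tan (7 * π * p / 54) = T
    generalize Real.sin (π * p / 27) = S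
    generalize Real.cos (π * p / 27) = C
    push_cast
    linear_combination (-2 * (1 + I) * (-1) ^ p * T * S) * I_mul_I

/-- A positive multiple of a root of unity. -/
def Good (x : ℂ) : Prop := ∃ (J : ℚ) (v : ℝ), 0 < v ∧ x = v * cexp (2 * π * I * (J / 8))

theorem Good.mul {x : ℂ} (h : Good x) {a : ℝ} (ha : a ≠ 0) : Good (a * x) := by
  obtain ⟨J, v, hv, rfl⟩ := h
  rcases lt_or_gt_of_ne ha with h | h
  · refine ⟨J + 4, -a * v, mul_pos (neg_pos.mpr h) hv, ?_⟩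
    rw [exp_eq_neg_of (x := 2 * π * I * (((J + 4 : ℚ) : ℂ) / 8)) (y := 2 * π * I * (J / 8)) 0
      (by push_cast; ring)]
    push_cast
    ring
  · exact ⟨J, a * v, mul_pos h hv, by push_cast; ring⟩

theorem good_one : Good 1 := ⟨0, 1, one_pos, by simp⟩

theorem good_I : Good I := ⟨2, 1, one_pos, by
  rw [show (2 * π * I * (((2 : ℚ) : ℂ) / 8)) = π / 2 * I by push_cast; ring, exp_pi_div_two_mul_I]
  simp⟩

theorem good_one_I : Good (1 + I) := ⟨1, √2, by positivity, by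
  have s2 : ((√2 : ℝ) : ℂ) ^ 2 = 2 := by
    rw [← ofReal_pow, Real.sq_sqrt (by norm_num)]
    simp
  rw [show (2 * π * I * (((1 : ℚ) : ℂ) / 8)) = (π / 4 : ℝ) * I by push_cast; ring, exp_mul_I,
    ← ofReal_cos, ← ofReal_sin, Real.cos_pi_div_four, Real.sin_pi_div_four]
  push_cast
  linear_combination (-(1 + I) / 2) * s2⟩

/-- The constant factor. -/
noncomputable def cst : ℂ := (1 + I) / 2 / (√54 : ℝ)

theorem good_cst {a : ℝ} (ha : a ≠ 0) : Good (cst * ((1 + I) * a)) := by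
  have h := good_I.mul (a := a / √54) (by positivity)
  rw [show cst * ((1 + I) * a) = (a / √54 : ℝ) * I by
    rw [cst]
    push_cast
    linear_combination (a / 2 / (√54 : ℝ) : ℂ) * I_mul_I]
  exact h

/-- The amplitude of an irreducible class. -/
noncomputable def AI (s : ℝ) (l r : ℕ) : ℂ :=
  cst * (s * (4 * √(27 / 7) * Real.cos (5 * π * l / 14)) : ℝ) * cexp (18 * π * I / 7 / r)

/-- The amplitudes of the 25 classes. -/
noncomputable def AA (j r : ℕ) : ℂ :=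
  if j = 0 then cst * (BB 0 r + BB 18 r + BB 36 r)
  else if j = 1 then r * (cst * (BB 3 r + BB 15 r + BB 21 r + BB 33 r + BB 39 r + BB 51 r))
  else if j = 2 then cst * (BB 6 r + BB 12 r + BB 24 r + BB 30 r + BB 42 r + BB 48 r)
  else if j = 3 then cst * (BB 9 r + BB 45 r +
    cexp (18 * π * I / 7 / r) * (Bp r 27 + 2 * I * (√(27 * r / 7) : ℝ)))
  else if j = 4 then AI 1 1 r else if j = 5 then AI (-1) 3 r else if j = 6 then AI 1 5 r
  else cst * (BB (j - 7 + (j - 7) / 2 + 1) r + BB (54 - (j - 7 + (j - 7) / 2 + 1)) r)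

/-- The exponents. -/
def ex (j : ℕ) : ℚ := if j = 1 then -3 / 2 else if 4 ≤ j ∧ j ≤ 6 then 0 else -1 / 2

theorem ser_AI {s : ℝ} (hs : s ≠ 0) {l : ℕ} (h0 : 0 < l) (h1 : l < 7) :
    ∃ P, Ser (AI s l) P ∧ Good (P 0) := by
  have c1 : Real.cos (5 * π * l / 14) ≠ 0 := by
    intro h
    obtain ⟨k, hk⟩ := Real.cos_eq_zero_iff.mp h
    have a1 : (5 * l : ℝ) = 14 * k + 7 := by
      apply mul_left_cancel₀ pi_ne_zero
      linarith
    have a2 : (5 * l : ℤ) = 14 * k + 7 := by exact_mod_cast a1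
    omega
  refine ⟨_, (ser_exp (z := 18 * π * I / 7) (by simp)).const_mul _, ?_⟩
  have h := good_one_I.mul (a := s * (4 * √(27 / 7) * Real.cos (5 * π * l / 14)) / 2 / √54)
    (by positivity)
  generalize s * (4 * √(27 / 7) * Real.cos (5 * π * l / 14)) = b at *
  rw [show cst * b * ((18 * π * I / 7) ^ 0 / (Nat.factorial 0)) = (b / 2 / √54 : ℝ) * (1 + I) by
    rw [cst]
    push_cast
    simp only [pow_zero, Nat.factorial_zero, Nat.cast_one, div_one]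
    ring]
  exact h

theorem ser_AA (j : Fin 25) : ∃ P, Ser (AA j) P ∧ Good (P 0) := by
  have s : ∀ p : ℕ, p % 54 ≠ 27 → Ser (BB p) (PP p) := fun p => ser_BB
  obtain ⟨j, hj⟩ := j
  change ∃ P, Ser (AA j) P ∧ Good (P 0)
  by_cases h7 : 7 ≤ j
  · obtain ⟨a, ha, h⟩ := PP_pair (p := j - 7 + (j - 7) / 2 + 1) (by omega) (by omega)
    refine ⟨_, (((s (j - 7 + (j - 7) / 2 + 1) (by omega)).add
      (s (54 - (j - 7 + (j - 7) / 2 + 1)) (by omega))).const_mul cst).congr fun r _ => ?_, ?_⟩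
    · rw [AA, if_neg (by omega), if_neg (by omega), if_neg (by omega), if_neg (by omega),
        if_neg (by omega), if_neg (by omega), if_neg (by omega)]
    · simp only [h]
      exact good_cst ha
  · have h6 : j < 7 := by omega
    interval_cases j
    · refine ⟨_, ((((s 0 (by norm_num)).add (s 18 (by norm_num))).add
        (s 36 (by norm_num))).const_mul cst).congr fun r _ => rfl, ?_⟩
      have : PP 0 0 + PP 18 0 + PP 36 0 = (1 + I) * (3 : ℝ) := by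
        rw [PP_0, PP_18, PP_36]
        push_cast
        ring
      simp only [this]
      exact good_cst (by norm_num)
    · have h0 : PP 3 0 + PP 15 0 + PP 21 0 + PP 33 0 + PP 39 0 + PP 51 0 = 0 := by
        rw [PP_3.1, PP_15.1, PP_21.1, PP_33.1, PP_39.1, PP_51.1]
        ring
      refine ⟨_, ((((((((s 3 (by norm_num)).add (s 15 (by norm_num))).add
        (s 21 (by norm_num))).add (s 33 (by norm_num))).add (s 39 (by norm_num))).add
        (s 51 (by norm_num))).const_mul cst).shift (by simp only [h0, mul_zero])).congr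
        fun r _ => rfl, ?_⟩
      have : cst * (PP 3 1 + PP 15 1 + PP 21 1 + PP 33 1 + PP 39 1 + PP 51 1) =
          (-π / √54 : ℝ) * 1 := by
        rw [PP_3.2, PP_15.2, PP_21.2, PP_33.2, PP_39.2, PP_51.2, cst]
        push_cast
        linear_combination ((1 + I) / 2 / (√54 : ℝ) * (18 * π * I / 7)) * h0 +
          (π * (2 + I) / 2 / (√54 : ℝ) : ℂ) * I_mul_I
      simp only [zero_add, this]
      exact good_one.mul (div_ne_zero (neg_ne_zero.mpr pi_ne_zero) (by positivity))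
    · refine ⟨_, (((((((s 6 (by norm_num)).add (s 12 (by norm_num))).add
        (s 24 (by norm_num))).add (s 30 (by norm_num))).add (s 42 (by norm_num))).add
        (s 48 (by norm_num))).const_mul cst).congr fun r _ => rfl, ?_⟩
      have : PP 6 0 + PP 12 0 + PP 24 0 + PP 30 0 + PP 42 0 + PP 48 0 = (1 + I) * (-12 : ℝ) := by
        rw [PP_6, PP_12, PP_24, PP_30, PP_42, PP_48]
        push_cast
        ring
      simp only [this]
      exact good_cst (by norm_num)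
    · obtain ⟨P, h1, h2⟩ := ser_mid
      refine ⟨_, ((((s 9 (by norm_num)).add (s 45 (by norm_num))).add h1).const_mul cst).congr
        fun r _ => rfl, ?_⟩
      have : PP 9 0 + PP 45 0 + P 0 = (1 + I) * (-9 / 7 : ℝ) := by
        rw [PP_9, PP_45, h2]
        push_cast
        ring
      simp only [this]
      exact good_cst (by norm_num)
    · exact ser_AI one_ne_zero one_pos (by norm_num)
    · exact ser_AI (s := -1) (l := 3) (by norm_num) (by norm_num) (by norm_num)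
    · exact ser_AI (s := 1) (l := 5) (by norm_num) (by norm_num) (by norm_num)

theorem gm_pair (r l m : ℕ) (h : l + m = 14) (n : ℤ) (hn : n = 27 * l ^ 2) :
    gm r l - gm r m = cexp (2 * π * I * (r * ((n : ℝ) / 756 : ℝ))) *
      (2 * (Real.cos (5 * π * l / 14) : ℝ)) := by
  have h1 : (m : ℂ) = 14 - l := by
    have : (l : ℂ) + m = 14 := by exact_mod_cast h
    linear_combination this
  rw [ofReal_cos, Complex.two_cos, mul_add, ← Complex.exp_add, ← Complex.exp_add, gm, gm, h1, hn,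
    sub_eq_neg_add]
  congr 1
  · rw [neg_eq_iff_eq_neg]
    exact exp_eq_neg_of (-(r * l ^ 2) - 27 * r * (7 - l) - 3) (by push_cast; ring)
  · rw [exp_eq_exp_iff_exists_int]
    exact ⟨-(r * l ^ 2), by push_cast; ring⟩

theorem prism_expansion :
    HasExpansion (fun r => tauS ![2, 2, -7, 1, 1, 1] r / tauS ![] r)
      (fun j : Fin 25 => (nn j : ℝ) / 756) (fun j => ex j) := by
  choose P h1 J v h2 h3 using ser_AA
  refine hasExpansion_of_series _ _ _ (fun j => AA j) P h1 J v h2 h3 fun r hr => ?_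
  have hr0 : 0 < r := by omega
  have hrr : (0:ℝ) < r := by exact_mod_cast hr0
  have hr' : (r : ℂ) ≠ 0 := by exact_mod_cast hr0.ne'
  have b5 : ((√r : ℝ) : ℂ) ≠ 0 := ofReal_ne_zero.mpr (Real.sqrt_ne_zero'.mpr hrr)
  have b6 : ((√54 : ℝ) : ℂ) ≠ 0 := ofReal_ne_zero.mpr (by positivity)
  have p1 : (((r : ℝ) ^ (((-1 / 2 : ℚ)) : ℝ) : ℝ) : ℂ) = ((√r : ℝ) : ℂ)⁻¹ := by
    rw [Real.sqrt_eq_rpow, ← ofReal_inv, ← Real.rpow_neg hrr.le]
    norm_num
  have p2 : (((r : ℝ) ^ (((-3 / 2 : ℚ)) : ℝ) : ℝ) : ℂ) = ((√r : ℝ) : ℂ)⁻¹ / r := by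
    rw [← p1, ← ofReal_natCast, ← ofReal_div, ← Real.rpow_sub_one hrr.ne']
    norm_num
  have key : ∀ p j : ℕ, (427 * (p : ℤ) ^ 2) % 756 = nn j % 756 →
      ec r p = cexp (2 * π * I * (r * ((nn j : ℝ) / 756 : ℝ))) := by
    intro p j h
    obtain ⟨k, hk⟩ : ∃ k, 427 * (p : ℤ) ^ 2 = nn j + 756 * k :=
      ⟨(427 * (p : ℤ) ^ 2 - nn j) / 756, by omega⟩
    have hk' : 427 * (p : ℂ) ^ 2 = nn j + 756 * k := by exact_mod_cast hk
    rw [ec, exp_eq_exp_iff_exists_int]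
    refine ⟨r * k, ?_⟩
    push_cast
    linear_combination (2 * π * I * r / 756) * hk'
  have g1 := gm_pair r 1 13 rfl (nn 4) (by decide)
  have g3 := gm_pair r 3 11 rfl (nn 5) (by decide)
  have g5 := gm_pair r 5 9 rfl (nn 6) (by decide)
  have g7 : gm r 7 = -I * cexp (2 * π * I * (r * ((nn 3 : ℝ) / 756 : ℝ))) := by
    rw [← exp_neg_pi_quarter_sq, ← Complex.exp_nat_mul, ← Complex.exp_add, gm,
      exp_eq_exp_iff_exists_int, show nn 3 = 567 from rfl]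
    exact ⟨-(48 * r + 1), by push_cast; ring⟩
  have hF := FT_eq hr0
  have hZ : tauS ![2, 2, -7, 1, 1, 1] r / tauS ![] r =
      cst * ((√r : ℝ) : ℂ)⁻¹ * cexp (18 * π * I / 7 / r) * ((1 + I) * FT r) := by
    rw [Z_FT hr, Real.sqrt_mul (by norm_num), cst]
    push_cast
    field_simp
    linear_combination (-FT r) * I_mul_I
  have hs : ((√(27 * r / 7) : ℝ) : ℂ) = (√(27 / 7) : ℝ) * (√r : ℝ) := by
    rw [← ofReal_mul, ← Real.sqrt_mul (by norm_num)]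
    congr 2
    ring
  rw [hZ, hF, eq_add_of_sub_eq g1, eq_add_of_sub_eq g3, eq_add_of_sub_eq g5, g7,
    Fin.sum_univ_eq_sum_range (fun j => (((r : ℝ) ^ ((ex j : ℚ) : ℝ) : ℝ) : ℂ) *
      cexp (2 * π * I * (r * ((nn j : ℝ) / 756 : ℝ))) * AA j r) 25]
  simp only [Finset.sum_range_succ, Finset.range_zero, Finset.sum_empty,
    key 0 0 (by decide), key 1 7 (by decide), key 2 8 (by decide), key 3 1 (by decide),
    key 4 9 (by decide), key 5 10 (by decide), key 6 2 (by decide), key 7 11 (by decide),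
    key 8 12 (by decide), key 9 3 (by decide), key 10 13 (by decide), key 11 14 (by decide),
    key 12 2 (by decide), key 13 15 (by decide), key 14 16 (by decide), key 15 1 (by decide),
    key 16 17 (by decide), key 17 18 (by decide), key 18 0 (by decide), key 19 19 (by decide),
    key 20 20 (by decide), key 21 1 (by decide), key 22 21 (by decide), key 23 22 (by decide),
    key 24 2 (by decide), key 25 23 (by decide), key 26 24 (by decide), key 27 3 (by decide),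
    key 28 24 (by decide), key 29 23 (by decide), key 30 2 (by decide), key 31 22 (by decide),
    key 32 21 (by decide), key 33 1 (by decide), key 34 20 (by decide), key 35 19 (by decide),
    key 36 0 (by decide), key 37 18 (by decide), key 38 17 (by decide), key 39 1 (by decide),
    key 40 16 (by decide), key 41 15 (by decide), key 42 2 (by decide), key 43 14 (by decide),
    key 44 13 (by decide), key 45 3 (by decide), key 46 12 (by decide), key 47 11 (by decide),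
    key 48 2 (by decide), key 49 10 (by decide), key 50 9 (by decide), key 51 1 (by decide),
    key 52 8 (by decide), key 53 7 (by decide)]
  generalize hφ : (fun j : ℕ => cexp (2 * π * I * (r * ((nn j : ℝ) / 756 : ℝ)))) = φ
  have hφ' : ∀ j, cexp (2 * π * I * (r * ((nn j : ℝ) / 756 : ℝ))) = φ j := fun j => congrFun hφ j
  simp only [hφ', AA, AI, BB, ex, hs, Nat.reduceEqDiff, Nat.reduceLeDiff, Nat.reduceSub,
    Nat.reduceDiv, Nat.reduceAdd, OfNat.ofNat_ne_zero, OfNat.zero_ne_ofNat, OfNat.ofNat_ne_one,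
    OfNat.one_ne_ofNat, one_ne_zero, zero_ne_one, and_true, and_false,
    le_refl, if_true, if_false, p1, p2, Rat.cast_zero, Real.rpow_zero, ofReal_mul, ofReal_one,
    ofReal_neg, ofReal_ofNat]
  field_simp
  ring

end Pool.Agent.P.MP_27a476_gt
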