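import Pool.Agent.P.MP_27a476_gt.PrCyc

set_option autoImplicit false

open scoped Quaternion Real
open QuaternionGroup

namespace Pool.Agent.P.MP_27a476_gt

/-- The binary dihedral group of order 28. -/
abbrev Q28 : Type := QuaternionGroup 7

/-- Action on the two cosets of the cyclic subgroup of order 14. -/
def t2 : Q28 → Bool → Bool
  | a _, t => t
  | xa _, t => !t

/-- Coset representatives. -/
def r2 : Bool → Q28
  | false => a 0
  | true => xa 0

/-- The exponent cocycle. -/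
def c2 : Q28 → Bool → ℤ
  | a i, false => i.val
  | a i, true => (-i).val
  | xa i, false => i.val
  | xa i, true => (7 - i).val

/-- The carry. -/
def e2 (g g' : Q28) (t : Bool) : ℤ := (c2 g (t2 g' t) + c2 g' t - c2 (g * g') t) / 14

/-- Action on the seven cosets of the cyclic subgroup of order 4. -/
def t7 : Q28 → ZMod 7 → ZMod 7
  | a i, t => t + 4 * i.val
  | xa i, t => 3 * i.val - t

/-- Coset representatives. -/
def r7 (t : ZMod 7) : Q28 := a (2 * t.val)

/-- The exponent cocycle. -/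
def c7 : Q28 → ZMod 7 → ℤ
  | a i, _ => 2 * (i.val % 2)
  | xa i, _ => 1 + 2 * (i.val % 2)

/-- The carry. -/
def e7 (g g' : Q28) (t : ZMod 7) : ℤ := (c7 g (t7 g' t) + c7 g' t - c7 (g * g') t) / 4

/-- The cyclic group of order 108. -/
abbrev C108 : Type := Multiplicative (ZMod 108)

/-- The exponent. -/
def c1 (g : C108) (_ : Unit) : ℤ := g.toAdd.val

/-- The carry. -/
def e1 (g g' : C108) (t : Unit) : ℤ := (c1 g t + c1 g' t - c1 (g * g') t) / 108

section

variable {A : Type*} [AddCommGroup A]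

theorem cyc_two (ω : Q28 → Q28 → Q28 → A)
    (hc : ∀ a b c d, ω b c d - ω (a * b) c d + ω a (b * c) d - ω a b (c * d) + ω a b c = 0) :
    ∃ q : ℤ, 2 • cyc ω ![2, 2, -7, 1, 1, 1] (a 7) ![xa 0, xa (-1), a 1, a 7, a 7, a 7] =
      (1 + 14 * q) • ∑ t ∈ Finset.range 14, ω (a 1) (a 1 ^ t) (a 1) := by
  have h := transfer ω hc t2 (by decide +kernel) (by decide +kernel) r2 (a 1) 14
    (by decide +kernel) c2 (by decide +kernel) e2 (by decide +kernel) ![2, 2, -7, 1, 1, 1] (a 7)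
    ![xa 0, xa (-1), a 1, a 7, a 7, a 7] (by decide +kernel) (by decide +kernel)
    (by decide +kernel)
  have h1 : cyc (fun u v d => ∑ t, e2 u v (t2 d t) * c2 d t) ![2, 2, -7, 1, 1, 1] (a 7)
    ![xa 0, xa (-1), a 1, a 7, a 7, a 7] % 14 = 1 := by decide +kernel
  generalize cyc (fun u v d => ∑ t, e2 u v (t2 d t) * c2 d t) _ _ _ = n at h h1
  exact ⟨n / 14, by rw [show 1 + 14 * (n / 14) = n by omega]; exact h⟩

theorem cyc_seven (ω : Q28 → Q28 → Q28 → A)
    (hc : ∀ a b c d, ω b c d - ω (a * b) c d + ω a (b * c) d - ω a b (c * d) + ω a b c = 0) :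
    ∃ q : ℤ, 7 • cyc ω ![2, 2, -7, 1, 1, 1] (a 7) ![xa 0, xa (-1), a 1, a 7, a 7, a 7] =
      (1 + 4 * q) • ∑ t ∈ Finset.range 4, ω (xa 0) (xa 0 ^ t) (xa 0) := by
  have h := transfer ω hc t7 (by decide +kernel) (by decide +kernel) r7 (xa 0) 4
    (by decide +kernel) c7 (by decide +kernel) e7 (by decide +kernel) ![2, 2, -7, 1, 1, 1] (a 7)
    ![xa 0, xa (-1), a 1, a 7, a 7, a 7] (by decide +kernel) (by decide +kernel)
    (by decide +kernel)
  have h1 : cyc (fun u v d => ∑ t, e7 u v (t7 d t) * c7 d t) ![2, 2, -7, 1, 1, 1] (a 7)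
    ![xa 0, xa (-1), a 1, a 7, a 7, a 7] % 4 = 1 := by decide +kernel
  generalize cyc (fun u v d => ∑ t, e7 u v (t7 d t) * c7 d t) _ _ _ = n at h h1
  exact ⟨n / 4, by rw [show 1 + 4 * (n / 4) = n by omega]; exact h⟩

theorem cyc_one (ω : C108 → C108 → C108 → A)
    (hc : ∀ a b c d, ω b c d - ω (a * b) c d + ω a (b * c) d - ω a b (c * d) + ω a b c = 0) :
    ∃ q : ℤ, cyc ω ![2, 2, -7, 1, 1, 1] (Multiplicative.ofAdd (-2))
      (fun i => Multiplicative.ofAdd (![1, 55, 46, 2, 2, 2] i)) =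
      (85 + 108 * q) • ∑ t ∈ Finset.range 108,
        ω (Multiplicative.ofAdd 1) (Multiplicative.ofAdd 1 ^ t) (Multiplicative.ofAdd 1) := by
  have h := transfer ω hc (fun _ (t : Unit) => t) (fun _ _ _ => rfl)
    (fun _ => Function.bijective_id) (fun _ => 1) (Multiplicative.ofAdd 1) 108
    (by decide +kernel) c1 (by decide +kernel) e1 (by decide +kernel) ![2, 2, -7, 1, 1, 1]
    (Multiplicative.ofAdd (-2)) (fun i => Multiplicative.ofAdd (![1, 55, 46, 2, 2, 2] i))
    (by decide +kernel) (by decide +kernel) (by decide +kernel)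
  have h1 : cyc (fun u v d => ∑ t, e1 u v t * c1 d t) ![2, 2, -7, 1, 1, 1]
    (Multiplicative.ofAdd (-2)) (fun i => Multiplicative.ofAdd (![1, 55, 46, 2, 2, 2] i)) % 108 =
      85 := by decide +kernel
  generalize cyc (fun u v d => ∑ t, e1 u v t * c1 d t) _ _ _ = n at h h1
  exact ⟨n / 108, by rw [show 85 + 108 * (n / 108) = n by omega]; simpa using h⟩

end

theorem exists_zmod {G : Type*} [Group G] (g : G) (N : ℕ) (hg : g ^ N = 1) :
    ∃ P : ZMod N → G, (∀ i j, P (i + j) = P i * P j) ∧ ∀ k : ℤ, P k = g ^ k := by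
  let φ := ZMod.lift N ⟨zmultiplesHom (Additive G) (Additive.ofMul g), by
    simpa using congrArg Additive.ofMul hg⟩
  refine ⟨fun i => (φ i).toMul, fun i j => congrArg Additive.toMul (map_add φ i j),
    fun k => ?_⟩
  simp [φ]

theorem exists_Q28 {G : Type*} [Group G] (b g : G) (h1 : g ^ 14 = 1) (h2 : b * b = g ^ 7)
    (h3 : g * b = b * g⁻¹) :
    ∃ φ : Q28 →* G, (∀ k : ℤ, φ (a k) = g ^ k) ∧ ∀ k : ℤ, φ (xa k) = b * g ^ k := by
  obtain ⟨P, p1, p2⟩ := exists_zmod g (2 * 7) h1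
  have p3 : ∀ i, P i * b = b * P (-i) := by
    intro i
    obtain ⟨k, rfl⟩ := ZMod.intCast_surjective i
    rw [← Int.cast_neg, p2, p2, ← inv_zpow']
    exact (SemiconjBy.zpow_right (a := b) (x := g⁻¹) (y := g) h3.symm k).symm
  have p4 : b * b = P 7 := by
    rw [h2, ← zpow_natCast, ← p2]
    rfl
  refine ⟨MonoidHom.mk' (fun q => match q with
    | a i => P i
    | xa i => b * P i) ?_, p2, fun k => congrArg (b * ·) (p2 k)⟩
  rintro (i | i) (j | j)
  · exact p1 i j
  · change b * P (j - i) = P i * (b * P j)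
    rw [← mul_assoc, p3, mul_assoc, ← p1, neg_add_eq_sub]
  · change b * P (i + j) = b * P i * P j
    rw [p1, mul_assoc]
  · change P (7 + j - i) = b * P i * (b * P j)
    rw [mul_assoc, ← mul_assoc (P i), p3, ← mul_assoc, ← mul_assoc, p4, ← p1, ← p1]
    congr 1
    ring

theorem relP {G : Type*} [Group G] (ρ : PiS ![2, 2, -7, 1, 1, 1] →* G) :
    ∃ x y z : G, ρ (PresentedGroup.of none) = z ^ 7 ∧
      (fun i => ρ (PresentedGroup.of (some i))) =
        ![x, y, z, (z ^ 7)⁻¹, (z ^ 7)⁻¹, (z ^ 7)⁻¹] ∧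
      x * z ^ 7 = z ^ 7 * x ∧ y * z ^ 7 = z ^ 7 * y ∧ x * x * z ^ 7 = 1 ∧ y * y * z ^ 7 = 1 ∧
      x * y = z ^ 20 := by
  obtain ⟨h0, h1, h2⟩ := relS _ ρ
  have a0 := h1 0
  have a1 := h1 1
  have a2 := h1 2
  have a3 := h1 3
  have a4 := h1 4
  have a5 := h1 5
  have b0 := h0 0
  have b1 := h0 1
  simp only [Matrix.cons_val, List.ofFn_succ, List.ofFn_zero, List.prod_nil, List.prod_cons,
    mul_one, zpow_one, zpow_two] at a0 a1 a2 a3 a4 a5 h2
  have c2 : ρ (PresentedGroup.of none) = ρ (PresentedGroup.of (some 2)) ^ 7 := by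
    rw [zpow_neg, inv_mul_eq_one] at a2
    exact_mod_cast a2.symm
  rw [c2] at a0 a1 a3 a4 a5 b0 b1
  have c3 := eq_inv_of_mul_eq_one_left a3
  have c4 := eq_inv_of_mul_eq_one_left a4
  have c5 := eq_inv_of_mul_eq_one_left a5
  refine ⟨_, _, _, c2, ?_, b0, b1, a0, a1, ?_⟩
  · funext i
    fin_cases i
    exacts [rfl, rfl, rfl, c3, c4, c5]
  · change ρ (PresentedGroup.of (some 0)) * (ρ (PresentedGroup.of (some 1)) *
      (ρ (PresentedGroup.of (some 2)) * (ρ (PresentedGroup.of (some 3)) *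
      (ρ (PresentedGroup.of (some 4)) * ρ (PresentedGroup.of (some 5)))))) = 1 at h2
    rw [c3, c4, c5, ← mul_assoc] at h2
    rw [eq_inv_of_mul_eq_one_left h2]
    group

end Pool.Agent.P.MP_27a476_gt
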