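import Pool.Agent.P.MP_27a476_gt.PrAmp

set_option autoImplicit false

open Complex Filter MeasureTheory Real Topology Set

namespace Pool.Agent.P.MP_27a476_gt

theorem half_line {r : ℕ} (hr : 0 < r) :
    ∫ t in Ioi (0:ℝ), (Gs r (-5 / 2 - 7 * (1 + I) * t) - Gs r (-5 / 2 - 7 * (1 + I) * (-t : ℝ))) =
      -(∫ s in (-5 / 2 : ℝ)..5 / 2, Gs r s) / (7 * (1 + I)) := by
  have hπ := pi_pos
  have hrr : (0:ℝ) < r := by exact_mod_cast hr
  have h7 : (7 * (1 + I) : ℂ) ≠ 0 := fun h => by simpa using congrArg re h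
  obtain ⟨Ψ, hΨ⟩ := (Gs_diff r).isExactOn_univ
  have h1 : ∀ w : ℂ, ∫ s in (-5 / 2 : ℝ)..5 / 2, Gs r (s - w) =
      Ψ ((5 / 2 : ℝ) - w) - Ψ ((-5 / 2 : ℝ) - w) := by
    intro w
    refine intervalIntegral.integral_eq_sub_of_hasDerivAt (f := fun s : ℝ => Ψ (s - w))
      (fun s _ => ?_) (((Gs_diff r).continuous.comp (by fun_prop)).intervalIntegrable _ _)
    simpa using ((hΨ _ (mem_univ _)).comp (s : ℂ) ((hasDerivAt_id (s : ℂ)).sub_const w)).comp_ofReal
  have h2 : ∀ (c : ℂ) (t : ℝ), HasDerivAt (fun t : ℝ => Ψ (c - 7 * (1 + I) * t))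
      (Gs r (c - 7 * (1 + I) * t) * -(7 * (1 + I))) t := by
    intro c t
    simpa using ((hΨ _ (mem_univ _)).comp (t : ℂ)
      (((hasDerivAt_id (t : ℂ)).const_mul (7 * (1 + I))).const_sub c)).comp_ofReal
  have i1 := gs_int hr (-5 / 2)
  push_cast at i1
  have i2 := i1.comp_neg
  have h3 := integral_Ioi_of_hasDerivAt_of_tendsto' (a := 0) (m := 0)
    (f := fun t : ℝ => (∫ s in (-5 / 2 : ℝ)..5 / 2, Gs r (s - 7 * (1 + I) * t)) / (7 * (1 + I)))
    (f' := fun t : ℝ => Gs r (-5 / 2 - 7 * (1 + I) * t) - Gs r (-5 / 2 - 7 * (1 + I) * (-t : ℝ)))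
    (fun t _ => ?_) (i1.sub i2).integrableOn ?_
  · rw [h3]
    simp [neg_div]
  · simp only [h1]
    refine (((h2 _ t).sub (h2 _ t)).div_const _).congr_deriv ?_
    have : Gs r (-5 / 2 - 7 * (1 + I) * (-t : ℝ)) = Gs r ((5 / 2 : ℝ) - 7 * (1 + I) * t) := by
      rw [Gs, Gs]
      congr 1
      push_cast
      ring
    rw [this, div_eq_iff h7]
    push_cast
    ring
  · rw [← zero_div (7 * (1 + I) : ℂ)]
    refine Tendsto.div_const (squeeze_zero_norm' (a := fun t : ℝ =>
      Real.exp (-(π / (378 * r) * t)) * |5 / 2 - -5 / 2|) ?_ ?_) _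
    · filter_upwards [eventually_ge_atTop 1] with t ht
      refine intervalIntegral.norm_integral_le_of_norm_le_const fun s hs => ?_
      rw [uIoc_of_le (by norm_num)] at hs
      have a1 : π * I * (s - 7 * (1 + I) * t) ^ 2 / (378 * r) =
          ((π / (378 * r) : ℝ) : ℂ) * (I * (s - 7 * (1 + I) * t) ^ 2) := by
        push_cast
        ring
      have a2 : (I * (s - 7 * (1 + I) * t) ^ 2).re ≤ -t := by
        simp [sq]
        nlinarith [hs.2]
      rw [Gs, Complex.norm_exp, a1, re_ofReal_mul, Real.exp_le_exp, ← mul_neg]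
      gcongr
    · rw [← zero_mul |(5 / 2 - -5 / 2 : ℝ)|]
      exact (tendsto_exp_neg_atTop_nhds_zero.comp
        (tendsto_id.const_mul_atTop (by positivity))).mul_const _

theorem CH_neg (w : ℂ) : CH (-w) = CH w := by rw [CH, CH, mul_neg, Complex.cosh_neg]

/-- The kernel on the half line. -/
noncomputable def kh (t : ℝ) : ℂ :=
  (Ioi (0:ℝ)).indicator (fun t : ℝ => cexp (π * (1 - I) * (-27 : ℝ) / 27 * t)) t / CH t

theorem Im_mid {r : ℕ} (hr : 0 < r) : Im r 27 - (√(27 * r / 7) : ℝ) =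
    -(∫ s in (-5 / 2 : ℝ)..5 / 2, Gs r s) / (7 * (1 + I)) -
      (∫ t : ℝ, Gs r (-5 / 2 - 7 * (1 + I) * t) * kh t) +
      ∫ t : ℝ, Gs r (-5 / 2 - 7 * (1 + I) * (-t : ℝ)) * kh t := by
  have i1 := gs_int hr (-5 / 2)
  have e1 := gs_integral hr (-5 / 2)
  push_cast at i1 e1
  have i2 := i1.comp_neg
  have i3 := Im_int hr 27
  have i4 := Im_int hr (-27)
  have i5 := i3.comp_neg
  have h1 : ∀ F : ℝ → ℂ, ∫ t : ℝ, F t * kh t =
      ∫ t in Ioi (0:ℝ), F t * cexp (π * (1 - I) * (-27 : ℝ) / 27 * t) / CH t := by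
    intro F
    rw [← integral_indicator measurableSet_Ioi]
    congr 1
    funext t
    by_cases h : t ∈ Ioi (0:ℝ)
    · simp only [kh, indicator_of_mem h, mul_div_assoc]
    · simp [kh, indicator_of_notMem h]
  have h2 : ∀ t : ℝ, cexp (π * (1 - I) * (27 : ℝ) / 27 * (-t : ℝ)) / CH (-t : ℝ) =
      cexp (π * (1 - I) * (-27 : ℝ) / 27 * t) / CH t := by
    intro t
    push_cast
    rw [CH_neg]
    congr 2
    ring
  simp only [mul_div_assoc (Gs r _), h2] at i5
  have i6 : Integrable fun t : ℝ => Gs r (-5 / 2 - 7 * (1 + I) * t) *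
    cexp (π * (1 - I) * (27 : ℝ) / 27 * t) / CH t - Gs r (-5 / 2 - 7 * (1 + I) * t) := i3.sub i1
  rw [← e1, Im, ← integral_sub i3 i1, ← intervalIntegral.integral_Iic_add_Ioi (b := 0)
    i6.integrableOn i6.integrableOn, ← half_line hr, h1, h1,
    ← neg_zero, ← integral_comp_neg_Ioi, neg_zero]
  simp only [mul_div_assoc (Gs r _), h2] at i3 i4 ⊢
  rw [integral_sub i5.integrableOn i2.integrableOn, integral_sub i1.integrableOn i2.integrableOn]
  have h3 : ∀ t : ℝ, Gs r (-5 / 2 - 7 * (1 + I) * t) *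
      (cexp (π * (1 - I) * (27 : ℝ) / 27 * t) / CH t) - Gs r (-5 / 2 - 7 * (1 + I) * t) =
      Gs r (-5 / 2 - 7 * (1 + I) * t) - Gs r (-5 / 2 - 7 * (1 + I) * t) *
        (cexp (π * (1 - I) * (-27 : ℝ) / 27 * t) / CH t) := by
    intro t
    have a0 := CH_real_ne t
    have a1 : π * (1 - I) * (27 : ℝ) / 27 * t = π * (1 - I) * t := by
      push_cast
      ring
    have a2 : π * (1 - I) * (-27 : ℝ) / 27 * t = -(π * (1 - I) * t) := by
      push_cast
      ring
    have a3 : 2 * CH t = cexp (π * (1 - I) * t) + cexp (-(π * (1 - I) * t)) := by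
      rw [CH, Complex.cosh]
      ring
    rw [a1, a2]
    generalize Gs r (-5 / 2 - 7 * (1 + I) * t) = G
    generalize cexp (π * (1 - I) * t) = X at *
    generalize cexp (-(π * (1 - I) * t)) = Y at *
    field_simp
    linear_combination -G * a3
  simp only [h3]
  rw [integral_sub i1.integrableOn i4.integrableOn]
  ring

theorem ser_mid : ∃ P : ℕ → ℂ, Ser (fun r => cexp (18 * π * I / 7 / r) *
    (Bp r 27 + 2 * I * (√(27 * r / 7) : ℝ))) P ∧ P 0 = (1 + I) * (-2 / 7) := by
  have hπ := pi_pos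
  have m1 : AEStronglyMeasurable kh volume :=
    (((by fun_prop : Continuous fun t : ℝ => cexp (π * (1 - I) * (-27 : ℝ) / 27 * t)
      ).measurable.indicator measurableSet_Ioi).div
      (CH_diff.continuous.comp continuous_ofReal).measurable).aestronglyMeasurable
  have m2 := kap_decay (h := (Ioi (0:ℝ)).indicator
    fun t : ℝ => cexp (π * (1 - I) * (-27 : ℝ) / 27 * t)) 1 0 fun t => by
      by_cases h : t ∈ Ioi (0:ℝ)
      · have a1 : 0 < t := h
        rw [indicator_of_mem h, lin_norm, one_mul, Real.exp_le_exp]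
        simp only [ofReal_re, ofReal_im]
        nlinarith
      · simp [indicator_of_notMem h]
  have s1 := ser_int m1 _ _ (by linarith) m2 zz_cont π _ hπ.le zz_re zz_norm
  have s2 := ser_int m1 _ _ (by linarith) m2 (zz_cont.comp continuous_neg) π _ hπ.le
    (fun t => zz_re _) fun t => (zz_norm _).trans (by rw [abs_neg])
  have s3 := ser_int (κ := (Ioc (-5 / 2 : ℝ) (5 / 2)).indicator fun _ => 1)
    (z := fun s : ℝ => 18 * π * I / 7 + π * I / 378 * s ^ 2)
    ((measurable_const.indicator measurableSet_Ioc).aestronglyMeasurable) (Real.exp 3) 1 one_pos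
    (fun t => by
      by_cases h : t ∈ Ioc (-5 / 2 : ℝ) (5 / 2)
      · rw [indicator_of_mem h, norm_one, ← Real.exp_add]
        refine Real.one_le_exp ?_
        have : |t| ≤ 3 := abs_le.mpr ⟨by linarith [h.1], by linarith [h.2]⟩
        linarith
      · rw [indicator_of_notMem h, norm_zero]
        positivity) (by fun_prop) 0 (4 * π) le_rfl (fun t => by simp [sq]) fun t => by
      refine (norm_add_le _ _).trans ?_
      simp only [norm_mul, norm_div, Complex.norm_ofNat, norm_real, Real.norm_eq_abs, norm_I,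
        abs_of_pos hπ, norm_pow]
      have a0 := abs_nonneg t
      nlinarith [mul_nonneg hπ.le a0, mul_nonneg hπ.le (sq_nonneg |t|)]
  have h7 : (1 + I : ℂ) ≠ 0 := fun h => by simpa using congrArg re h
  refine ⟨_, ((((s3.const_mul (-(7 * (1 + I))⁻¹)).add (s1.const_mul (-1))).add s2).const_mul
    (-2 * I)).add ((ser_exp re_aux).const_mul (-(1 + I))) |>.congr fun r hr => ?_, ?_⟩
  · have a1 : ∫ t : ℝ, cexp ((18 * π * I / 7 + π * I / 378 * t ^ 2) / r) *
        (Ioc (-5 / 2 : ℝ) (5 / 2)).indicator (fun _ => (1 : ℂ)) t =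
        cexp (18 * π * I / 7 / r) * ∫ s in (-5 / 2 : ℝ)..5 / 2, Gs r s := by
      rw [intervalIntegral.integral_of_le (by norm_num), ← integral_const_mul,
        ← integral_indicator measurableSet_Ioc]
      congr 1
      funext t
      by_cases h : t ∈ Ioc (-5 / 2 : ℝ) (5 / 2)
      · rw [indicator_of_mem h, indicator_of_mem h, mul_one, Gs, ← Complex.exp_add]
        congr 1
        ring
      · simp [indicator_of_notMem h]
    have a2 : cexp (-(5 * π * I * (27 : ℕ) / 54)) = -I := by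
      rw [← exp_neg_pi_quarter_sq, ← Complex.exp_nat_mul, exp_eq_exp_iff_exists_int]
      exact ⟨-1, by push_cast; ring⟩
    have a3 : cexp (π * I * (27 : ℕ) / 27) = -1 := by
      rw [← exp_pi_mul_I]
      congr 1
      push_cast
      ring
    have a4 : (7 * (27 : ℕ) - 54 * kk 27 : ℝ) = 27 := by
      rw [show kk 27 = 3 from rfl]
      norm_num
    simp only [Function.comp, exp_zz, mul_assoc (cexp (18 * π * I / 7 / r)), integral_const_mul]
    rw [a1, Bp, a2, a3, a4, eq_add_of_sub_eq (Im_mid hr), show 27 + kk 27 = 30 from rfl,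
      add_div (18 * π * I / 7), Complex.exp_add]
    ring
  · simp only [pow_zero, one_mul, Nat.factorial_zero, Nat.cast_one, div_one]
    rw [integral_indicator measurableSet_Ioc]
    simp only [integral_const, MeasurableSet.univ, measureReal_restrict_apply, univ_inter,
      volume_real_Ioc, real_smul]
    norm_num
    field_simp
    linear_combination (-5 : ℂ) * I_mul_I

end Pool.Agent.P.MP_27a476_gt
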