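import Pool.Agent.P.MP_27a476_gt.PrSer

set_option autoImplicit false

open Complex Filter MeasureTheory Real Topology

namespace Pool.Agent.P.MP_27a476_gt

/-- The Gaussian. -/
noncomputable def Gs (r : ℕ) (N : ℂ) : ℂ := cexp (π * I * N ^ 2 / (378 * r))

/-- The Mordell integral centred at `c`. -/
noncomputable def Jc (r : ℕ) (c : ℝ) : ℂ := ∫ t : ℝ, Gs r (c - 7 * (1 + I) * t) / CH t

/-- The normalised Mordell integral. -/
noncomputable def Im (r : ℕ) (n : ℝ) : ℂ :=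
  ∫ t : ℝ, Gs r (-5 / 2 - 7 * (1 + I) * t) * cexp (π * (1 - I) * n / 27 * t) / CH t

/-- The phase. -/
noncomputable def ph (r : ℕ) (n : ℝ) : ℂ := cexp (π * I * (r * n ^ 2 - 5 * n) / 378)

theorem re_sq_le (c : ℝ) (w : ℂ) :
    (I * (c - 7 * (1 + I) * w) ^ 2).re ≤ (c + 14 * w.im) ^ 2 / 2 := by
  simp [sq]
  nlinarith [sq_nonneg (c + 14 * w.im - 14 * (w.re + w.im))]

theorem gs_norm {r : ℕ} (hr : 0 < r) (c : ℝ) (w : ℂ) :
    ‖Gs r (c - 7 * (1 + I) * w)‖ ≤ Real.exp (π / (378 * r) * ((c + 14 * w.im) ^ 2 / 2)) := by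
  have h1 : π * I * (c - 7 * (1 + I) * w) ^ 2 / (378 * r) =
      ((π / (378 * r) : ℝ) : ℂ) * (I * (c - 7 * (1 + I) * w) ^ 2) := by
    push_cast
    ring
  rw [Gs, Complex.norm_exp, h1, re_ofReal_mul, Real.exp_le_exp]
  have := pi_pos
  gcongr
  exact re_sq_le c w

theorem Gs_diff (r : ℕ) : Differentiable ℂ (Gs r) := by
  unfold Gs
  fun_prop

theorem Jc_int {r : ℕ} (hr : 0 < r) (c : ℝ) :
    Integrable fun t : ℝ => Gs r (c - 7 * (1 + I) * t) / CH t :=
  integrable_kap ((Gs_diff r).continuous.comp (by fun_prop)) _ fun t =>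
    (gs_norm hr c t).trans (by
      rw [ofReal_im]
      exact le_mul_of_one_le_right (Real.exp_pos _).le (one_le_exp (abs_nonneg t)))

theorem Jc_step {r : ℕ} (hr : 0 < r) (c : ℝ) :
    Jc r c + Jc r (c + 7) = (1 + I) * Gs r (c + 7 / 2) := by
  have := residue_line (g := fun w => Gs r (c - 7 * (1 + I) * w))
    ((Gs_diff r).comp (by fun_prop)) (Real.exp (π / (378 * r) * ((|c| + 7) ^ 2 / 2)))
    fun w h0 h1 => by
      refine (gs_norm hr c w).trans (Real.exp_le_exp.mpr ?_)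
      have := pi_pos
      have h2 : (c + 14 * w.im) ^ 2 ≤ (|c| + 7) ^ 2 :=
        sq_le_sq' (by linarith [neg_abs_le c]) (by linarith [le_abs_self c])
      gcongr
  have a1 : ∀ t : ℝ, (c - 7 * (1 + I) * (t + (-1 + I) / 2) : ℂ) =
      (c + 7 : ℝ) - 7 * (1 + I) * t := by
    intro t
    push_cast
    linear_combination (-7 / 2 : ℂ) * I_mul_I
  have a2 : (c - 7 * (1 + I) * ((-1 + I) / 4) : ℂ) = c + 7 / 2 := by
    linear_combination (-7 / 4 : ℂ) * I_mul_I
  simp only [a1, a2] at this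
  exact this

theorem gs_quad {r : ℕ} (hr : 0 < r) (c : ℝ) (t : ℝ) : Gs r (c - 7 * (1 + I) * t) =
    cexp (-(7 * π / (27 * r)) * t ^ 2 + π * (1 - I) * c / (27 * r) * t +
      π * I * c ^ 2 / (378 * r)) := by
  have hr' : (r : ℂ) ≠ 0 := by exact_mod_cast hr.ne'
  rw [Gs]
  congr 1
  field_simp
  linear_combination (27 * (49 * (2 + I) * t ^ 2 - 14 * c * t)) * I_mul_I

theorem gs_b {r : ℕ} (hr : 0 < r) : (-(7 * π / (27 * r) : ℂ)).re < 0 := by
  have : -(7 * π / (27 * r) : ℂ) = ((-(7 * π / (27 * r)) : ℝ) : ℂ) := by push_cast; rfl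
  rw [this, ofReal_re, neg_lt_zero]
  have := pi_pos
  positivity

theorem gs_int {r : ℕ} (hr : 0 < r) (c : ℝ) :
    Integrable fun t : ℝ => Gs r (c - 7 * (1 + I) * t) := by
  simp only [gs_quad hr]
  exact integrable_cexp_quadratic' (gs_b hr) _ _

theorem gs_integral {r : ℕ} (hr : 0 < r) (c : ℝ) :
    ∫ t : ℝ, Gs r (c - 7 * (1 + I) * t) = (√(27 * r / 7) : ℝ) := by
  have hr' : (r : ℂ) ≠ 0 := by exact_mod_cast hr.ne'
  have hπ := ofReal_ne_zero.mpr pi_ne_zero
  simp only [gs_quad hr]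
  rw [integral_cexp_quadratic (gs_b hr)]
  have a2 : (π / - -(7 * π / (27 * r)) : ℂ) ^ (1 / 2 : ℂ) = (√(27 * r / 7) : ℝ) := by
    rw [Real.sqrt_eq_rpow, ofReal_cpow (by positivity)]
    congr 1
    · push_cast
      field_simp
    · push_cast
      rfl
  have a3 : π * I * c ^ 2 / (378 * r) - (π * (1 - I) * c / (27 * r)) ^ 2 /
      (4 * -(7 * π / (27 * r))) = 0 := by
    field_simp
    linear_combination (378 * π * c ^ 2 : ℂ) * I_mul_I
  rw [a2, a3, Complex.exp_zero, mul_one]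

theorem gs_shift {r : ℕ} (hr : 0 < r) (n t : ℝ) :
    Gs r ((r * n - 5 / 2 : ℝ) - 7 * (1 + I) * t) =
      ph r n * (Gs r (-5 / 2 - 7 * (1 + I) * t) * cexp (π * (1 - I) * n / 27 * t)) := by
  have hr' : (r : ℂ) ≠ 0 := by exact_mod_cast hr.ne'
  rw [Gs, Gs, ph, ← Complex.exp_add, ← Complex.exp_add]
  congr 1
  push_cast
  field_simp
  linear_combination (-1512 * r * n * t : ℂ) * I_mul_I

theorem ph_ne (r : ℕ) (n : ℝ) : ph r n ≠ 0 := Complex.exp_ne_zero _

theorem Jc_eq {r : ℕ} (hr : 0 < r) (n : ℝ) : Jc r (r * n - 5 / 2) = ph r n * Im r n := by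
  rw [Jc, Im, ← integral_const_mul]
  simp only [gs_shift hr, mul_div_assoc]

theorem Im_int {r : ℕ} (hr : 0 < r) (n : ℝ) : Integrable fun t : ℝ =>
    Gs r (-5 / 2 - 7 * (1 + I) * t) * cexp (π * (1 - I) * n / 27 * t) / CH t := by
  have := (Jc_int hr (r * n - 5 / 2)).const_mul (ph r n)⁻¹
  simp only [gs_shift hr, mul_div_assoc (ph r n), inv_mul_cancel_left₀ (ph_ne r n)] at this
  exact this

theorem Im_rec {r : ℕ} (hr : 0 < r) (n : ℝ) :
    Im r (n + 27) = -Im r (n - 27) + 2 * (√(27 * r / 7) : ℝ) * (ph r n)⁻¹ := by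
  rw [← gs_integral hr (r * n - 5 / 2), neg_add_eq_sub, eq_sub_iff_add_eq, Im, Im,
    ← integral_add (Im_int hr _) (Im_int hr _), ← integral_const_mul, ← integral_mul_const]
  congr 1
  funext t
  have h1 := CH_real_ne t
  have h2 := ph_ne r n
  have a1 : π * (1 - I) * (n + 27 : ℝ) / 27 * t =
      π * (1 - I) * n / 27 * t + π * (1 - I) * t := by
    push_cast
    ring
  have a2 : π * (1 - I) * (n - 27 : ℝ) / 27 * t =
      π * (1 - I) * n / 27 * t + -(π * (1 - I) * t) := by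
    push_cast
    ring
  rw [gs_shift hr, a1, a2, Complex.exp_add, Complex.exp_add, ← add_div, div_eq_iff h1, CH,
    Complex.cosh]
  field_simp

theorem Im_red {r : ℕ} (hr : 0 < r) (n : ℝ) (k : ℕ) :
    Im r n = (-1) ^ k * Im r (n - 54 * k) + 2 * (√(27 * r / 7) : ℝ) *
      ∑ i ∈ Finset.range k, (-1) ^ i * (ph r (n - 27 * (2 * i + 1)))⁻¹ := by
  induction k with
  | zero => simp
  | succ k ih =>
    have h := Im_rec hr (n - 27 * (2 * k + 1))
    rw [show n - 27 * (2 * k + 1) + 27 = n - 54 * k by ring,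
      show n - 27 * (2 * k + 1) - 27 = n - 54 * (k + 1 : ℕ) by push_cast; ring] at h
    rw [Finset.sum_range_succ, ih, h]
    ring

/-- The phase of the abelian class. -/
noncomputable def ec (r p : ℕ) : ℂ := cexp (2 * π * I * (r * (61 * p ^ 2 / 108)))

/-- The phase of the Gaussian terms. -/
noncomputable def gm (r l : ℕ) : ℂ := cexp (-(π * I * (27 * r * l ^ 2 + 5 * l) / 14))

theorem neg_one_pow_exp (n : ℕ) : (-1 : ℂ) ^ n = cexp (n * (π * I)) := by
  rw [Complex.exp_nat_mul, exp_pi_mul_I]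

theorem J_red {r : ℕ} (hr : 0 < r) (p k : ℕ) :
    (-1) ^ (r * p) * Jc r (7 * (r * p : ℕ) - 5 / 2) =
      (-1) ^ k * ec r p * cexp (-(5 * π * I * p / 54)) * Im r (7 * p - 54 * k) +
        2 * (√(27 * r / 7) : ℝ) * ∑ i ∈ Finset.range k, (-1) ^ i * gm r (2 * i + 1) := by
  have h1 : (-1) ^ (r * p) * ph r (7 * p) = ec r p * cexp (-(5 * π * I * p / 54)) := by
    obtain ⟨s, hs⟩ := Int.even_mul_pred_self p
    have hs' : (p : ℂ) ^ 2 = p + 2 * s := by
      have : (p : ℂ) * (p - 1) = s + s := by exact_mod_cast hs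
      linear_combination this
    rw [neg_one_pow_exp, ph, ec, ← Complex.exp_add, ← Complex.exp_add, exp_eq_exp_iff_exists_int]
    refine ⟨-(r * s), ?_⟩
    push_cast
    linear_combination (-π * I * r) * hs'
  have h2 : ∀ i : ℕ, (-1) ^ (r * p) * ph r (7 * p) * (ph r (7 * p - 27 * (2 * i + 1)))⁻¹ =
      gm r (2 * i + 1) := by
    intro i
    rw [neg_one_pow_exp, ph, ph, gm, ← Complex.exp_neg, ← Complex.exp_add, ← Complex.exp_add,
      exp_eq_exp_iff_exists_int]
    refine ⟨r * p * (i + 1), ?_⟩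
    push_cast
    ring
  rw [show (7 * (r * p : ℕ) - 5 / 2 : ℝ) = r * (7 * p) - 5 / 2 by push_cast; ring, Jc_eq hr,
    Im_red hr _ k, ← mul_assoc, mul_add, mul_left_comm _ (2 * _), Finset.mul_sum]
  congr 1
  · rw [h1]
    ring
  · congr 1
    refine Finset.sum_congr rfl fun i _ => ?_
    rw [← h2]
    ring

/-- The false theta sum. -/
noncomputable def FT (r : ℕ) : ℂ := ∑ p ∈ Finset.range 54, (-1) ^ p *
  ∑ m ∈ Finset.Ico 1 r, (-1) ^ (r * p + m) * Gs r (7 * (r * p + m : ℕ) + 1)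

/-- The number of reduction steps. -/
def kk (p : ℕ) : ℕ := (7 * p + 26) / 54

/-- The amplitude of one abelian term. -/
noncomputable def Bp (r p : ℕ) : ℂ :=
  2 * (-1) ^ (p + kk p) * cexp (-(5 * π * I * p / 54)) * Im r (7 * p - 54 * kk p) -
    (1 + I) * (-1) ^ p * cexp (π * I * p / 27) * cexp (π * I / 378 / r)

theorem FT_eq {r : ℕ} (hr : 0 < r) :
    (1 + I) * FT r = ∑ p ∈ Finset.range 54, ec r p * Bp r p + 2 * (√(27 * r / 7) : ℝ) *
      (gm r 1 - gm r 3 + gm r 5 - gm r 7 - gm r 9 + gm r 11 - gm r 13) := by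
  have hr' : (r : ℂ) ≠ 0 := by exact_mod_cast hr.ne'
  set W : ℕ → ℂ := fun M => (-1) ^ M * Jc r (7 * M - 5 / 2) with hW
  have h1 : ∀ M : ℕ, (1 + I) * ((-1) ^ M * Gs r (7 * M + 1)) = W M - W (M + 1) := by
    intro M
    have := Jc_step hr (7 * M - 5 / 2)
    rw [show (7 * M - 5 / 2 + 7 : ℝ) = 7 * (M + 1 : ℕ) - 5 / 2 by push_cast; ring,
      show ((7 * M - 5 / 2 : ℝ) + 7 / 2 : ℂ) = 7 * M + 1 by push_cast; ring] at this
    simp only [hW]
    rw [mul_left_comm, ← this]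
    ring
  have h2 : ∀ p : ℕ, (-1) ^ (r * p) * Gs r (7 * (r * p : ℕ) + 1) =
      ec r p * cexp (π * I * p / 27) * cexp (π * I / 378 / r) := by
    intro p
    obtain ⟨s, hs⟩ := Int.even_mul_pred_self p
    have hs' : (p : ℂ) ^ 2 = p + 2 * s := by
      have : (p : ℂ) * (p - 1) = s + s := by exact_mod_cast hs
      linear_combination this
    rw [neg_one_pow_exp, Gs, ec, ← Complex.exp_add, ← Complex.exp_add, ← Complex.exp_add,
      exp_eq_exp_iff_exists_int]
    refine ⟨-(r * s), ?_⟩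
    push_cast
    field_simp
    linear_combination (-1102248 * r ^ 2 : ℂ) * hs'
  have h3 : ∀ p : ℕ, (1 + I) * ∑ m ∈ Finset.Ico 1 r,
      (-1) ^ (r * p + m) * Gs r (7 * (r * p + m : ℕ) + 1) = W (r * p) - W (r * (p + 1)) -
        (1 + I) * (ec r p * cexp (π * I * p / 27) * cexp (π * I / 378 / r)) := by
    intro p
    have a1 := Finset.sum_range_sub' (fun m => W (r * p + m)) r
    rw [Finset.range_eq_Ico, Finset.sum_eq_sum_Ico_succ_bot hr] at a1
    rw [← h2, h1, Finset.mul_sum]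
    simp only [h1, add_assoc] at a1 ⊢
    rw [mul_add, mul_one]
    simp only [add_zero, zero_add] at a1
    linear_combination a1
  have h4 : ∑ p ∈ Finset.range 54, (-1) ^ p * (W (r * p) - W (r * (p + 1))) =
      2 * ∑ p ∈ Finset.range 54, (-1) ^ p * W (r * p) - W (r * 0) + W (r * 54) := by
    have a1 := Finset.sum_range_succ (fun p => (-1) ^ p * W (r * p)) 54
    rw [Finset.sum_range_succ'] at a1
    simp only [mul_sub, Finset.sum_sub_distrib]
    have a2 : ∑ p ∈ Finset.range 54, (-1) ^ (p + 1) * W (r * (p + 1)) =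
        -∑ p ∈ Finset.range 54, (-1) ^ p * W (r * (p + 1)) := by
      rw [← Finset.sum_neg_distrib]
      refine Finset.sum_congr rfl fun p _ => ?_
      ring
    rw [a2] at a1
    linear_combination a1
  have h5 : W (r * 54) - W (r * 0) =
      2 * (√(27 * r / 7) : ℝ) * ∑ i ∈ Finset.range 7, (-1) ^ i * gm r (2 * i + 1) := by
    have a1 : ec r 54 * cexp (-(5 * π * I * (54 : ℕ) / 54)) = -1 := by
      rw [ec, ← Complex.exp_add, exp_eq_neg_of (y := 0) (r * 1647 - 3) (by push_cast; ring)]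
      simp
    simp only [hW]
    rw [J_red hr 54 7, J_red hr 0 0, mul_assoc _ (ec r 54), a1]
    simp [ec]
    norm_num
  have h6 : ∑ p ∈ Finset.range 54, (-1) ^ p *
      ∑ i ∈ Finset.range (kk p), (-1) ^ i * gm r (2 * i + 1) = -(gm r 9 - gm r 11 + gm r 13) := by
    simp [Finset.sum_range_succ, kk]
    ring
  have h7 : ∀ p : ℕ, (-1) ^ p * ((1 + I) * (ec r p * cexp (π * I * p / 27) *
      cexp (π * I / 378 / r))) = 2 * ((-1) ^ p * W (r * p)) - ec r p * Bp r p -
      4 * (√(27 * r / 7) : ℝ) * ((-1) ^ p *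
        ∑ i ∈ Finset.range (kk p), (-1) ^ i * gm r (2 * i + 1)) := by
    intro p
    simp only [hW]
    rw [J_red hr p (kk p), Bp]
    ring
  rw [FT, Finset.mul_sum, Finset.sum_congr rfl fun p _ => by
    rw [mul_left_comm (1 + I), h3, mul_sub, h7]]
  simp only [Finset.sum_sub_distrib, h4, ← Finset.mul_sum, h6]
  generalize ((√(27 * r / 7) : ℝ) : ℂ) = s at *
  simp only [Finset.sum_range_succ, Finset.range_zero, Finset.sum_empty] at h5
  norm_num at h5
  rw [mul_zero]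
  linear_combination h5

end Pool.Agent.P.MP_27a476_gt
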