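import Pool.Agent.P.MP_27a476_gt.NilQuantum

set_option autoImplicit false

open Complex Filter MeasureTheory Real Topology

namespace Pool.Agent.P.MP_27a476_gt

theorem CH_real_pi (t : ℝ) : Real.exp (π * |t|) ≤ 3 * ‖CH t‖ := by
  have h1 := CH_normSq t 0
  simp only [ofReal_zero, zero_mul, add_zero, zero_sub, mul_neg, Real.cos_neg] at h1
  have h2 : Real.sin (π * t) ^ 2 ≤ Real.sinh (π * t) ^ 2 :=
    sq_le_sq.mpr (Real.abs_sin_le_abs.trans (abs_le_abs_sinh _))
  have h3 := Real.sin_sq_add_cos_sq (π * t)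
  have h4 := Real.cosh_sq (π * t)
  have h5 : Real.exp (π * |t|) ≤ 2 * Real.cosh (π * t) := by
    rw [← Real.cosh_abs, Real.cosh_eq, abs_mul, abs_of_pos pi_pos]
    linarith [Real.exp_pos (-(π * |t|))]
  have h6 := pow_le_pow_left₀ (Real.exp_pos _).le h5 2
  refine le_of_sq_le_sq ?_ (by positivity)
  nlinarith [sq_nonneg (Real.cos (π * t))]

theorem CH_strip (x y : ℝ) (hx : 1 ≤ |x|) (h0 : 0 ≤ y) (h1 : y ≤ 1 / 2) :
    Real.exp (π * |x|) ≤ 4 * Real.exp 2 * ‖CH (x + y * I)‖ := by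
  have a2 := CH_normSq x y
  have a3 : |Real.sinh (π * (x + y))| ≤ ‖CH (x + y * I)‖ := by
    refine abs_le_of_sq_le_sq' ?_ (norm_nonneg _) |> abs_le.mpr
    rw [a2]
    exact le_add_of_nonneg_right (sq_nonneg _)
  have b1 : |x| ≤ |x + y| + |y| := by simpa using abs_sub (x + y) y
  rw [abs_of_nonneg h0] at b1
  rw [abs_sinh, abs_mul, abs_of_pos pi_pos, Real.sinh_eq] at a3
  have b2 : 1 ≤ π * |x + y| := by nlinarith [two_le_pi]
  have b3 : π * |x| ≤ 2 + π * |x + y| := by nlinarith [pi_le_four, pi_pos]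
  have b4 : Real.exp (-(π * |x + y|)) ≤ 1 := Real.exp_le_one_iff.mpr (by linarith)
  have b5 := Real.add_one_le_exp (π * |x + y|)
  calc Real.exp (π * |x|) ≤ Real.exp 2 * Real.exp (π * |x + y|) := by
        rw [← Real.exp_add]
        gcongr
    _ ≤ Real.exp 2 * (4 * ‖CH (x + y * I)‖) := by
        gcongr
        linarith
    _ = _ := by ring

theorem integrable_decay {κ : ℝ → ℂ} (hm : AEStronglyMeasurable κ volume) (C δ : ℝ) (hδ : 0 < δ)
    (hb : ∀ t, ‖κ t‖ ≤ C * Real.exp (-(δ * |t|))) : Integrable κ := by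
  have hC : 0 ≤ C := by simpa using (norm_nonneg _).trans (hb 0)
  refine (integrable_inv_one_add_sq.const_mul (C * (1 + 2 / δ ^ 2))).mono' hm
    (Eventually.of_forall fun t => (hb t).trans ?_)
  have h3 := Real.quadratic_le_exp_of_nonneg (mul_nonneg hδ.le (abs_nonneg t))
  rw [mul_pow, sq_abs] at h3
  rw [mul_assoc, Real.exp_neg, ← div_eq_mul_inv (1 + 2 / δ ^ 2), ← one_div]
  gcongr C * ?_
  rw [div_le_div_iff₀ (Real.exp_pos _) (by positivity)]
  have h4 : 0 ≤ δ * |t| := by positivity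
  calc 1 * (1 + t ^ 2) ≤ (1 + 2 / δ ^ 2) * (1 + δ ^ 2 * t ^ 2 / 2) := by
        have : (1 + 2 / δ ^ 2) * (1 + δ ^ 2 * t ^ 2 / 2) =
          1 + t ^ 2 + (2 / δ ^ 2 + δ ^ 2 * t ^ 2 / 2) := by field_simp; ring
        rw [this]
        have : 0 ≤ 2 / δ ^ 2 + δ ^ 2 * t ^ 2 / 2 := by positivity
        linarith
    _ ≤ _ := by
        gcongr
        linarith

theorem kap_decay {h : ℝ → ℂ} (C l : ℝ) (hb : ∀ t, ‖h t‖ ≤ C * Real.exp (l * |t|)) (t : ℝ) :
    ‖h t / CH t‖ ≤ 3 * C * Real.exp (-((π - l) * |t|)) := by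
  have hC : 0 ≤ C := by simpa using (norm_nonneg _).trans (hb 0)
  have h2 : 0 < ‖CH t‖ := norm_pos_iff.mpr (CH_real_ne t)
  rw [norm_div, div_le_iff₀ h2]
  calc ‖h t‖ ≤ C * Real.exp (l * |t|) := hb t
    _ = C * Real.exp (-((π - l) * |t|)) * Real.exp (π * |t|) := by
        rw [mul_assoc, ← Real.exp_add]
        congr 2
        ring
    _ ≤ C * Real.exp (-((π - l) * |t|)) * (3 * ‖CH t‖) := by
        gcongr
        exact CH_real_pi t
    _ = _ := by ring

theorem integrable_kap_exp {h : ℝ → ℂ} (hc : Continuous h) (C l : ℝ) (hl : l < π)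
    (hb : ∀ t, ‖h t‖ ≤ C * Real.exp (l * |t|)) : Integrable fun t : ℝ => h t / CH t :=
  integrable_decay (hc.div (CH_diff.continuous.comp continuous_ofReal)
    CH_real_ne).aestronglyMeasurable _ _ (sub_pos.mpr hl) (kap_decay C l hb)

theorem residue_exp {g : ℂ → ℂ} (hg : Differentiable ℂ g) (M l : ℝ) (l0 : 0 ≤ l) (l1 : l < π)
    (hM : ∀ w : ℂ, 0 ≤ w.im → w.im ≤ 1 / 2 → ‖g w‖ ≤ M * Real.exp (l * |w.re|)) :
    ∫ t : ℝ, (g t + g (t + (-1 + I) / 2)) / CH t = (1 + I) * g ((-1 + I) / 4) := by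
  have hM0 : 0 ≤ M := by simpa using (norm_nonneg _).trans (hM 0 (by simp) (by simp))
  set w₀ : ℂ := (-1 + I) / 4 with hw₀
  have hπ : (π : ℂ) * (1 + I) ≠ 0 := by
    refine mul_ne_zero (ofReal_ne_zero.mpr pi_ne_zero) fun h => ?_
    simpa using congrArg re h
  have hσ : Differentiable ℂ (dslope CH w₀) := differentiableOn_univ.mp
    ((Complex.differentiableOn_dslope univ_mem).mpr CH_diff.differentiableOn)
  have hσ0 : dslope CH w₀ w₀ = π * (1 + I) := by rw [dslope_same, CH_deriv]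
  have hσ1 : ∀ w, w ≠ w₀ → dslope CH w₀ w = CH w / (w - w₀) := by
    intro w hw
    rw [dslope_of_ne _ hw, slope_def_field, CH_pole, sub_zero]
  set U : Set ℂ := {w | -1 / 4 < w.im ∧ w.im < 3 / 4} with hU
  have hUo : IsOpen U :=
    (isOpen_lt continuous_const continuous_im).inter (isOpen_lt continuous_im continuous_const)
  have hG : DifferentiableOn ℂ (fun w => g w / dslope CH w₀ w) U := by
    refine hg.differentiableOn.div hσ.differentiableOn fun w hw => ?_
    by_cases h : w = w₀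
    · rw [h, hσ0]
      exact hπ
    · rw [hσ1 w h]
      exact div_ne_zero (CH_ne hw.1 hw.2 h) (sub_ne_zero.mpr h)
  have hΨ := (Complex.differentiableOn_dslope (c := w₀) (hUo.mem_nhds (by
    simp only [hU, hw₀, Set.mem_ofPred_eq]
    norm_num))).mpr hG
  set G₀ : ℂ := g w₀ / (π * (1 + I)) with hG₀
  have hΨ1 : ∀ w, w ≠ w₀ →
      dslope (fun w => g w / dslope CH w₀ w) w₀ w = g w / CH w - G₀ / (w - w₀) := by
    intro w hw
    have := sub_ne_zero.mpr hw
    rw [dslope_of_ne _ hw, slope_def_field, hσ0, hσ1 w hw, sub_div, div_div_eq_mul_div,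
      div_right_comm, mul_div_cancel_right₀ _ this]
  have hne : ∀ x y : ℝ, y ≠ 1 / 4 ∨ x ≠ -1 / 4 → (x + y * I : ℂ) ≠ w₀ := by
    intro x y h h2
    have a1 := congrArg re h2
    have a2 := congrArg im h2
    simp [hw₀] at a1 a2
    rcases h with h | h <;> apply h <;> linarith
  have hval : ∀ x : ℝ, dslope (fun w => g w / dslope CH w₀ w) w₀ x -
      dslope (fun w => g w / dslope CH w₀ w) w₀ (x + (1 / 2 : ℝ) * I) =
      g x / CH x + g ((x + 1 / 2 : ℝ) + (-1 + I) / 2) / CH (x + 1 / 2 : ℝ) -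
        G₀ * (8 * I) * ((1 + (4 * x + 1) ^ 2)⁻¹ : ℝ) := by
    intro x
    have a1 := hne x 0 (Or.inl (by norm_num))
    have a2 := hne x (1 / 2) (Or.inl (by norm_num))
    rw [ofReal_zero, zero_mul, add_zero] at a1
    have a3 : (x + (1 / 2 : ℝ) * I : ℂ) = (x + 1 / 2 : ℝ) + (-1 + I) / 2 := by
      push_cast
      ring
    have a4 : (1 + (4 * x + 1) ^ 2 : ℂ) = 16 * (x - w₀) * (x + (1 / 2 : ℝ) * I - w₀) := by
      rw [hw₀]
      push_cast
      linear_combination I_mul_I
    rw [hΨ1 _ a1, hΨ1 _ a2]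
    have a5 := sub_ne_zero.mpr a1
    have a6 := sub_ne_zero.mpr a2
    have a7 : G₀ * (8 * I) * ((1 + (4 * x + 1) ^ 2)⁻¹ : ℝ) =
        G₀ / (x - w₀) - G₀ / (x + (1 / 2 : ℝ) * I - w₀) := by
      rw [div_sub_div _ _ a5 a6, ofReal_inv, ← div_eq_mul_inv, div_eq_div_iff _ (mul_ne_zero a5 a6)]
      · push_cast at a4 ⊢
        rw [a4]
        ring
      · exact ofReal_ne_zero.mpr (by positivity)
    rw [a7, a3, CH_shift, div_neg]
    ring
  have i1 : Integrable fun t : ℝ => g t / CH t :=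
    integrable_kap_exp (hg.continuous.comp continuous_ofReal) M l l1 fun t => by
      simpa using hM t (by simp) (by simp)
  have i2 : Integrable fun t : ℝ => g (t + (-1 + I) / 2) / CH t :=
    integrable_kap_exp (hg.continuous.comp (by fun_prop)) (M * Real.exp l) l l1 fun t => by
      refine (hM _ (by simp) (by simp)).trans ?_
      have a1 : (t + (-1 + I) / 2 : ℂ).re = t - 1 / 2 := by
        simp
        ring
      have a2 : |t - 1 / 2| ≤ 1 + |t| := by
        have := abs_sub t (1 / 2)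
        rw [abs_of_pos (by norm_num : (0:ℝ) < 1 / 2)] at this
        linarith
      rw [a1, mul_assoc, ← Real.exp_add]
      gcongr
      nlinarith
  simp only [add_div (g _)]
  rw [integral_add i1 i2]
  have i3 := i2.comp_add_right (1 / 2)
  have i4 : Integrable fun x : ℝ => (1 + (4 * x + 1) ^ 2)⁻¹ :=
    (integrable_inv_one_add_sq.comp_add_right 1).comp_mul_left' (R := 4) (by norm_num)
  have i5 : Integrable fun x : ℝ => G₀ * (8 * I) * ((1 + (4 * x + 1) ^ 2)⁻¹ : ℝ) :=
    (i4.ofReal (𝕜 := ℂ)).const_mul (G₀ * (8 * I))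
  have i6 : ∫ x : ℝ, (1 + (4 * x + 1) ^ 2)⁻¹ = π / 4 := by
    rw [Measure.integral_comp_mul_left (fun y : ℝ => (1 + (y + 1) ^ 2)⁻¹) 4,
      integral_add_right_eq_self (fun y : ℝ => (1 + y ^ 2)⁻¹) 1, integral_univ_inv_one_add_sq]
    norm_num
    ring
  have key := strip_zero (hΨ.mono fun w hw => ⟨by linarith [hw.1], by linarith [hw.2]⟩)
    (M * (4 * Real.exp 2) / (π - l) + 2 * ‖G₀‖) (fun x y hx h0 h1 => ?_) (by
      simp only [hval]
      exact (i1.add i3).sub i5)
  · simp only [hval] at key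
    have i7 : Integrable fun t : ℝ => g t / CH t +
      g ((t + 1 / 2 : ℝ) + (-1 + I) / 2) / CH (t + 1 / 2 : ℝ) := i1.add i3
    rw [integral_sub i7 i5, integral_add i1 i3, integral_add_right_eq_self
      (fun t : ℝ => g (t + (-1 + I) / 2) / CH t) (1 / 2), integral_const_mul,
      integral_complex_ofReal, i6, sub_eq_zero] at key
    rw [key, hG₀]
    have h2 := ofReal_ne_zero.mpr pi_ne_zero
    have h3 := right_ne_zero_of_mul hπ
    push_cast
    field_simp
    linear_combination (-4 * g w₀) * I_mul_I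
  · have hx0 : 0 < |x| := by linarith
    have a1 : x ≠ -1 / 4 := by
      rintro rfl
      norm_num [abs_div] at hx
    rw [hΨ1 _ (hne x y (Or.inr a1)), add_div]
    refine (norm_sub_le _ _).trans (add_le_add ?_ ?_)
    · have a2 := CH_strip x y hx h0 h1
      have a3 := hM (x + y * I) (by simpa using h0) (by simpa using h1)
      have a4 : (x + y * I : ℂ).re = x := by simp
      have a5 : 0 < π - l := by linarith
      have a6 : 0 < ‖CH (x + y * I)‖ := by
        have := Real.exp_pos (π * |x|)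
        have := Real.exp_pos 2
        by_contra hn
        nlinarith [norm_nonneg (CH (x + y * I))]
      have a7 : (π - l) * |x| ≤ Real.exp ((π - l) * |x|) := by
        linarith [Real.add_one_le_exp ((π - l) * |x|)]
      rw [a4] at a3
      rw [norm_div, div_div, div_le_div_iff₀ a6 (by positivity)]
      calc ‖g (x + y * I)‖ * ((π - l) * |x|)
          ≤ M * Real.exp (l * |x|) * Real.exp ((π - l) * |x|) := by gcongr
        _ = M * Real.exp (π * |x|) := by
          rw [mul_assoc, ← Real.exp_add]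
          congr 2
          ring
        _ ≤ M * (4 * Real.exp 2 * ‖CH (x + y * I)‖) := by gcongr
        _ = _ := by ring
    · rw [norm_div, mul_comm 2 ‖G₀‖, mul_div_assoc, div_eq_mul_inv]
      refine mul_le_mul_of_nonneg_left ?_ (norm_nonneg _)
      have a2 := abs_re_le_norm (x + y * I - w₀)
      have a3 : (x + y * I - w₀).re = x + 1 / 4 := by
        simp [hw₀]
        ring
      have b1 : |x| ≤ |x + 1 / 4| + |1 / 4| := by simpa using abs_sub (x + 1 / 4) (1 / 4)
      rw [a3] at a2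
      rw [abs_of_pos (by norm_num : (0:ℝ) < 1 / 4)] at b1
      rw [inv_le_comm₀ (by linarith) (by positivity), inv_div]
      linarith

/-- Asymptotic series in `1 / r`. -/
def Ser (A p : ℕ → ℂ) : Prop :=
  ∀ E : ℕ, ∃ C : ℝ, 0 ≤ C ∧ ∀ r : ℕ, 0 < r →
    ‖A r - ∑ e ∈ Finset.range (E + 1), p e / (r : ℂ) ^ e‖ ≤ C * (1 / r) ^ (E + 1)

theorem Ser.add {A B p q : ℕ → ℂ} (h1 : Ser A p) (h2 : Ser B q) :
    Ser (fun r => A r + B r) (fun e => p e + q e) := by
  intro E
  obtain ⟨C, c0, c1⟩ := h1 E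
  obtain ⟨D, d0, d1⟩ := h2 E
  refine ⟨C + D, by positivity, fun r hr => ?_⟩
  simp only [add_div, Finset.sum_add_distrib]
  rw [add_sub_add_comm, add_mul]
  exact norm_add_le_of_le (c1 r hr) (d1 r hr)

theorem Ser.const_mul {A p : ℕ → ℂ} (h : Ser A p) (k : ℂ) :
    Ser (fun r => k * A r) (fun e => k * p e) := series_mul k h

theorem Ser.shift {A p : ℕ → ℂ} (h : Ser A p) (h0 : p 0 = 0) :
    Ser (fun r => r * A r) (fun e => p (e + 1)) := by
  intro E
  obtain ⟨C, c0, c1⟩ := h (E + 1)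
  refine ⟨C, c0, fun r hr => ?_⟩
  have hr' : (r : ℂ) ≠ 0 := by exact_mod_cast hr.ne'
  have hrr : (0:ℝ) < r := by exact_mod_cast hr
  have h1 := c1 r hr
  rw [Finset.sum_range_succ', h0, zero_div, add_zero] at h1
  have h2 : ∑ e ∈ Finset.range (E + 1), p (e + 1) / (r : ℂ) ^ e =
      r * ∑ e ∈ Finset.range (E + 1), p (e + 1) / (r : ℂ) ^ (e + 1) := by
    rw [Finset.mul_sum]
    refine Finset.sum_congr rfl fun e _ => ?_
    field_simp
    ring
  rw [h2, ← mul_sub, norm_mul, Complex.norm_natCast]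
  calc _ ≤ r * (C * (1 / r) ^ (E + 1 + 1)) := by gcongr
    _ = _ := by
      rw [pow_succ _ (E + 1)]
      field_simp

theorem Ser.congr {A B p : ℕ → ℂ} (h : Ser A p) (hB : ∀ r, 0 < r → B r = A r) : Ser B p := by
  intro E
  obtain ⟨C, c0, c1⟩ := h E
  exact ⟨C, c0, fun r hr => by rw [hB r hr]; exact c1 r hr⟩

theorem ser_exp {z : ℂ} (hz : z.re ≤ 0) :
    Ser (fun r => cexp (z / r)) (fun e => z ^ e / e.factorial) :=
  fun E => ⟨_, by positivity, fun r _ => exp_series hz E r⟩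

theorem exp_tail_le {z : ℂ} {m : ℝ} (hm : 0 ≤ m) (hz : z.re ≤ m) {n : ℕ} (hn : 0 < n) :
    ‖cexp z - ∑ k ∈ Finset.range n, z ^ k / k.factorial‖ ≤ Real.exp m * (n + 1) * ‖z‖ ^ n := by
  have h0 : 1 ≤ Real.exp m := Real.one_le_exp hm
  by_cases h : ‖z‖ ≤ 1
  · refine (Complex.exp_bound h hn).trans ?_
    rw [mul_comm]
    refine mul_le_mul_of_nonneg_right ?_ (by positivity)
    have h1 : (1:ℝ) ≤ n.factorial * n := by
      exact_mod_cast Nat.mul_pos (Nat.factorial_pos n) hn
    push_cast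
    exact (mul_le_of_le_one_right (by positivity) (inv_le_one_of_one_le₀ h1)).trans
      (le_mul_of_one_le_left (by positivity) h0)
  · have h1 : 1 ≤ ‖z‖ := (not_le.mp h).le
    refine (norm_sub_le _ _).trans ?_
    have h2 : ‖cexp z‖ ≤ Real.exp m * ‖z‖ ^ n := by
      rw [Complex.norm_exp]
      exact (Real.exp_le_exp.mpr hz).trans (le_mul_of_one_le_right (by positivity) (one_le_pow₀ h1))
    have h3 : ‖∑ k ∈ Finset.range n, z ^ k / k.factorial‖ ≤ ∑ _k ∈ Finset.range n, ‖z‖ ^ n := by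
      refine norm_sum_le_of_le _ fun k hk => ?_
      rw [norm_div, norm_pow, Complex.norm_natCast]
      refine (div_le_self (by positivity) ?_).trans
        (pow_le_pow_right₀ h1 (Finset.mem_range.mp hk).le)
      exact_mod_cast Nat.factorial_pos k
    rw [Finset.sum_const, Finset.card_range, nsmul_eq_mul] at h3
    have h4 : n * ‖z‖ ^ n ≤ Real.exp m * (n * ‖z‖ ^ n) :=
      le_mul_of_one_le_left (by positivity) h0
    linarith

theorem poly_le (n : ℕ) {δ : ℝ} (hδ : 0 < δ) :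
    ∃ K : ℝ, 0 ≤ K ∧ ∀ t : ℝ, (1 + |t|) ^ n ≤ K * Real.exp (δ * |t|) := by
  refine ⟨n.factorial * Real.exp δ / δ ^ n, by positivity, fun t => ?_⟩
  have h2 := Real.pow_div_factorial_le_exp (δ * (1 + |t|)) (by positivity) n
  rw [div_le_iff₀ (by positivity), mul_pow, mul_add, mul_one, Real.exp_add] at h2
  rw [div_mul_eq_mul_div, le_div_iff₀ (by positivity)]
  linarith

theorem ser_int {κ z : ℝ → ℂ} (hκ : AEStronglyMeasurable κ volume) (C δ : ℝ) (hδ : 0 < δ)
    (hb : ∀ t, ‖κ t‖ ≤ C * Real.exp (-(δ * |t|))) (hz : Continuous z) (m D : ℝ) (hm : 0 ≤ m)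
    (h1 : ∀ t, (z t).re ≤ m) (h2 : ∀ t, ‖z t‖ ≤ D * (1 + |t|) ^ 2) :
    Ser (fun r => ∫ t, cexp (z t / r) * κ t) (fun e => (∫ t, z t ^ e * κ t) / e.factorial) := by
  have hC : 0 ≤ C := by simpa using (norm_nonneg _).trans (hb 0)
  have hD : 0 ≤ D := by simpa using (norm_nonneg _).trans (h2 0)
  have i1 : ∀ e : ℕ, Integrable fun t => z t ^ e * κ t := by
    intro e
    obtain ⟨K, k0, k1⟩ := poly_le (2 * e) (half_pos hδ)
    refine integrable_decay ((hz.pow e).aestronglyMeasurable.mul hκ) (D ^ e * K * C) _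
      (half_pos hδ) fun t => ?_
    rw [norm_mul, norm_pow]
    calc ‖z t‖ ^ e * ‖κ t‖ ≤ (D * (1 + |t|) ^ 2) ^ e * (C * Real.exp (-(δ * |t|))) := by
          gcongr
          · exact h2 t
          · exact hb t
      _ ≤ D ^ e * (K * Real.exp (δ / 2 * |t|)) * (C * Real.exp (-(δ * |t|))) := by
          rw [mul_pow, ← pow_mul]
          gcongr
          exact k1 t
      _ = D ^ e * K * C * (Real.exp (δ / 2 * |t|) * Real.exp (-(δ * |t|))) := by ring
      _ = _ := by
          rw [← Real.exp_add]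
          congr 2
          ring
  refine fun E => ⟨Real.exp m * (E + 2) * ∫ t, ‖z t ^ (E + 1) * κ t‖,
    mul_nonneg (by positivity) (integral_nonneg fun t => norm_nonneg _), fun r hr => ?_⟩
  have hrr : (1:ℝ) ≤ r := by exact_mod_cast hr
  have h3 : ∀ t, (z t / r).re ≤ m := by
    intro t
    rw [div_natCast_re, div_le_iff₀ (by linarith)]
    exact (h1 t).trans (le_mul_of_one_le_right hm hrr)
  have i2 : Integrable fun t => cexp (z t / r) * κ t := by
    refine integrable_decay ((by fun_prop : Continuous fun t => cexp (z t / r)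
      ).aestronglyMeasurable.mul hκ) (Real.exp m * C) δ hδ fun t => ?_
    rw [norm_mul, Complex.norm_exp, mul_assoc]
    gcongr
    · exact h3 t
    · exact hb t
  have i3 : ∀ e ∈ Finset.range (E + 1), Integrable fun t : ℝ =>
      z t ^ e * κ t / e.factorial / (r : ℂ) ^ e := fun e _ => ((i1 e).div_const _).div_const _
  simp only [← integral_div]
  rw [← integral_finsetSum _ i3, ← integral_sub i2 (integrable_finsetSum _ i3), mul_right_comm,
    ← integral_const_mul]
  refine norm_integral_le_of_norm_le ((i1 (E + 1)).norm.const_mul _)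
    (Eventually.of_forall fun t => ?_)
  have h4 := exp_tail_le hm (h3 t) (Nat.succ_pos E)
  have h5 : cexp (z t / r) * κ t -
      ∑ e ∈ Finset.range (E + 1), z t ^ e * κ t / e.factorial / (r : ℂ) ^ e =
      (cexp (z t / r) - ∑ e ∈ Finset.range (E + 1), (z t / r) ^ e / e.factorial) * κ t := by
    rw [sub_mul, Finset.sum_mul]
    congr 1
    refine Finset.sum_congr rfl fun e _ => ?_
    ring
  rw [h5, norm_mul, norm_mul, norm_pow, ← mul_assoc]
  gcongr
  refine h4.trans (le_of_eq ?_)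
  rw [norm_div, Complex.norm_natCast, Nat.succ_eq_add_one]
  push_cast
  ring

end Pool.Agent.P.MP_27a476_gt
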