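import Pool.Agent.P.MP_27a476_gt.PrMor
import Pool.Agent.P.MP_27a476_gt.NilCS

set_option autoImplicit false

open Complex Real

namespace Pool.Agent.P.MP_27a476_gt

theorem Zp_sum {r : ℕ} (hr : 2 ≤ r) :
    tauS ![2, 2, -7, 1, 1, 1] r / tauS ![] r =
      16 / r ^ 4 * cexp (-(2 * π * I) * (3 * (r - 2) / (8 * r))) ^ 3 *
      ∑ k ∈ Finset.range r,
        TS 2 k r ^ 2 * TS 1 k r ^ 3 / Complex.sin (π * k / r) ^ 4 * TS (-7) k r := by
  have hr' : (r : ℂ) ≠ 0 := by exact_mod_cast (by omega : r ≠ 0)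
  have hs := sin_pi_div_ne hr
  have e1 : (∑ i, (![2, 2, -7, 1, 1, 1] i : ℤ).sign +
      (SignType.sign (-∑ i, ((![2, 2, -7, 1, 1, 1] i : ℤ) : ℚ)⁻¹) : ℤ)) = (3 : ℕ) := by
    simp only [Fin.sum_univ_six, Matrix.cons_val]
    rw [sign_neg (by norm_num)]
    rfl
  have b1 : ((√(2 / r) : ℝ) : ℂ) ^ 2 = 2 / r := by
    rw [← ofReal_pow, Real.sq_sqrt (by positivity)]
    push_cast
    rfl
  have b7 : ((√(2 / r) : ℝ) : ℂ) ≠ 0 := by
    intro h
    rw [h] at b1
    exact div_ne_zero two_ne_zero hr' (by rw [← b1]; simp)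
  have a1 : cexp (-(π * I * (2:ℤ) / (2 * r))) ^ 2 * cexp (-(π * I * (-7:ℤ) / (2 * r))) *
      cexp (-(π * I * (1:ℤ) / (2 * r))) ^ 3 = 1 := by
    rw [← Complex.exp_nat_mul, ← Complex.exp_nat_mul, ← Complex.exp_add, ← Complex.exp_add,
      ← Complex.exp_zero]
    congr 1
    push_cast
    field_simp
    ring
  rw [tauS_nil hr, tauS, e1, zpow_natCast, range_eq_insert (by omega),
    Finset.sum_insert (by simp), Finset.sum_congr rfl (g := fun k : ℕ =>
      1 / Complex.sin (π / r) ^ 8 *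
        (TS 2 k r ^ 2 * TS 1 k r ^ 3 / Complex.sin (π * k / r) ^ 4 * TS (-7) k r)),
    ← Finset.mul_sum]
  · simp only [CharP.cast_eq_zero, mul_zero, zero_div, Complex.sin_zero, ne_eq, OfNat.ofNat_ne_zero,
      not_false_eq_true, zero_pow, div_zero, zero_mul, zero_add]
    generalize ∑ k ∈ Finset.Ioo 0 r, TS 2 k r ^ 2 * TS 1 k r ^ 3 /
      Complex.sin (π * k / r) ^ 4 * TS (-7) k r = S
    push_cast
    generalize ((√(2 / r) : ℝ) : ℂ) = s at *
    generalize cexp (-(2 * π * I) * (3 * (r - 2) / (8 * r))) = c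
    have b2 : s ^ 2 * r = 2 := by rw [b1]; field_simp
    field_simp
    linear_combination (2 * S * c ^ 3 * (s ^ 4 * r ^ 2 + 2 * s ^ 2 * r + 4)) * b2
  · intro k hk
    have hk' := sin_ne_of_Ioo hk
    rw [← Finset.mul_sum, ← Finset.prod_univ_sum (fun _ : Fin 6 => Finset.Ioo 0 r)
      (fun i (l : ℕ) => qi r l * (qi r (k * l) / qi r k) *
        cexp (2 * π * I / (4 * r)) ^ ((![2, 2, -7, 1, 1, 1] i : ℤ) * ((l : ℤ) ^ 2 - 1)))]
    simp only [leg_eq _ _ hr, Fin.prod_univ_six, Matrix.cons_val]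
    rw [← a1, qi]
    push_cast
    field_simp

theorem TS_one {r : ℕ} (hr : 0 < r) (k : ℕ) :
    (-I * (1:ℤ) / (2 * r : ℕ)) ^ (1 / 2 : ℂ) * TS 1 k r =
      I / 2 * cexp (-(π * I * (k ^ 2 + 1) / (2 * r))) * Complex.sin (π * k / r) := by
  have hr' : (r : ℂ) ≠ 0 := by exact_mod_cast hr.ne'
  have h := TS_eq 1 k hr
  have key : ∀ (m : ℤ) (x : ℂ), π * (m : ℂ) ^ 2 = π * (k ^ 2 + 1) - 2 * r * x →
      (-I * (1:ℤ) / (2 * r : ℕ)) ^ (1 / 2 : ℂ) * GG 1 (2 * m) r =
      cexp (-(π * I * (k ^ 2 + 1) / (2 * r))) * cexp (x * I) := by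
    intro m x h2
    rw [recip 1 one_ne_zero m hr, ← Complex.exp_add]
    simp only [Int.natAbs_one, Finset.range_one, Finset.sum_singleton]
    rw [← Complex.exp_add]
    congr 1
    push_cast
    field_simp
    linear_combination -h2
  have k1 := key (k - 1) (π * k / r) (by push_cast; field_simp; ring)
  have k2 := key (-(k - 1)) (π * k / r) (by push_cast; field_simp; ring)
  have k3 := key (k + 1) (-(π * k / r)) (by push_cast; field_simp; ring)
  have k4 := key (-(k + 1)) (-(π * k / r)) (by push_cast; field_simp; ring)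
  rw [Complex.sin]
  generalize (-I * (1:ℤ) / (2 * r : ℕ)) ^ (1 / 2 : ℂ) = K at *
  generalize cexp (-(π * I * (k ^ 2 + 1) / (2 * r))) = A at *
  generalize cexp (π * k / r * I) = X at *
  generalize cexp (-(π * k / r) * I) = Y at *
  linear_combination (K / 8) * h + (k1 + k2 - k3 - k4) / 8 - (A * (Y - X) / 4) * I_mul_I

theorem TS_two_even {r k : ℕ} (hr : 0 < r) (hk : Even ((k : ℤ) + r)) : TS 2 k r = 0 := by
  have h := TS_eq 2 k hr
  rw [Int.even_iff] at hk
  rw [GG_two_odd hr _ (by rw [Int.odd_iff]; omega), GG_two_odd hr _ (by rw [Int.odd_iff]; omega),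
    GG_two_odd hr _ (by rw [Int.odd_iff]; omega),
    GG_two_odd hr _ (by rw [Int.odd_iff]; omega)] at h
  linear_combination h / 8

theorem TS_two_gen {r k : ℕ} (hr : 0 < r) (hk : ¬ Even ((k : ℤ) + r)) :
    (-I * (2:ℤ) / (2 * r : ℕ)) ^ (1 / 2 : ℂ) * TS 2 k r =
      I * cexp (-(π * I * (k ^ 2 + 1) / (4 * r))) * Complex.sin (π * k / (2 * r)) := by
  have hr' : (r : ℂ) ≠ 0 := by exact_mod_cast hr.ne'
  have h := TS_eq 2 k hr
  rw [Int.even_iff] at hk
  have key : ∀ (m : ℤ) (x : ℂ), (r + m) % 2 = 0 → π * (m : ℂ) ^ 2 = π * (k ^ 2 + 1) - 4 * r * x →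
      (-I * (2:ℤ) / (2 * r : ℕ)) ^ (1 / 2 : ℂ) * GG 2 (2 * m) r =
      2 * (cexp (-(π * I * (k ^ 2 + 1) / (4 * r))) * cexp (x * I)) := by
    intro m x h1 h2
    rw [GG_two_even hr m (Int.even_iff.mpr h1), ← Complex.exp_add]
    congr 2
    field_simp
    linear_combination -h2
  have k1 := key (k - 1) (π * k / (2 * r)) (by omega) (by push_cast; field_simp; ring)
  have k2 := key (-(k - 1)) (π * k / (2 * r)) (by omega) (by push_cast; field_simp; ring)
  have k3 := key (k + 1) (-(π * k / (2 * r))) (by omega) (by push_cast; field_simp; ring)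
  have k4 := key (-(k + 1)) (-(π * k / (2 * r))) (by omega) (by push_cast; field_simp; ring)
  rw [Complex.sin]
  generalize (-I * (2:ℤ) / (2 * r : ℕ)) ^ (1 / 2 : ℂ) = K at *
  generalize cexp (-(π * I * (k ^ 2 + 1) / (4 * r))) = A at *
  generalize cexp (π * k / (2 * r) * I) = X at *
  generalize cexp (-(π * k / (2 * r)) * I) = Y at *
  linear_combination (K / 8) * h + (k1 + k2 - k3 - k4) / 8 - (A * (Y - X) / 2) * I_mul_I

theorem per_shift (F : ℤ → ℂ) (N : ℕ) (h : ∀ x, F (x + N) = F x) (c : ℤ) :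
    ∑ n ∈ Finset.range N, F (n + c) = ∑ n ∈ Finset.range N, F n := by
  have := const_of_succ (fun c => ∑ n ∈ Finset.range N, F (n + c)) (fun c => by
    have a1 := Finset.sum_range_succ (fun n : ℕ => F (n + c)) N
    rw [Finset.sum_range_succ', add_comm (N : ℤ), h] at a1
    simp only [Nat.cast_add, Nat.cast_one, Nat.cast_zero, zero_add, add_left_inj] at a1
    rw [← a1]
    refine Finset.sum_congr rfl fun n _ => ?_
    congr 1
    ring) c
  simpa using this

theorem per_neg (F : ℤ → ℂ) (N : ℕ) (h : ∀ x, F (x + N) = F x) :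
    ∑ n ∈ Finset.range N, F (-n) = ∑ n ∈ Finset.range N, F n := by
  rw [← per_shift F N h (1 - N), ← Finset.sum_range_reflect]
  refine Finset.sum_congr rfl fun n hn => ?_
  have := Finset.mem_range.mp hn
  congr 1
  omega

theorem sum_range_mul' (f : ℕ → ℂ) (a n : ℕ) : ∑ K ∈ Finset.range (a * n), f K =
    ∑ j ∈ Finset.range n, ∑ k ∈ Finset.range a, f (a * j + k) := by
  induction n with
  | zero => simp
  | succ n ih => rw [Nat.mul_succ, Finset.sum_range_add, ih, Finset.sum_range_succ]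

/-- The Gaussian of the third exceptional fibre. -/
noncomputable def q7 (r : ℕ) (x : ℤ) : ℂ := cexp (π * I * x ^ 2 / (14 * r))

theorem q7_per {r : ℕ} (hr : 0 < r) (x : ℤ) : q7 r (x + 14 * r) = q7 r x := by
  have hr' : (r : ℂ) ≠ 0 := by exact_mod_cast hr.ne'
  rw [q7, q7, exp_eq_exp_iff_exists_int]
  refine ⟨x + 7 * r, ?_⟩
  push_cast
  field_simp
  ring

theorem TS_seven {r : ℕ} (hr : 0 < r) (k : ℕ) :
    4 * ((-I * (-7:ℤ) / (2 * r : ℕ)) ^ (1 / 2 : ℂ) * TS (-7) k r) =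
      ∑ n ∈ Finset.range 7, (q7 r (2 * r * n + k - 1) - q7 r (2 * r * n - k - 1)) := by
  have hr' : (r : ℂ) ≠ 0 := by exact_mod_cast hr.ne'
  have h := TS_eq (-7) k hr
  have key : ∀ m : ℤ, (-I * (-7:ℤ) / (2 * r : ℕ)) ^ (1 / 2 : ℂ) * GG (-7) (2 * m) r =
      ∑ n ∈ Finset.range 7, q7 r (2 * r * n - m) := by
    intro m
    rw [recip (-7) (by norm_num) m hr, Finset.mul_sum]
    refine Finset.sum_congr rfl fun n _ => ?_
    rw [← Complex.exp_add, q7]
    congr 1
    push_cast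
    field_simp
    ring
  have key2 : ∀ m : ℤ, ∑ n ∈ Finset.range 7, q7 r (2 * r * n - -m) =
      ∑ n ∈ Finset.range 7, q7 r (2 * r * n - m) := by
    intro m
    rw [← per_neg (fun n => q7 r (2 * r * n - m)) 7 fun x => by
      rw [← q7_per hr (2 * r * x - m)]
      congr 1
      push_cast
      ring]
    refine Finset.sum_congr rfl fun n _ => ?_
    rw [q7, q7]
    congr 1
    push_cast
    ring
  have k1 := key (k - 1)
  have k2 := key (-(k - 1))
  have k3 := key (k + 1)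
  have k4 := key (-(k + 1))
  rw [← key2] at k1
  rw [key2] at k4
  simp only [sub_neg_eq_add, ← add_sub_assoc, ← sub_sub] at k1 k2 k3 k4
  rw [Finset.sum_sub_distrib]
  generalize (-I * (-7:ℤ) / (2 * r : ℕ)) ^ (1 / 2 : ℂ) = K at *
  linear_combination (K / 2) * h + (k1 + k2 - k3 - k4) / 2

/-- The tangent on one parity class. -/
noncomputable def tn (r : ℕ) (K : ℤ) : ℂ :=
  if Even (K + r) then 0 else Complex.tan (π * K / (2 * r))

theorem tn_neg (r : ℕ) (K : ℤ) : tn r (-K) = -tn r K := by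
  have : Even (-K + r) ↔ Even (K + r) := by
    rw [Int.even_iff, Int.even_iff]
    omega
  simp only [tn, this]
  split_ifs
  · simp
  · rw [← Complex.tan_neg]
    congr 1
    push_cast
    ring

theorem tn_per {r : ℕ} (hr : 0 < r) (K n : ℤ) : tn r (2 * r * n + K) = tn r K := by
  have hr' : (r : ℂ) ≠ 0 := by exact_mod_cast hr.ne'
  have : Even (2 * r * n + K + r) ↔ Even (K + r) := by
    rw [Int.even_iff, Int.even_iff, mul_assoc]
    omega
  simp only [tn, this]
  split_ifs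
  · rfl
  · rw [← Complex.tan_add_int_mul_pi (π * K / (2 * r)) n]
    congr 1
    push_cast
    field_simp
    ring

theorem tn_fourier {r : ℕ} (hr : 0 < r) (K : ℤ) : tn r K = -(I / 2) *
    (∑ m ∈ Finset.Ico 1 r, (-cexp (-(π * I * K / r))) ^ m -
      ∑ m ∈ Finset.Ico 1 r, (-cexp (-(π * I * K / r))) ^ (r + m)) := by
  have hr' : (r : ℂ) ≠ 0 := by exact_mod_cast hr.ne'
  have h1 : (-cexp (-(π * I * K / r))) ^ r = cexp (((K + r : ℤ) : ℂ) * (π * I)) := by
    rw [neg_pow, neg_one_pow_exp, ← Complex.exp_nat_mul, ← Complex.exp_add,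
      exp_eq_exp_iff_exists_int]
    refine ⟨-K, ?_⟩
    push_cast
    field_simp
    ring
  rw [Complex.exp_int_mul, exp_pi_mul_I] at h1
  simp only [pow_add, ← Finset.mul_sum, h1, tn]
  split_ifs with h
  · rw [h.neg_one_zpow]
    ring
  · rw [(Int.not_even_iff_odd.mp h).neg_one_zpow] at h1 ⊢
    have h2 := geom_sum_mul (-cexp (-(π * I * K / r))) r
    rw [h1, Finset.range_eq_Ico, Finset.sum_eq_sum_Ico_succ_bot hr] at h2
    have h3 : cexp (-(π * I * K / r)) = cexp (-(π * K / (2 * r)) * I) ^ 2 := by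
      rw [← Complex.exp_nat_mul]
      congr 1
      push_cast
      field_simp
    have h4 := Complex.exp_ne_zero (-(π * K / (2 * r)) * I)
    have h5 : cexp (π * K / (2 * r) * I) = (cexp (-(π * K / (2 * r)) * I))⁻¹ := by
      rw [← Complex.exp_neg]
      congr 1
      ring
    rw [zero_add] at h2
    generalize ∑ m ∈ Finset.Ico 1 r, (-cexp (-(π * I * K / r))) ^ m = S at *
    rw [Complex.tan, Complex.sin, Complex.cos, h5]
    rw [h3] at h2
    generalize cexp (-(π * K / (2 * r)) * I) = W at *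
    have h6 : 1 + W ^ 2 ≠ 0 := by
      intro h0
      have : (-2 : ℂ) = 0 := by linear_combination -h2 - (1 + S) * h0
      norm_num at this
    field_simp
    linear_combination -2 * h2

/-- The summand after unfolding. -/
noncomputable def uu (r : ℕ) (K : ℤ) : ℂ :=
  tn r K * cexp (-(2 * π * I * K ^ 2 / r)) * q7 r (K - 1)

theorem uu_eq {r : ℕ} (hr : 0 < r) (K n : ℤ) : uu r (2 * r * n + K) =
    tn r K * cexp (-(2 * π * I * K ^ 2 / r)) * q7 r (2 * r * n + K - 1) := by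
  have hr' : (r : ℂ) ≠ 0 := by exact_mod_cast hr.ne'
  rw [uu, tn_per hr]
  congr 2
  rw [exp_eq_exp_iff_exists_int]
  refine ⟨-(4 * r * n ^ 2 + 4 * n * K), ?_⟩
  push_cast
  field_simp
  ring

theorem unfold_sum {r : ℕ} (hr : 0 < r) :
    ∑ k ∈ Finset.range r, tn r k * cexp (-(2 * π * I * k ^ 2 / r)) *
      (4 * ((-I * (-7:ℤ) / (2 * r : ℕ)) ^ (1 / 2 : ℂ) * TS (-7) k r)) =
      ∑ K ∈ Finset.range (14 * r), uu r K := by
  rw [← per_shift (uu r) (14 * r) (fun x => by
    have := uu_eq hr x 7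
    rw [show 2 * r * 7 + x - 1 = x - 1 + 14 * r by ring, q7_per hr] at this
    rw [show x + (14 * r : ℕ) = 2 * r * 7 + x by push_cast; ring, this, uu]) (-r),
    show 14 * r = (r + r) * 7 by ring, sum_range_mul']
  simp only [TS_seven hr, Finset.mul_sum]
  rw [Finset.sum_comm]
  refine Finset.sum_congr rfl fun n _ => ?_
  have h0 : uu r (2 * r * n + -(0 : ℕ)) = 0 := by
    rw [uu_eq hr]
    simp [tn]
  have h1 : uu r (2 * r * n + -r) = 0 := by
    rw [uu_eq hr]
    simp [tn]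
  have h2 := Finset.sum_range_succ (fun k : ℕ => uu r (2 * r * n + -k)) r
  rw [Finset.sum_range_succ', h0, h1, add_zero, add_zero, ← Finset.sum_range_reflect] at h2
  rw [Finset.sum_range_add, Finset.sum_congr rfl (g := fun k : ℕ => uu r (2 * r * n + -k) +
    uu r (2 * r * n + k)), Finset.sum_add_distrib, ← h2]
  · congr 1
    · refine Finset.sum_congr rfl fun k hk => ?_
      have := Finset.mem_range.mp hk
      congr 1
      push_cast [Nat.cast_sub (by omega : k ≤ r - 1), Nat.cast_sub (by omega : 1 ≤ r)]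
      ring
    · refine Finset.sum_congr rfl fun k hk => ?_
      congr 1
      push_cast
      ring
  · intro k _
    rw [uu_eq hr, uu_eq hr, tn_neg, ← sub_eq_add_neg]
    push_cast
    ring_nf

theorem uu_sum {r : ℕ} (hr : 0 < r) :
    (-I * (-27:ℤ) / (14 * r : ℕ)) ^ (1 / 2 : ℂ) * ∑ K ∈ Finset.range (14 * r), uu r K =
      -(I / 2) * cexp (π * I / (14 * r)) * FT r := by
  have hr' : (r : ℂ) ≠ 0 := by exact_mod_cast hr.ne'
  have key : ∀ M : ℕ, (-I * (-27:ℤ) / (14 * r : ℕ)) ^ (1 / 2 : ℂ) *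
      ∑ K ∈ Finset.range (14 * r), (-cexp (-(π * I * (K : ℤ) / r))) ^ M *
        (cexp (-(2 * π * I * (K : ℤ) ^ 2 / r)) * q7 r (K - 1)) =
      cexp (π * I / (14 * r)) * ∑ n ∈ Finset.range 27,
        (-1) ^ (r * (2 * n) + M) * Gs r (7 * (r * (2 * n) + M : ℕ) + 1) := by
    intro M
    have h := gauss_reciprocity (14 * r) (by omega) (-27) (by norm_num) (-2 - 14 * M)
      ⟨-27 * 7 * r - 1 - 7 * M, by push_cast; ring⟩
    have a1 : ∀ K : ℕ, (-cexp (-(π * I * (K : ℤ) / r))) ^ M *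
        (cexp (-(2 * π * I * (K : ℤ) ^ 2 / r)) * q7 r (K - 1)) =
        (-1) ^ M * cexp (π * I / (14 * r)) *
          cexp (π * I * ((-27 : ℤ) * K ^ 2 + (-2 - 14 * M : ℤ) * K) / (14 * r : ℕ)) := by
      intro K
      rw [neg_pow, q7, ← Complex.exp_nat_mul, mul_assoc ((-1 : ℂ) ^ M), mul_assoc ((-1 : ℂ) ^ M),
        ← Complex.exp_add,
        ← Complex.exp_add, ← Complex.exp_add]
      congr 2
      push_cast
      field_simp
      ring
    simp only [a1]
    rw [← Finset.mul_sum, mul_left_comm, h, mul_comm ((-1 : ℂ) ^ M), mul_assoc]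
    congr 1
    rw [Finset.mul_sum, Finset.mul_sum]
    refine Finset.sum_congr rfl fun n _ => ?_
    rw [pow_add, mul_comm r, mul_assoc 2, pow_mul, neg_one_sq, one_pow, one_mul, Gs,
      ← Complex.exp_add]
    congr 2
    push_cast
    field_simp
    ring
  have h1 : ∀ K : ℕ, uu r K = -(I / 2) * ∑ m ∈ Finset.Ico 1 r,
      ((-cexp (-(π * I * (K : ℤ) / r))) ^ m *
        (cexp (-(2 * π * I * (K : ℤ) ^ 2 / r)) * q7 r (K - 1)) -
      (-cexp (-(π * I * (K : ℤ) / r))) ^ (r + m) *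
        (cexp (-(2 * π * I * (K : ℤ) ^ 2 / r)) * q7 r (K - 1))) := by
    intro K
    rw [uu, tn_fourier hr, Finset.sum_sub_distrib, ← Finset.sum_mul, ← Finset.sum_mul]
    ring
  simp only [h1]
  rw [← Finset.mul_sum, Finset.sum_comm, mul_left_comm, mul_assoc (-(I / 2))]
  congr 1
  rw [Finset.mul_sum]
  simp only [Finset.sum_sub_distrib, mul_sub, key]
  rw [FT, show 54 = 2 * 27 from rfl, sum_even_odd, ← Finset.mul_sum, ← Finset.mul_sum, ← mul_sub,
    Finset.sum_add_distrib, Finset.sum_comm, Finset.sum_comm (s := Finset.Ico 1 r),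
    sub_eq_add_neg, ← Finset.sum_neg_distrib]
  congr 2
  · refine Finset.sum_congr rfl fun n _ => ?_
    simp
  · refine Finset.sum_congr rfl fun n _ => ?_
    simp only [mul_add r, mul_one, add_assoc, pow_succ, pow_mul, pow_zero]
    simp

theorem Z_FT {r : ℕ} (hr : 2 ≤ r) :
    tauS ![2, 2, -7, 1, 1, 1] r / tauS ![] r =
      I * cexp (18 * π * I / 7 / r) / (√(54 * r) : ℝ) * FT r := by
  have hr0 : 0 < r := by omega
  have hr' : (r : ℂ) ≠ 0 := by exact_mod_cast hr0.ne'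
  have hrr : (0:ℝ) < r := by exact_mod_cast hr0
  have h1 := unfold_sum hr0
  have h2 := uu_sum hr0
  have h3 : ∀ k ∈ Finset.range r, ((-I * (2:ℤ) / (2 * r : ℕ)) ^ (1 / 2 : ℂ)) ^ 2 *
      ((-I * (1:ℤ) / (2 * r : ℕ)) ^ (1 / 2 : ℂ)) ^ 3 *
      (TS 2 k r ^ 2 * TS 1 k r ^ 3 / Complex.sin (π * k / r) ^ 4) =
      I / 16 * cexp (-(2 * π * I / r)) * (tn r k * cexp (-(2 * π * I * k ^ 2 / r))) := by
    intro k hk
    by_cases h : Even ((k : ℤ) + r)
    · simp [tn, h, TS_two_even hr0 h]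
    · rcases Nat.eq_zero_or_pos k with rfl | hk0
      · simp [tn]
      have a1 := sin_ne_of_Ioo (Finset.mem_Ioo.mpr ⟨hk0, Finset.mem_range.mp hk⟩)
      have a2 : (π * k / r : ℂ) = 2 * (π * k / (2 * r)) := by field_simp
      have a3 : cexp (-(π * I * (k ^ 2 + 1) / (4 * r))) ^ 2 *
          cexp (-(π * I * (k ^ 2 + 1) / (2 * r))) ^ 3 =
          cexp (-(2 * π * I / r)) * cexp (-(2 * π * I * k ^ 2 / r)) := by
        rw [← Complex.exp_nat_mul, ← Complex.exp_nat_mul, ← Complex.exp_add, ← Complex.exp_add]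
        congr 1
        push_cast
        field_simp
        ring
      rw [← mul_div_assoc, mul_mul_mul_comm, ← mul_pow, ← mul_pow, TS_one hr0, TS_two_gen hr0 h,
        tn, if_neg h, Complex.tan, Int.cast_natCast]
      rw [a2, Complex.sin_two_mul] at a1 ⊢
      have a4 := right_ne_zero_of_mul a1
      have a5 := right_ne_zero_of_mul (left_ne_zero_of_mul a1)
      generalize Complex.sin (π * k / (2 * r)) = S at *
      generalize Complex.cos (π * k / (2 * r)) = C at *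
      generalize cexp (-(π * I * (k ^ 2 + 1) / (4 * r))) = A at *
      generalize cexp (-(π * I * (k ^ 2 + 1) / (2 * r))) = B at *
      generalize cexp (-(2 * π * I / r)) = X at *
      generalize cexp (-(2 * π * I * k ^ 2 / r)) = Y at *
      field_simp
      linear_combination 16 * a3 + (16 * A ^ 2 * B ^ 3 * (I ^ 2 - 1)) * I_mul_I
  have e1 : (-I * (1:ℤ) / (2 * r : ℕ)) = ((1 / (2 * r) : ℝ) : ℂ) * -I := by
    push_cast
    ring
  have e2 : (-I * (2:ℤ) / (2 * r : ℕ)) = ((1 / r : ℝ) : ℂ) * -I := by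
    push_cast
    field_simp
  have e3 : (-I * (-7:ℤ) / (2 * r : ℕ)) = ((7 / (2 * r) : ℝ) : ℂ) * I := by
    push_cast
    ring
  have e4 : (-I * (-27:ℤ) / (14 * r : ℕ)) = ((27 / (14 * r) : ℝ) : ℂ) * I := by
    push_cast
    ring
  have h4 := Finset.sum_congr rfl fun k hk => congrArg
    (· * (4 * ((-I * (-7:ℤ) / (2 * r : ℕ)) ^ (1 / 2 : ℂ) * TS (-7) k r))) (h3 k hk)
  simp only [mul_assoc (I / 16 * cexp (-(2 * π * I / r))), ← Finset.mul_sum, h1] at h4
  simp only [mul_assoc (_ ^ 2 * _ ^ 3), mul_left_comm _ (4 : ℂ), mul_left_comm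
    (TS 2 _ r ^ 2 * TS 1 _ r ^ 3 / _), ← Finset.mul_sum] at h4
  rw [e1, e2, e3, kap_pos (by positivity), kap_pos (by positivity), kap_neg (by positivity)] at h4
  rw [e4, kap_neg (by positivity)] at h2
  have s1 : ((√(1 / (2 * r)) : ℝ) : ℂ) ^ 2 * (2 * r) = 1 := by
    rw [← ofReal_pow, Real.sq_sqrt (by positivity)]
    push_cast
    field_simp
  have s2 : ((√(1 / r) : ℝ) : ℂ) ^ 2 * r = 1 := by
    rw [← ofReal_pow, Real.sq_sqrt (by positivity)]
    push_cast
    field_simp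
  have s3 : (√(54 * r) : ℝ) = √(1 / (2 * r)) * √(7 / (2 * r)) * √(27 / (14 * r)) * (4 * r ^ 2) := by
    refine (sq_eq_sq₀ (by positivity) (by positivity)).mp ?_
    rw [mul_pow, mul_pow, mul_pow, Real.sq_sqrt (by positivity), Real.sq_sqrt (by positivity),
      Real.sq_sqrt (by positivity), Real.sq_sqrt (by positivity)]
    field_simp
    ring
  have s4 : ((√(54 * r) : ℝ) : ℂ) ≠ 0 := ofReal_ne_zero.mpr (by positivity)
  have s5 : cexp (-(2 * π * I) * (3 * (r - 2) / (8 * r))) ^ 3 * cexp (-(2 * π * I / r)) *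
      cexp (π * I / (14 * r)) = cexp (18 * π * I / 7 / r) * cexp (-(π * I / 4)) := by
    rw [← Complex.exp_nat_mul, ← Complex.exp_add, ← Complex.exp_add, ← Complex.exp_add,
      exp_eq_exp_iff_exists_int]
    refine ⟨-1, ?_⟩
    push_cast
    field_simp
    ring
  have s6 := exp_quarter_mul
  have s7 := exp_neg_pi_quarter_sq
  rw [Zp_sum hr, div_mul_eq_mul_div (I * _), eq_div_iff s4, s3]
  push_cast
  generalize ∑ k ∈ Finset.range r,
    TS 2 k r ^ 2 * TS 1 k r ^ 3 / Complex.sin (π * k / r) ^ 4 * TS (-7) k r = S at *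
  generalize ∑ K ∈ Finset.range (14 * r), uu r K = U at *
  generalize ((√(1 / (2 * r)) : ℝ) : ℂ) = a at *
  generalize ((√(1 / r) : ℝ) : ℂ) = b at *
  generalize ((√(7 / (2 * r)) : ℝ) : ℂ) = c at *
  generalize ((√(27 / (14 * r)) : ℝ) : ℂ) = d at *
  generalize cexp (-(2 * π * I) * (3 * (r - 2) / (8 * r))) = X at *
  generalize cexp (-(2 * π * I / r)) = Y at *
  generalize cexp (π * I / (14 * r)) = Z at *
  generalize cexp (18 * π * I / 7 / r) = W at *
  generalize cexp (-(π * I / 4)) = Q at *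
  generalize cexp (π * I / 4) = P at *
  generalize FT r = T at *
  have t1 : 4 * a ^ 3 * b ^ 2 * c * d * S * X ^ 3 * Q ^ 5 * P ^ 2 = W * Q * T / 32 := by
    linear_combination (d * P * X ^ 3) * h4 + (I / 16 * Y * X ^ 3) * h2 + (T / 32) * s5 -
      (X ^ 3 * Y * Z * T / 32) * I_mul_I
  have t2 : Q ^ 5 * P ^ 3 = -I := by
    linear_combination s7 + Q ^ 2 * ((Q * P) ^ 2 + Q * P + 1) * s6
  have t3 : 4 * a ^ 3 * b ^ 2 * c * d * S * X ^ 3 * -I = W * T / 32 := by
    linear_combination P * t1 - (4 * a ^ 3 * b ^ 2 * c * d * S * X ^ 3) * t2 + (W * T / 32) * s6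
  field_simp
  linear_combination 32 * r ^ 2 * I * t3 +
    32 * r ^ 2 * (4 * a ^ 3 * b ^ 2 * c * d * S * X ^ 3) * I_mul_I -
    64 * a * c * d * S * X ^ 3 * (r * b ^ 2) * s1 - 64 * a * c * d * S * X ^ 3 * s2

end Pool.Agent.P.MP_27a476_gt
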