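import Pool.Agent.P.MP_27a476_gt.Vol

set_option autoImplicit false

open MeasureTheory
open scoped Quaternion Real ENNReal

namespace Pool.Agent.P.MP_27a476_gt

/-- A planar sector. -/
def Sec (θ β : ℝ) : Set ℂ :=
  {z | 0 ≤ z.im * Real.cos θ - z.re * Real.sin θ ∧
    0 ≤ z.re * Real.sin (θ + β) - z.im * Real.cos (θ + β)}

theorem Sec_meas (θ β : ℝ) : MeasurableSet (Sec θ β) := by
  have h1 : MeasurableSet {z : ℂ | 0 ≤ z.im * Real.cos θ - z.re * Real.sin θ} :=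
    measurableSet_le measurable_const (by fun_prop)
  have h2 : MeasurableSet {z : ℂ | 0 ≤ z.re * Real.sin (θ + β) - z.im * Real.cos (θ + β)} :=
    measurableSet_le measurable_const (by fun_prop)
  exact h1.inter h2

theorem radial_angle (g : ℝ → ℝ≥0∞) (hg : Measurable g) (S : Set ℂ) (hS : MeasurableSet S)
    (T : Set ℝ) (hT : MeasurableSet T)
    (h : ∀ r ψ : ℝ, 0 < r → -π < ψ → ψ < π → (Complex.polarCoord.symm (r, ψ) ∈ S ↔ ψ ∈ T)) :
    ∫⁻ z in S, g ‖z‖ =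
      (∫⁻ r in Set.Ioi (0:ℝ), ENNReal.ofReal r * g r) * volume (T ∩ Set.Ioo (-π) π) := by
  rw [← lintegral_indicator hS, ← Complex.lintegral_comp_polarCoord_symm]
  have h1 : polarCoord.target = Set.Ioi (0:ℝ) ×ˢ Set.Ioo (-π) π := rfl
  rw [h1, setLIntegral_congr_fun (measurableSet_Ioi.prod measurableSet_Ioo)
    (g := fun p => (ENNReal.ofReal p.1 * g p.1) * T.indicator 1 p.2), Measure.volume_eq_prod,
    ← Measure.prod_restrict, lintegral_prod_mul (f := fun r => ENNReal.ofReal r * g r)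
      (by fun_prop) ((measurable_one.indicator hT).aemeasurable), lintegral_indicator_one hT,
    Measure.restrict_apply hT]
  rintro ⟨r, ψ⟩ ⟨hr, h2, h3⟩
  have h4 : ‖Complex.polarCoord.symm (r, ψ)‖ = r := by
    rw [Complex.norm_polarCoord_symm]
    exact abs_of_pos hr
  by_cases h5 : ψ ∈ T
  · simp only [Set.indicator_of_mem ((h r ψ hr h2 h3).mpr h5), Set.indicator_of_mem h5, h4]
    simp
  · simp only [Set.indicator_of_notMem (fun h6 => h5 ((h r ψ hr h2 h3).mp h6)),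
      Set.indicator_of_notMem h5]
    simp

theorem sec_zero (g : ℝ → ℝ≥0∞) (hg : Measurable g) {β : ℝ} (h0 : 0 < β) (h1 : β < π) :
    ∫⁻ z in Sec 0 β, g ‖z‖ = ENNReal.ofReal (β / (2 * π)) * ∫⁻ z : ℂ, g ‖z‖ := by
  have hπ := Real.pi_pos
  have e1 := radial_angle g hg (Sec 0 β) (Sec_meas _ _) (Set.Icc 0 β) measurableSet_Icc ?_
  · have e2 := radial_angle g hg Set.univ MeasurableSet.univ Set.univ MeasurableSet.univ
      (by simp)
    rw [Measure.restrict_univ, Set.univ_inter, Real.volume_Ioo] at e2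
    rw [Set.inter_eq_left.mpr (Set.Icc_subset_Ioo (by linarith) h1), Real.volume_Icc] at e1
    rw [e1, e2, mul_left_comm, ← ENNReal.ofReal_mul (by positivity)]
    congr 2
    field_simp
    ring
  · intro r ψ hr h2 h3
    have a1 : (Complex.polarCoord.symm (r, ψ)).re = r * Real.cos ψ := by
      simp [Complex.cos_ofReal_re, Complex.sin_ofReal_re]
    have a2 : (Complex.polarCoord.symm (r, ψ)).im = r * Real.sin ψ := by
      simp [Complex.cos_ofReal_re, Complex.sin_ofReal_re]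
    simp only [Sec, Set.mem_ofPred_eq, a1, a2, Real.cos_zero, Real.sin_zero, zero_add,
      Set.mem_Icc]
    have a3 : r * Real.cos ψ * Real.sin β - r * Real.sin ψ * Real.cos β =
        r * Real.sin (β - ψ) := by
      rw [Real.sin_sub]
      ring
    rw [a3, mul_one, mul_zero, sub_zero, mul_nonneg_iff_of_pos_left hr,
      mul_nonneg_iff_of_pos_left hr]
    constructor
    · rintro ⟨b1, b2⟩
      have c1 : 0 ≤ ψ := by
        by_contra hc
        exact absurd (Real.sin_neg_of_neg_of_neg_pi_lt (not_le.mp hc) h2) (not_lt.mpr b1)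
      refine ⟨c1, ?_⟩
      by_contra hc
      exact absurd (Real.sin_neg_of_neg_of_neg_pi_lt (x := β - ψ) (by linarith) (by linarith))
        (not_lt.mpr b2)
    · rintro ⟨b1, b2⟩
      exact ⟨Real.sin_nonneg_of_nonneg_of_le_pi b1 h3.le,
        Real.sin_nonneg_of_nonneg_of_le_pi (by linarith) (by linarith)⟩

theorem sec_any (g : ℝ → ℝ≥0∞) (hg : Measurable g) (θ : ℝ) {β : ℝ} (h0 : 0 < β) (h1 : β < π) :
    ∫⁻ z in Sec θ β, g ‖z‖ = ENNReal.ofReal (β / (2 * π)) * ∫⁻ z : ℂ, g ‖z‖ := by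
  rw [← sec_zero g hg h0 h1]
  have h2 := (rotation (Circle.exp θ)).measurePreserving
  have h3 : Sec 0 β = rotation (Circle.exp θ) ⁻¹' Sec θ β := by
    ext z
    have a1 : (rotation (Circle.exp θ) z).re = Real.cos θ * z.re - Real.sin θ * z.im := by
      simp [rotation_apply, Complex.exp_ofReal_mul_I_re, Complex.exp_ofReal_mul_I_im]
    have a2 : (rotation (Circle.exp θ) z).im = Real.cos θ * z.im + Real.sin θ * z.re := by
      simp [rotation_apply, Complex.exp_ofReal_mul_I_re, Complex.exp_ofReal_mul_I_im]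
    simp only [Sec, Set.mem_ofPred_eq, Set.mem_preimage, a1, a2, Real.cos_zero, Real.sin_zero,
      zero_add, Real.sin_add, Real.cos_add]
    have := Real.sin_sq_add_cos_sq θ
    refine and_congr ?_ ?_
    · rw [iff_iff_eq]
      congr 1
      linear_combination (-z.im) * this
    · rw [iff_iff_eq]
      congr 1
      linear_combination (z.im * Real.cos β - z.re * Real.sin β) * this
  rw [h3, ← h2.setLIntegral_comp_preimage (Sec_meas _ _) (by fun_prop)]
  simp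

theorem prod_sec (θ φ : ℝ) {β : ℝ} (h0 : 0 < β) (h1 : β < π) :
    volume ({q : ℂ × ℂ | ‖q.1‖ ^ 2 + ‖q.2‖ ^ 2 ≤ 1} ∩ Sec θ β ×ˢ Sec φ β) =
      ENNReal.ofReal (β / (2 * π)) ^ 2 * volume {q : ℂ × ℂ | ‖q.1‖ ^ 2 + ‖q.2‖ ^ 2 ≤ 1} := by
  have hB : MeasurableSet {q : ℂ × ℂ | ‖q.1‖ ^ 2 + ‖q.2‖ ^ 2 ≤ 1} :=
    measurableSet_le (by fun_prop) measurable_const
  have hB' : MeasurableSet {q : ℝ × ℂ | q.1 ^ 2 + ‖q.2‖ ^ 2 ≤ 1} :=
    measurableSet_le (by fun_prop) measurable_const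
  set G : ℝ → ℝ≥0∞ := fun a => volume (Prod.mk a ⁻¹' {q : ℝ × ℂ | q.1 ^ 2 + ‖q.2‖ ^ 2 ≤ 1})
    with hG
  have hGm : Measurable G := measurable_measure_prodMk_left hB'
  have h2 : ∀ z : ℂ, volume.restrict (Sec φ β)
      (Prod.mk z ⁻¹' {q : ℂ × ℂ | ‖q.1‖ ^ 2 + ‖q.2‖ ^ 2 ≤ 1}) =
      ENNReal.ofReal (β / (2 * π)) * G ‖z‖ := by
    intro z
    have hT : MeasurableSet {r : ℝ | ‖z‖ ^ 2 + r ^ 2 ≤ 1} :=
      measurableSet_le (by fun_prop) measurable_const
    have h3 := sec_any ({r : ℝ | ‖z‖ ^ 2 + r ^ 2 ≤ 1}.indicator 1) (measurable_one.indicator hT)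
      φ h0 h1
    have h4 : (fun w : ℂ => {r : ℝ | ‖z‖ ^ 2 + r ^ 2 ≤ 1}.indicator (1 : ℝ → ℝ≥0∞) ‖w‖) =
        {w : ℂ | ‖z‖ ^ 2 + ‖w‖ ^ 2 ≤ 1}.indicator 1 := rfl
    have hT' : MeasurableSet {w : ℂ | ‖z‖ ^ 2 + ‖w‖ ^ 2 ≤ 1} :=
      measurableSet_le (by fun_prop) measurable_const
    rw [h4, lintegral_indicator_one hT', lintegral_indicator_one hT'] at h3
    exact h3
  rw [← Measure.restrict_apply hB, Measure.volume_eq_prod, ← Measure.prod_restrict,
    Measure.prod_apply hB, Measure.prod_apply hB]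
  simp only [h2]
  rw [lintegral_const_mul _ (by fun_prop), sec_any G hGm θ h0 h1, sq, mul_assoc]
  rfl

/-- The identification of the Euclidean 4-space with the complex plane squared. -/
noncomputable def toCC : EuclideanSpace ℝ (Fin 4) ≃ₗᵢ[ℝ] WithLp 2 (ℂ × ℂ) where
  toFun p := WithLp.toLp 2 (⟨p 0, p 1⟩, ⟨p 2, p 3⟩)
  invFun q := !₂[q.fst.re, q.fst.im, q.snd.re, q.snd.im]
  map_add' _ _ := rfl
  map_smul' c p := by
    apply WithLp.ofLp_injective 2
    ext <;> simp [Complex.ext_iff]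
  left_inv p := by
    ext i
    fin_cases i <;> rfl
  right_inv q := rfl
  norm_map' p := by
    rw [← sq_eq_sq₀ (norm_nonneg _) (norm_nonneg _), WithLp.prod_norm_sq_eq_of_L2,
      EuclideanSpace.norm_sq_eq, Complex.sq_norm, Complex.sq_norm]
    simp [Fin.sum_univ_four, Complex.normSq_apply]
    ring

/-- A unit complex number as a quaternion. -/
noncomputable def ee (θ : ℝ) : ℍ[ℝ] := ⟨Real.cos θ, Real.sin θ, 0, 0⟩

/-- A unit complex number times `j`. -/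
noncomputable def ej (θ : ℝ) : ℍ[ℝ] := ⟨0, 0, Real.cos θ, Real.sin θ⟩

theorem sin_diff (θ β : ℝ) :
    Real.sin β = Real.cos θ * Real.sin (θ + β) - Real.sin θ * Real.cos (θ + β) := by
  have : β = (θ + β) - θ := by ring
  conv_lhs => rw [this, Real.sin_sub]
  ring

theorem dt_ee (θ φ β : ℝ) : dt ![ee θ, ee (θ + β), ej φ, ej (φ + β)] = Real.sin β ^ 2 := by
  have h1 := sin_diff θ β
  have h2 := sin_diff φ β
  rw [sq]
  nth_rewrite 1 [h1]
  rw [h2]
  simp [dt, ee, ej, Matrix.det_succ_row_zero, Fin.sum_univ_succ, Fin.succAbove]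
  ring

theorem mem_Sec (θ : ℝ) {β : ℝ} (hs : 0 < Real.sin β) (x y : ℝ) :
    (⟨x, y⟩ : ℂ) ∈ Sec θ β ↔ ∃ s t : ℝ, 0 ≤ s ∧ 0 ≤ t ∧
      x = s * Real.cos θ + t * Real.cos (θ + β) ∧ y = s * Real.sin θ + t * Real.sin (θ + β) := by
  have h1 := sin_diff θ β
  constructor
  · rintro ⟨h2, h3⟩
    refine ⟨_, _, div_nonneg h3 hs.le, div_nonneg h2 hs.le, ?_, ?_⟩
    · field_simp
      rw [h1]
      ring
    · field_simp
      rw [h1]
      ring
  · rintro ⟨s, t, hs', ht, rfl, rfl⟩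
    constructor
    · have : 0 ≤ t * Real.sin β := by positivity
      rw [h1] at this
      simp only
      linarith
    · have : 0 ≤ s * Real.sin β := by positivity
      rw [h1] at this
      simp only
      linarith

theorem svol_ee (θ φ : ℝ) {β : ℝ} (h0 : 0 < β) (h1 : β < π) :
    svol ![ee θ, ee (θ + β), ej φ, ej (φ + β)] = (β / (2 * π)) ^ 2 := by
  have hs : 0 < Real.sin β := Real.sin_pos_of_pos_of_lt_pi h0 h1
  have hm : MeasurePreserving (fun p => WithLp.ofLp (toCC p)) :=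
    (WithLp.volume_preserving_ofLp ℂ ℂ).comp toCC.measurePreserving
  have hB : MeasurableSet {q : ℂ × ℂ | ‖q.1‖ ^ 2 + ‖q.2‖ ^ 2 ≤ 1} :=
    measurableSet_le (by fun_prop) measurable_const
  have hn : ∀ p : EuclideanSpace ℝ (Fin 4), ‖p‖ ≤ 1 ↔
      ‖(WithLp.ofLp (toCC p)).1‖ ^ 2 + ‖(WithLp.ofLp (toCC p)).2‖ ^ 2 ≤ 1 := by
    intro p
    rw [← toCC.norm_map p, ← sq_le_one_iff₀ (norm_nonneg _), WithLp.prod_norm_sq_eq_of_L2]
    rfl
  have e1 : bl = (fun p => WithLp.ofLp (toCC p)) ⁻¹' {q : ℂ × ℂ | ‖q.1‖ ^ 2 + ‖q.2‖ ^ 2 ≤ 1} := by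
    ext p
    exact hn p
  have e2 : cn ![ee θ, ee (θ + β), ej φ, ej (φ + β)] = (fun p => WithLp.ofLp (toCC p)) ⁻¹'
      ({q : ℂ × ℂ | ‖q.1‖ ^ 2 + ‖q.2‖ ^ 2 ≤ 1} ∩ Sec θ β ×ˢ Sec φ β) := by
    ext p
    refine and_congr (hn p) ?_
    change _ ↔ (⟨p 0, p 1⟩ : ℂ) ∈ Sec θ β ∧ (⟨p 2, p 3⟩ : ℂ) ∈ Sec φ β
    rw [mem_Sec θ hs, mem_Sec φ hs]
    constructor
    · rintro ⟨t, ht, rfl⟩
      exact ⟨⟨t 0, t 1, ht 0, ht 1, by simp [Fin.sum_univ_four, ee, ej],
        by simp [Fin.sum_univ_four, ee, ej]⟩, ⟨t 2, t 3, ht 2, ht 3,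
        by simp [Fin.sum_univ_four, ee, ej], by simp [Fin.sum_univ_four, ee, ej]⟩⟩
    · rintro ⟨⟨a, b, ha, hb, h2, h3⟩, ⟨c, d, hc, hd, h4, h5⟩⟩
      refine ⟨![a, b, c, d], fun i => by fin_cases i <;> assumption, ?_⟩
      ext i
      fin_cases i <;> simp [Fin.sum_univ_four, ee, ej, h2, h3, h4, h5]
  have e3 : volume (cn ![ee θ, ee (θ + β), ej φ, ej (φ + β)]) =
      ENNReal.ofReal (β / (2 * π)) ^ 2 * volume bl := by
    rw [e1, e2, hm.measure_preimage hB.nullMeasurableSet, hm.measure_preimage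
      (hB.inter ((Sec_meas _ _).prod (Sec_meas _ _))).nullMeasurableSet, prod_sec θ φ h0 h1]
  have hb := bl_pos.ne'
  rw [svol_eq, dt_ee, sign_pos (by positivity), Measure.real, e3, ENNReal.toReal_mul,
    ENNReal.toReal_pow, ENNReal.toReal_ofReal (by positivity), ← Measure.real]
  field_simp
  simp

end Pool.Agent.P.MP_27a476_gt
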