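import Pool.Agent.P.MP_27a476_gt.Defs

set_option autoImplicit false

open Complex Metric Real

namespace Pool.Agent.P.MP_27a476_gt

theorem taylor_bound {A : ℂ → ℂ} (hA : DifferentiableOn ℂ A (ball 0 1)) :
    ∃ p : ℕ → ℂ, p 0 = A 0 ∧ ∀ E : ℕ, ∃ C : ℝ, 0 ≤ C ∧ ∀ r : ℕ, 2 ≤ r →
      ‖A (1 / r) - ∑ e ∈ Finset.range (E + 1), p e / (r : ℂ) ^ e‖ ≤ C * (1 / r) ^ (E + 1) := by
  have h1 : DifferentiableOn ℂ A (closedBall 0 ((3 / 4 : NNReal) : ℝ)) :=
    hA.mono (closedBall_subset_ball (by norm_num))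
  have h2 := h1.hasFPowerSeriesOnBall (by norm_num)
  set P := cauchyPowerSeries A 0 ((3 / 4 : NNReal) : ℝ) with hP
  obtain ⟨a, ha, C, hC, h3⟩ := h2.uniform_geometric_approx' (r' := 5 / 8)
    (by rw [ENNReal.coe_lt_coe]; norm_num)
  refine ⟨fun e => P.coeff e, ?_, fun E => ⟨C * (8 / 5) ^ (E + 1), by positivity, fun r hr => ?_⟩⟩
  · exact h2.coeff_zero 1
  · have hr' : (2:ℝ) ≤ r := by exact_mod_cast hr
    have hn : ‖(1 / r : ℂ)‖ = 1 / r := by simp
    have hy : (1 / r : ℂ) ∈ ball (0:ℂ) ((5 / 8 : NNReal) : ℝ) := by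
      rw [mem_ball_zero_iff, hn]
      push_cast
      rw [div_lt_iff₀ (by linarith)]
      linarith
    have h4 := h3 _ hy (E + 1)
    rw [zero_add, hn] at h4
    have h5 : P.partialSum (E + 1) (1 / r) =
        ∑ e ∈ Finset.range (E + 1), P.coeff e / (r : ℂ) ^ e := by
      rw [FormalMultilinearSeries.partialSum]
      refine Finset.sum_congr rfl fun e _ => ?_
      rw [FormalMultilinearSeries.apply_eq_pow_smul_coeff, smul_eq_mul]
      simp [div_eq_mul_inv, mul_comm]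
    rw [h5] at h4
    refine h4.trans ?_
    rw [mul_assoc, ← mul_pow]
    apply mul_le_mul_of_nonneg_left _ hC.le
    apply pow_le_pow_left₀
    · have := ha.1.le
      positivity
    · push_cast
      have h6 : (0:ℝ) ≤ 1 / r / (5 / 8) := by positivity
      calc a * (1 / r / (5 / 8)) ≤ 1 * (1 / r / (5 / 8)) := by gcongr; exact ha.2.le
        _ = _ := by ring

theorem hasExpansion_of_analytic {m : ℕ} (Z : ℕ → ℂ) (c : Fin (m + 1) → ℝ) (d : Fin (m + 1) → ℚ)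
    (A : Fin (m + 1) → ℂ → ℂ) (hA : ∀ j, DifferentiableOn ℂ (A j) (ball 0 1))
    (J : Fin (m + 1) → ℚ) (v : Fin (m + 1) → ℝ) (hv : ∀ j, 0 < v j)
    (h0 : ∀ j, A j 0 = v j * cexp (2 * π * I * (J j / 8)))
    (hZ : ∀ r : ℕ, 2 ≤ r →
      Z r = ∑ j, (((r : ℝ) ^ (d j : ℝ) : ℝ) : ℂ) * cexp (2 * π * I * (r * c j)) * A j (1 / r)) :
    HasExpansion Z c d := by
  choose p hp0 hp using fun j => taylor_bound (hA j)
  refine ⟨J, v, fun j e => p j e / A j 0, hv, fun E => ?_⟩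
  choose C hC0 hC using fun j => hp j E
  refine ⟨∑ j, C j, fun r hr => ?_⟩
  have hr' : (2:ℝ) ≤ r := by exact_mod_cast hr
  have hr0 : (0:ℝ) < r := by linarith
  rw [hZ r hr, ← Finset.sum_sub_distrib, Finset.sum_mul]
  refine (norm_sum_le _ _).trans (Finset.sum_le_sum fun j _ => ?_)
  have hA0 : A j 0 ≠ 0 := by
    rw [h0]
    exact mul_ne_zero (ofReal_ne_zero.mpr (hv j).ne') (Complex.exp_ne_zero _)
  have e1 : ((v j * (r : ℝ) ^ (d j : ℝ) : ℝ) : ℂ) * cexp (2 * π * I * (r * c j + J j / 8)) *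
      (1 + ∑ e ∈ Finset.Icc 1 E, p j e / A j 0 / (r : ℂ) ^ e) =
      (((r : ℝ) ^ (d j : ℝ) : ℝ) : ℂ) * cexp (2 * π * I * (r * c j)) *
        ∑ e ∈ Finset.range (E + 1), p j e / (r : ℂ) ^ e := by
    have e2 : ∑ e ∈ Finset.range (E + 1), p j e / (r : ℂ) ^ e =
        A j 0 * (1 + ∑ e ∈ Finset.Icc 1 E, p j e / A j 0 / (r : ℂ) ^ e) := by
      rw [Finset.range_eq_Ico, Finset.sum_eq_sum_Ico_succ_bot (by omega), hp0, mul_add,
        Finset.mul_sum]
      congr 1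
      · simp
      · refine Finset.sum_congr (by ext; simp) fun e _ => ?_
        field_simp
    rw [e2, mul_add (2 * π * I), Complex.exp_add]
    generalize (1 + ∑ e ∈ Finset.Icc 1 E, p j e / A j 0 / (r : ℂ) ^ e) = S
    rw [h0]
    push_cast
    ring
  rw [e1, ← mul_sub, norm_mul, norm_mul, norm_real, Real.norm_of_nonneg (by positivity)]
  have e3 : ‖cexp (2 * π * I * (r * c j))‖ = 1 := by
    have : 2 * π * I * (r * c j) = ((2 * π * r * c j : ℝ) : ℂ) * I := by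
      push_cast
      ring
    rw [this, norm_exp_ofReal_mul_I]
  rw [e3, mul_one]
  have e4 : (r:ℝ) ^ (d j : ℝ) * (1 / r) ^ (E + 1) ≤
      (r : ℝ) ^ (((Finset.univ.sup' Finset.univ_nonempty d : ℚ) : ℝ) - E - 1) := by
    have : (1 / (r:ℝ)) ^ (E + 1) = (r:ℝ) ^ (-((E:ℝ) + 1)) := by
      rw [Real.rpow_neg hr0.le, one_div, inv_pow, ← Real.rpow_natCast]
      push_cast
      rfl
    rw [this, ← Real.rpow_add hr0]
    apply Real.rpow_le_rpow_of_exponent_le (by linarith)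
    have : (d j : ℝ) ≤ ((Finset.univ.sup' Finset.univ_nonempty d : ℚ) : ℝ) := by
      exact_mod_cast Finset.le_sup' d (Finset.mem_univ j)
    linarith
  calc (r:ℝ) ^ (d j : ℝ) * ‖A j (1 / r) - ∑ e ∈ Finset.range (E + 1), p j e / (r : ℂ) ^ e‖
      ≤ (r:ℝ) ^ (d j : ℝ) * (C j * (1 / r) ^ (E + 1)) := by
        gcongr
        exact hC j r hr
    _ = C j * ((r:ℝ) ^ (d j : ℝ) * (1 / r) ^ (E + 1)) := by ring
    _ ≤ _ := by
        gcongr
        exact hC0 j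

end Pool.Agent.P.MP_27a476_gt
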