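import Pool.Agent.P.MP_27a476_gt.Defs

set_option autoImplicit false

open MeasureTheory
open scoped Quaternion Real

namespace Pool.Agent.P.MP_27a476_gt

/-- The determinant of four quaternions. -/
noncomputable def dt (x : Fin 4 → ℍ[ℝ]) : ℝ :=
  (Matrix.of fun i => Quaternion.equivTuple ℝ (x i)).det

/-- The cone over four quaternions, cut by the unit ball. -/
def cn (x : Fin 4 → ℍ[ℝ]) : Set (EuclideanSpace ℝ (Fin 4)) :=
  {p | ‖p‖ ≤ 1 ∧ ∃ t : Fin 4 → ℝ, (∀ i, 0 ≤ t i) ∧
      p = Quaternion.linearIsometryEquivTuple (∑ i, t i • x i)}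

/-- The unit ball. -/
def bl : Set (EuclideanSpace ℝ (Fin 4)) := {p | ‖p‖ ≤ 1}

theorem svol_eq (x : Fin 4 → ℍ[ℝ]) :
    svol x = SignType.sign (dt x) * volume.real (cn x) / volume.real bl := rfl

theorem bl_eq : bl = Metric.closedBall 0 1 := by
  ext p
  simp [bl]

theorem bl_ne_top : volume bl ≠ ⊤ := by
  rw [bl_eq]
  exact measure_closedBall_lt_top.ne

theorem bl_pos : 0 < volume.real bl := by
  apply ENNReal.toReal_pos _ bl_ne_top
  rw [bl_eq]
  exact (Metric.measure_closedBall_pos _ _ one_pos).ne'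

theorem dt_ne_iff (x : Fin 4 → ℍ[ℝ]) : dt x ≠ 0 ↔ LinearIndependent ℝ x := by
  rw [dt, ← isUnit_iff_ne_zero, ← Matrix.isUnit_iff_isUnit_det,
    ← Matrix.linearIndependent_rows_iff_isUnit]
  exact LinearMap.linearIndependent_iff
    (QuaternionAlgebra.linearEquivTuple (-1 : ℝ) (0 : ℝ) (-1 : ℝ)).toLinearMap
    (LinearEquiv.ker _) (v := x)

theorem exists_coord {x : Fin 4 → ℍ[ℝ]} (hx : LinearIndependent ℝ x) (q : ℍ[ℝ]) :
    ∃ t : Fin 4 → ℝ, q = ∑ i, t i • x i := by
  have h := hx.span_eq_top_of_card_eq_finrank' (by simp [Quaternion.finrank_eq_four])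
  have h2 : q ∈ Submodule.span ℝ (Set.range x) := by rw [h]; trivial
  obtain ⟨t, ht⟩ := (Submodule.mem_span_range_iff_exists_fun ℝ).mp h2
  exact ⟨t, ht.symm⟩

theorem cn_meas {x : Fin 4 → ℍ[ℝ]} (hx : LinearIndependent ℝ x) : MeasurableSet (cn x) := by
  have h1 : cn x = bl ∩ (fun t : Fin 4 → ℝ =>
      Quaternion.linearIsometryEquivTuple (∑ i, t i • x i)) '' {t | ∀ i, 0 ≤ t i} := by
    ext p
    simp only [cn, bl, Set.mem_ofPred_eq, Set.mem_inter_iff, Set.mem_image, eq_comm (a := p)]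
  rw [h1, bl_eq]
  refine measurableSet_closedBall.inter (MeasurableSet.image_of_continuousOn_injOn ?_ ?_ ?_)
  · have : {t : Fin 4 → ℝ | ∀ i, 0 ≤ t i} = Set.Ici 0 := rfl
    rw [this]
    exact measurableSet_Ici
  · fun_prop
  · intro s _ t _ hst
    have h2 := Quaternion.linearIsometryEquivTuple.injective hst
    funext i
    exact Fintype.linearIndependent_iffₛ.mp hx s t h2 i

theorem cn_sub (x : Fin 4 → ℍ[ℝ]) : cn x ⊆ bl := fun _ h => h.1

theorem vol_cn_map (T : ℍ[ℝ] ≃ₗᵢ[ℝ] ℍ[ℝ]) (x : Fin 4 → ℍ[ℝ]) :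
    volume (cn fun i => T (x i)) = volume (cn x) := by
  set L := Quaternion.linearIsometryEquivTuple with hL
  set S := (L.symm.trans T.symm).trans L with hS
  have h1 : (cn fun i => T (x i)) = S ⁻¹' cn x := by
    ext p
    simp only [cn, Set.mem_ofPred_eq, Set.mem_preimage, LinearIsometryEquiv.norm_map]
    refine and_congr Iff.rfl (exists_congr fun t => and_congr Iff.rfl ?_)
    have : ∑ i, t i • T (x i) = T (∑ i, t i • x i) := by simp
    rw [this, ← hL]
    constructor
    · rintro rfl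
      simp [hS]
    · intro h
      have h2 : T.symm (L.symm p) = ∑ i, t i • x i := L.injective h
      rw [← h2]
      simp
  rw [h1]
  exact MeasurePreserving.measure_preimage_equiv (f := S.toMeasurableEquiv) S.measurePreserving _

theorem dt_mul (u : ℍ[ℝ]) (x : Fin 4 → ℍ[ℝ]) :
    dt (fun i => u * x i) = dt x * (Quaternion.normSq u) ^ 2 := by
  have h1 : (Matrix.of fun i => Quaternion.equivTuple ℝ (u * x i)) =
      (Matrix.of fun i => Quaternion.equivTuple ℝ (x i)) *
        !![u.re, u.imI, u.imJ, u.imK; -u.imI, u.re, u.imK, -u.imJ;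
          -u.imJ, -u.imK, u.re, u.imI; -u.imK, u.imJ, -u.imI, u.re] := by
    ext i j
    fin_cases j <;> simp [Matrix.mul_apply, Fin.sum_univ_four] <;> ring
  rw [dt, h1, Matrix.det_mul, dt, Quaternion.normSq_def']
  congr 1
  simp [Matrix.det_succ_row_zero, Fin.sum_univ_succ, Fin.succAbove]
  ring

theorem normSq_unit (u : unitary ℍ[ℝ]) : Quaternion.normSq (u : ℍ[ℝ]) = 1 := by
  have h := u.2.2
  rw [Quaternion.self_mul_star] at h
  simpa using congrArg QuaternionAlgebra.re h

theorem norm_unit (u : unitary ℍ[ℝ]) : ‖(u : ℍ[ℝ])‖ = 1 := CStarRing.norm_coe_unitary u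

/-- Left multiplication by a unit quaternion. -/
noncomputable def lmul (u : unitary ℍ[ℝ]) : ℍ[ℝ] ≃ₗᵢ[ℝ] ℍ[ℝ] where
  toFun q := u * q
  invFun q := star u * q
  map_add' := mul_add _
  map_smul' c q := mul_smul_comm c _ q
  left_inv q := by simp [← mul_assoc]
  right_inv q := by simp [← mul_assoc]
  norm_map' q := by simp

theorem svol_mul (u : unitary ℍ[ℝ]) (x : Fin 4 → ℍ[ℝ]) :
    svol (fun i => u * x i) = svol x := by
  rw [svol_eq, svol_eq, dt_mul, normSq_unit, Measure.real, Measure.real, Measure.real,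
    ← vol_cn_map (lmul u) x]
  simp only [one_pow, mul_one]
  rfl

theorem indep_mul (u : unitary ℍ[ℝ]) (x : Fin 4 → ℍ[ℝ]) :
    LinearIndependent ℝ (fun i => u * x i) ↔ LinearIndependent ℝ x := by
  rw [← dt_ne_iff, ← dt_ne_iff, dt_mul, normSq_unit]
  simp

theorem cramer_rel (v : Fin 5 → ℍ[ℝ]) :
    ∑ i : Fin 5, ((-1) ^ (i : ℕ) * dt (fun j => v (i.succAbove j))) • v i = 0 := by
  apply Quaternion.linearIsometryEquivTuple.injective
  rw [map_sum, map_zero]
  ext k
  set M : Matrix (Fin 5) (Fin 5) ℝ := Matrix.of fun i =>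
    Fin.cons (Quaternion.equivTuple ℝ (v i) k) (Quaternion.equivTuple ℝ (v i)) with hM
  have h1 : M.det = 0 :=
    Matrix.det_zero_of_column_eq (i := 0) (j := k.succ) (Fin.succ_ne_zero k).symm fun i => by
      simp [hM]
  rw [Matrix.det_succ_column_zero] at h1
  rw [WithLp.ofLp_sum, Finset.sum_apply, PiLp.zero_apply, ← h1]
  refine Finset.sum_congr rfl fun i _ => ?_
  rw [map_smul, PiLp.smul_apply, smul_eq_mul, mul_right_comm]
  rfl

theorem vol_span (s : Finset (EuclideanSpace ℝ (Fin 4))) (hs : s.card ≤ 3) :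
    volume (Submodule.span ℝ (s : Set (EuclideanSpace ℝ (Fin 4))) :
      Set (EuclideanSpace ℝ (Fin 4))) = 0 := by
  apply Measure.addHaar_submodule
  intro h
  have h1 := finrank_span_finset_le_card (R := ℝ) s
  rw [Set.finrank, h] at h1
  simp at h1
  omega

theorem mem_cn_five (v : Fin 5 → ℍ[ℝ]) (l : Fin 5 → ℝ) (hl : ∀ i, l i ≠ 0)
    (hrel : ∑ i, l i • v i = 0)
    (hv : ∀ i : Fin 5, LinearIndependent ℝ fun j => v (i.succAbove j))
    (p : EuclideanSpace ℝ (Fin 4)) :
    ∃ τ : Fin 5 → ℝ, (∀ i : Fin 5, p = Quaternion.linearIsometryEquivTuple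
        (∑ j, (l j * (τ j - τ i)) • v j)) ∧
      ∀ i : Fin 5, (p ∈ cn (fun j => v (i.succAbove j)) ↔
        p ∈ bl ∧ ∀ j, 0 ≤ l j * (τ j - τ i)) := by
  obtain ⟨t, ht⟩ := exists_coord (hv 0) (Quaternion.linearIsometryEquivTuple.symm p)
  set s : Fin 5 → ℝ := Fin.cons 0 t with hs
  have hp : Quaternion.linearIsometryEquivTuple.symm p = ∑ j, s j • v j := by
    rw [ht, Fin.sum_univ_succ (n := 4)]
    simp [hs]
  have h1 : ∀ i : Fin 5, Quaternion.linearIsometryEquivTuple.symm p =
      ∑ j, (l j * (s j / l j - s i / l i)) • v j := by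
    intro i
    have : ∀ j, (l j * (s j / l j - s i / l i)) • v j = s j • v j - (s i / l i) • l j • v j := by
      intro j
      rw [smul_smul, ← sub_smul]
      congr 1
      field_simp [hl j]
    simp only [this]
    rw [Finset.sum_sub_distrib, ← Finset.smul_sum, hrel, hp]
    simp
  have h2 : ∀ i : Fin 5, Quaternion.linearIsometryEquivTuple.symm p =
      ∑ j, (l (i.succAbove j) * (s (i.succAbove j) / l (i.succAbove j) - s i / l i)) •
        v (i.succAbove j) := by
    intro i
    rw [h1 i, Fin.sum_univ_succAbove _ i]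
    simp
  refine ⟨fun j => s j / l j, fun i => ?_, fun i => ⟨?_, ?_⟩⟩
  · rw [← h1 i, LinearIsometryEquiv.apply_symm_apply]
  · rintro ⟨hb, u, hu, hpu⟩
    refine ⟨hb, fun j => ?_⟩
    have h3 : ∑ j, u j • v (i.succAbove j) = Quaternion.linearIsometryEquivTuple.symm p := by
      rw [hpu, LinearIsometryEquiv.symm_apply_apply]
    have h4 := Fintype.linearIndependent_iffₛ.mp (hv i) _ _ (h3.trans (h2 i))
    induction j using Fin.succAboveCases i with
    | x => simp
    | p j =>
      rw [← h4 j]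
      exact hu j
  · rintro ⟨hb, h⟩
    refine ⟨hb, _, fun j => h (i.succAbove j), ?_⟩
    rw [← h2 i, LinearIsometryEquiv.apply_symm_apply]

theorem vol_union (v : Fin 5 → ℍ[ℝ]) (l : Fin 5 → ℝ) (hl : ∀ i, l i ≠ 0)
    (hrel : ∑ i, l i • v i = 0)
    (hv : ∀ i : Fin 5, LinearIndependent ℝ fun j => v (i.succAbove j)) (P : Finset (Fin 5))
    (hP : ∀ i ∈ P, ∀ j ∈ P, 0 < l i * l j) :
    volume.real (⋃ i ∈ P, cn fun j => v (i.succAbove j)) =
      ∑ i ∈ P, volume.real (cn fun j => v (i.succAbove j)) := by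
  refine measureReal_biUnion_finset₀ ?_ (fun i _ => (cn_meas (hv i)).nullMeasurableSet)
    fun i _ => ne_top_of_le_ne_top bl_ne_top (measure_mono (cn_sub _))
  intro i hi k hk hik
  classical
  refine measure_mono_null ?_ (vol_span (((Finset.univ.erase i).erase k).image
    fun j => Quaternion.linearIsometryEquivTuple (v j)) ?_)
  · rintro p ⟨h1, h2⟩
    obtain ⟨τ, hτ, hτ'⟩ := mem_cn_five v l hl hrel hv p
    have h3 := ((hτ' i).mp h1).2 k
    have h4 := ((hτ' k).mp h2).2 i
    have h5 := hP i hi k hk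
    have h6 : τ k = τ i := by
      by_contra h
      have h7 : 0 < (τ k - τ i) ^ 2 := by
        have := sub_ne_zero.mpr h
        positivity
      nlinarith [mul_nonneg h3 h4, mul_pos h5 h7]
    rw [hτ i, map_sum]
    refine Submodule.sum_mem _ fun j _ => ?_
    by_cases hj : j = i ∨ j = k
    · have : τ j - τ i = 0 := by rcases hj with rfl | rfl <;> simp [h6]
      rw [this, mul_zero, zero_smul, map_zero]
      exact Submodule.zero_mem _
    · rw [map_smul]
      refine Submodule.smul_mem _ _ (Submodule.subset_span ?_)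
      push Not at hj
      simp only [Finset.coe_image, Set.mem_image]
      exact ⟨j, by simp [hj.1, hj.2], rfl⟩
  · refine Finset.card_image_le.trans ?_
    rw [Finset.card_erase_of_mem (by simp [Ne.symm hik]), Finset.card_erase_of_mem (by simp)]
    simp

theorem union_pos (v : Fin 5 → ℍ[ℝ]) (l : Fin 5 → ℝ) (hl : ∀ i, l i ≠ 0)
    (hrel : ∑ i, l i • v i = 0)
    (hv : ∀ i : Fin 5, LinearIndependent ℝ fun j => v (i.succAbove j))
    (hP : ∃ i, 0 < l i) (p : EuclideanSpace ℝ (Fin 4)) (hp : p ∈ bl)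
    (h : (∀ i, 0 < l i) ∨ ∃ i, l i < 0 ∧ p ∈ cn fun j => v (i.succAbove j)) :
    ∃ i, 0 < l i ∧ p ∈ cn fun j => v (i.succAbove j) := by
  obtain ⟨τ, -, hτ⟩ := mem_cn_five v l hl hrel hv p
  obtain ⟨i, hi, hmin⟩ := Finset.exists_min_image (Finset.univ.filter fun i => 0 < l i) τ
    (by obtain ⟨i, hi⟩ := hP; exact ⟨i, by simpa using hi⟩)
  simp only [Finset.mem_filter, Finset.mem_univ, true_and] at hi hmin
  refine ⟨i, hi, (hτ i).mpr ⟨hp, fun j => ?_⟩⟩
  rcases (hl j).lt_or_gt with hj | hj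
  · rcases h with h | ⟨k, hk, hpk⟩
    · exact absurd (h j) hj.not_gt
    · have h1 := ((hτ k).mp hpk).2 j
      have h2 := ((hτ k).mp hpk).2 i
      have h3 : τ j - τ k ≤ 0 := by nlinarith
      have h4 : 0 ≤ τ i - τ k := by nlinarith
      nlinarith
  · exact mul_nonneg hj.le (sub_nonneg.mpr (hmin j hj))

theorem svol_cocycle (v : Fin 5 → ℍ[ℝ])
    (hv : ∀ i : Fin 5, LinearIndependent ℝ fun j => v (i.succAbove j)) :
    ∃ n : ℤ, ∑ i : Fin 5, (-1) ^ (i : ℕ) * svol (fun j => v (i.succAbove j)) = n := by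
  set l : Fin 5 → ℝ := fun i => (-1) ^ (i : ℕ) * dt (fun j => v (i.succAbove j)) with hl'
  have hl : ∀ i, l i ≠ 0 := fun i =>
    mul_ne_zero (pow_ne_zero _ (by norm_num)) ((dt_ne_iff _).mpr (hv i))
  have hrel : ∑ i, l i • v i = 0 := cramer_rel v
  have hl2 : ∀ i, (-l) i ≠ 0 := fun i => neg_ne_zero.mpr (hl i)
  have hrel2 : ∑ i, (-l) i • v i = 0 := by simp [hrel]
  set C : Fin 5 → Set (EuclideanSpace ℝ (Fin 4)) := fun i => cn fun j => v (i.succAbove j)
    with hC
  set P := Finset.univ.filter fun i => 0 < l i with hP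
  set N := Finset.univ.filter fun i => ¬ 0 < l i with hN
  have hN' : ∀ i, ¬ 0 < l i ↔ l i < 0 := fun i =>
    ⟨fun h => lt_of_le_of_ne (not_lt.mp h) (hl i), fun h => h.not_gt⟩
  have h1 : ∑ i : Fin 5, (-1) ^ (i : ℕ) * svol (fun j => v (i.succAbove j)) =
      (volume.real (⋃ i ∈ P, C i) - volume.real (⋃ i ∈ N, C i)) / volume.real bl := by
    rw [vol_union v l hl hrel hv P, vol_union v l hl hrel hv N, sub_div, Finset.sum_div,
      Finset.sum_div, sub_eq_add_neg, ← Finset.sum_neg_distrib,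
      ← Finset.sum_filter_add_sum_filter_not Finset.univ fun i => 0 < l i]
    · have h2 : ∀ i : Fin 5, (-1) ^ (i : ℕ) * svol (fun j => v (i.succAbove j)) =
          SignType.sign (l i) * volume.real (C i) / volume.real bl := by
        intro i
        rw [svol_eq, hl']
        simp only [sign_mul, sign_pow, Left.sign_neg, sign_one]
        push_cast
        simp only [hC, SignType.coe_one]
        ring
      congr 1
      · refine Finset.sum_congr rfl fun i hi => ?_
        rw [h2, sign_pos (by simpa [hP] using hi)]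
        simp [hC]
      · refine Finset.sum_congr rfl fun i hi => ?_
        rw [h2, sign_neg ((hN' i).mp (by simpa [hN] using hi))]
        simp [hC, neg_div]
    · intro i hi j hj
      exact mul_pos_of_neg_of_neg ((hN' i).mp (by simpa [hN] using hi))
        ((hN' j).mp (by simpa [hN] using hj))
    · intro i hi j hj
      exact mul_pos (by simpa [hP] using hi) (by simpa [hP] using hj)
  rw [h1]
  have hb := bl_pos.ne'
  have hsub : ∀ Q : Finset (Fin 5), (⋃ i ∈ Q, C i) ⊆ bl :=
    fun Q => Set.iUnion₂_subset fun i _ => cn_sub _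
  by_cases hp : ∃ i, 0 < l i
  · by_cases hn : ∃ i, l i < 0
    · refine ⟨0, ?_⟩
      have : (⋃ i ∈ P, C i) = ⋃ i ∈ N, C i := by
        ext p
        simp only [hP, hN, Set.mem_iUnion, Finset.mem_filter, Finset.mem_univ, true_and, hN',
          exists_prop]
        constructor
        · rintro ⟨i, hi, hpi⟩
          simpa using union_pos v (-l) hl2 hrel2 hv (by simpa using hn) p (cn_sub _ hpi)
            (Or.inr ⟨i, by simpa using hi, hpi⟩)
        · rintro ⟨i, hi, hpi⟩
          exact union_pos v l hl hrel hv hp p (cn_sub _ hpi) (Or.inr ⟨i, hi, hpi⟩)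
      rw [this]
      simp
    · refine ⟨1, ?_⟩
      push Not at hn
      have hpos : ∀ i, 0 < l i := fun i => lt_of_le_of_ne (hn i) (hl i).symm
      have e1 : (⋃ i ∈ P, C i) = bl := by
        refine (hsub P).antisymm fun p hpb => ?_
        obtain ⟨i, hi, hpi⟩ := union_pos v l hl hrel hv hp p hpb (Or.inl hpos)
        exact Set.mem_biUnion (by simpa [hP] using hi) hpi
      have e2 : N = ∅ := by
        ext i
        simp [hN, hpos i]
      rw [e1, e2]
      simp [hb]
  · refine ⟨-1, ?_⟩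
    push Not at hp
    have hneg : ∀ i, l i < 0 := fun i => lt_of_le_of_ne (hp i) (hl i)
    have e1 : (⋃ i ∈ N, C i) = bl := by
      refine (hsub N).antisymm fun p hpb => ?_
      obtain ⟨i, -, hpi⟩ := union_pos v (-l) hl2 hrel2 hv ⟨0, by simpa using hneg 0⟩ p hpb
        (Or.inl fun i => by simpa using hneg i)
      exact Set.mem_biUnion (by simpa [hN] using hp i) hpi
    have e2 : P = ∅ := by
      ext i
      simp [hP, hp i]
    rw [e1, e2]
    simp [hb]

end Pool.Agent.P.MP_27a476_gt
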